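import Pool.Agent.H93.SidC

/-!
The bound for finite Sidon sets.
-/

namespace Pool.Agent.H93.SD

open Finset

/-- final algebra -/
lemma final_alg (K X c : ℝ) (hX : 2 ≤ X) (hc0 : 0 ≤ c) (hc1 : c ≤ 1) (hK : 0 ≤ K)
    (h : K ^ 2 ≤ (1 + K * (c / X ^ 3)) * (X ^ 4 + c * X ^ 3 + 12 * X ^ 2)) :
    K ≤ X ^ 2 + c * X + 20 := by
  have hX0 : 0 < X := by linarith
  have h1 : (1 + K * (c / X ^ 3)) * (X ^ 4 + c * X ^ 3 + 12 * X ^ 2) =
      X ^ 4 + c * X ^ 3 + 12 * X ^ 2 + K * c * (X + c + 12 / X) := by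
    field_simp
  have h2 : 12 / X ≤ 6 := by
    rw [div_le_iff₀ hX0]; linarith
  have h3 : K * c * (X + c + 12 / X) ≤ K * (c * X + 7) := by
    have : c * (X + c + 12 / X) ≤ c * X + 7 := by
      have h4 : c * (c + 12 / X) ≤ 1 * 7 := mul_le_mul hc1 (by linarith) (by positivity) (by norm_num)
      linarith
    calc K * c * (X + c + 12 / X) = K * (c * (X + c + 12 / X)) := by ring
      _ ≤ _ := mul_le_mul_of_nonneg_left this hK
  rw [h1] at h
  have h5 : K ^ 2 ≤ X ^ 4 + c * X ^ 3 + 12 * X ^ 2 + K * (c * X + 7) := by linarith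
  by_contra hcon
  push Not at hcon
  -- complete the square
  have h6 : (K - (c * X + 7) / 2) ^ 2 ≤ X ^ 4 + c * X ^ 3 + 12 * X ^ 2 + (c * X + 7) ^ 2 / 4 := by nlinarith
  have h7 : X ^ 2 + c * X / 2 + 33 / 2 ≤ K - (c * X + 7) / 2 := by linarith
  have h8 : (X ^ 2 + c * X / 2 + 33 / 2) ^ 2 ≤ (K - (c * X + 7) / 2) ^ 2 := by
    refine pow_le_pow_left₀ (by positivity) h7 2
  have h9 : (X ^ 2 + c * X / 2 + 33 / 2) ^ 2 = X ^ 4 + c * X ^ 3 + 33 * X ^ 2 + c ^ 2 * X ^ 2 / 4 + 33 / 2 * (c * X) + (33 / 2) ^ 2 := by ring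
  have h10 : (c * X + 7) ^ 2 / 4 = c ^ 2 * X ^ 2 / 4 + 7 / 2 * (c * X) + 49 / 4 := by ring
  rw [h9] at h8
  rw [h10] at h6
  have h11 : 0 ≤ c * X := by positivity
  nlinarith

/-- the bound -/
theorem sidon_bound (n : ℕ) (A : Finset ℕ) (hA : A ⊆ Finset.Icc 1 n)
    (hS : ∀ a ∈ A, ∀ b ∈ A, ∀ c ∈ A, ∀ d ∈ A, a + b = c + d → (a = c ∧ b = d) ∨ (a = d ∧ b = c)) :
    (A.card : ℝ) ≤ Real.sqrt n + 2 * Real.sqrt 2 / 3 * (n : ℝ) ^ ((1 : ℝ) / 4) + 20 := by
  set c : ℝ := 2 * Real.sqrt 2 / 3 with hc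
  set X : ℝ := (n : ℝ) ^ ((1 : ℝ) / 4) with hXd
  have hX0 : 0 ≤ X := by positivity
  have hX4 : X ^ 4 = n := by
    rw [hXd, ← Real.rpow_natCast, ← Real.rpow_mul (by positivity)]
    norm_num
  have hsq : Real.sqrt n = X ^ 2 := by
    rw [← hX4, show X ^ 4 = (X ^ 2) ^ 2 by ring, Real.sqrt_sq (by positivity)]
  have hs2 : Real.sqrt 2 ^ 2 = 2 := Real.sq_sqrt (by norm_num)
  have hs2p : 0 < Real.sqrt 2 := Real.sqrt_pos.mpr (by norm_num)
  have hs2l : Real.sqrt 2 < 3 / 2 := by nlinarith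
  have hs2l' : Real.sqrt 2 < 1.415 := by nlinarith
  have hs2g : 1 < Real.sqrt 2 := by nlinarith
  have hc0 : 0 ≤ c := by positivity
  have hc1 : c ≤ 1 := by rw [hc]; linarith
  rw [hsq]
  rcases lt_or_ge X 2 with hX | hX
  · have h1 : (n : ℝ) < 16 := by
      rw [← hX4]
      calc X ^ 4 < 2 ^ 4 := pow_lt_pow_left₀ hX hX0 (by norm_num)
        _ = 16 := by norm_num
    have h2 : A.card ≤ n := by
      have := Finset.card_le_card hA
      simpa using this
    have h3 : (A.card : ℝ) ≤ n := by exact_mod_cast h2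
    have : 0 ≤ X ^ 2 + c * X := by positivity
    linarith
  · have hXp : 0 < X := by linarith
    set u : ℕ := ⌈Real.sqrt 2 * X ^ 3⌉₊ with hu
    have hu1 : Real.sqrt 2 * X ^ 3 ≤ u := Nat.le_ceil _
    have hu2 : (u : ℝ) < Real.sqrt 2 * X ^ 3 + 1 := Nat.ceil_lt_add_one (by positivity)
    have hX3 : 8 ≤ X ^ 3 := by
      calc (8 : ℝ) = 2 ^ 3 := by norm_num
        _ ≤ X ^ 3 := pow_le_pow_left₀ (by norm_num) hX 3
    have hup : (0 : ℝ) < u := by nlinarith
    have hupos : 0 < u := by exact_mod_cast hup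
    have hun : (u : ℝ) ≤ n := by
      rw [← hX4]
      nlinarith
    have hun' : u ≤ n := by exact_mod_cast hun
    -- the number of blocks
    obtain ⟨t, ht⟩ : ∃ t, n / u = t + 1 := ⟨n / u - 1, by have := Nat.div_pos hun' hupos; omega⟩
    have ht1 : (t + 1) * u ≤ n := by
      rw [← ht]; exact Nat.div_mul_le_self n u
    have ht2 : n < (t + 2) * u := by
      have := Nat.lt_div_mul_add (a := n) hupos
      rw [ht] at this
      linarith
    have ht2' : (n : ℝ) < (t + 2) * u := by exact_mod_cast ht2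
    have hmain := main_ineq u hupos n t ht1 A (fun a ha => (Finset.mem_Icc.mp (hA ha)).2) hS
    set ε : ℝ := (1 / 2 : ℝ) ^ t with hε
    have hε0 : 0 ≤ ε := by positivity
    have hε1 : ε ≤ 1 := pow_le_one₀ (by norm_num) (by norm_num)
    have hε2 : ε * (t + 1) ≤ 1 := by
      have h1 : (t : ℝ) + 1 ≤ 2 ^ t := by
        have : t + 1 ≤ 2 ^ t := Nat.lt_two_pow_self
        exact_mod_cast this
      rw [hε, one_div, inv_pow, inv_mul_le_iff₀ (by positivity)]
      linarith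
    have hε3 : ε * X ≤ 4 := by
      -- `ε n ≤ 2 u`
      have h1 : ε * n ≤ 2 * u := by
        have h2 : ε * n ≤ ε * ((t + 2) * u) := mul_le_mul_of_nonneg_left ht2'.le hε0
        have h3 : ε * ((t + 2) * u) ≤ 2 * u := by
          have : ε * (t + 2) ≤ 2 := by nlinarith
          nlinarith
        linarith
      rw [← hX4] at h1
      have h2 : (u : ℝ) ≤ 2 * X ^ 3 := by nlinarith
      have h3 : ε * X * X ^ 3 ≤ 4 * X ^ 3 := by nlinarith
      exact le_of_mul_le_mul_right h3 (by positivity)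
    have hm : 2 / 3 * (1 + ε) ^ 2 * ((u : ℝ) - 1) ≤ c * X ^ 3 + 23 / 2 * X ^ 2 := by
      have h1 : (1 + ε) ^ 2 ≤ 1 + 3 * ε := by nlinarith
      have h2 : (u : ℝ) - 1 ≤ Real.sqrt 2 * X ^ 3 := by linarith
      have hu1' : 0 ≤ (u : ℝ) - 1 := by
        have : (1 : ℝ) ≤ u := by exact_mod_cast hupos
        linarith
      calc 2 / 3 * (1 + ε) ^ 2 * ((u : ℝ) - 1) ≤ 2 / 3 * (1 + 3 * ε) * (Real.sqrt 2 * X ^ 3) := by
            refine mul_le_mul (mul_le_mul_of_nonneg_left h1 (by norm_num)) h2 hu1' (by positivity)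
        _ = c * X ^ 3 + 2 * Real.sqrt 2 * (ε * X) * X ^ 2 := by rw [hc]; ring
        _ ≤ c * X ^ 3 + 23 / 2 * X ^ 2 := by
            have : 2 * Real.sqrt 2 * (ε * X) ≤ 23 / 2 := by
              have h3 : 2 * Real.sqrt 2 * (ε * X) ≤ 2 * Real.sqrt 2 * 4 := mul_le_mul_of_nonneg_left hε3 (by positivity)
              linarith
            have hX2 : 0 ≤ X ^ 2 := by positivity
            nlinarith
    have hg : 4 / (3 * (u : ℝ)) ≤ c / X ^ 3 := by
      rw [hc, div_le_div_iff₀ (by positivity) (by positivity)]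
      have : 2 * Real.sqrt 2 / 3 * (3 * (u : ℝ)) = 2 * Real.sqrt 2 * u := by ring
      rw [this]
      have h3 : 2 * Real.sqrt 2 * (Real.sqrt 2 * X ^ 3) ≤ 2 * Real.sqrt 2 * u := mul_le_mul_of_nonneg_left hu1 (by positivity)
      nlinarith
    refine final_alg _ X c hX hc0 hc1 (by positivity) (hmain.trans ?_)
    have hX2 : 4 ≤ X ^ 2 := by nlinarith
    refine mul_le_mul ?_ ?_ ?_ (by positivity)
    · have : (A.card : ℝ) * (4 / (3 * u)) ≤ A.card * (c / X ^ 3) := mul_le_mul_of_nonneg_left hg (by positivity)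
      linarith
    · rw [← hX4]
      linarith
    · have : 0 ≤ 2 / 3 * (1 + ε) ^ 2 * ((u : ℝ) - 1) := by
        have : (1 : ℝ) ≤ u := by exact_mod_cast hupos
        exact mul_nonneg (by positivity) (by linarith)
      positivity

end Pool.Agent.H93.SD
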