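import Pool.Agent.H93.MertensAP2

/-!
Mertens' theorem in arithmetic progressions, part 3: sums of reciprocals of primes (helper file).
-/

namespace Pool.Agent.H93

open Finset Filter Topology ArithmeticFunction

/-- Mertens in arithmetic progressions, `log q / q` over primes. -/
theorem exists_mertens_primes : ∃ C : ℝ, 0 < C ∧ ∀ (N : ℕ) [NeZero N] (a : ZMod N) (_ : IsUnit a)
    (M : ℕ) (_ : 1 ≤ M),
    |∑ n ∈ (Ioc 0 M).filter (fun n : ℕ => n.Prime ∧ (n : ZMod N) = a), Real.log n / n -
      Real.log M / N.totient| ≤ C * (N : ℝ) ^ 5 := by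
  obtain ⟨C, hC, h⟩ := exists_mertens_AP
  have hs := vonMangoldt.summable_residueClass_non_primes_div (q := 1) (0 : ZMod 1)
  set T := ∑' n : ℕ, (if n.Prime then 0 else vonMangoldt.residueClass (0 : ZMod 1) n) / (n : ℝ) with hT
  have hnn : ∀ n : ℕ, 0 ≤ (if n.Prime then 0 else vonMangoldt.residueClass (0 : ZMod 1) n) / (n : ℝ) := by
    intro n
    split_ifs
    · simp
    · exact div_nonneg (vonMangoldt.residueClass_nonneg _ _) (Nat.cast_nonneg _)
  have hT0 : 0 ≤ T := tsum_nonneg hnn
  refine ⟨C + T, by positivity, fun N _ a ha M hM => ?_⟩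
  have hN : 0 < N := Nat.pos_of_ne_zero (NeZero.ne N)
  have hNr : (1 : ℝ) ≤ N := by exact_mod_cast hN
  have h1 := h N a ha M hM
  have h2 : ∑ n ∈ (Ioc 0 M).filter (fun n : ℕ => (n : ZMod N) = a), Λ n / (n : ℝ) =
      ∑ n ∈ (Ioc 0 M).filter (fun n : ℕ => n.Prime ∧ (n : ZMod N) = a), Real.log n / n +
      ∑ n ∈ (Ioc 0 M).filter (fun n : ℕ => ¬ n.Prime ∧ (n : ZMod N) = a), Λ n / (n : ℝ) := by
    simp_rw [Finset.sum_filter]
    rw [← Finset.sum_add_distrib]
    refine Finset.sum_congr rfl fun n _ => ?_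
    by_cases hn : (n : ZMod N) = a
    · by_cases hp : n.Prime
      · simp [hn, hp, vonMangoldt_apply_prime hp]
      · simp [hn, hp]
    · simp [hn]
  have h3 : ∑ n ∈ (Ioc 0 M).filter (fun n : ℕ => ¬ n.Prime ∧ (n : ZMod N) = a), Λ n / (n : ℝ) ≤ T := by
    calc _ ≤ ∑ n ∈ Ioc 0 M, (if n.Prime then 0 else vonMangoldt.residueClass (0 : ZMod 1) n) / (n : ℝ) := by
          rw [Finset.sum_filter]
          refine Finset.sum_le_sum fun n _ => ?_
          have e : vonMangoldt.residueClass (0 : ZMod 1) n = Λ n := by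
            unfold vonMangoldt.residueClass
            rw [Set.indicator_of_mem]
            exact Subsingleton.elim _ _
          rw [e]
          by_cases hp : n.Prime
          · simp [hp]
          · by_cases hn : (n : ZMod N) = a
            · simp [hn, hp]
            · simp only [hp, hn, and_false, if_false, not_false_eq_true]
              exact div_nonneg vonMangoldt_nonneg (Nat.cast_nonneg _)
      _ ≤ T := hs.sum_le_tsum _ fun n _ => hnn n
  have h4 : 0 ≤ ∑ n ∈ (Ioc 0 M).filter (fun n : ℕ => ¬ n.Prime ∧ (n : ZMod N) = a), Λ n / (n : ℝ) :=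
    Finset.sum_nonneg fun n _ => div_nonneg vonMangoldt_nonneg (Nat.cast_nonneg _)
  have h5 : T ≤ T * (N : ℝ) ^ 5 := le_mul_of_one_le_right hT0 (one_le_pow₀ hNr)
  rw [h2] at h1
  rw [abs_le] at h1 ⊢
  constructor <;> nlinarith

/-- comparison of `∑ (log n - log (n-1))/log n` and `log log`. -/
lemma loglog_compare (m M : ℕ) (hm : 3 ≤ m) (hmM : m ≤ M) :
    |∑ n ∈ Ico (m + 1) (M + 1), (Real.log n)⁻¹ * (Real.log n - Real.log ((n : ℝ) - 1)) -
      (Real.log (Real.log M) - Real.log (Real.log m))| ≤ 1 / ((m : ℝ) - 1) - 1 / ((M : ℝ) - 1) := by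
  induction M, hmM using Nat.le_induction with
  | base => simp
  | succ M hM ih =>
    rw [Finset.sum_Ico_succ_top (by omega)]
    set n := M + 1 with hn
    have hn3 : (3 : ℝ) ≤ M := by exact_mod_cast (by omega : 3 ≤ M)
    have hnc : (n : ℝ) = M + 1 := by push_cast [hn]; ring
    have hn1 : (n : ℝ) - 1 = M := by rw [hnc]; ring
    rw [hn1]
    set u := Real.log M with hu
    set v := Real.log n with hv
    have hu1 : 1 < u := by
      rw [hu, Real.lt_log_iff_exp_lt (by linarith)]
      have := Real.exp_one_lt_d9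
      linarith
    have huv : u < v := Real.log_lt_log (by linarith) (by rw [hnc]; linarith)
    have hvu : v - u ≤ 1 / M := by
      rw [hv, hu, ← Real.log_div (by rw [hnc]; positivity) (by linarith)]
      have e : (n : ℝ) / M = 1 + 1 / M := by rw [hnc]; field_simp
      rw [e]
      have := Real.log_le_sub_one_of_pos (show 0 < 1 + 1 / (M : ℝ) by positivity)
      linarith
    have elog : Real.log (v / u) = Real.log v - Real.log u :=
      Real.log_div (by linarith) (by linarith)
    have e1 : Real.log v - Real.log u ≤ (v - u) / u := by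
      rw [← elog]
      have := Real.log_le_sub_one_of_pos (show 0 < v / u by apply div_pos <;> linarith)
      have e : v / u - 1 = (v - u) / u := by field_simp
      linarith
    have e2 : (v - u) / v ≤ Real.log v - Real.log u := by
      rw [← elog]
      have := Real.one_sub_inv_le_log_of_pos (show 0 < v / u by apply div_pos <;> linarith)
      have e : 1 - (v / u)⁻¹ = (v - u) / v := by
        rw [inv_div, sub_div, div_self (by linarith : v ≠ 0)]
      linarith
    have e3 : v⁻¹ * (v - u) = (v - u) / v := by rw [mul_comm, div_eq_mul_inv]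
    have e4 : (v - u) / u - (v - u) / v ≤ 1 / ((M : ℝ) - 1) - 1 / M := by
      have k1 : (v - u) / u - (v - u) / v = (v - u) ^ 2 / (u * v) := by
        have hu0 : u ≠ 0 := by linarith
        have hv0 : v ≠ 0 := by linarith
        field_simp
      have k2 : 1 / ((M : ℝ) - 1) - 1 / M = 1 / (((M : ℝ) - 1) * M) := by
        have : (M : ℝ) - 1 ≠ 0 := by linarith
        have : (M : ℝ) ≠ 0 := by linarith
        field_simp
        ring
      rw [k1, k2]
      calc (v - u) ^ 2 / (u * v) ≤ (v - u) ^ 2 / 1 := by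
            apply div_le_div_of_nonneg_left (by positivity) (by norm_num)
            nlinarith
        _ ≤ (1 / (M : ℝ)) ^ 2 / 1 := by
            gcongr
        _ = 1 / ((M : ℝ) * M) := by field_simp
        _ ≤ 1 / (((M : ℝ) - 1) * M) := by
            apply one_div_le_one_div_of_le
            · nlinarith
            · nlinarith
    rw [e3]
    rw [abs_le] at ih ⊢
    constructor <;> linarith

theorem exists_mertens_recip : ∃ C : ℝ, 0 < C ∧ ∀ (N : ℕ) [NeZero N] (a : ZMod N) (_ : IsUnit a)
    (m M : ℕ) (_ : 3 ≤ m) (_ : m ≤ M),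
    |∑ n ∈ (Ioc m M).filter (fun n : ℕ => n.Prime ∧ (n : ZMod N) = a), (1 : ℝ) / n -
      (Real.log (Real.log M) - Real.log (Real.log m)) / N.totient| ≤
      C * (N : ℝ) ^ 5 / Real.log m := by
  obtain ⟨C, hC, h⟩ := exists_mertens_primes
  refine ⟨2 * C + 2, by positivity, fun N _ a ha m M hm hmM => ?_⟩
  have hN : 0 < N := Nat.pos_of_ne_zero (NeZero.ne N)
  have hNr : (1 : ℝ) ≤ N := by exact_mod_cast hN
  have hφ : 0 < N.totient := Nat.totient_pos.mpr hN
  have hφr : (1 : ℝ) ≤ N.totient := by exact_mod_cast hφ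
  have hmr : (3 : ℝ) ≤ m := by exact_mod_cast hm
  have hlogm : 1 < Real.log m := by
    rw [Real.lt_log_iff_exp_lt (by linarith)]
    have := Real.exp_one_lt_d9
    linarith
  set κ : ℝ := 1 / N.totient with hκ
  have hκ0 : 0 < κ := by positivity
  have hκ1 : κ ≤ 1 := by rw [hκ, div_le_one (by linarith)]; exact hφr
  set c : ℕ → ℝ := fun n => if n.Prime ∧ (n : ZMod N) = a then Real.log n / n else 0 with hc
  set b : ℕ → ℝ := fun n => κ * (Real.log n - Real.log ((n : ℝ) - 1)) with hb
  have hbsum : ∀ K : ℕ, ∑ n ∈ range (K + 1), b n = κ * Real.log K := by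
    intro K
    induction K with
    | zero => simp [hb]
    | succ K ih =>
      rw [Finset.sum_range_succ, ih]
      simp only [hb]
      push_cast
      rw [add_sub_cancel_right]
      ring
  have hcsum : ∀ K : ℕ, ∑ n ∈ range (K + 1), c n =
      ∑ n ∈ (Ioc 0 K).filter (fun n : ℕ => n.Prime ∧ (n : ZMod N) = a), Real.log n / n := by
    intro K
    rw [Finset.sum_filter, Finset.range_eq_Ico, Finset.sum_eq_sum_Ico_succ_bot (by omega)]
    have e : Ioc 0 K = Ico (0 + 1) (K + 1) := by ext; simp; omega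
    rw [e]
    simp [hc, Nat.not_prime_zero]
  have hbd : ∀ k : ℕ, ‖∑ n ∈ range k, ((c n - b n : ℝ) : ℂ)‖ ≤ C * (N : ℝ) ^ 5 := by
    intro k
    rw [← Complex.ofReal_sum, Complex.norm_real, Real.norm_eq_abs, Finset.sum_sub_distrib]
    rcases Nat.eq_zero_or_pos k with rfl | hk
    · simp; positivity
    · obtain ⟨K, rfl⟩ : ∃ K, k = K + 1 := ⟨k - 1, by omega⟩
      rw [hbsum, hcsum]
      rcases Nat.eq_zero_or_pos K with rfl | hK
      · simp
        positivity
      · have := h N a ha K hK
        have e : κ * Real.log K = Real.log K / N.totient := by rw [hκ]; ring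
        rw [e]
        exact this
  have h1 := abel_bound_anti (fun n => (Real.log n)⁻¹) (fun n => ((c n - b n : ℝ) : ℂ)) _ hbd
    (m + 1) (M + 1) (fun n hn => by
      have := Real.log_natCast_nonneg n
      positivity) (fun n hn => by
      have h2 : (1 : ℝ) < n := by exact_mod_cast (by omega : 1 < n)
      have h3 : 0 < Real.log n := Real.log_pos h2
      apply inv_anti₀ h3
      apply Real.log_le_log (by linarith)
      push_cast; linarith)
  have h2 : ‖∑ n ∈ Ico (m + 1) (M + 1), (((Real.log n)⁻¹ : ℝ) : ℂ) * ((c n - b n : ℝ) : ℂ)‖ =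
      |∑ n ∈ Ico (m + 1) (M + 1), (Real.log n)⁻¹ * (c n - b n)| := by
    rw [← Real.norm_eq_abs, ← Complex.norm_real]
    push_cast
    rfl
  rw [h2] at h1
  have h3 : ∑ n ∈ Ico (m + 1) (M + 1), (Real.log n)⁻¹ * (c n - b n) =
      ∑ n ∈ (Ioc m M).filter (fun n : ℕ => n.Prime ∧ (n : ZMod N) = a), (1 : ℝ) / n -
      κ * ∑ n ∈ Ico (m + 1) (M + 1), (Real.log n)⁻¹ * (Real.log n - Real.log ((n : ℝ) - 1)) := by
    have e : Ioc m M = Ico (m + 1) (M + 1) := by
      ext x
      rw [Finset.mem_Ioc, Finset.mem_Ico]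
      omega
    rw [Finset.sum_filter, e, Finset.mul_sum, ← Finset.sum_sub_distrib]
    refine Finset.sum_congr rfl fun n hn => ?_
    rw [Finset.mem_Ico] at hn
    have h4 : (1 : ℝ) < n := by exact_mod_cast (by omega : 1 < n)
    have h5 : 0 < Real.log n := Real.log_pos h4
    have h6 : (Real.log n)⁻¹ * c n = if n.Prime ∧ (n : ZMod N) = a then (1 : ℝ) / n else 0 := by
      simp only [hc]
      split_ifs
      · field_simp
      · simp
    rw [← h6]
    simp only [hb]
    ring
  rw [h3] at h1
  have h4 := loglog_compare m M hm hmM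
  set S := ∑ n ∈ Ico (m + 1) (M + 1), (Real.log n)⁻¹ * (Real.log n - Real.log ((n : ℝ) - 1)) with hS
  set P := ∑ n ∈ (Ioc m M).filter (fun n : ℕ => n.Prime ∧ (n : ZMod N) = a), (1 : ℝ) / n with hP
  have h5 : |κ * S - κ * (Real.log (Real.log M) - Real.log (Real.log m))| ≤ 2 / Real.log m := by
    rw [← mul_sub, abs_mul, abs_of_pos hκ0]
    have h6 : 1 / ((m : ℝ) - 1) - 1 / ((M : ℝ) - 1) ≤ 2 / m := by
      have hMr : (m : ℝ) ≤ M := by exact_mod_cast hmM
      have h7 : 0 ≤ 1 / ((M : ℝ) - 1) := by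
        apply div_nonneg zero_le_one; linarith
      have h8 : 1 / ((m : ℝ) - 1) ≤ 2 / m := by
        rw [div_le_div_iff₀ (by linarith) (by linarith)]; linarith
      linarith
    have h9 : (2 : ℝ) / m ≤ 2 / Real.log m := by
      apply div_le_div_of_nonneg_left (by norm_num) (by linarith)
      exact Real.log_le_self (by linarith)
    calc κ * |S - (Real.log (Real.log M) - Real.log (Real.log m))| ≤ 1 * (2 / Real.log m) := by
          apply mul_le_mul hκ1 _ (abs_nonneg _) zero_le_one
          linarith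
      _ = _ := one_mul _
  have h6 : 2 * (C * (N : ℝ) ^ 5) * (Real.log ((m + 1 : ℕ) : ℝ))⁻¹ ≤ 2 * C * (N : ℝ) ^ 5 / Real.log m := by
    rw [div_eq_mul_inv, ← mul_assoc]
    apply mul_le_mul_of_nonneg_left _ (by positivity)
    apply inv_anti₀ (by linarith)
    apply Real.log_le_log (by linarith)
    push_cast; linarith
  have h7 : (2 : ℝ) / Real.log m ≤ 2 * (N : ℝ) ^ 5 / Real.log m := by
    apply div_le_div_of_nonneg_right _ (by linarith)
    have := one_le_pow₀ hNr (n := 5)
    linarith
  have h8 : (2 * C + 2) * (N : ℝ) ^ 5 / Real.log m = 2 * C * (N : ℝ) ^ 5 / Real.log m +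
      2 * (N : ℝ) ^ 5 / Real.log m := by ring
  have h9 : (Real.log (Real.log M) - Real.log (Real.log m)) / N.totient =
      κ * (Real.log (Real.log M) - Real.log (Real.log m)) := by rw [hκ]; ring
  rw [h8, h9]
  have h10 := abs_add_le (P - κ * S) (κ * S - κ * (Real.log (Real.log M) - Real.log (Real.log m)))
  have h11 : P - κ * S + (κ * S - κ * (Real.log (Real.log M) - Real.log (Real.log m))) =
      P - κ * (Real.log (Real.log M) - Real.log (Real.log m)) := by ring
  rw [h11] at h10
  linarith

end Pool.Agent.H93
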