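import Mathlib

/-!
Closed forms in one real variable, and the candidate for the density of non-arithmetic integers.
-/

namespace Pool.Agent.H93

open Filter

/-- The functions of a real variable `x` given by a finite expression in `x` and real constants
with `+`, `-`, `*`, `/`, `exp`, `log`, real powers `f ^ r`, and powers `f ^ g` with `f` positive for
all large `x`. -/
inductive ClosedForm : (ℝ → ℝ) → Prop
  | var : ClosedForm (fun x => x)
  | const (c : ℝ) : ClosedForm (fun _ => c)
  | add {f g : ℝ → ℝ} : ClosedForm f → ClosedForm g → ClosedForm (fun x => f x + g x)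
  | sub {f g : ℝ → ℝ} : ClosedForm f → ClosedForm g → ClosedForm (fun x => f x - g x)
  | mul {f g : ℝ → ℝ} : ClosedForm f → ClosedForm g → ClosedForm (fun x => f x * g x)
  | div {f g : ℝ → ℝ} : ClosedForm f → ClosedForm g → ClosedForm (fun x => f x / g x)
  | exp {f : ℝ → ℝ} : ClosedForm f → ClosedForm (fun x => Real.exp (f x))
  | log {f : ℝ → ℝ} : ClosedForm f → ClosedForm (fun x => Real.log (f x))
  | pow {f : ℝ → ℝ} (r : ℝ) : ClosedForm f → ClosedForm (fun x => f x ^ r)
  | rpow {f g : ℝ → ℝ} : ClosedForm f → ClosedForm g → (∀ᶠ x in atTop, 0 < f x) →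
      ClosedForm (fun x => f x ^ g x)

/-- The function `√π (log 2)^(-3/4) (log log x)^(1/4) (log log log x)⁻¹ exp (-2 √(log 2 · log log x))`. -/
noncomputable def g0 (x : ℝ) : ℝ :=
  √Real.pi * Real.log 2 ^ (-(3 / 4) : ℝ) * Real.log (Real.log x) ^ (1 / 4 : ℝ) /
    Real.log (Real.log (Real.log x)) * Real.exp (-2 * √(Real.log 2 * Real.log (Real.log x)))

end Pool.Agent.H93
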