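import Pool.Agent.H93.Hardy
import Pool.Agent.H93.Defs

/-!
Hardy fields and closed forms: extension by exponentials and logarithms (helper file).
-/

namespace Pool.Agent.H93

open Finset Filter Topology

/-- the ring of polynomials in `y` with coefficients in `K` -/
noncomputable def Radj (K : Subring (ℝ → ℝ)) (y : ℝ → ℝ) : Subring (ℝ → ℝ) :=
  (Polynomial.eval₂RingHom K.subtype y).range

lemma Radj_le (K : Subring (ℝ → ℝ)) (y : ℝ → ℝ) : K ≤ Radj K y := by
  intro f hf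
  refine ⟨Polynomial.C ⟨f, hf⟩, ?_⟩
  simp

lemma mem_Radj_self (K : Subring (ℝ → ℝ)) (y : ℝ → ℝ) : y ∈ Radj K y := by
  refine ⟨Polynomial.X, ?_⟩
  simp

lemma Radj_sum (K : Subring (ℝ → ℝ)) (y f : ℝ → ℝ) (hf : f ∈ Radj K y) :
    ∃ (n : ℕ) (a : ℕ → ℝ → ℝ), (∀ i, a i ∈ K) ∧ f = fun x => ∑ i ∈ range n, a i x * y x ^ i := by
  obtain ⟨P, rfl⟩ := hf
  refine ⟨P.natDegree + 1, fun i => (P.coeff i : ℝ → ℝ), fun i => (P.coeff i).2, ?_⟩
  rw [Polynomial.coe_eval₂RingHom, Polynomial.eval₂_eq_sum_range]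
  ext x
  simp [Finset.sum_apply]

lemma Radj_der {K : Subring (ℝ → ℝ)} (hK : HardyField K) (y y' : ℝ → ℝ) (hy' : y' ∈ Radj K y)
    (hy : ∀ᶠ x in atTop, HasDerivAt y (y' x) x) (f : ℝ → ℝ) (hf : f ∈ Radj K y) :
    ∃ f' ∈ Radj K y, ∀ᶠ x in atTop, HasDerivAt f (f' x) x := by
  obtain ⟨n, a, ha, rfl⟩ := Radj_sum K y f hf
  choose b hb hbd using fun i => hK.der _ (ha i)
  refine ⟨fun x => ∑ i ∈ range n, (b i x * y x ^ i + a i x * ((i : ℝ) * y x ^ (i - 1) * y' x)), ?_, ?_⟩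
  · have h1 : (fun x => ∑ i ∈ range n, (b i x * y x ^ i + a i x * ((i : ℝ) * y x ^ (i - 1) * y' x))) =
        ∑ i ∈ range n, (b i * y ^ i + a i * ((fun _ => (i : ℝ)) * y ^ (i - 1) * y')) := by
      ext x
      simp [Finset.sum_apply]
    rw [h1]
    apply Subring.sum_mem
    intro i _
    have hyR := mem_Radj_self K y
    apply Subring.add_mem
    · exact Subring.mul_mem _ (Radj_le K y (hb i)) (Subring.pow_mem _ hyR i)
    · apply Subring.mul_mem _ (Radj_le K y (ha i))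
      apply Subring.mul_mem _ _ hy'
      exact Subring.mul_mem _ (Radj_le K y (hK.const _)) (Subring.pow_mem _ hyR _)
  · have hall : ∀ᶠ x in atTop, ∀ i ∈ range n, HasDerivAt (a i) (b i x) x := by
      rw [Filter.eventually_all_finset]
      intro i _
      exact hbd i
    filter_upwards [hall, hy] with x hx hyx
    apply HasDerivAt.fun_sum
    intro i hi
    exact (hx i hi).mul (hyx.pow i)

/-- the field of fractions -/
def FracRing (R : Subring (ℝ → ℝ)) (hs : ∀ f ∈ R, Sgn f) : Subring (ℝ → ℝ) where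
  carrier := {f | ∃ p ∈ R, ∃ q ∈ R, f =ᶠ[atTop] fun x => p x / q x}
  mul_mem' := by
    rintro f g ⟨p, hp, q, hq, h⟩ ⟨p', hp', q', hq', h'⟩
    refine ⟨p * p', R.mul_mem hp hp', q * q', R.mul_mem hq hq', ?_⟩
    filter_upwards [h, h'] with x h1 h2
    simp only [Pi.mul_apply, h1, h2]
    rw [div_mul_div_comm]
  one_mem' := ⟨1, R.one_mem, 1, R.one_mem, Eventually.of_forall fun x => by simp⟩
  add_mem' := by
    rintro f g ⟨p, hp, q, hq, h⟩ ⟨p', hp', q', hq', h'⟩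
    have key : ∀ q ∈ R, (∀ᶠ x in atTop, q x = 0) ∨ (∀ᶠ x in atTop, q x ≠ 0) := by
      intro q hq
      rcases hs q hq with h | h | h
      · right; filter_upwards [h] with x hx; exact hx.ne'
      · right; filter_upwards [h] with x hx; exact hx.ne
      · left; exact h
    rcases key q hq with h1 | h1
    · refine ⟨p', hp', q', hq', ?_⟩
      filter_upwards [h, h', h1] with x e1 e2 e3
      simp [e1, e2, e3]
    · rcases key q' hq' with h2 | h2
      · refine ⟨p, hp, q, hq, ?_⟩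
        filter_upwards [h, h', h2] with x e1 e2 e3
        simp [e1, e2, e3]
      · refine ⟨p * q' + q * p', R.add_mem (R.mul_mem hp hq') (R.mul_mem hq hp'), q * q', R.mul_mem hq hq', ?_⟩
        filter_upwards [h, h', h1, h2] with x e1 e2 e3 e4
        simp only [Pi.add_apply, Pi.mul_apply, e1, e2]
        rw [div_add_div _ _ e3 e4]
  zero_mem' := ⟨0, R.zero_mem, 1, R.one_mem, Eventually.of_forall fun x => by simp⟩
  neg_mem' := by
    rintro f ⟨p, hp, q, hq, h⟩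
    refine ⟨-p, R.neg_mem hp, q, hq, ?_⟩
    filter_upwards [h] with x h1
    simp only [Pi.neg_apply, h1]
    rw [neg_div]

lemma le_FracRing (R : Subring (ℝ → ℝ)) (hs : ∀ f ∈ R, Sgn f) : R ≤ FracRing R hs := by
  intro f hf
  exact ⟨f, hf, 1, R.one_mem, Eventually.of_forall fun x => by simp⟩

lemma hasDerivAt_congr_atTop {f g : ℝ → ℝ} {f' : ℝ → ℝ} (h : f =ᶠ[atTop] g)
    (hf : ∀ᶠ x in atTop, HasDerivAt g (f' x) x) : ∀ᶠ x in atTop, HasDerivAt f (f' x) x := by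
  obtain ⟨a, ha⟩ := eventually_atTop.mp h
  filter_upwards [hf, eventually_gt_atTop a] with x hx hxa
  refine hx.congr_of_eventuallyEq ?_
  filter_upwards [lt_mem_nhds hxa] with z hz
  exact ha z hz.le

lemma FracRing_hardy (R : Subring (ℝ → ℝ)) (hs : ∀ f ∈ R, Sgn f)
    (hd : ∀ f ∈ R, ∃ f' ∈ R, ∀ᶠ x in atTop, HasDerivAt f (f' x) x)
    (hc : ∀ c : ℝ, (fun _ => c) ∈ R) : HardyField (FracRing R hs) where
  const := fun c => le_FracRing R hs (hc c)
  congr := by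
    rintro f g ⟨p, hp, q, hq, h⟩ hfg
    exact ⟨p, hp, q, hq, hfg.symm.trans h⟩
  inv := by
    rintro f ⟨p, hp, q, hq, h⟩
    refine ⟨q, hq, p, hp, ?_⟩
    filter_upwards [h] with x h1
    simp only [Pi.inv_apply, h1]
    rw [inv_div]
  sgn := by
    rintro f ⟨p, hp, q, hq, h⟩
    refine ((hs p hp).mul (hs q hq).inv).congr ?_
    filter_upwards [h] with x h1
    rw [h1]
    simp [div_eq_mul_inv]
  der := by
    rintro f ⟨p, hp, q, hq, h⟩
    obtain ⟨p', hp', hpd⟩ := hd p hp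
    obtain ⟨q', hq', hqd⟩ := hd q hq
    by_cases h0 : ∀ᶠ x in atTop, q x = 0
    · refine ⟨0, (FracRing R hs).zero_mem, ?_⟩
      apply hasDerivAt_congr_atTop (g := fun _ => (0 : ℝ))
      · filter_upwards [h, h0] with x h1 h2
        simp [h1, h2]
      · exact Eventually.of_forall fun x => hasDerivAt_const x 0
    · have hne : ∀ᶠ x in atTop, q x ≠ 0 := by
        rcases hs q hq with h | h | h
        · filter_upwards [h] with x hx; exact hx.ne'
        · filter_upwards [h] with x hx; exact hx.ne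
        · exact absurd h h0
      refine ⟨fun x => (p' x * q x - p x * q' x) / (q x) ^ 2, ?_, ?_⟩
      · refine ⟨p' * q - p * q', R.sub_mem (R.mul_mem hp' hq) (R.mul_mem hp hq'), q ^ 2, R.pow_mem hq 2, ?_⟩
        exact Eventually.of_forall fun x => by simp
      · apply hasDerivAt_congr_atTop h
        filter_upwards [hpd, hqd, hne] with x h1 h2 h3
        exact h1.div h2 h3

/-- extension of a Hardy field -/
theorem extend_exp {K : Subring (ℝ → ℝ)} (hK : HardyField K) (y α : ℝ → ℝ) (hα : α ∈ K)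
    (hy : ∀ᶠ x in atTop, HasDerivAt y (α x * y x) x) (hy0 : ∀ᶠ x in atTop, 0 < y x) :
    ∃ K' : Subring (ℝ → ℝ), K ≤ K' ∧ HardyField K' ∧ y ∈ K' := by
  have hs : ∀ f ∈ Radj K y, Sgn f := by
    intro f hf
    obtain ⟨n, a, ha, rfl⟩ := Radj_sum K y f hf
    exact sgn_exp_case hK y α hα hy hy0 n a ha
  refine ⟨FracRing (Radj K y) hs, (Radj_le K y).trans (le_FracRing _ hs), ?_, le_FracRing _ hs (mem_Radj_self K y)⟩
  apply FracRing_hardy
  · intro f hf
    exact Radj_der hK y (α * y) (Subring.mul_mem _ (Radj_le K y hα) (mem_Radj_self K y)) hy f hf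
  · intro c
    exact Radj_le K y (hK.const c)

theorem extend_log {K : Subring (ℝ → ℝ)} (hK : HardyField K) (y α : ℝ → ℝ) (hα : α ∈ K)
    (hy : ∀ᶠ x in atTop, HasDerivAt y (α x) x) :
    ∃ K' : Subring (ℝ → ℝ), K ≤ K' ∧ HardyField K' ∧ y ∈ K' := by
  have hs : ∀ f ∈ Radj K y, Sgn f := by
    intro f hf
    obtain ⟨n, a, ha, rfl⟩ := Radj_sum K y f hf
    exact sgn_log_case hK y α hα hy n a ha
  refine ⟨FracRing (Radj K y) hs, (Radj_le K y).trans (le_FracRing _ hs), ?_, le_FracRing _ hs (mem_Radj_self K y)⟩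
  apply FracRing_hardy
  · intro f hf
    exact Radj_der hK y α (Radj_le K y hα) hy f hf
  · intro c
    exact Radj_le K y (hK.const c)

/-- the constants -/
def constRing : Subring (ℝ → ℝ) where
  carrier := {f | ∃ c : ℝ, f =ᶠ[atTop] fun _ => c}
  mul_mem' := by
    rintro f g ⟨c, h⟩ ⟨d, h'⟩
    exact ⟨c * d, h.mul h'⟩
  one_mem' := ⟨1, Eventually.of_forall fun x => rfl⟩
  add_mem' := by
    rintro f g ⟨c, h⟩ ⟨d, h'⟩
    exact ⟨c + d, h.add h'⟩
  zero_mem' := ⟨0, Eventually.of_forall fun x => rfl⟩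
  neg_mem' := by
    rintro f ⟨c, h⟩
    exact ⟨-c, h.neg⟩

lemma constRing_hardy : HardyField constRing where
  const := fun c => ⟨c, Eventually.of_forall fun x => rfl⟩
  congr := by
    rintro f g ⟨c, h⟩ h'
    exact ⟨c, h'.symm.trans h⟩
  inv := by
    rintro f ⟨c, h⟩
    exact ⟨c⁻¹, h.inv⟩
  sgn := by
    rintro f ⟨c, h⟩
    rcases lt_trichotomy 0 c with hc | hc | hc
    · left; filter_upwards [h] with x hx; rwa [hx]
    · right; right; filter_upwards [h] with x hx; rw [hx, hc]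
    · right; left; filter_upwards [h] with x hx; rwa [hx]
  der := by
    rintro f ⟨c, h⟩
    refine ⟨0, constRing.zero_mem, ?_⟩
    apply hasDerivAt_congr_atTop h
    exact Eventually.of_forall fun x => hasDerivAt_const x c

/-- exponentials of elements -/
lemma HardyField.exp {K : Subring (ℝ → ℝ)} (hK : HardyField K) {f : ℝ → ℝ} (hf : f ∈ K) :
    ∃ K' : Subring (ℝ → ℝ), K ≤ K' ∧ HardyField K' ∧ (fun x => Real.exp (f x)) ∈ K' := by
  obtain ⟨f', hf', hd⟩ := hK.der f hf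
  refine extend_exp hK _ f' hf' ?_ (Eventually.of_forall fun x => Real.exp_pos _)
  filter_upwards [hd] with x hx
  have := hx.exp
  rwa [mul_comm] at this

/-- logarithms of elements -/
lemma HardyField.log {K : Subring (ℝ → ℝ)} (hK : HardyField K) {f : ℝ → ℝ} (hf : f ∈ K) :
    ∃ K' : Subring (ℝ → ℝ), K ≤ K' ∧ HardyField K' ∧ (fun x => Real.log (f x)) ∈ K' := by
  obtain ⟨f', hf', hd⟩ := hK.der f hf
  by_cases h0 : ∀ᶠ x in atTop, f x = 0
  · refine ⟨K, le_rfl, hK, ?_⟩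
    refine hK.congr _ _ (hK.const 0) ?_
    filter_upwards [h0] with x hx
    simp [hx]
  · have hne : ∀ᶠ x in atTop, f x ≠ 0 := by
      rcases hK.sgn f hf with h | h | h
      · filter_upwards [h] with x hx; exact hx.ne'
      · filter_upwards [h] with x hx; exact hx.ne
      · exact absurd h h0
    refine extend_log hK _ (fun x => f' x * (f x)⁻¹) (K.mul_mem hf' (hK.inv f hf)) ?_
    filter_upwards [hd, hne] with x hx hx0
    have := hx.log hx0
    rwa [div_eq_mul_inv] at this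

lemma HardyField.rpow {K : Subring (ℝ → ℝ)} (hK : HardyField K) {f g : ℝ → ℝ} (hf : f ∈ K) (hg : g ∈ K)
    (h0 : ∀ᶠ x in atTop, 0 < f x) :
    ∃ K' : Subring (ℝ → ℝ), K ≤ K' ∧ HardyField K' ∧ (fun x => f x ^ g x) ∈ K' := by
  obtain ⟨K1, h1, hK1, hl⟩ := hK.log hf
  obtain ⟨K2, h2, hK2, he⟩ := hK1.exp (K1.mul_mem hl (h1 hg))
  refine ⟨K2, h1.trans h2, hK2, ?_⟩
  refine hK2.congr _ _ he ?_
  filter_upwards [h0] with x hx
  simp only [Pi.mul_apply]
  rw [Real.rpow_def_of_pos hx]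

lemma HardyField.pow {K : Subring (ℝ → ℝ)} (hK : HardyField K) {f : ℝ → ℝ} (hf : f ∈ K) (r : ℝ) :
    ∃ K' : Subring (ℝ → ℝ), K ≤ K' ∧ HardyField K' ∧ (fun x => f x ^ r) ∈ K' := by
  rcases hK.sgn f hf with h | h | h
  · exact hK.rpow hf (hK.const r) h
  · obtain ⟨K1, h1, hK1, hl⟩ := hK.log hf
    obtain ⟨K2, h2, hK2, he⟩ := hK1.exp (K1.mul_mem hl (hK1.const r))
    refine ⟨K2, h1.trans h2, hK2, ?_⟩
    refine hK2.congr _ _ (K2.mul_mem he (hK2.const (Real.cos (r * Real.pi)))) ?_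
    filter_upwards [h] with x hx
    simp only [Pi.mul_apply]
    rw [Real.rpow_def_of_neg hx]
  · refine ⟨K, le_rfl, hK, ?_⟩
    refine hK.congr _ _ (hK.const ((0 : ℝ) ^ r)) ?_
    filter_upwards [h] with x hx
    rw [hx]

theorem ClosedForm.mem {f : ℝ → ℝ} (hf : ClosedForm f) : ∀ K : Subring (ℝ → ℝ), HardyField K →
    ∃ K' : Subring (ℝ → ℝ), K ≤ K' ∧ HardyField K' ∧ f ∈ K' := by
  induction hf with
  | var =>
    intro K hK
    refine extend_log hK _ (fun _ => 1) (hK.const 1) ?_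
    exact Eventually.of_forall fun x => hasDerivAt_id x
  | const c =>
    intro K hK
    exact ⟨K, le_rfl, hK, hK.const c⟩
  | add _ _ ihf ihg =>
    intro K hK
    obtain ⟨K1, h1, hK1, hf1⟩ := ihf K hK
    obtain ⟨K2, h2, hK2, hg2⟩ := ihg K1 hK1
    exact ⟨K2, h1.trans h2, hK2, K2.add_mem (h2 hf1) hg2⟩
  | sub _ _ ihf ihg =>
    intro K hK
    obtain ⟨K1, h1, hK1, hf1⟩ := ihf K hK
    obtain ⟨K2, h2, hK2, hg2⟩ := ihg K1 hK1
    exact ⟨K2, h1.trans h2, hK2, K2.sub_mem (h2 hf1) hg2⟩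
  | mul _ _ ihf ihg =>
    intro K hK
    obtain ⟨K1, h1, hK1, hf1⟩ := ihf K hK
    obtain ⟨K2, h2, hK2, hg2⟩ := ihg K1 hK1
    exact ⟨K2, h1.trans h2, hK2, K2.mul_mem (h2 hf1) hg2⟩
  | div _ _ ihf ihg =>
    intro K hK
    obtain ⟨K1, h1, hK1, hf1⟩ := ihf K hK
    obtain ⟨K2, h2, hK2, hg2⟩ := ihg K1 hK1
    refine ⟨K2, h1.trans h2, hK2, ?_⟩
    have := K2.mul_mem (h2 hf1) (hK2.inv _ hg2)
    exact this
  | exp _ ih =>
    intro K hK
    obtain ⟨K1, h1, hK1, hf1⟩ := ih K hK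
    obtain ⟨K2, h2, hK2, hg2⟩ := hK1.exp hf1
    exact ⟨K2, h1.trans h2, hK2, hg2⟩
  | log _ ih =>
    intro K hK
    obtain ⟨K1, h1, hK1, hf1⟩ := ih K hK
    obtain ⟨K2, h2, hK2, hg2⟩ := hK1.log hf1
    exact ⟨K2, h1.trans h2, hK2, hg2⟩
  | pow r _ ih =>
    intro K hK
    obtain ⟨K1, h1, hK1, hf1⟩ := ih K hK
    obtain ⟨K2, h2, hK2, hg2⟩ := hK1.pow hf1 r
    exact ⟨K2, h1.trans h2, hK2, hg2⟩
  | rpow _ _ h0 ihf ihg =>
    intro K hK
    obtain ⟨K1, h1, hK1, hf1⟩ := ihf K hK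
    obtain ⟨K2, h2, hK2, hg2⟩ := ihg K1 hK1
    obtain ⟨K3, h3, hK3, hr⟩ := hK2.rpow (h2 hf1) hg2 h0
    exact ⟨K3, (h1.trans h2).trans h3, hK3, hr⟩

/-- every closed form has a limit in the extended reals -/
theorem ClosedForm.limit {f : ℝ → ℝ} (hf : ClosedForm f) :
    (∃ l : ℝ, Tendsto f atTop (𝓝 l)) ∨ Tendsto f atTop atTop ∨ Tendsto f atTop atBot := by
  obtain ⟨K, _, hK, hfK⟩ := hf.mem constRing constRing_hardy
  exact hK.limit hfK

end Pool.Agent.H93
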