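import Pool.Agent.H93.Gauss5
import Pool.Agent.H93.Hardy2

/-!
Closed forms for the number of non-arithmetic integers (helper file).
-/

namespace Pool.Agent.H93

open Finset Filter Topology

lemma g0_closed : ClosedForm g0 := by
  have hLL : ClosedForm (fun x => Real.log (Real.log x)) := ClosedForm.var.log.log
  have h1 : ClosedForm (fun x : ℝ => (√Real.pi * Real.log 2 ^ (-(3 / 4) : ℝ)) * Real.log (Real.log x) ^ (1 / 4 : ℝ)) :=
    (ClosedForm.const _).mul (hLL.pow _)
  have h2 := h1.div hLL.log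
  have h3 : ClosedForm (fun x : ℝ => -2 * (Real.log 2 * Real.log (Real.log x)) ^ (1 / 2 : ℝ)) :=
    (ClosedForm.const _).mul (((ClosedForm.const _).mul hLL).pow _)
  have h4 := h2.mul h3.exp
  have e : g0 = fun x => √Real.pi * Real.log 2 ^ (-(3 / 4) : ℝ) * Real.log (Real.log x) ^ (1 / 4 : ℝ) /
      Real.log (Real.log (Real.log x)) * Real.exp (-2 * (Real.log 2 * Real.log (Real.log x)) ^ (1 / 2 : ℝ)) := by
    ext x
    unfold g0
    rw [Real.sqrt_eq_rpow (Real.log 2 * Real.log (Real.log x))]
  rw [e]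
  exact h4

/-- change of variables -/
noncomputable def xt (t : ℝ) : ℝ := Real.exp (Real.exp (Real.log 2 * t ^ 2))

lemma xt_tendsto : Tendsto xt atTop atTop := by
  apply Real.tendsto_exp_atTop.comp
  apply Real.tendsto_exp_atTop.comp
  exact (tendsto_pow_atTop (by norm_num)).const_mul_atTop log_two_pos

lemma log_xt (t : ℝ) : Real.log (xt t) = Real.exp (Real.log 2 * t ^ 2) := Real.log_exp _

lemma loglog_xt (t : ℝ) : Real.log (Real.log (xt t)) = Real.log 2 * t ^ 2 := by
  rw [log_xt, Real.log_exp]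

/-- the candidate in the variable `t` -/
lemma g0_xt (t : ℝ) (ht : 2 ≤ t) :
    g0 (xt t) = 1 / 2 * Real.exp (-(2 * Real.log 2 * t)) * RR t *
      (2 * Real.log t / (2 * Real.log t + Real.log (Real.log 2))) := by
  have hc := log_two_pos
  have ht0 : 0 < t := by linarith
  have hlt : 0 < Real.log t := Real.log_pos (by linarith)
  unfold g0 RR
  rw [loglog_xt]
  have e1 : √(Real.log 2 * (Real.log 2 * t ^ 2)) = Real.log 2 * t := by
    rw [show Real.log 2 * (Real.log 2 * t ^ 2) = (Real.log 2 * t) ^ 2 by ring,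
      Real.sqrt_sq (by positivity)]
  have e2 : Real.log (Real.log 2 * t ^ 2) = 2 * Real.log t + Real.log (Real.log 2) := by
    rw [Real.log_mul hc.ne' (by positivity), Real.log_pow]
    push_cast
    ring
  have e3 : √Real.pi * Real.log 2 ^ (-(3 / 4) : ℝ) * (Real.log 2 * t ^ 2) ^ (1 / 4 : ℝ) =
      √(Real.pi * t / Real.log 2) := by
    rw [Real.mul_rpow hc.le (by positivity), Real.sqrt_div (by positivity), Real.sqrt_mul Real.pi_pos.le]
    have h1 : (t ^ 2) ^ (1 / 4 : ℝ) = √t := by
      rw [← Real.rpow_natCast, ← Real.rpow_mul ht0.le, Real.sqrt_eq_rpow]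
      norm_num
    have h2 : Real.log 2 ^ (-(3 / 4) : ℝ) * Real.log 2 ^ (1 / 4 : ℝ) = (√(Real.log 2))⁻¹ := by
      rw [← Real.rpow_add hc, Real.sqrt_eq_rpow, ← Real.rpow_neg hc.le]
      norm_num
    calc √Real.pi * Real.log 2 ^ (-(3 / 4) : ℝ) * (Real.log 2 ^ (1 / 4 : ℝ) * (t ^ 2) ^ (1 / 4 : ℝ))
        = √Real.pi * (Real.log 2 ^ (-(3 / 4) : ℝ) * Real.log 2 ^ (1 / 4 : ℝ)) * (t ^ 2) ^ (1 / 4 : ℝ) := by ring
      _ = _ := by rw [h1, h2]; ring
  rw [e1, e2, e3]
  have e4 : -2 * (Real.log 2 * t) = -(2 * Real.log 2 * t) := by ring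
  rw [e4]
  field_simp

lemma kappa_tendsto : Tendsto (fun t : ℝ => 2 * Real.log t / (2 * Real.log t + Real.log (Real.log 2))) atTop (𝓝 1) := by
  have h1 : Tendsto (fun t : ℝ => 2 * Real.log t) atTop atTop :=
    Real.tendsto_log_atTop.const_mul_atTop (by norm_num)
  have h2 : Tendsto (fun t : ℝ => Real.log (Real.log 2) / (2 * Real.log t)) atTop (𝓝 0) :=
    tendsto_const_nhds.div_atTop h1
  have h3 := (h2.const_add 1).inv₀ (by norm_num)
  rw [add_zero, inv_one] at h3
  refine h3.congr' ?_
  filter_upwards [h1.eventually_gt_atTop 0] with t ht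
  rw [one_add_div ht.ne', inv_div]

/-- the ratio of the main sum and the candidate, in the variable `t` -/
lemma ratio_xt : ∀ᶠ t : ℝ in atTop, SS (Real.log (xt t)) / g0 (xt t) =
    (WW t / RR t) / (2 * Real.log t / (2 * Real.log t + Real.log (Real.log 2))) := by
  filter_upwards [eventually_ge_atTop 2] with t ht
  rw [g0_xt t ht, log_xt, SS_eq]
  have hR := RR_pos ht
  have he : 1 / 2 * Real.exp (-(2 * Real.log 2 * t)) ≠ 0 := by positivity
  rw [mul_assoc (1 / 2 * Real.exp (-(2 * Real.log 2 * t))), mul_div_mul_left _ _ he, div_mul_eq_div_div]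

lemma W_of_ratio {l : ℝ} (h : Tendsto (fun t => SS (Real.log (xt t)) / g0 (xt t)) atTop (𝓝 l)) :
    Tendsto (fun t => WW t / RR t) atTop (𝓝 l) := by
  have h1 := h.mul kappa_tendsto
  rw [mul_one] at h1
  refine h1.congr' ?_
  have hk : ∀ᶠ t : ℝ in atTop, 2 * Real.log t / (2 * Real.log t + Real.log (Real.log 2)) ≠ 0 := by
    filter_upwards [kappa_tendsto.eventually (lt_mem_nhds (show (0 : ℝ) < 1 by norm_num))] with t ht
    exact ht.ne'
  filter_upwards [ratio_xt, hk] with t h1 h2
  rw [h1, div_mul_cancel₀ _ h2]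

lemma ratio_of_W {l : ℝ} (h : Tendsto (fun t => WW t / RR t) atTop (𝓝 l)) :
    Tendsto (fun t => SS (Real.log (xt t)) / g0 (xt t)) atTop (𝓝 l) := by
  have h1 := h.div kappa_tendsto one_ne_zero
  rw [div_one] at h1
  refine h1.congr' ?_
  filter_upwards [ratio_xt] with t h1
  rw [h1, Pi.div_apply]

lemma W_of_ratio_top (h : Tendsto (fun t => SS (Real.log (xt t)) / g0 (xt t)) atTop atTop) :
    Tendsto (fun t => WW t / RR t) atTop atTop := by
  have h1 := h.atTop_mul_pos one_pos kappa_tendsto
  refine h1.congr' ?_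
  have hk : ∀ᶠ t : ℝ in atTop, 2 * Real.log t / (2 * Real.log t + Real.log (Real.log 2)) ≠ 0 := by
    filter_upwards [kappa_tendsto.eventually (lt_mem_nhds (show (0 : ℝ) < 1 by norm_num))] with t ht
    exact ht.ne'
  filter_upwards [ratio_xt, hk] with t h1 h2
  rw [h1, div_mul_cancel₀ _ h2]

/-- back to the variable `x` -/
lemma back {F : ℝ → ℝ} {l : ℝ} (h : Tendsto (fun t => F (xt t)) atTop (𝓝 l)) : Tendsto F atTop (𝓝 l) := by
  have hc := log_two_pos
  have hLL : Tendsto (fun x : ℝ => Real.log (Real.log x)) atTop atTop :=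
    Real.tendsto_log_atTop.comp Real.tendsto_log_atTop
  have ht : Tendsto (fun x : ℝ => √(Real.log (Real.log x) / Real.log 2)) atTop atTop :=
    Real.tendsto_sqrt_atTop.comp (hLL.atTop_div_const hc)
  refine (h.comp ht).congr' ?_
  filter_upwards [hLL.eventually_gt_atTop 0, Real.tendsto_log_atTop.eventually_gt_atTop 0, eventually_gt_atTop 0] with x h1 h2 h3
  simp only [Function.comp]
  congr 1
  unfold xt
  rw [Real.sq_sqrt (by positivity), mul_div_cancel₀ _ hc.ne', Real.exp_log h2, Real.exp_log h3]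

lemma g0_pos : ∀ᶠ x : ℝ in atTop, 0 < g0 x := by
  have hc := log_two_pos
  have hLL : Tendsto (fun x : ℝ => Real.log (Real.log x)) atTop atTop :=
    Real.tendsto_log_atTop.comp Real.tendsto_log_atTop
  filter_upwards [hLL.eventually_gt_atTop 1] with x hx
  unfold g0
  have := Real.log_pos hx
  have := Real.pi_pos
  positivity

lemma SS_pos {y : ℝ} (hy : 1 ≤ y) : 0 < SS y := by
  have := (SS_summable hy).tsum_pos (fun p => term_nonneg (by linarith) p) ⟨2, Nat.prime_two⟩
    (by
      apply mul_pos (by positivity)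
      exact Real.rpow_pos_of_pos (by linarith) _)
  exact this

/-- **Characterisation of the closed forms.** -/
theorem closed_forms (g : ℝ → ℝ) (hg : ClosedForm g) :
    Tendsto (fun x : ℝ => (NN x : ℝ) / (x * g x)) atTop (𝓝 1) ↔
      (Tendsto (fun x : ℝ => g x / g0 x) atTop (𝓝 1) ∧
        Tendsto (fun t : ℝ => GG t / RR t) atTop (𝓝 1)) := by
  have hmain := main_asymptotic
  have hSSpos : ∀ᶠ x : ℝ in atTop, 0 < SS (Real.log x) := by
    filter_upwards [Real.tendsto_log_atTop.eventually_ge_atTop 1] with x hx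
    exact SS_pos hx
  constructor
  · intro h
    -- the main sum is asymptotic to g
    have h1 : Tendsto (fun x => SS (Real.log x) / g x) atTop (𝓝 1) := by
      have h2 := h.div hmain one_ne_zero
      rw [div_one] at h2
      refine h2.congr' ?_
      have hNN : ∀ᶠ x : ℝ in atTop, (NN x : ℝ) ≠ 0 := by
        filter_upwards [hmain.eventually (lt_mem_nhds (show (0 : ℝ) < 1 by norm_num))] with x hx h0
        rw [h0, zero_div] at hx
        exact lt_irrefl _ hx
      filter_upwards [hSSpos, hNN, eventually_gt_atTop 0] with x hx hN hx0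
      simp only [Pi.div_apply]
      by_cases hgx : g x = 0
      · simp [hgx]
      · field_simp
    -- ratio
    have h2 : Tendsto (fun x => SS (Real.log x) / g x) atTop (𝓝 1) := h1
    have hratio : (fun x => SS (Real.log x) / g0 x) =ᶠ[atTop] fun x => (SS (Real.log x) / g x) * (g x / g0 x) := by
      have hgne : ∀ᶠ x : ℝ in atTop, g x ≠ 0 := by
        filter_upwards [h1.eventually (lt_mem_nhds (show (0 : ℝ) < 1 by norm_num))] with x hx h0
        rw [h0, div_zero] at hx
        exact lt_irrefl _ hx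
      filter_upwards [hgne] with x hx
      rw [div_mul_div_cancel₀ hx]
    have hpos : ∀ᶠ x : ℝ in atTop, 0 < SS (Real.log x) / g0 x := by
      filter_upwards [hSSpos, g0_pos] with x h1 h2
      positivity
    rcases (hg.div g0_closed).limit with ⟨l, hl⟩ | hl | hl
    · have h3 := h2.mul hl
      rw [one_mul] at h3
      have h4 : Tendsto (fun x => SS (Real.log x) / g0 x) atTop (𝓝 l) := h3.congr' hratio.symm
      have hl0 : 0 ≤ l := ge_of_tendsto h4 (hpos.mono fun x hx => hx.le)
      have h5 := W_of_ratio (h4.comp xt_tendsto)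
      have h6 := transfer hl0 compare h5
      have h7 := GG_limit l h6
      subst h7
      exact ⟨hl, h6⟩
    · exfalso
      have h3 := h2.pos_mul_atTop one_pos hl
      have h4 : Tendsto (fun x => SS (Real.log x) / g0 x) atTop atTop := h3.congr' hratio.symm
      have h5 := W_of_ratio_top (h4.comp xt_tendsto)
      exact GG_not_top (transfer_top compare h5)
    · exfalso
      have h3 := h2.pos_mul_atBot one_pos hl
      have h4 : Tendsto (fun x => SS (Real.log x) / g0 x) atTop atBot := h3.congr' hratio.symm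
      obtain ⟨x, hx1, hx2⟩ := (hpos.and (h4.eventually_lt_atBot 0)).exists
      linarith
  · rintro ⟨h1, h2⟩
    have h3 : Tendsto (fun t => WW t / RR t) atTop (𝓝 1) :=
      transfer zero_le_one (fun ε hε => (compare ε hε).mono fun t ht => ⟨ht.2, ht.1⟩) h2
    have h4 := back (F := fun x => SS (Real.log x) / g0 x) (ratio_of_W h3)
    have h5 := (hmain.mul h4).div h1 one_ne_zero
    rw [mul_one, div_one] at h5
    refine h5.congr' ?_
    filter_upwards [hSSpos, g0_pos, eventually_gt_atTop 0] with x hx hg hx0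
    simp only [Pi.div_apply]
    by_cases hgx : g x = 0
    · simp [hgx]
    · field_simp

end Pool.Agent.H93
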