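import Pool.Agent.H93.Gauss4

/-!
Averages of the Gaussian weighted count of primes, limits (helper file).
-/

namespace Pool.Agent.H93

open Finset Filter Topology

lemma tendsto_sqrtT : Tendsto (fun T : ℕ => √(Real.pi * T / Real.log 2)) atTop atTop := by
  apply Real.tendsto_sqrt_atTop.comp
  have h1 : Tendsto (fun T : ℕ => (Real.pi / Real.log 2) * (T : ℝ)) atTop atTop :=
    tendsto_natCast_atTop_atTop.const_mul_atTop (div_pos Real.pi_pos log_two_pos)
  refine h1.congr fun T => ?_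
  ring

lemma tendsto_lam : Tendsto (fun T : ℕ => Real.log T / (T * √(Real.pi * T / Real.log 2))) atTop (𝓝 0) := by
  have h1 : Tendsto (fun T : ℕ => Real.log T / (T : ℝ)) atTop (𝓝 0) :=
    (Real.isLittleO_log_id_atTop.tendsto_div_nhds_zero).comp tendsto_natCast_atTop_atTop
  have h2 := h1.mul tendsto_sqrtT.inv_tendsto_atTop
  rw [zero_mul] at h2
  refine h2.congr fun T => ?_
  simp only [Pi.inv_apply]
  rw [div_mul_eq_div_div, div_eq_mul_inv (Real.log T / T)]

lemma tendsto_log_ratio (δ : ℝ) (hδ : 0 < δ) :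
    Tendsto (fun T : ℕ => Real.log T / Real.log (T + (⌊δ * T⌋₊ : ℝ))) atTop (𝓝 1) := by
  have hlog : Tendsto (fun T : ℕ => Real.log (T : ℝ)) atTop atTop :=
    Real.tendsto_log_atTop.comp tendsto_natCast_atTop_atTop
  have h1 : Tendsto (fun T : ℕ => Real.log (1 + (⌊δ * T⌋₊ : ℝ) / T)) atTop (𝓝 (Real.log (1 + δ))) := by
    apply (Real.continuousAt_log (by linarith)).tendsto.comp
    exact (lim_aux δ hδ).const_add 1
  have h2 : Tendsto (fun T : ℕ => Real.log (1 + (⌊δ * T⌋₊ : ℝ) / T) / Real.log (T : ℝ)) atTop (𝓝 0) :=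
    h1.div_atTop hlog
  have h3 := (h2.const_add 1).inv₀ (by norm_num)
  rw [add_zero, inv_one] at h3
  refine h3.congr' ?_
  filter_upwards [hlog.eventually_gt_atTop 0, eventually_gt_atTop 0] with T hT hT0
  have hT0' : (0 : ℝ) < T := by exact_mod_cast hT0
  have e : (T : ℝ) + (⌊δ * T⌋₊ : ℝ) = T * (1 + (⌊δ * T⌋₊ : ℝ) / T) := by
    field_simp
  rw [e, Real.log_mul hT0'.ne' (by positivity)]
  have h4 : 0 ≤ Real.log (1 + (⌊δ * T⌋₊ : ℝ) / T) := by
    apply Real.log_nonneg
    have : 0 ≤ (⌊δ * T⌋₊ : ℝ) / T := by positivity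
    linarith
  field_simp

lemma pnt_diff (a b : ℝ) (ha : 0 < a) (hb : 0 < b) :
    Tendsto (fun T : ℕ => ((Nat.primeCounting ⌊b * T⌋₊ : ℝ) - Nat.primeCounting ⌊a * T⌋₊) * (Real.log T / T))
      atTop (𝓝 (b - a)) := by
  have h := (pnt_scaled b hb).sub (pnt_scaled a ha)
  refine h.congr fun T => ?_
  ring

theorem upper_avg (M δ η : ℝ) (hM : 0 < M) (hδ : 0 < δ) (hδ1 : δ ≤ 1) (hη : 0 < η) (hη1 : η < 1)
    (h : ∀ᶠ t : ℝ in atTop, M * RR t ≤ GG t) : M * δ ≤ (δ + 2 * η) * √(1 + δ) := by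
  have hc := log_two_pos
  set C := ∑' p : Nat.Primes, 1 / (p : ℝ) ^ 2 with hC
  have hL : Tendsto (fun T : ℕ => M * (((⌊δ * T⌋₊ : ℕ) : ℝ) / T) * (Real.log T / Real.log (T + (⌊δ * T⌋₊ : ℝ))))
      atTop (𝓝 (M * δ * 1)) := ((lim_aux δ hδ).const_mul M).mul (tendsto_log_ratio δ hδ)
  have hRa := pnt_diff (1 - η) (1 + δ + η) (by linarith) (by linarith)
  have hRb : Tendsto (fun T : ℕ => 2 / √(Real.pi * T / Real.log 2) + √(1 + ((⌊δ * T⌋₊ : ℕ) : ℝ) / T))
      atTop (𝓝 (0 + √(1 + δ))) := by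
    apply Tendsto.add
    · exact tendsto_const_nhds.div_atTop tendsto_sqrtT
    · exact (Real.continuous_sqrt.tendsto _).comp ((lim_aux δ hδ).const_add 1)
  have hRc := ((lim_aux δ hδ).mul_const C).mul tendsto_lam
  have hR := (hRa.mul hRb).add hRc
  have key := le_of_tendsto_of_tendsto hL hR ?_
  · have e : (1 + δ + η - (1 - η)) * (0 + √(1 + δ)) + δ * C * 0 = (δ + 2 * η) * √(1 + δ) := by ring
    rw [e] at key
    linarith
  · obtain ⟨t0, h0⟩ := eventually_atTop.mp h
    filter_upwards [sum_GG_le δ η hδ hδ1 hη hη1, eventually_gt_atTop 2,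
      tendsto_natCast_atTop_atTop.eventually (eventually_ge_atTop t0)] with T h1 hT2 hTt
    have hT2' : (2 : ℝ) < T := by exact_mod_cast hT2
    have hT0 : (0 : ℝ) < T := by linarith
    have hlogT : 0 < Real.log T := Real.log_pos (by linarith)
    set D : ℝ := ((⌊δ * T⌋₊ : ℕ) : ℝ) with hD
    have hD0 : 0 ≤ D := Nat.cast_nonneg _
    have hlogTD : 0 < Real.log (T + D) := Real.log_pos (by linarith)
    set w : ℝ := √(Real.pi * T / Real.log 2) with hw
    have hw0 : 0 < w := by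
      apply Real.sqrt_pos.mpr
      have := Real.pi_pos
      positivity
    -- lower bound for the sum
    have h2 : D * (M * (w / Real.log (T + D))) ≤ ∑ t ∈ Ioc T (T + ⌊δ * T⌋₊), GG t := by
      have h3 : ∀ t ∈ Ioc T (T + ⌊δ * T⌋₊), M * (w / Real.log (T + D)) ≤ GG t := by
        intro t ht
        rw [Finset.mem_Ioc] at ht
        have htT : (T : ℝ) < t := by exact_mod_cast ht.1
        have htTD : (t : ℝ) ≤ T + D := by
          rw [hD]; exact_mod_cast ht.2
        refine le_trans ?_ (h0 t (hTt.trans htT.le))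
        apply mul_le_mul_of_nonneg_left _ hM.le
        unfold RR
        have h4 : 0 < Real.log (t : ℝ) := Real.log_pos (by linarith)
        apply div_le_div₀ (Real.sqrt_nonneg _) _ h4 (Real.log_le_log (by linarith) htTD)
        apply Real.sqrt_le_sqrt
        have := Real.pi_pos
        gcongr
      have h4 := Finset.card_nsmul_le_sum _ _ _ h3
      rw [Nat.card_Ioc, Nat.add_sub_cancel_left, nsmul_eq_mul] at h4
      exact h4
    have h3 := h2.trans h1
    have h4 := mul_le_mul_of_nonneg_right h3 (show 0 ≤ Real.log T / (T * w) by positivity)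
    have e1 : D * (M * (w / Real.log (T + D))) * (Real.log T / (T * w)) =
        M * (D / T) * (Real.log T / Real.log (T + D)) := by
      field_simp
    have e2 : √(Real.pi / (Real.log 2 / (T + D))) = w * √(1 + D / T) := by
      rw [hw, ← Real.sqrt_mul (by have := Real.pi_pos; positivity)]
      congr 1
      field_simp
    rw [e1, e2, ← hC] at h4
    refine h4.trans (le_of_eq ?_)
    field_simp

theorem lower_avg (M δ η ε : ℝ) (hM : 0 ≤ M) (hδ : 0 < δ) (hδ1 : δ ≤ 1) (hη : 0 < η) (hη1 : 2 * η < δ) (hε : 0 < ε)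
    (h : ∀ᶠ t : ℝ in atTop, GG t ≤ M * RR t) : (δ - 2 * η) * (1 - ε) ≤ M * δ * √(1 + δ) := by
  have hc := log_two_pos
  have hRb : Tendsto (fun T : ℕ => M * (((⌊δ * T⌋₊ : ℕ) : ℝ) / T) * √(1 + ((⌊δ * T⌋₊ : ℕ) : ℝ) / T))
      atTop (𝓝 (M * δ * √(1 + δ))) := by
    apply Tendsto.mul ((lim_aux δ hδ).const_mul M)
    exact (Real.continuous_sqrt.tendsto _).comp ((lim_aux δ hδ).const_add 1)
  have hLa := pnt_diff (1 + η) (1 + δ - η) (by linarith) (by linarith)
  have hLb : Tendsto (fun T : ℕ => (1 - ε) - 1 / √(Real.pi * T / Real.log 2)) atTop (𝓝 ((1 - ε) - 0)) :=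
    tendsto_const_nhds.sub (tendsto_const_nhds.div_atTop tendsto_sqrtT)
  have key := le_of_tendsto_of_tendsto (hLa.mul hLb) hRb ?_
  · have e : (1 + δ - η - (1 + η)) * ((1 - ε) - 0) = (δ - 2 * η) * (1 - ε) := by ring
    rw [e] at key
    exact key
  · obtain ⟨t0, h0⟩ := eventually_atTop.mp h
    filter_upwards [le_sum_GG δ η ε hδ hδ1 hη hη1 hε, eventually_gt_atTop 2,
      tendsto_natCast_atTop_atTop.eventually (eventually_ge_atTop t0)] with T h1 hT2 hTt
    have hT2' : (2 : ℝ) < T := by exact_mod_cast hT2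
    have hT0 : (0 : ℝ) < T := by linarith
    have hlogT : 0 < Real.log T := Real.log_pos (by linarith)
    set D : ℝ := ((⌊δ * T⌋₊ : ℕ) : ℝ) with hD
    have hD0 : 0 ≤ D := Nat.cast_nonneg _
    set w : ℝ := √(Real.pi * T / Real.log 2) with hw
    have hw0 : 0 < w := by
      apply Real.sqrt_pos.mpr
      have := Real.pi_pos
      positivity
    have h2 : ∑ t ∈ Ioc T (T + ⌊δ * T⌋₊), GG t ≤ D * (M * (√(Real.pi * (T + D) / Real.log 2) / Real.log T)) := by
      have h3 : ∀ t ∈ Ioc T (T + ⌊δ * T⌋₊), GG t ≤ M * (√(Real.pi * (T + D) / Real.log 2) / Real.log T) := by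
        intro t ht
        rw [Finset.mem_Ioc] at ht
        have htT : (T : ℝ) < t := by exact_mod_cast ht.1
        have htTD : (t : ℝ) ≤ T + D := by
          rw [hD]; exact_mod_cast ht.2
        refine (h0 t (hTt.trans htT.le)).trans ?_
        apply mul_le_mul_of_nonneg_left _ hM
        unfold RR
        apply div_le_div₀ (Real.sqrt_nonneg _) _ hlogT (Real.log_le_log hT0 htT.le)
        apply Real.sqrt_le_sqrt
        have := Real.pi_pos
        gcongr
      have h4 := Finset.sum_le_card_nsmul _ _ _ h3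
      rw [Nat.card_Ioc, Nat.add_sub_cancel_left, nsmul_eq_mul] at h4
      exact h4
    have h3 := h1.trans h2
    have h4 := mul_le_mul_of_nonneg_right h3 (show 0 ≤ Real.log T / (T * w) by positivity)
    have e2 : √(Real.pi * (T + D) / Real.log 2) = w * √(1 + D / T) := by
      rw [hw, ← Real.sqrt_mul (by have := Real.pi_pos; positivity)]
      congr 1
      field_simp
    have e3 : √(Real.pi / (Real.log 2 / T)) = w := by
      rw [hw]
      congr 1
      field_simp
    rw [e2, e3] at h4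
    refine le_trans (le_of_eq ?_) (h4.trans (le_of_eq ?_))
    · field_simp
    · field_simp

theorem GG_upper (M : ℝ) (h : ∀ᶠ t : ℝ in atTop, M * RR t ≤ GG t) : M ≤ 1 := by
  by_contra hcon
  push Not at hcon
  have hM : 0 < M := by linarith
  -- η → 0
  have h1 : ∀ δ : ℝ, 0 < δ → δ ≤ 1 → M ≤ √(1 + δ) := by
    intro δ hδ hδ1
    have h2 : M * δ ≤ δ * √(1 + δ) := by
      have ht : Tendsto (fun η : ℝ => (δ + 2 * η) * √(1 + δ)) (𝓝[>] 0) (𝓝 ((δ + 2 * 0) * √(1 + δ))) := by
        apply Tendsto.mono_left _ nhdsWithin_le_nhds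
        apply Continuous.tendsto
        fun_prop
      rw [mul_zero, add_zero] at ht
      apply ge_of_tendsto ht
      filter_upwards [Ioo_mem_nhdsGT (show (0 : ℝ) < 1 by norm_num)] with η hη
      exact upper_avg M δ η hM hδ hδ1 hη.1 hη.2 h
    nlinarith
  have ht : Tendsto (fun δ : ℝ => √(1 + δ)) (𝓝[>] 0) (𝓝 (√(1 + 0))) := by
    apply Tendsto.mono_left _ nhdsWithin_le_nhds
    apply Continuous.tendsto
    fun_prop
  rw [add_zero, Real.sqrt_one] at ht
  have h2 : M ≤ 1 := by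
    apply ge_of_tendsto ht
    filter_upwards [Ioo_mem_nhdsGT (show (0 : ℝ) < 1 by norm_num)] with δ hδ
    exact h1 δ hδ.1 hδ.2.le
  linarith

theorem GG_lower (M : ℝ) (hM : 0 ≤ M) (h : ∀ᶠ t : ℝ in atTop, GG t ≤ M * RR t) : 1 ≤ M := by
  have h1 : ∀ δ : ℝ, 0 < δ → δ ≤ 1 → (1 - δ) * (1 - δ) ≤ M * √(1 + δ) := by
    intro δ hδ hδ1
    have h2 := lower_avg M δ (δ ^ 2 / 4) δ hM hδ hδ1 (by positivity) (by nlinarith) hδ h
    have h3 : (1 - δ) * δ ≤ δ - 2 * (δ ^ 2 / 4) := by nlinarith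
    have h4 : (1 - δ) * δ * (1 - δ) ≤ (δ - 2 * (δ ^ 2 / 4)) * (1 - δ) :=
      mul_le_mul_of_nonneg_right h3 (by linarith)
    have h5 : δ * ((1 - δ) * (1 - δ)) ≤ δ * (M * √(1 + δ)) := by nlinarith
    exact le_of_mul_le_mul_left h5 hδ
  have ht : Tendsto (fun δ : ℝ => M * √(1 + δ)) (𝓝[>] 0) (𝓝 (M * √(1 + 0))) := by
    apply Tendsto.mono_left _ nhdsWithin_le_nhds
    apply Continuous.tendsto
    fun_prop
  have ht2 : Tendsto (fun δ : ℝ => (1 - δ) * (1 - δ)) (𝓝[>] 0) (𝓝 ((1 - 0) * (1 - 0))) := by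
    apply Tendsto.mono_left _ nhdsWithin_le_nhds
    apply Continuous.tendsto
    fun_prop
  rw [add_zero, Real.sqrt_one, mul_one] at ht
  rw [sub_zero, mul_one] at ht2
  apply le_of_tendsto_of_tendsto ht2 ht
  filter_upwards [Ioo_mem_nhdsGT (show (0 : ℝ) < 1 by norm_num)] with δ hδ
  exact h1 δ hδ.1 hδ.2.le

/-- the only possible limit is one -/
theorem GG_limit (l : ℝ) (h : Tendsto (fun t => GG t / RR t) atTop (𝓝 l)) : l = 1 := by
  have hl0 : 0 ≤ l := by
    apply ge_of_tendsto h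
    filter_upwards [eventually_ge_atTop 2] with t ht
    have := RR_pos ht
    have h2 : 0 ≤ GG t := tsum_nonneg fun p => (Real.exp_pos _).le
    positivity
  apply le_antisymm
  · by_contra hcon
    push Not at hcon
    obtain ⟨M, hM1, hM2⟩ := exists_between hcon
    have h1 := GG_upper M (by
      filter_upwards [h.eventually (lt_mem_nhds hM2), eventually_ge_atTop 2] with t h1 h2
      rw [lt_div_iff₀ (RR_pos h2)] at h1
      exact h1.le)
    linarith
  · by_contra hcon
    push Not at hcon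
    obtain ⟨M, hM1, hM2⟩ := exists_between hcon
    have h1 := GG_lower M (by linarith) (by
      filter_upwards [h.eventually (gt_mem_nhds hM1), eventually_ge_atTop 2] with t h1 h2
      rw [div_lt_iff₀ (RR_pos h2)] at h1
      exact h1.le)
    linarith

theorem GG_not_top (h : Tendsto (fun t => GG t / RR t) atTop atTop) : False := by
  have h1 := GG_upper 2 (by
    filter_upwards [h.eventually_ge_atTop 2, eventually_ge_atTop 2] with t h1 h2
    rw [le_div_iff₀ (RR_pos h2)] at h1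
    exact h1)
  linarith

end Pool.Agent.H93
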