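import Mathlib

/-!
Partial sums of Dirichlet characters and Abel summation (helper file).
-/

namespace Pool.Agent.H93

open Finset

section abel

/-- Abel summation identity. -/
lemma abel_identity (a : ℕ → ℝ) (f : ℕ → ℂ) (m M : ℕ) (h : m ≤ M) :
    ∑ n ∈ Ico m M, (a n : ℂ) * f n =
      a M * ∑ n ∈ range M, f n - a m * ∑ n ∈ range m, f n +
        ∑ n ∈ Ico m M, ((a n : ℂ) - a (n + 1)) * ∑ k ∈ range (n + 1), f k := by
  induction M, h using Nat.le_induction with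
  | base => simp
  | succ M hM ih =>
    rw [Finset.sum_Ico_succ_top hM, Finset.sum_Ico_succ_top hM, ih, Finset.sum_range_succ]
    ring

/-- Abel summation bound with bounded variation. -/
lemma abel_bound_var (a : ℕ → ℝ) (f : ℕ → ℂ) (B : ℝ)
    (hB : ∀ m, ‖∑ n ∈ range m, f n‖ ≤ B) (m M : ℕ) (h : m ≤ M) :
    ‖∑ n ∈ Ico m M, (a n : ℂ) * f n‖ ≤
      B * (|a M| + |a m| + ∑ n ∈ Ico m M, |a n - a (n + 1)|) := by
  have hB0 : 0 ≤ B := le_trans (norm_nonneg _) (hB 0)
  rw [abel_identity a f m M h]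
  have h1 : ‖(a M : ℂ) * ∑ n ∈ range M, f n‖ ≤ B * |a M| := by
    rw [norm_mul, Complex.norm_real, Real.norm_eq_abs, mul_comm]
    exact mul_le_mul_of_nonneg_right (hB M) (abs_nonneg _)
  have h2 : ‖(a m : ℂ) * ∑ n ∈ range m, f n‖ ≤ B * |a m| := by
    rw [norm_mul, Complex.norm_real, Real.norm_eq_abs, mul_comm]
    exact mul_le_mul_of_nonneg_right (hB m) (abs_nonneg _)
  have h3 : ‖∑ n ∈ Ico m M, ((a n : ℂ) - a (n + 1)) * ∑ k ∈ range (n + 1), f k‖ ≤
      B * ∑ n ∈ Ico m M, |a n - a (n + 1)| := by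
    rw [Finset.mul_sum]
    refine norm_sum_le_of_le _ fun n _ => ?_
    rw [← Complex.ofReal_sub, norm_mul, Complex.norm_real, Real.norm_eq_abs, mul_comm]
    exact mul_le_mul_of_nonneg_right (hB _) (abs_nonneg _)
  calc _ ≤ ‖(a M : ℂ) * ∑ n ∈ range M, f n - (a m : ℂ) * ∑ n ∈ range m, f n‖ + 
        ‖∑ n ∈ Ico m M, ((a n : ℂ) - a (n + 1)) * ∑ k ∈ range (n + 1), f k‖ := norm_add_le _ _
    _ ≤ ‖(a M : ℂ) * ∑ n ∈ range M, f n‖ + ‖(a m : ℂ) * ∑ n ∈ range m, f n‖ + 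
        ‖∑ n ∈ Ico m M, ((a n : ℂ) - a (n + 1)) * ∑ k ∈ range (n + 1), f k‖ := by
          gcongr; exact norm_sub_le _ _
    _ ≤ _ := by linarith

/-- Abel summation bound for antitone weights. -/
lemma abel_bound_anti (a : ℕ → ℝ) (f : ℕ → ℂ) (B : ℝ)
    (hB : ∀ m, ‖∑ n ∈ range m, f n‖ ≤ B) (m M : ℕ)
    (ha0 : ∀ n, m ≤ n → 0 ≤ a n) (ha : ∀ n, m ≤ n → a (n + 1) ≤ a n) :
    ‖∑ n ∈ Ico m M, (a n : ℂ) * f n‖ ≤ 2 * B * a m := by
  have hB0 : 0 ≤ B := le_trans (norm_nonneg _) (hB 0)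
  rcases le_or_gt m M with h | h
  · refine (abel_bound_var a f B hB m M h).trans ?_
    have hs : ∑ n ∈ Ico m M, |a n - a (n + 1)| = a m - a M := by
      have : ∑ n ∈ Ico m M, |a n - a (n + 1)| = ∑ n ∈ Ico m M, (a n - a (n + 1)) := by
        refine Finset.sum_congr rfl fun n hn => ?_
        rw [abs_of_nonneg]
        have := ha n (Finset.mem_Ico.mp hn).1
        linarith
      rw [this]
      induction M, h using Nat.le_induction with
      | base => simp
      | succ M hM ih =>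
        rw [Finset.sum_Ico_succ_top hM, ih]
        · ring
        · refine Finset.sum_congr rfl fun n hn => ?_
          rw [abs_of_nonneg]
          have := ha n (Finset.mem_Ico.mp hn).1
          linarith
    rw [hs, abs_of_nonneg (ha0 M h), abs_of_nonneg (ha0 m le_rfl)]
    have : B * (a M + a m + (a m - a M)) = 2 * B * a m := by ring
    rw [this]
  · rw [Finset.Ico_eq_empty (by omega)]
    simp only [Finset.sum_empty, norm_zero]
    have := ha0 m le_rfl
    positivity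

end abel

section char

variable {N : ℕ} [NeZero N]

lemma sum_range_char_eq_zero (χ : DirichletCharacter ℂ N) (hχ : χ ≠ 1) :
    ∑ n ∈ range N, χ (n : ZMod N) = 0 := by
  have h0 : ∑ a : ZMod N, χ a = 0 := MulChar.sum_eq_zero_of_ne_one hχ
  rw [← h0]
  have hN : 0 < N := Nat.pos_of_ne_zero (NeZero.ne N)
  refine Finset.sum_bij (fun n _ => (n : ZMod N)) (fun _ _ => Finset.mem_univ _) ?_ ?_ ?_
  · intro a ha b hb hab
    rw [Finset.mem_range] at ha hb
    rw [ZMod.natCast_eq_natCast_iff'] at hab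
    rwa [Nat.mod_eq_of_lt ha, Nat.mod_eq_of_lt hb] at hab
  · intro b _
    exact ⟨b.val, Finset.mem_range.mpr (ZMod.val_lt b), by simp⟩
  · intro a _
    rfl

lemma norm_sum_range_char_le (χ : DirichletCharacter ℂ N) (hχ : χ ≠ 1) (m : ℕ) :
    ‖∑ n ∈ range m, χ (n : ZMod N)‖ ≤ N := by
  induction m using Nat.strong_induction_on with
  | _ m ih =>
    rcases lt_or_ge m N with h | h
    · calc ‖∑ n ∈ range m, χ (n : ZMod N)‖ ≤ ∑ n ∈ range m, (1 : ℝ) :=
            norm_sum_le_of_le _ fun n _ => DirichletCharacter.norm_le_one χ _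
        _ = m := by simp
        _ ≤ N := by exact_mod_cast h.le
    · obtain ⟨k, rfl⟩ := Nat.exists_eq_add_of_le h
      have hN : 0 < N := Nat.pos_of_ne_zero (NeZero.ne N)
      rw [Finset.sum_range_add, sum_range_char_eq_zero χ hχ, zero_add]
      have : ∀ x, χ ((N + x : ℕ) : ZMod N) = χ (x : ZMod N) := by
        intro x; simp
      simp_rw [this]
      exact ih k (by omega)

/-- Tail bound for character sums with antitone weights. -/
lemma norm_sum_Ico_char_le (χ : DirichletCharacter ℂ N) (hχ : χ ≠ 1) (a : ℕ → ℝ) (m M : ℕ)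
    (ha0 : ∀ n, m ≤ n → 0 ≤ a n) (ha : ∀ n, m ≤ n → a (n + 1) ≤ a n) :
    ‖∑ n ∈ Ico m M, (a n : ℂ) * χ (n : ZMod N)‖ ≤ 2 * N * a m :=
  abel_bound_anti a _ N (norm_sum_range_char_le χ hχ) m M ha0 ha

/-- Existence of `L(1,χ)` as a limit, with an explicit tail bound. -/
theorem exists_Lone (χ : DirichletCharacter ℂ N) (hχ : χ ≠ 1) :
    ∃ l : ℂ, ∀ m : ℕ, 1 ≤ m → ‖l - ∑ n ∈ range m, ((n : ℝ)⁻¹ : ℝ) * χ (n : ZMod N)‖ ≤ 2 * N / m := by
  set S : ℕ → ℂ := fun m => ∑ n ∈ range m, ((n : ℝ)⁻¹ : ℝ) * χ (n : ZMod N) with hS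
  have key : ∀ m M : ℕ, 1 ≤ m → m ≤ M → ‖S M - S m‖ ≤ 2 * N / m := by
    intro m M hm hmM
    have : S M - S m = ∑ n ∈ Ico m M, ((n : ℝ)⁻¹ : ℝ) * χ (n : ZMod N) := by
      rw [Finset.sum_Ico_eq_sub _ hmM]
    rw [this]
    have := norm_sum_Ico_char_le χ hχ (fun n => (n : ℝ)⁻¹) m M (fun n _ => by positivity)
      (fun n hn => by
        apply inv_anti₀
        · have : 1 ≤ n := le_trans hm hn
          positivity
        · push_cast; linarith)
    simpa [div_eq_mul_inv] using this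
  have hc : CauchySeq S := by
    rw [Metric.cauchySeq_iff']
    intro ε hε
    obtain ⟨m, hm⟩ := exists_nat_gt (2 * N / ε)
    have hN : 0 ≤ (N : ℝ) := Nat.cast_nonneg _
    refine ⟨m + 1, fun n hn => ?_⟩
    rw [dist_eq_norm]
    refine (key (m + 1) n (by omega) hn).trans_lt ?_
    rw [div_lt_iff₀ (by positivity)]
    rw [div_lt_iff₀ hε] at hm
    push_cast
    nlinarith
  obtain ⟨l, hl⟩ := cauchySeq_tendsto_of_complete hc
  refine ⟨l, fun m hm => ?_⟩
  have h1 : Filter.Tendsto (fun M => ‖S M - S m‖) Filter.atTop (nhds ‖l - S m‖) :=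
    (hl.sub_const _).norm
  exact le_of_tendsto h1 (Filter.eventually_atTop.mpr ⟨m, fun M hM => key m M hm hM⟩)

end char

end Pool.Agent.H93
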