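import Pool.Agent.H93.MainUpper

/-!
Comparison of the truncated and the full sum over primes (helper file).
-/

namespace Pool.Agent.H93

open Finset Filter Topology

/-- the sum over all primes, as a function of `y = log x` -/
noncomputable def SS (y : ℝ) : ℝ := ∑' p : Nat.Primes, (1 / 2 : ℝ) ^ (p : ℕ) * y ^ (-(1 : ℝ) / ((p : ℝ) - 1))

lemma SS_summable_aux : Summable (fun p : Nat.Primes => (1 / 2 : ℝ) ^ (p : ℕ)) :=
  (summable_geometric_of_lt_one (by norm_num) (by norm_num : (1 / 2 : ℝ) < 1)).comp_injective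
    (fun a b h => Subtype.ext h)

lemma prime_sub_one_pos (p : Nat.Primes) : (1 : ℝ) ≤ (p : ℝ) - 1 := by
  have : (2 : ℝ) ≤ (p : ℕ) := by exact_mod_cast p.2.two_le
  linarith

lemma term_le {y : ℝ} (hy : 1 ≤ y) (p : Nat.Primes) :
    (1 / 2 : ℝ) ^ (p : ℕ) * y ^ (-(1 : ℝ) / ((p : ℝ) - 1)) ≤ (1 / 2 : ℝ) ^ (p : ℕ) := by
  have h1 := prime_sub_one_pos p
  have h2 : y ^ (-(1 : ℝ) / ((p : ℝ) - 1)) ≤ 1 := by
    apply Real.rpow_le_one_of_one_le_of_nonpos hy
    apply div_nonpos_of_nonpos_of_nonneg (by norm_num) (by linarith)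
  calc _ ≤ (1 / 2 : ℝ) ^ (p : ℕ) * 1 := by gcongr
    _ = _ := mul_one _

lemma term_nonneg {y : ℝ} (hy : 0 ≤ y) (p : Nat.Primes) :
    0 ≤ (1 / 2 : ℝ) ^ (p : ℕ) * y ^ (-(1 : ℝ) / ((p : ℝ) - 1)) := by
  have := Real.rpow_nonneg hy (-(1 : ℝ) / ((p : ℝ) - 1))
  positivity

lemma SS_summable {y : ℝ} (hy : 1 ≤ y) :
    Summable (fun p : Nat.Primes => (1 / 2 : ℝ) ^ (p : ℕ) * y ^ (-(1 : ℝ) / ((p : ℝ) - 1))) :=
  Summable.of_nonneg_of_le (fun p => term_nonneg (by linarith) p) (term_le hy) SS_summable_aux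

/-- the mid set as a finset of primes -/
noncomputable def midP (X : ℕ) : Finset Nat.Primes := (mid X).attach.image (fun p => ⟨p.1, (mem_mid.mp p.2).1⟩)

lemma mem_midP {X : ℕ} {p : Nat.Primes} : p ∈ midP X ↔ (p : ℕ) ∈ mid X := by
  unfold midP
  rw [Finset.mem_image]
  constructor
  · rintro ⟨q, hq, rfl⟩
    exact q.2
  · intro h
    exact ⟨⟨p, h⟩, Finset.mem_attach _ _, rfl⟩

lemma Smid_eq {X : ℕ} (hX : 0 < LL X) :
    Smid X = ∑ p ∈ midP X, (1 / 2 : ℝ) ^ (p : ℕ) * (Real.log X) ^ (-(1 : ℝ) / ((p : ℝ) - 1)) := by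
  unfold Smid
  have h1 : ∀ p : ℕ, Real.exp (-(LL X / ((p : ℝ) - 1))) = (Real.log X) ^ (-(1 : ℝ) / ((p : ℝ) - 1)) := by
    intro p
    rw [Real.rpow_def_of_pos (by rw [log_eq_exp_LL hX]; exact Real.exp_pos _)]
    congr 1
    change _ = LL X * _
    ring
  simp_rw [h1]
  symm
  refine Finset.sum_nbij (fun p => (p : ℕ)) ?_ ?_ ?_ ?_
  · intro p hp; exact mem_midP.mp hp
  · intro a _ b _ h; exact Subtype.ext h
  · intro p hp
    exact ⟨⟨p, (mem_mid.mp hp).1⟩, mem_midP.mpr hp, rfl⟩
  · intro p _; rfl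

/-- large primes contribute little -/
lemma tail_large (X : ℕ) : ∑' p : Nat.Primes, (if 3 * √(LL X) < (p : ℝ) then (1 / 2 : ℝ) ^ (p : ℕ) else 0) ≤
    2 * (1 / 2 : ℝ) ^ (⌊3 * √(LL X)⌋₊ + 1) := by
  set K := ⌊3 * √(LL X)⌋₊ + 1 with hK
  have hgeo : Summable (fun n : ℕ => (1 / 2 : ℝ) ^ (n + K)) := by
    simp_rw [pow_add]
    exact (summable_geometric_of_lt_one (by norm_num) (by norm_num : (1 / 2 : ℝ) < 1)).mul_right _
  have h1 : ∑' n : ℕ, (1 / 2 : ℝ) ^ (n + K) = 2 * (1 / 2 : ℝ) ^ K := by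
    simp_rw [pow_add]
    rw [tsum_mul_right, tsum_geometric_of_lt_one (by norm_num) (by norm_num)]
    norm_num
  rw [← h1]
  -- compare with the sum over all n with indicator n ≥ K
  have h2 : ∑' n : ℕ, (1 / 2 : ℝ) ^ (n + K) = ∑' n : ℕ, (if K ≤ n then (1 / 2 : ℝ) ^ n else 0) := by
    have hs : Summable (fun n : ℕ => (if K ≤ n then (1 / 2 : ℝ) ^ n else 0)) := by
      refine Summable.of_nonneg_of_le (fun n => ?_) (fun n => ?_)
        (summable_geometric_of_lt_one (by norm_num) (by norm_num : (1 / 2 : ℝ) < 1))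
      · split_ifs <;> positivity
      · split_ifs
        · exact le_rfl
        · positivity
    rw [← hs.sum_add_tsum_nat_add K]
    have h3 : ∑ i ∈ range K, (if K ≤ i then (1 / 2 : ℝ) ^ i else 0) = 0 := by
      apply Finset.sum_eq_zero
      intro i hi
      rw [if_neg]
      rw [Finset.mem_range] at hi; omega
    rw [h3, zero_add]
    congr 1
    ext n
    rw [if_pos (by omega)]
  rw [h2]
  have hs : Summable (fun n : ℕ => (if K ≤ n then (1 / 2 : ℝ) ^ n else 0)) := by
    refine Summable.of_nonneg_of_le (fun n => ?_) (fun n => ?_)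
      (summable_geometric_of_lt_one (by norm_num) (by norm_num : (1 / 2 : ℝ) < 1))
    · split_ifs <;> positivity
    · split_ifs
      · exact le_rfl
      · positivity
  refine Summable.tsum_le_tsum_of_inj (fun p : Nat.Primes => (p : ℕ)) (fun a b h => Subtype.ext h) ?_ ?_ ?_ hs
  · intro n _
    split_ifs <;> positivity
  · intro p
    split_ifs with h1 h2
    · exact le_rfl
    · exfalso
      apply h2
      rw [hK]
      have := (Nat.floor_lt (show 0 ≤ 3 * √(LL X) by positivity)).mpr h1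
      omega
    · positivity
    · exact le_rfl
  · refine Summable.of_nonneg_of_le (fun n => ?_) (fun n => ?_) SS_summable_aux
    · split_ifs <;> positivity
    · split_ifs
      · exact le_rfl
      · positivity

/-- full sum versus truncated sum -/
theorem SS_sub_Smid (X : ℕ) (hX : 4096 ≤ LL X) :
    Smid X ≤ SS (Real.log X) ∧ SS (Real.log X) ≤ Smid X + 5 * Real.exp (-(2.05 * √(LL X))) := by
  have hL0 : 0 < LL X := by linarith
  have hlog : Real.log X = Real.exp (LL X) := log_eq_exp_LL hL0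
  have hy : 1 ≤ Real.log X := by
    rw [hlog]; exact Real.one_le_exp hL0.le
  have hs0 : 0 ≤ √(LL X) := Real.sqrt_nonneg _
  have hss : √(LL X) * √(LL X) = LL X := Real.mul_self_sqrt hL0.le
  rw [Smid_eq hL0]
  have hsum := SS_summable hy
  constructor
  · exact hsum.sum_le_tsum _ (fun p _ => term_nonneg (by linarith) p)
  · unfold SS
    set f : Nat.Primes → ℝ := fun p => (1 / 2 : ℝ) ^ (p : ℕ) * Real.log X ^ (-(1 : ℝ) / ((p : ℝ) - 1)) with hf
    have hmidsum : ∑ p ∈ midP X, f p = ∑' p : Nat.Primes, (if p ∈ midP X then f p else 0) := by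
      rw [tsum_eq_sum (s := midP X)]
      · exact Finset.sum_congr rfl fun p hp => (if_pos hp).symm
      · intro p hp; exact if_neg hp
    -- pointwise bound
    have hpt : ∀ p : Nat.Primes, f p ≤ (if p ∈ midP X then f p else 0) +
        (if 3 * √(LL X) < (p : ℝ) then (1 / 2 : ℝ) ^ (p : ℕ) else 0) +
        (1 / 2 : ℝ) ^ (p : ℕ) * Real.exp (-(8 * √(LL X))) := by
      intro p
      by_cases h1 : p ∈ midP X
      · rw [if_pos h1]
        have h2 : 0 ≤ (if 3 * √(LL X) < (p : ℝ) then (1 / 2 : ℝ) ^ (p : ℕ) else 0) := by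
          split_ifs <;> positivity
        have h3 : 0 ≤ (1 / 2 : ℝ) ^ (p : ℕ) * Real.exp (-(8 * √(LL X))) := by positivity
        linarith
      · rw [if_neg h1, zero_add]
        rw [mem_midP, mem_mid] at h1
        push Not at h1
        by_cases h2 : 3 * √(LL X) < (p : ℝ)
        · rw [if_pos h2]
          have := term_le hy p
          have h3 : 0 ≤ (1 / 2 : ℝ) ^ (p : ℕ) * Real.exp (-(8 * √(LL X))) := by positivity
          linarith
        · rw [if_neg h2, zero_add]
          have h3 : ((p : ℕ) : ℝ) < √(LL X) / 8 := by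
            by_contra hcon
            push Not at hcon
            exact h2 (h1 p.2 hcon)
          simp only [hf]
          apply mul_le_mul_of_nonneg_left _ (by positivity)
          rw [hlog, ← Real.exp_mul]
          apply Real.exp_le_exp.mpr
          have h4 := prime_sub_one_pos p
          rw [mul_div_assoc', mul_neg_one, neg_div]
          apply neg_le_neg
          rw [le_div_iff₀ (by linarith)]
          have h5 : 8 * √(LL X) * ((p : ℝ) - 1) ≤ 8 * √(LL X) * (√(LL X) / 8) := by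
            apply mul_le_mul_of_nonneg_left (by linarith) (by positivity)
          calc 8 * √(LL X) * ((p : ℝ) - 1) ≤ 8 * √(LL X) * (√(LL X) / 8) := h5
            _ = √(LL X) * √(LL X) := by ring
            _ = LL X := hss
    have hsA : Summable (fun p : Nat.Primes => (if p ∈ midP X then f p else 0)) :=
      summable_of_ne_finset_zero (s := midP X) (fun p hp => if_neg hp)
    have hsB : Summable (fun p : Nat.Primes => (if 3 * √(LL X) < (p : ℝ) then (1 / 2 : ℝ) ^ (p : ℕ) else 0)) := by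
      refine Summable.of_nonneg_of_le (fun n => ?_) (fun n => ?_) SS_summable_aux
      · split_ifs <;> positivity
      · split_ifs
        · exact le_rfl
        · positivity
    have hsC : Summable (fun p : Nat.Primes => (1 / 2 : ℝ) ^ (p : ℕ) * Real.exp (-(8 * √(LL X)))) :=
      SS_summable_aux.mul_right _
    have h5 := hsum.tsum_le_tsum hpt ((hsA.add hsB).add hsC)
    rw [(hsA.add hsB).tsum_add hsC, hsA.tsum_add hsB, ← hmidsum, tsum_mul_right] at h5
    have h6 := tail_large X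
    have h7 : ∑' p : Nat.Primes, (1 / 2 : ℝ) ^ (p : ℕ) ≤ 2 := by
      have h8 := tsum_geometric_of_lt_one (by norm_num) (by norm_num : (1 / 2 : ℝ) < 1)
      have h9 : ∑' p : Nat.Primes, (1 / 2 : ℝ) ^ (p : ℕ) ≤ ∑' n : ℕ, (1 / 2 : ℝ) ^ n := by
        refine Summable.tsum_le_tsum_of_inj (fun p : Nat.Primes => (p : ℕ)) (fun a b h => Subtype.ext h)
          (fun n _ => by positivity) (fun p => le_rfl) SS_summable_aux
          (summable_geometric_of_lt_one (by norm_num) (by norm_num))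
      rw [h8] at h9
      norm_num at h9 ⊢
      exact h9
    have h8 : 2 * (1 / 2 : ℝ) ^ (⌊3 * √(LL X)⌋₊ + 1) ≤ 2 * Real.exp (-(2.05 * √(LL X))) := by
      have h9 := two_pow_bound (√(LL X)) hs0 (⌊3 * √(LL X)⌋₊ + 1) 0 (by
        push_cast
        have := Nat.lt_floor_add_one (3 * √(LL X))
        linarith)
      rw [Real.rpow_zero, one_mul] at h9
      rw [one_div, inv_pow]
      linarith
    have h9 : Real.exp (-(8 * √(LL X))) ≤ Real.exp (-(2.05 * √(LL X))) :=
      Real.exp_le_exp.mpr (by linarith)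
    have h10 := Real.exp_pos (-(8 * √(LL X)))
    have h11 : (∑' p : Nat.Primes, (1 / 2 : ℝ) ^ (p : ℕ)) * Real.exp (-(8 * √(LL X))) ≤
        2 * Real.exp (-(8 * √(LL X))) := mul_le_mul_of_nonneg_right h7 h10.le
    have h12 := Real.exp_pos (-(2.05 * √(LL X)))
    linarith

/-- lower bound for the main sum, from Bertrand's postulate -/
theorem Smid_lower : ∃ L0 : ℝ, ∀ X : ℕ, L0 ≤ LL X → Real.exp (-(1.9 * √(LL X))) ≤ Smid X := by
  refine ⟨40000, fun X hX => ?_⟩
  have hs200 : 200 ≤ √(LL X) := by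
    rw [show (200 : ℝ) = √40000 by
      rw [show (40000 : ℝ) = 200 ^ 2 by norm_num, Real.sqrt_sq (by norm_num)]]
    exact Real.sqrt_le_sqrt hX
  have hL0 : 0 < LL X := by linarith
  have hss : √(LL X) * √(LL X) = LL X := Real.mul_self_sqrt hL0.le
  set s := √(LL X) with hs
  set t := ⌈0.85 * s⌉₊ with ht
  have ht1 : 0.85 * s ≤ t := Nat.le_ceil _
  have ht2 : (t : ℝ) < 0.85 * s + 1 := Nat.ceil_lt_add_one (by positivity)
  have ht0 : t ≠ 0 := by
    intro h
    rw [h] at ht1
    push_cast at ht1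
    linarith
  obtain ⟨p, hp, hp1, hp2⟩ := Nat.exists_prime_lt_and_le_two_mul t ht0
  have hp1' : (t : ℝ) < p := by exact_mod_cast hp1
  have hp2' : (p : ℝ) ≤ 2 * t := by exact_mod_cast hp2
  have hpm : p ∈ mid X := by
    rw [mem_mid]
    refine ⟨hp, by linarith, by linarith⟩
  unfold Smid
  refine le_trans ?_ (Finset.single_le_sum (f := fun p : ℕ => (1 / 2 : ℝ) ^ p * Real.exp (-(LL X / ((p : ℝ) - 1))))
    (fun q _ => by positivity) hpm)
  have h1 : (1 / 2 : ℝ) ^ p = Real.exp (-(p * Real.log 2)) := by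
    rw [Real.exp_neg, Real.exp_nat_mul, Real.exp_log (by norm_num), one_div, inv_pow]
  simp only [h1]
  rw [← Real.exp_add]
  apply Real.exp_le_exp.mpr
  have hlog2 := Real.log_two_lt_d9
  have hlog2' := Real.log_two_gt_d9
  set v := (p : ℝ) - 1 with hv
  have hva : 0.84 * s ≤ v := by linarith
  have hvb : v ≤ 1.72 * s := by linarith
  have hv0 : 0 < v := by linarith
  have h2 : LL X / v ≤ 1.7751 * s - 0.692 * v := by
    rw [div_le_iff₀ hv0, ← hss]
    nlinarith [mul_nonneg (sub_nonneg.mpr hva) (sub_nonneg.mpr hvb), mul_pos (show 0 < s by linarith) hv0]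
  have h3 : (p : ℝ) * Real.log 2 ≤ 0.6932 * v + 0.6932 := by
    have : (p : ℝ) = v + 1 := by rw [hv]; ring
    rw [this]
    nlinarith
  linarith

end Pool.Agent.H93
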