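import Pool.Agent.H93.Final1

/-!
The asymptotic formula for the number of non-arithmetic integers (helper file).
-/

namespace Pool.Agent.H93

open Finset Filter Topology

/-- the counting function of non-arithmetic integers -/
noncomputable def NN (x : ℝ) : ℕ :=
  ((Finset.Icc 1 ⌊x⌋₊).filter (fun n => ¬ n.divisors.card ∣ ∑ d ∈ n.divisors, d)).card

lemma NN_eq (x : ℝ) : NN x = (NA ⌊x⌋₊).card := by
  unfold NN NA sg
  congr 1

theorem nat_bounds (ε : ℝ) (hε : 0 < ε) (hε1 : ε < 1) : ∃ L0 : ℝ, ∀ X : ℕ, L0 ≤ LL X →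
    (1 - ε) * (X * SS (Real.log X)) ≤ (NA X).card ∧
    ((NA X).card : ℝ) ≤ (1 + ε) * (X * SS (Real.log X)) ∧ 0 < SS (Real.log X) := by
  obtain ⟨L1, h1⟩ := lower_main (ε / 2) (by positivity) (by linarith)
  obtain ⟨C, hC, L2, h2⟩ := error_bound
  obtain ⟨L3, h3⟩ := main_upper (ε / 2) (by positivity)
  obtain ⟨L4, h4⟩ := Smid_lower
  have hev : ∀ᶠ L : ℝ in atTop, (C + 5) * Real.exp (-(0.13 * √L)) ≤ ε / 2 := by
    have t1 : Tendsto (fun L : ℝ => 0.13 * √L) atTop atTop :=
      Real.tendsto_sqrt_atTop.const_mul_atTop (by norm_num)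
    have t2 := (Real.tendsto_exp_neg_atTop_nhds_zero.comp t1).const_mul (C + 5)
    rw [mul_zero] at t2
    exact t2.eventually (ge_mem_nhds (show (0 : ℝ) < ε / 2 by positivity))
  obtain ⟨L5, h5⟩ := eventually_atTop.mp hev
  refine ⟨max (max (max L1 L2) (max L3 L4)) (max L5 4096), fun X hX => ?_⟩
  have hXa := (le_max_left _ _).trans hX
  have hXb := (le_max_right _ _).trans hX
  have hXc := (le_max_left _ _).trans hXa
  have hXd := (le_max_right _ _).trans hXa
  have hX1 : L1 ≤ LL X := (le_max_left _ _).trans hXc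
  have hX2 : L2 ≤ LL X := (le_max_right _ _).trans hXc
  have hX3 : L3 ≤ LL X := (le_max_left _ _).trans hXd
  have hX4 : L4 ≤ LL X := (le_max_right _ _).trans hXd
  have hX5 : L5 ≤ LL X := (le_max_left _ _).trans hXb
  have hX7 : 4096 ≤ LL X := (le_max_right _ _).trans hXb
  have hlo := h1 X hX1
  have hup := h2 X hX2
  have hmn := h3 X hX3
  have hSl := h4 X hX4
  have he := h5 (LL X) hX5
  obtain ⟨hS1, hS2⟩ := SS_sub_Smid X hX7
  set s := √(LL X) with hs
  have hs0 : 0 ≤ s := Real.sqrt_nonneg _
  have hSpos : 0 < Smid X := lt_of_lt_of_le (Real.exp_pos _) hSl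
  have hX0 : (0 : ℝ) ≤ X := Nat.cast_nonneg X
  -- error terms
  have e1 : (C + 5) * Real.exp (-(2.03 * s)) ≤ ε / 2 * Smid X := by
    have e : Real.exp (-(2.03 * s)) = Real.exp (-(0.13 * s)) * Real.exp (-(1.9 * s)) := by
      rw [← Real.exp_add]; congr 1; ring
    rw [e, ← mul_assoc]
    exact mul_le_mul he hSl (Real.exp_pos _).le (by positivity)
  have e2 : Real.exp (-(2.05 * s)) ≤ Real.exp (-(2.03 * s)) := Real.exp_le_exp.mpr (by linarith)
  have e3 := Real.exp_pos (-(2.03 * s))
  have e4 : C * Real.exp (-(2.03 * s)) ≤ ε / 2 * Smid X := by nlinarith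
  have e5 : 5 * Real.exp (-(2.05 * s)) ≤ ε / 2 * Smid X := by nlinarith
  refine ⟨?_, ?_, lt_of_lt_of_le hSpos hS1⟩
  · -- lower
    have h6 : SS (Real.log X) ≤ (1 + ε / 2) * Smid X := by linarith
    have h7 : (1 - ε) * (1 + ε / 2) ≤ 1 - ε / 2 := by nlinarith
    calc (1 - ε) * (X * SS (Real.log X)) ≤ (1 - ε) * (X * ((1 + ε / 2) * Smid X)) := by
          apply mul_le_mul_of_nonneg_left _ (by linarith)
          apply mul_le_mul_of_nonneg_left h6 hX0
      _ = ((1 - ε) * (1 + ε / 2)) * (X * Smid X) := by ring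
      _ ≤ (1 - ε / 2) * (X * Smid X) := mul_le_mul_of_nonneg_right h7 (by positivity)
      _ ≤ _ := hlo
  · have h6 : C * (X * Real.exp (-(2.03 * s))) ≤ ε / 2 * (X * Smid X) := by
      calc C * (X * Real.exp (-(2.03 * s))) = X * (C * Real.exp (-(2.03 * s))) := by ring
        _ ≤ X * (ε / 2 * Smid X) := mul_le_mul_of_nonneg_left e4 hX0
        _ = _ := by ring
    calc ((NA X).card : ℝ) ≤ (1 + ε / 2) * (X * Smid X) + ε / 2 * (X * Smid X) := by linarith
      _ = (1 + ε) * (X * Smid X) := by ring
      _ ≤ (1 + ε) * (X * SS (Real.log X)) := by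
          apply mul_le_mul_of_nonneg_left _ (by linarith)
          exact mul_le_mul_of_nonneg_left hS1 hX0

/-- monotonicity properties of `SS` -/
lemma SS_anti {y z : ℝ} (hy : 1 ≤ y) (hyz : y ≤ z) : SS z ≤ SS y ∧ y * SS y ≤ z * SS z := by
  have hz : 1 ≤ z := hy.trans hyz
  constructor
  · apply (SS_summable hz).tsum_le_tsum _ (SS_summable hy)
    intro p
    have h1 := prime_sub_one_pos p
    apply mul_le_mul_of_nonneg_left _ (by positivity)
    apply Real.rpow_le_rpow_of_nonpos (by linarith) hyz
    apply div_nonpos_of_nonpos_of_nonneg (by norm_num) (by linarith)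
  · unfold SS
    rw [← tsum_mul_left, ← tsum_mul_left]
    apply ((SS_summable hy).mul_left y).tsum_le_tsum _ ((SS_summable hz).mul_left z)
    intro p
    have h1 := prime_sub_one_pos p
    have e : ∀ w : ℝ, 0 < w → w * ((1 / 2 : ℝ) ^ (p : ℕ) * w ^ (-(1 : ℝ) / ((p : ℝ) - 1))) =
        (1 / 2 : ℝ) ^ (p : ℕ) * w ^ (1 + (-(1 : ℝ) / ((p : ℝ) - 1))) := by
      intro w hw
      rw [Real.rpow_add hw, Real.rpow_one]; ring
    rw [e y (by linarith), e z (by linarith)]
    apply mul_le_mul_of_nonneg_left _ (by positivity)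
    apply Real.rpow_le_rpow (by linarith) hyz
    rw [neg_div, ← sub_eq_add_neg, sub_nonneg, div_le_one (by linarith)]
    exact h1

/-- **The asymptotic formula**: `N(x)/x ∼ ∑_p 2^{-p} (log x)^{-1/(p-1)}`. -/
theorem main_asymptotic :
    Tendsto (fun x : ℝ => (NN x : ℝ) / (x * SS (Real.log x))) atTop (𝓝 1) := by
  -- along the floor
  have hfl : Tendsto (fun x : ℝ => ⌊x⌋₊) atTop atTop := tendsto_nat_floor_atTop
  have hnat : Tendsto (fun X : ℕ => ((NA X).card : ℝ) / (X * SS (Real.log X))) atTop (𝓝 1) := by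
    rw [Metric.tendsto_atTop]
    intro ε hε
    set δ := min (ε / 2) (1 / 2) with hδ
    have hδ0 : 0 < δ := by rw [hδ]; positivity
    have hδ1 : δ < 1 := lt_of_le_of_lt (min_le_right _ _) (by norm_num)
    have hδε : δ ≤ ε / 2 := min_le_left _ _
    obtain ⟨L0, h0⟩ := nat_bounds δ hδ0 hδ1
    obtain ⟨X0, hX0⟩ := eventually_atTop.mp (tendsto_LL.eventually_ge_atTop L0)
    refine ⟨max X0 1, fun X hX => ?_⟩
    obtain ⟨h1, h2, h3⟩ := h0 X (hX0 X ((le_max_left _ _).trans hX))
    have hX1 : (0 : ℝ) < X := by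
      have := (le_max_right _ _).trans hX
      exact_mod_cast this
    have hpos : 0 < X * SS (Real.log X) := by positivity
    rw [Real.dist_eq, abs_sub_lt_iff]
    constructor
    · rw [sub_lt_iff_lt_add, div_lt_iff₀ hpos]
      nlinarith
    · rw [sub_lt_comm, lt_div_iff₀ hpos]
      nlinarith
  have hnat' := hnat.comp hfl
  -- comparison factor
  have hcomp : Tendsto (fun x : ℝ => ((⌊x⌋₊ : ℝ) * SS (Real.log ⌊x⌋₊)) / (x * SS (Real.log x))) atTop (𝓝 1) := by
    have t1 : Tendsto (fun x : ℝ => (⌊x⌋₊ : ℝ) / x) atTop (𝓝 1) := tendsto_nat_floor_div_atTop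
    have t2 : Tendsto (fun x : ℝ => SS (Real.log ⌊x⌋₊) / SS (Real.log x)) atTop (𝓝 1) := by
      have t3 : Tendsto (fun x : ℝ => Real.log x / Real.log ⌊x⌋₊) atTop (𝓝 1) := by
        -- log x ≤ log ⌊x⌋ + log 2
        have hlf : Tendsto (fun x : ℝ => Real.log (⌊x⌋₊ : ℝ)) atTop atTop :=
          Real.tendsto_log_atTop.comp (tendsto_natCast_atTop_atTop.comp hfl)
        have t4 : Tendsto (fun x : ℝ => 1 + Real.log 2 / Real.log (⌊x⌋₊ : ℝ)) atTop (𝓝 (1 + 0)) :=
          tendsto_const_nhds.add (tendsto_const_nhds.div_atTop hlf)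
        rw [add_zero] at t4
        refine tendsto_of_tendsto_of_tendsto_of_le_of_le' tendsto_const_nhds t4 ?_ ?_
        · filter_upwards [hlf.eventually_gt_atTop 0, eventually_gt_atTop 1] with x hx hx1
          rw [le_div_iff₀ hx, one_mul]
          apply Real.log_le_log
          · by_contra hcon
            push Not at hcon
            have : (⌊x⌋₊ : ℝ) = 0 := le_antisymm hcon (Nat.cast_nonneg _)
            rw [this] at hx
            simp at hx
          · exact Nat.floor_le (by linarith)
        · filter_upwards [hlf.eventually_gt_atTop 0, eventually_gt_atTop 1] with x hx hx1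
          rw [div_le_iff₀ hx, add_mul, div_mul_cancel₀ _ hx.ne', one_mul]
          have hf1 : (1 : ℝ) ≤ (⌊x⌋₊ : ℝ) := by
            have : 1 ≤ ⌊x⌋₊ := Nat.le_floor (by push_cast; linarith)
            exact_mod_cast this
          rw [← Real.log_mul (by linarith) (by norm_num)]
          apply Real.log_le_log (by linarith)
          have := Nat.lt_floor_add_one x
          linarith
      refine tendsto_of_tendsto_of_tendsto_of_le_of_le' tendsto_const_nhds t3 ?_ ?_
      · have hlf : Tendsto (fun x : ℝ => Real.log (⌊x⌋₊ : ℝ)) atTop atTop :=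
          Real.tendsto_log_atTop.comp (tendsto_natCast_atTop_atTop.comp hfl)
        filter_upwards [hlf.eventually_ge_atTop 1, eventually_gt_atTop 1] with x hx hx1
        have hle : Real.log (⌊x⌋₊ : ℝ) ≤ Real.log x := by
          apply Real.log_le_log
          · by_contra hcon
            push Not at hcon
            have : (⌊x⌋₊ : ℝ) = 0 := le_antisymm hcon (Nat.cast_nonneg _)
            rw [this] at hx
            simp at hx
            linarith
          · exact Nat.floor_le (by linarith)
        obtain ⟨h1, h2⟩ := SS_anti hx hle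
        have hpos : 0 < SS (Real.log x) := by
          have hx' : 1 ≤ Real.log x := hx.trans hle
          have := (SS_summable hx').tsum_pos (fun p => term_nonneg (by linarith) p) ⟨2, Nat.prime_two⟩
            (by
              apply mul_pos (by positivity)
              exact Real.rpow_pos_of_pos (by linarith) _)
          exact this
        rw [le_div_iff₀ hpos, one_mul]
        exact h1
      · have hlf : Tendsto (fun x : ℝ => Real.log (⌊x⌋₊ : ℝ)) atTop atTop :=
          Real.tendsto_log_atTop.comp (tendsto_natCast_atTop_atTop.comp hfl)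
        filter_upwards [hlf.eventually_ge_atTop 1, eventually_gt_atTop 1] with x hx hx1
        have hle : Real.log (⌊x⌋₊ : ℝ) ≤ Real.log x := by
          apply Real.log_le_log
          · by_contra hcon
            push Not at hcon
            have : (⌊x⌋₊ : ℝ) = 0 := le_antisymm hcon (Nat.cast_nonneg _)
            rw [this] at hx
            simp at hx
            linarith
          · exact Nat.floor_le (by linarith)
        obtain ⟨h1, h2⟩ := SS_anti hx hle
        have hpos : 0 < SS (Real.log x) := by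
          have hx' : 1 ≤ Real.log x := hx.trans hle
          have := (SS_summable hx').tsum_pos (fun p => term_nonneg (by linarith) p) ⟨2, Nat.prime_two⟩
            (by
              apply mul_pos (by positivity)
              exact Real.rpow_pos_of_pos (by linarith) _)
          exact this
        rw [div_le_div_iff₀ hpos (by linarith)]
        linarith
    have t3 := t1.mul t2
    rw [mul_one] at t3
    refine t3.congr fun x => ?_
    rw [div_mul_div_comm]
  have hfin := hnat'.mul hcomp
  rw [mul_one] at hfin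
  refine hfin.congr' ?_
  have hlf : Tendsto (fun x : ℝ => Real.log (⌊x⌋₊ : ℝ)) atTop atTop :=
    Real.tendsto_log_atTop.comp (tendsto_natCast_atTop_atTop.comp hfl)
  filter_upwards [hlf.eventually_ge_atTop 1, eventually_gt_atTop 1] with x hx hx1
  have hf1 : (1 : ℝ) ≤ (⌊x⌋₊ : ℝ) := by
    have : 1 ≤ ⌊x⌋₊ := Nat.le_floor (by push_cast; linarith)
    exact_mod_cast this
  have hpos : 0 < SS (Real.log (⌊x⌋₊ : ℝ)) := by
    have := (SS_summable hx).tsum_pos (fun p => term_nonneg (by linarith) p) ⟨2, Nat.prime_two⟩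
      (by
        apply mul_pos (by positivity)
        exact Real.rpow_pos_of_pos (by linarith) _)
    exact this
  simp only [Function.comp]
  rw [NN_eq, div_mul_div_cancel₀]
  positivity

end Pool.Agent.H93
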