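import Pool.Agent.H93.Final2

/-!
The main sum as a Gaussian weighted count of primes (helper file).
-/

namespace Pool.Agent.H93

open Finset Filter Topology

/-- first weight -/
noncomputable def wgt (t : ℝ) (p : Nat.Primes) : ℝ :=
  Real.exp (-(Real.log 2 * (((p : ℝ) - 1) - t) ^ 2 / ((p : ℝ) - 1)))

/-- Gaussian weight -/
noncomputable def ggt (t : ℝ) (p : Nat.Primes) : ℝ :=
  Real.exp (-(Real.log 2 * ((p : ℝ) - t) ^ 2 / t))

noncomputable def WW (t : ℝ) : ℝ := ∑' p : Nat.Primes, wgt t p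

/-- the Gaussian weighted count of primes near `t` -/
noncomputable def GG (t : ℝ) : ℝ := ∑' p : Nat.Primes, ggt t p

lemma half_pow_eq (p : Nat.Primes) : (1 / 2 : ℝ) ^ (p : ℕ) =
    1 / 2 * Real.exp (-(Real.log 2 * ((p : ℝ) - 1))) := by
  have h1 : Real.exp (-(Real.log 2 * ((p : ℝ) - 1))) = Real.exp (Real.log 2) * Real.exp (((p : ℕ) : ℝ) * (-Real.log 2)) := by
    rw [← Real.exp_add]; congr 1; ring
  rw [h1, Real.exp_nat_mul, Real.exp_neg, Real.exp_log (by norm_num)]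
  rw [one_div, inv_pow]
  ring

lemma term_eq (t : ℝ) (p : Nat.Primes) :
    (1 / 2 : ℝ) ^ (p : ℕ) * (Real.exp (Real.log 2 * t ^ 2)) ^ (-(1 : ℝ) / ((p : ℝ) - 1)) =
      1 / 2 * Real.exp (-(2 * Real.log 2 * t)) * wgt t p := by
  have h1 := prime_sub_one_pos p
  rw [half_pow_eq, ← Real.exp_mul, wgt, mul_assoc (1 / 2 : ℝ) (Real.exp (-(Real.log 2 * ((p : ℝ) - 1)))),
    ← Real.exp_add, mul_assoc (1 / 2 : ℝ) (Real.exp (-(2 * Real.log 2 * t))), ← Real.exp_add]
  congr 2
  field_simp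
  ring

lemma SS_eq (t : ℝ) : SS (Real.exp (Real.log 2 * t ^ 2)) = 1 / 2 * Real.exp (-(2 * Real.log 2 * t)) * WW t := by
  unfold SS WW
  rw [← tsum_mul_left]
  exact tsum_congr (term_eq t)

lemma wgt_summable (t : ℝ) : Summable (wgt t) := by
  have h1 : Summable (fun p : Nat.Primes => 2 * Real.exp (2 * Real.log 2 * t) * (1 / 2 : ℝ) ^ (p : ℕ)) :=
    SS_summable_aux.mul_left _
  refine Summable.of_nonneg_of_le (fun p => (Real.exp_pos _).le) (fun p => ?_) h1
  have h2 := term_eq t p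
  have hlog : 0 < Real.log 2 := Real.log_pos (by norm_num)
  have hy : 1 ≤ Real.exp (Real.log 2 * t ^ 2) := Real.one_le_exp (by positivity)
  have h3 := term_le hy p
  rw [h2] at h3
  have h4 : Real.exp (-(2 * Real.log 2 * t)) * Real.exp (2 * Real.log 2 * t) = 1 := by
    rw [← Real.exp_add]; simp
  have h5 := mul_le_mul_of_nonneg_left h3 (show 0 ≤ 2 * Real.exp (2 * Real.log 2 * t) by positivity)
  calc wgt t p = (Real.exp (-(2 * Real.log 2 * t)) * Real.exp (2 * Real.log 2 * t)) * wgt t p := by rw [h4, one_mul]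
    _ = 2 * Real.exp (2 * Real.log 2 * t) * (1 / 2 * Real.exp (-(2 * Real.log 2 * t)) * wgt t p) := by ring
    _ ≤ _ := h5

/-- eventual inequalities for the parameter `s = t^(1/12)` -/
lemma ev_s (ε : ℝ) (hε : 0 < ε) : ∃ s0 : ℝ, 2 ≤ s0 ∧ ∀ s : ℝ, s0 ≤ s →
    s ^ 12 * (2 * s ^ 12 + 1) ^ 2 ≤ Real.exp (Real.log 2 * (s ^ 2 / 4)) ∧
    Real.exp (Real.log 2 * (5 / s ^ 3)) ≤ 1 + ε ∧
    (∀ v : ℝ, s ≤ v → v * (v + 1) ^ 2 ≤ Real.exp (Real.log 2 * (v / 4))) := by
  have hlog : 0 < Real.log 2 := Real.log_pos (by norm_num)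
  have e1 : ∀ᶠ s : ℝ in atTop, s ^ 12 * (2 * s ^ 12 + 1) ^ 2 ≤ Real.exp (Real.log 2 * (s ^ 2 / 4)) := by
    have h1 := (Real.tendsto_exp_div_pow_atTop 37)
    have h2 : Tendsto (fun s : ℝ => Real.log 2 / 4 * s ^ 2) atTop atTop :=
      (tendsto_pow_atTop (by norm_num)).const_mul_atTop (by positivity)
    have h3 := (Real.tendsto_exp_div_pow_atTop 19).comp h2
    filter_upwards [h3.eventually_ge_atTop (9 / (Real.log 2 / 4) ^ 19), eventually_ge_atTop 1] with s hs hs1
    simp only [Function.comp] at hs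
    have h4 : 0 < (Real.log 2 / 4 * s ^ 2) ^ 19 := by positivity
    rw [le_div_iff₀ h4] at hs
    have h5 : 9 / (Real.log 2 / 4) ^ 19 * (Real.log 2 / 4 * s ^ 2) ^ 19 = 9 * s ^ 38 := by
      rw [mul_pow]; field_simp
    rw [h5] at hs
    have h6 : s ^ 12 * (2 * s ^ 12 + 1) ^ 2 ≤ 9 * s ^ 38 := by
      have h7 : 1 ≤ s ^ 12 := one_le_pow₀ hs1
      calc s ^ 12 * (2 * s ^ 12 + 1) ^ 2 ≤ s ^ 12 * (3 * s ^ 12) ^ 2 := by gcongr; linarith
        _ = 9 * s ^ 36 := by ring
        _ ≤ 9 * s ^ 38 := by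
            apply mul_le_mul_of_nonneg_left _ (by norm_num)
            exact pow_le_pow_right₀ hs1 (by norm_num)
    refine h6.trans (hs.trans (le_of_eq ?_))
    congr 1
    ring
  have e2 : ∀ᶠ s : ℝ in atTop, Real.exp (Real.log 2 * (5 / s ^ 3)) ≤ 1 + ε := by
    have h1 : Tendsto (fun s : ℝ => Real.log 2 * (5 / s ^ 3)) atTop (𝓝 (Real.log 2 * 0)) := by
      apply Tendsto.const_mul
      exact tendsto_const_nhds.div_atTop (tendsto_pow_atTop (by norm_num))
    rw [mul_zero] at h1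
    have h2 := (Real.continuous_exp.tendsto 0).comp h1
    rw [Real.exp_zero] at h2
    exact h2.eventually (ge_mem_nhds (by linarith))
  have e3 : ∀ᶠ s : ℝ in atTop, ∀ v : ℝ, s ≤ v → v * (v + 1) ^ 2 ≤ Real.exp (Real.log 2 * (v / 4)) := by
    have h2 : Tendsto (fun s : ℝ => Real.log 2 / 4 * s) atTop atTop :=
      tendsto_id.const_mul_atTop (by positivity)
    have h3 := (Real.tendsto_exp_div_pow_atTop 3).comp h2
    have h4 : ∀ᶠ v : ℝ in atTop, v * (v + 1) ^ 2 ≤ Real.exp (Real.log 2 * (v / 4)) := by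
      filter_upwards [h3.eventually_ge_atTop (4 / (Real.log 2 / 4) ^ 3), eventually_ge_atTop 1] with s hs hs1
      simp only [Function.comp] at hs
      have h4 : 0 < (Real.log 2 / 4 * s) ^ 3 := by positivity
      rw [le_div_iff₀ h4] at hs
      have h5 : 4 / (Real.log 2 / 4) ^ 3 * (Real.log 2 / 4 * s) ^ 3 = 4 * s ^ 3 := by
        rw [mul_pow]; field_simp
      rw [h5] at hs
      have h6 : s * (s + 1) ^ 2 ≤ 4 * s ^ 3 := by
        calc s * (s + 1) ^ 2 ≤ s * (2 * s) ^ 2 := by gcongr; linarith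
          _ = 4 * s ^ 3 := by ring
      refine h6.trans (hs.trans (le_of_eq ?_))
      congr 1
      ring
    exact eventually_forall_ge_atTop.mpr h4
  obtain ⟨s0, h0⟩ := eventually_atTop.mp (e1.and (e2.and e3))
  exact ⟨max s0 2, le_max_right _ _, fun s hs => h0 s ((le_max_left _ _).trans hs)⟩

/-- pointwise comparison of the two weights -/
lemma weight_compare (ε : ℝ) (hε : 0 < ε) : ∃ t0 : ℝ, 2 ≤ t0 ∧ ∀ t : ℝ, t0 ≤ t → ∀ p : Nat.Primes,
    wgt t p ≤ (1 + ε) * ggt t p + 1 / (t * (p : ℝ) ^ 2) ∧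
    ggt t p ≤ (1 + ε) * wgt t p + 1 / (t * (p : ℝ) ^ 2) ∧
    (t ^ (7 / 12 : ℝ) < |(p : ℝ) - 1 - t| → ggt t p ≤ 1 / (t * (p : ℝ) ^ 2)) := by
  obtain ⟨s0, hs2, hs0⟩ := ev_s ε hε
  refine ⟨s0 ^ 12, ?_, fun t ht p => ?_⟩
  · calc (2 : ℝ) ≤ 2 ^ 12 := by norm_num
      _ ≤ s0 ^ 12 := by gcongr
  have hlog : 0 < Real.log 2 := Real.log_pos (by norm_num)
  have ht0 : 0 < t := lt_of_lt_of_le (by positivity) ht
  set s := t ^ (1 / 12 : ℝ) with hs
  have hst : s ^ 12 = t := by
    rw [hs, ← Real.rpow_natCast, ← Real.rpow_mul ht0.le]; norm_num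
  have hs7 : t ^ (7 / 12 : ℝ) = s ^ 7 := by
    rw [hs, ← Real.rpow_natCast, ← Real.rpow_mul ht0.le]; norm_num
  have hss0 : s0 ≤ s := by
    have h1 : s0 ^ 12 ≤ s ^ 12 := by rw [hst]; exact ht
    exact le_of_pow_le_pow_left₀ (by norm_num) (Real.rpow_nonneg ht0.le _) h1
  have hs2' : 2 ≤ s := hs2.trans hss0
  obtain ⟨h1, h2, h3⟩ := hs0 s hss0
  rw [hs7]
  have hp1 := prime_sub_one_pos p
  set v : ℝ := (p : ℝ) - 1 with hv
  have hpv : (p : ℝ) = v + 1 := by rw [hv]; ring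
  have hv0 : 0 < v := by linarith
  have hs1 : (1 : ℝ) ≤ s := by linarith
  have hs5 : (1 : ℝ) ≤ s ^ 5 := one_le_pow₀ hs1
  have hs7' : (2 : ℝ) ≤ s ^ 7 := by
    calc (2 : ℝ) ≤ s := hs2'
      _ = s ^ 1 := (pow_one s).symm
      _ ≤ s ^ 7 := pow_le_pow_right₀ hs1 (by norm_num)
  have hs12 : 2 * s ^ 7 ≤ s ^ 12 := by
    have : s ^ 12 = s ^ 5 * s ^ 7 := by ring
    rw [this]
    apply mul_le_mul_of_nonneg_right _ (by positivity)
    calc (2 : ℝ) ≤ s := hs2'
      _ = s ^ 1 := (pow_one s).symm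
      _ ≤ s ^ 5 := pow_le_pow_right₀ hs1 (by norm_num)
  have hw0 : 0 < wgt t p := Real.exp_pos _
  have hg0 : 0 < ggt t p := Real.exp_pos _
  have hr0 : 0 ≤ 1 / (t * (p : ℝ) ^ 2) := by positivity
  by_cases hwin : |v - t| ≤ s ^ 7
  · -- inside the window
    have hvt : t / 2 ≤ v := by
      have := (abs_le.mp hwin).1
      rw [← hst] at this ⊢
      linarith
    have hD : |(v - t) ^ 2 / v - ((p : ℝ) - t) ^ 2 / t| ≤ 5 / s ^ 3 := by
      have e : (v - t) ^ 2 / v - ((p : ℝ) - t) ^ 2 / t = -((v - t) ^ 3 / (v * t)) - (2 * (v - t) + 1) / t := by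
        rw [hpv]; field_simp; ring
      rw [e]
      have b1 : |(v - t) ^ 3 / (v * t)| ≤ 2 / s ^ 3 := by
        rw [abs_div, abs_pow, abs_of_pos (show 0 < v * t by positivity)]
        rw [div_le_div_iff₀ (by positivity) (by positivity)]
        calc |v - t| ^ 3 * s ^ 3 ≤ (s ^ 7) ^ 3 * s ^ 3 := by gcongr
          _ = s ^ 12 * s ^ 12 := by ring
          _ = 2 * ((t / 2) * t) := by rw [hst]; ring
          _ ≤ 2 * (v * t) := by gcongr
      have b2 : |(2 * (v - t) + 1) / t| ≤ 3 / s ^ 3 := by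
        rw [abs_div, abs_of_pos ht0, div_le_div_iff₀ ht0 (by positivity)]
        have b3 : |2 * (v - t) + 1| ≤ 2 * s ^ 7 + 1 := by
          calc |2 * (v - t) + 1| ≤ |2 * (v - t)| + |1| := abs_add_le _ _
            _ = 2 * |v - t| + 1 := by rw [abs_mul]; norm_num
            _ ≤ _ := by linarith
        calc |2 * (v - t) + 1| * s ^ 3 ≤ (3 * s ^ 7) * s ^ 3 := by
              gcongr
              linarith
          _ = 3 * s ^ 10 := by ring
          _ ≤ 3 * s ^ 12 := by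
              apply mul_le_mul_of_nonneg_left _ (by norm_num)
              exact pow_le_pow_right₀ hs1 (by norm_num)
          _ = 3 * t := by rw [hst]
      calc _ ≤ |-((v - t) ^ 3 / (v * t))| + |(2 * (v - t) + 1) / t| := abs_sub _ _
        _ ≤ 2 / s ^ 3 + 3 / s ^ 3 := by rw [abs_neg]; exact add_le_add b1 b2
        _ = 5 / s ^ 3 := by ring
    rw [abs_le] at hD
    have c1 : wgt t p ≤ (1 + ε) * ggt t p := by
      calc wgt t p ≤ Real.exp (Real.log 2 * (5 / s ^ 3)) * ggt t p := by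
            unfold wgt ggt
            rw [← Real.exp_add]
            apply Real.exp_le_exp.mpr
            rw [← hv]
            have := mul_le_mul_of_nonneg_left hD.1 hlog.le
            have e1 : Real.log 2 * (v - t) ^ 2 / v = Real.log 2 * ((v - t) ^ 2 / v) := by ring
            have e2 : Real.log 2 * ((p : ℝ) - t) ^ 2 / t = Real.log 2 * (((p : ℝ) - t) ^ 2 / t) := by ring
            rw [e1, e2]
            linarith
        _ ≤ (1 + ε) * ggt t p := mul_le_mul_of_nonneg_right h2 hg0.le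
    have c2 : ggt t p ≤ (1 + ε) * wgt t p := by
      calc ggt t p ≤ Real.exp (Real.log 2 * (5 / s ^ 3)) * wgt t p := by
            unfold wgt ggt
            rw [← Real.exp_add]
            apply Real.exp_le_exp.mpr
            rw [← hv]
            have := mul_le_mul_of_nonneg_left hD.2 hlog.le
            have e1 : Real.log 2 * (v - t) ^ 2 / v = Real.log 2 * ((v - t) ^ 2 / v) := by ring
            have e2 : Real.log 2 * ((p : ℝ) - t) ^ 2 / t = Real.log 2 * (((p : ℝ) - t) ^ 2 / t) := by ring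
            rw [e1, e2]
            linarith
        _ ≤ (1 + ε) * wgt t p := mul_le_mul_of_nonneg_right h2 hw0.le
    refine ⟨by linarith, by linarith, fun h => absurd hwin (not_le.mpr h)⟩
  · -- outside the window
    push Not at hwin
    have key : ∀ E : ℝ, (v ≤ 2 * t → s ^ 2 / 4 ≤ E) → (2 * t < v → v / 4 ≤ E) →
        Real.exp (-(Real.log 2 * E)) ≤ 1 / (t * (p : ℝ) ^ 2) := by
      intro E hE1 hE2
      rw [Real.exp_neg, ← one_div]
      have hp0 : 0 < (p : ℝ) := by linarith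
      apply one_div_le_one_div_of_le (mul_pos ht0 (pow_pos hp0 2))
      rcases le_or_gt v (2 * t) with h | h
      · calc t * (p : ℝ) ^ 2 ≤ t * (2 * t + 1) ^ 2 := by rw [hpv]; gcongr
          _ = s ^ 12 * (2 * s ^ 12 + 1) ^ 2 := by rw [hst]
          _ ≤ _ := h1
          _ ≤ _ := Real.exp_le_exp.mpr (mul_le_mul_of_nonneg_left (hE1 h) hlog.le)
      · have hsv : s ≤ v := by
          have : s ≤ s ^ 12 := by
            calc s = s ^ 1 := (pow_one s).symm
              _ ≤ s ^ 12 := pow_le_pow_right₀ hs1 (by norm_num)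
          rw [hst] at this
          linarith
        calc t * (p : ℝ) ^ 2 ≤ v * (v + 1) ^ 2 := by
              rw [hpv]
              apply mul_le_mul_of_nonneg_right (by linarith) (by positivity)
          _ ≤ _ := h3 v hsv
          _ ≤ _ := Real.exp_le_exp.mpr (mul_le_mul_of_nonneg_left (hE2 h) hlog.le)
    have hu2 : s ^ 14 ≤ (v - t) ^ 2 := by
      rw [← sq_abs (v - t)]
      calc s ^ 14 = (s ^ 7) ^ 2 := by ring
        _ ≤ |v - t| ^ 2 := by gcongr
    have hu3 : s ^ 14 / 4 ≤ ((p : ℝ) - t) ^ 2 := by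
      have b1 : s ^ 7 / 2 ≤ |(p : ℝ) - t| := by
        have : |v - t| ≤ |(p : ℝ) - t| + 1 := by
          have : v - t = ((p : ℝ) - t) + (-1) := by rw [hpv]; ring
          rw [this]
          calc |((p : ℝ) - t) + (-1)| ≤ |(p : ℝ) - t| + |(-1 : ℝ)| := abs_add_le _ _
            _ = |(p : ℝ) - t| + 1 := by norm_num
        linarith
      rw [← sq_abs ((p : ℝ) - t)]
      calc s ^ 14 / 4 = (s ^ 7 / 2) ^ 2 := by ring
        _ ≤ |(p : ℝ) - t| ^ 2 := by gcongr
    have c1 : wgt t p ≤ 1 / (t * (p : ℝ) ^ 2) := by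
      unfold wgt
      rw [← hv, mul_div_assoc]
      apply key
      · intro h
        rw [le_div_iff₀ hv0]
        calc s ^ 2 / 4 * v ≤ s ^ 2 / 4 * (2 * t) := by gcongr
          _ = s ^ 14 / 2 := by rw [← hst]; ring
          _ ≤ s ^ 14 := by
              have : 0 < s ^ 14 := by positivity
              linarith
          _ ≤ _ := hu2
      · intro h
        rw [le_div_iff₀ hv0]
        nlinarith
    have c2 : ggt t p ≤ 1 / (t * (p : ℝ) ^ 2) := by
      unfold ggt
      rw [mul_div_assoc]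
      apply key
      · intro h
        rw [le_div_iff₀ ht0]
        calc s ^ 2 / 4 * t = s ^ 14 / 4 := by rw [← hst]; ring
          _ ≤ _ := hu3
      · intro h
        rw [le_div_iff₀ ht0, hpv]
        nlinarith
    refine ⟨?_, ?_, fun _ => c2⟩
    · have : 0 ≤ (1 + ε) * ggt t p := by positivity
      linarith
    · have : 0 ≤ (1 + ε) * wgt t p := by positivity
      linarith

end Pool.Agent.H93
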