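import Pool.Agent.H93.Gauss1

/-!
Comparison of the two weighted counts of primes (helper file).
-/

namespace Pool.Agent.H93

open Finset Filter Topology

/-- the expected size of the Gaussian weighted count of primes near `t` -/
noncomputable def RR (t : ℝ) : ℝ := √(Real.pi * t / Real.log 2) / Real.log t

lemma prime_sq_summable : Summable (fun p : Nat.Primes => 1 / (p : ℝ) ^ 2) :=
  (Real.summable_one_div_nat_pow.mpr (by norm_num : 1 < 2)).comp_injective (fun a b h => Subtype.ext h)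

lemma inv_summable (t : ℝ) : Summable (fun p : Nat.Primes => 1 / (t * (p : ℝ) ^ 2)) := by
  have := prime_sq_summable.mul_left (1 / t)
  refine this.congr fun p => ?_
  rw [div_mul_div_comm, one_mul]

lemma ggt_summable : ∃ t0 : ℝ, 2 ≤ t0 ∧ ∀ t : ℝ, t0 ≤ t → Summable (ggt t) := by
  obtain ⟨t0, h2, h0⟩ := weight_compare 1 zero_lt_one
  refine ⟨t0, h2, fun t ht => ?_⟩
  refine Summable.of_nonneg_of_le (fun p => (Real.exp_pos _).le) (fun p => (h0 t ht p).2.1) ?_
  exact ((wgt_summable t).mul_left _).add (inv_summable t)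

lemma log_two_pos : 0 < Real.log 2 := Real.log_pos (by norm_num)

lemma RR_pos {t : ℝ} (ht : 2 ≤ t) : 0 < RR t := by
  unfold RR
  have := log_two_pos
  have h2 : 0 < Real.log t := Real.log_pos (by linarith)
  apply div_pos (Real.sqrt_pos.mpr _) h2
  have := Real.pi_pos
  positivity

lemma tendsto_inv_RR : Tendsto (fun t : ℝ => 1 / (t * RR t)) atTop (𝓝 0) := by
  -- 1/(t RR t) ≤ 1/ t for large t, because RR t ≥ 1 eventually
  have h1 : Tendsto (fun t : ℝ => Real.log t / t ^ (1 / 2 : ℝ)) atTop (𝓝 0) :=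
    (isLittleO_log_rpow_atTop (by norm_num : (0 : ℝ) < 1 / 2)).tendsto_div_nhds_zero
  have h2 : ∀ᶠ t : ℝ in atTop, 1 ≤ RR t := by
    filter_upwards [h1.eventually (ge_mem_nhds (show (0 : ℝ) < 1 by norm_num)), eventually_ge_atTop 2] with t h1 h2
    have hlog : 0 < Real.log t := Real.log_pos (by linarith)
    rw [div_le_iff₀ (by positivity), one_mul, ← Real.sqrt_eq_rpow] at h1
    unfold RR
    rw [le_div_iff₀ hlog, one_mul]
    refine h1.trans (Real.sqrt_le_sqrt ?_)
    rw [le_div_iff₀ log_two_pos]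
    have := Real.pi_gt_three
    have := Real.log_two_lt_d9
    nlinarith
  refine tendsto_of_tendsto_of_tendsto_of_le_of_le' tendsto_const_nhds
    (tendsto_const_nhds.div_atTop tendsto_id : Tendsto (fun t : ℝ => (1 : ℝ) / t) atTop (𝓝 0)) ?_ ?_
  · filter_upwards [h2, eventually_gt_atTop 0] with t h2 h3
    have : 0 < RR t := by linarith
    positivity
  · filter_upwards [h2, eventually_gt_atTop 0] with t h2 h3
    apply one_div_le_one_div_of_le h3
    nlinarith

/-- comparison of the normalised counts -/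
theorem compare (ε : ℝ) (hε : 0 < ε) : ∀ᶠ t in atTop,
    WW t / RR t ≤ (1 + ε) * (GG t / RR t) + ε ∧ GG t / RR t ≤ (1 + ε) * (WW t / RR t) + ε := by
  obtain ⟨t0, h2, h0⟩ := weight_compare ε hε
  obtain ⟨t1, _, h1⟩ := ggt_summable
  set C := ∑' p : Nat.Primes, 1 / (p : ℝ) ^ 2 with hC
  have hlim : Tendsto (fun t : ℝ => C * (1 / (t * RR t))) atTop (𝓝 (C * 0)) := tendsto_inv_RR.const_mul C
  rw [mul_zero] at hlim
  filter_upwards [eventually_ge_atTop t0, eventually_ge_atTop t1, eventually_ge_atTop 2,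
    hlim.eventually (ge_mem_nhds hε)] with t ht0 ht1 ht2 ht3
  have hR := RR_pos ht2
  have hg := h1 t ht1
  have hw := wgt_summable t
  have hi := inv_summable t
  have e : ∑' p : Nat.Primes, 1 / (t * (p : ℝ) ^ 2) = C / t := by
    rw [hC, ← tsum_div_const]
    apply tsum_congr
    intro p
    rw [div_div, mul_comm]
  have b1 : WW t ≤ (1 + ε) * GG t + C / t := by
    unfold WW GG
    rw [← e, ← tsum_mul_left, ← (hg.mul_left _).tsum_add hi]
    exact hw.tsum_le_tsum (fun p => (h0 t ht0 p).1) ((hg.mul_left _).add hi)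
  have b2 : GG t ≤ (1 + ε) * WW t + C / t := by
    unfold WW GG
    rw [← e, ← tsum_mul_left, ← (hw.mul_left _).tsum_add hi]
    exact hg.tsum_le_tsum (fun p => (h0 t ht0 p).2.1) ((hw.mul_left _).add hi)
  have e2 : C / t / RR t = C * (1 / (t * RR t)) := by
    rw [div_div, mul_one_div]
  constructor
  · calc WW t / RR t ≤ ((1 + ε) * GG t + C / t) / RR t := by gcongr
      _ = (1 + ε) * (GG t / RR t) + C / t / RR t := by ring
      _ ≤ _ := by rw [e2]; linarith
  · calc GG t / RR t ≤ ((1 + ε) * WW t + C / t) / RR t := by gcongr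
      _ = (1 + ε) * (WW t / RR t) + C / t / RR t := by ring
      _ ≤ _ := by rw [e2]; linarith

/-- abstract transfer of limits -/
lemma transfer {a b : ℝ → ℝ} {l : ℝ} (hl : 0 ≤ l)
    (h : ∀ ε > 0, ∀ᶠ t in atTop, a t ≤ (1 + ε) * b t + ε ∧ b t ≤ (1 + ε) * a t + ε)
    (ha : Tendsto a atTop (𝓝 l)) : Tendsto b atTop (𝓝 l) := by
  rw [Metric.tendsto_nhds] at ha ⊢
  intro η hη
  set ε := min (η / (4 * (l + 2))) 1 with hε
  have hε0 : 0 < ε := by
    rw [hε]
    apply lt_min _ one_pos
    positivity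
  have hε1 : ε ≤ 1 := min_le_right _ _
  have hεη : ε * (4 * (l + 2)) ≤ η := by
    have : ε ≤ η / (4 * (l + 2)) := min_le_left _ _
    rwa [le_div_iff₀ (by positivity)] at this
  filter_upwards [h ε hε0, ha ε hε0] with t ⟨h1, h2⟩ h3
  rw [Real.dist_eq, abs_sub_lt_iff] at h3 ⊢
  obtain ⟨h3a, h3b⟩ := h3
  constructor
  · have : (1 + ε) * a t ≤ (1 + ε) * (l + ε) := by
      apply mul_le_mul_of_nonneg_left _ (by linarith)
      linarith
    nlinarith
  · -- l - b < η
    by_contra hcon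
    push Not at hcon
    have hb : b t ≤ l - η := by linarith
    have : (1 + ε) * b t ≤ (1 + ε) * (l - η) := mul_le_mul_of_nonneg_left hb (by linarith)
    nlinarith

lemma transfer_top {a b : ℝ → ℝ}
    (h : ∀ ε > 0, ∀ᶠ t in atTop, a t ≤ (1 + ε) * b t + ε ∧ b t ≤ (1 + ε) * a t + ε)
    (ha : Tendsto a atTop atTop) : Tendsto b atTop atTop := by
  rw [tendsto_atTop] at ha ⊢
  intro M
  filter_upwards [h 1 one_pos, ha (2 * M + 1)] with t ⟨h1, _⟩ h2
  linarith

end Pool.Agent.H93
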