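import Pool.Agent.H93.Gauss2
import Pool.Agent.H90.PNT

/-!
Averages of the Gaussian weighted count of primes (helper file).
-/

namespace Pool.Agent.H93

open Finset Filter Topology MeasureTheory

lemma gauss_anti (a : ℝ) (ha : 0 < a) (s : Set ℝ) (hs : ∀ x ∈ s, 0 ≤ x) :
    AntitoneOn (fun x : ℝ => Real.exp (-a * x ^ 2)) s := by
  intro x hx y hy hxy
  apply Real.exp_le_exp.mpr
  have := hs x hx
  have h2 : x ^ 2 ≤ y ^ 2 := by gcongr
  nlinarith

lemma gsum_upper (a : ℝ) (ha : 0 < a) (K : ℕ) :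
    ∑ k ∈ range K, Real.exp (-a * (k : ℝ) ^ 2) ≤ 1 + √(Real.pi / a) / 2 := by
  rcases Nat.eq_zero_or_pos K with rfl | hK
  · simp; positivity
  obtain ⟨n, rfl⟩ : ∃ n, K = n + 1 := ⟨K - 1, by omega⟩
  rw [Finset.sum_range_succ']
  have h1 : ∑ i ∈ range n, Real.exp (-a * ((i + 1 : ℕ) : ℝ) ^ 2) ≤ ∫ x in (0 : ℝ)..(0 + (n : ℕ)), Real.exp (-a * x ^ 2) := by
    have := AntitoneOn.sum_le_integral (x₀ := 0) (a := n) (f := fun x : ℝ => Real.exp (-a * x ^ 2))
      (gauss_anti a ha _ (fun x hx => hx.1))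
    simpa using this
  have h2 : ∫ x in (0 : ℝ)..(0 + (n : ℕ)), Real.exp (-a * x ^ 2) ≤ √(Real.pi / a) / 2 := by
    rw [← integral_gaussian_Ioi, intervalIntegral.integral_of_le (by simp)]
    apply setIntegral_mono_set (integrable_exp_neg_mul_sq ha).integrableOn
    · exact Filter.Eventually.of_forall fun x => (Real.exp_pos _).le
    · apply HasSubset.Subset.eventuallyLE
      intro x hx; exact hx.1
  have h3 : Real.exp (-a * ((0 : ℕ) : ℝ) ^ 2) = 1 := by simp
  rw [h3]
  linarith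

lemma gsum_lower (ε : ℝ) (hε : 0 < ε) : ∃ Y0 : ℝ, ∀ a : ℝ, 0 < a → ∀ K : ℕ, Y0 ≤ K * √a →
    (1 - ε) * (√(Real.pi / a) / 2) ≤ ∑ k ∈ range K, Real.exp (-a * (k : ℝ) ^ 2) := by
  have hint : Tendsto (fun Y : ℝ => ∫ x in (0 : ℝ)..Y, Real.exp (-1 * x ^ 2)) atTop
      (𝓝 (∫ x in Set.Ioi (0 : ℝ), Real.exp (-1 * x ^ 2))) :=
    intervalIntegral_tendsto_integral_Ioi 0 (integrable_exp_neg_mul_sq one_pos).integrableOn tendsto_id
  rw [integral_gaussian_Ioi] at hint
  have hpos : 0 < √(Real.pi / 1) / 2 := by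
    have := Real.pi_pos
    positivity
  obtain ⟨Y0, h0⟩ := eventually_atTop.mp (hint.eventually (lt_mem_nhds (show (1 - ε) * (√(Real.pi / 1) / 2) < √(Real.pi / 1) / 2 by nlinarith)))
  refine ⟨Y0, fun a ha K hK => ?_⟩
  have hsa : 0 < √a := Real.sqrt_pos.mpr ha
  have h1 : ∫ x in (0 : ℝ)..(0 + (K : ℕ)), Real.exp (-a * x ^ 2) ≤ ∑ i ∈ range K, Real.exp (-a * (i : ℝ) ^ 2) := by
    have := AntitoneOn.integral_le_sum (x₀ := 0) (a := K) (f := fun x : ℝ => Real.exp (-a * x ^ 2))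
      (gauss_anti a ha _ (fun x hx => hx.1))
    simpa using this
  refine le_trans ?_ h1
  have h2 : ∫ x in (0 : ℝ)..(0 + (K : ℕ)), Real.exp (-a * x ^ 2) =
      (√a)⁻¹ * ∫ x in (0 : ℝ)..(K * √a), Real.exp (-1 * x ^ 2) := by
    have h3 := intervalIntegral.integral_comp_mul_right (a := (0 : ℝ)) (b := (K : ℝ)) (c := √a)
      (fun x => Real.exp (-1 * x ^ 2)) hsa.ne'
    rw [zero_mul, smul_eq_mul] at h3
    rw [← h3, zero_add]
    congr 1
    ext x
    congr 1
    rw [mul_pow, Real.sq_sqrt ha.le]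
    ring
  rw [h2]
  have h3 := h0 _ hK
  have h4 : √(Real.pi / a) = (√a)⁻¹ * √(Real.pi / 1) := by
    rw [div_one, Real.sqrt_div' _ ha.le, div_eq_inv_mul]
  rw [h4]
  calc (1 - ε) * ((√a)⁻¹ * √(Real.pi / 1) / 2) = (√a)⁻¹ * ((1 - ε) * (√(Real.pi / 1) / 2)) := by ring
    _ ≤ _ := mul_le_mul_of_nonneg_left h3.le (by positivity)

/-- inner sums, upper bound -/
lemma inner_upper (a : ℝ) (ha : 0 < a) (T D p : ℕ) :
    ∑ t ∈ Ioc T (T + D), Real.exp (-a * ((p : ℝ) - t) ^ 2) ≤ 2 + √(Real.pi / a) := by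
  rw [← Finset.sum_filter_add_sum_filter_not (Ioc T (T + D)) (fun t => t ≤ p)]
  have h1 : ∑ t ∈ (Ioc T (T + D)).filter (fun t => t ≤ p), Real.exp (-a * ((p : ℝ) - t) ^ 2) ≤
      ∑ k ∈ range (p + 1), Real.exp (-a * (k : ℝ) ^ 2) := by
    have h2 : ∑ t ∈ (Ioc T (T + D)).filter (fun t => t ≤ p), Real.exp (-a * ((p : ℝ) - t) ^ 2) =
        ∑ k ∈ ((Ioc T (T + D)).filter (fun t => t ≤ p)).image (fun t => p - t), Real.exp (-a * (k : ℝ) ^ 2) := by
      rw [Finset.sum_image]
      · refine Finset.sum_congr rfl fun t ht => ?_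
        rw [Finset.mem_filter] at ht
        rw [Nat.cast_sub ht.2]
      · intro x hx y hy hxy
        simp only [Finset.coe_filter, Set.mem_setOf_eq] at hx hy
        simp only at hxy
        omega
    rw [h2]
    apply Finset.sum_le_sum_of_subset_of_nonneg
    · intro k hk
      rw [Finset.mem_image] at hk
      obtain ⟨t, ht, rfl⟩ := hk
      rw [Finset.mem_range]; omega
    · intro k _ _; positivity
  have h3 : ∑ t ∈ (Ioc T (T + D)).filter (fun t => ¬ t ≤ p), Real.exp (-a * ((p : ℝ) - t) ^ 2) ≤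
      ∑ k ∈ range (T + D + 1), Real.exp (-a * (k : ℝ) ^ 2) := by
    have h2 : ∑ t ∈ (Ioc T (T + D)).filter (fun t => ¬ t ≤ p), Real.exp (-a * ((p : ℝ) - t) ^ 2) =
        ∑ k ∈ ((Ioc T (T + D)).filter (fun t => ¬ t ≤ p)).image (fun t => t - p), Real.exp (-a * (k : ℝ) ^ 2) := by
      rw [Finset.sum_image]
      · refine Finset.sum_congr rfl fun t ht => ?_
        rw [Finset.mem_filter] at ht
        rw [Nat.cast_sub (by omega)]
        congr 1
        ring
      · intro x hx y hy hxy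
        simp only [Finset.coe_filter, Set.mem_setOf_eq] at hx hy
        simp only at hxy
        omega
    rw [h2]
    apply Finset.sum_le_sum_of_subset_of_nonneg
    · intro k hk
      rw [Finset.mem_image] at hk
      obtain ⟨t, ht, rfl⟩ := hk
      rw [Finset.mem_filter, Finset.mem_Ioc] at ht
      rw [Finset.mem_range]; omega
    · intro k _ _; positivity
  have h4 := gsum_upper a ha (p + 1)
  have h5 := gsum_upper a ha (T + D + 1)
  linarith

/-- inner sums, lower bound -/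
lemma inner_lower (a : ℝ) (T D p K : ℕ) (h1 : T + K ≤ p) (h2 : p + K ≤ T + D + 1) :
    2 * ∑ k ∈ range K, Real.exp (-a * (k : ℝ) ^ 2) - 1 ≤ ∑ t ∈ Ioc T (T + D), Real.exp (-a * ((p : ℝ) - t) ^ 2) := by
  rcases Nat.eq_zero_or_pos K with rfl | hK
  · simp only [Finset.range_zero, Finset.sum_empty, mul_zero, zero_sub]
    have : 0 ≤ ∑ t ∈ Ioc T (T + D), Real.exp (-a * ((p : ℝ) - t) ^ 2) :=
      Finset.sum_nonneg fun t _ => (Real.exp_pos _).le
    linarith
  obtain ⟨n, rfl⟩ : ∃ n, K = n + 1 := ⟨K - 1, by omega⟩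
  have hA : ∑ t ∈ (range (n + 1)).image (fun k => p - k), Real.exp (-a * ((p : ℝ) - t) ^ 2) =
      ∑ k ∈ range (n + 1), Real.exp (-a * (k : ℝ) ^ 2) := by
    rw [Finset.sum_image]
    · refine Finset.sum_congr rfl fun k hk => ?_
      rw [Finset.mem_range] at hk
      rw [Nat.cast_sub (by omega)]
      congr 1; ring
    · intro x hx y hy hxy
      simp only [Finset.coe_range, Set.mem_Iio] at hx hy
      simp only at hxy
      omega
  have hB : ∑ t ∈ (range n).image (fun k => p + (k + 1)), Real.exp (-a * ((p : ℝ) - t) ^ 2) =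
      ∑ k ∈ range n, Real.exp (-a * ((k + 1 : ℕ) : ℝ) ^ 2) := by
    rw [Finset.sum_image]
    · refine Finset.sum_congr rfl fun k _ => ?_
      push_cast
      congr 1; ring
    · intro x hx y hy hxy
      simp only at hxy
      omega
  have hdisj : Disjoint ((range (n + 1)).image (fun k => p - k)) ((range n).image (fun k => p + (k + 1))) := by
    rw [Finset.disjoint_left]
    intro x hx hy
    rw [Finset.mem_image] at hx hy
    obtain ⟨k, _, hk⟩ := hx
    obtain ⟨l, _, hl⟩ := hy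
    omega
  have hsub : ((range (n + 1)).image (fun k => p - k)) ∪ ((range n).image (fun k => p + (k + 1))) ⊆ Ioc T (T + D) := by
    intro x hx
    rw [Finset.mem_union, Finset.mem_image, Finset.mem_image] at hx
    rw [Finset.mem_Ioc]
    rcases hx with ⟨k, hk, rfl⟩ | ⟨k, hk, rfl⟩
    · rw [Finset.mem_range] at hk; omega
    · rw [Finset.mem_range] at hk; omega
  have h3 := Finset.sum_le_sum_of_subset_of_nonneg (f := fun t : ℕ => Real.exp (-a * ((p : ℝ) - t) ^ 2)) hsub
    (fun t _ _ => (Real.exp_pos _).le)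
  rw [Finset.sum_union hdisj, hA, hB] at h3
  have h4 : ∑ k ∈ range (n + 1), Real.exp (-a * (k : ℝ) ^ 2) =
      ∑ k ∈ range n, Real.exp (-a * ((k + 1 : ℕ) : ℝ) ^ 2) + 1 := by
    rw [Finset.sum_range_succ']; simp
  linarith

/-- the prime number theorem in scaled form -/
lemma pnt_scaled (b : ℝ) (hb : 0 < b) :
    Tendsto (fun T : ℕ => (Nat.primeCounting ⌊b * T⌋₊ : ℝ) * (Real.log T / T)) atTop (𝓝 b) := by
  have hbT : Tendsto (fun T : ℕ => b * (T : ℝ)) atTop atTop :=
    tendsto_natCast_atTop_atTop.const_mul_atTop hb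
  have h1 := Pool.Agent.H90.tendsto_primeCounting.comp hbT
  have hlog : Tendsto (fun T : ℕ => Real.log (T : ℝ)) atTop atTop :=
    Real.tendsto_log_atTop.comp tendsto_natCast_atTop_atTop
  have h2 : Tendsto (fun T : ℕ => Real.log (T : ℝ) / (Real.log b + Real.log T)) atTop (𝓝 1) := by
    have h3 : Tendsto (fun T : ℕ => Real.log b / Real.log (T : ℝ)) atTop (𝓝 0) :=
      tendsto_const_nhds.div_atTop hlog
    have h4 := (h3.add_const 1).inv₀ (by norm_num)
    rw [zero_add, inv_one] at h4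
    refine h4.congr' ?_
    filter_upwards [hlog.eventually_gt_atTop 0] with T hT
    rw [div_add_one hT.ne', inv_div]
  have h3 := (h1.mul h2).mul_const b
  rw [one_mul, one_mul] at h3
  refine h3.congr' ?_
  filter_upwards [hlog.eventually_gt_atTop |Real.log b|, eventually_gt_atTop 0] with T hT hT0
  have hT0' : (0 : ℝ) < T := by exact_mod_cast hT0
  simp only [Function.comp]
  rw [Real.log_mul hb.ne' hT0'.ne']
  have h5 : Real.log b + Real.log T ≠ 0 := by
    have := neg_abs_le (Real.log b)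
    linarith
  field_simp

end Pool.Agent.H93
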