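import Pool.Agent.H93.Gauss3

/-!
Averages of the Gaussian weighted count of primes (helper file).
-/

namespace Pool.Agent.H93

open Finset Filter Topology

/-- primes in an interval -/
def PP (A B : ℕ) : Finset ℕ := (Ioc A B).filter Nat.Prime

lemma card_PP (A B : ℕ) (h : A ≤ B) : (PP A B).card + Nat.primeCounting A = Nat.primeCounting B := by
  unfold PP Nat.primeCounting Nat.primeCounting'
  rw [Nat.count_eq_card_filter_range, Nat.count_eq_card_filter_range, ← Finset.card_union_of_disjoint]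
  · congr 1
    ext x
    simp only [Finset.mem_union, Finset.mem_filter, Finset.mem_Ioc, Finset.mem_range]
    constructor
    · rintro (⟨h1, h2⟩ | ⟨h1, h2⟩)
      · exact ⟨by omega, h2⟩
      · exact ⟨by omega, h2⟩
    · rintro ⟨h1, h2⟩
      by_cases h3 : A < x
      · left; exact ⟨by omega, h2⟩
      · right; exact ⟨by omega, h2⟩
  · rw [Finset.disjoint_left]
    intro x hx hy
    simp only [Finset.mem_filter, Finset.mem_Ioc, Finset.mem_range] at hx hy
    omega

/-- a finite set of primes, as a set of elements of `Nat.Primes` -/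
def PPs (P : Finset ℕ) (hP : ∀ p ∈ P, p.Prime) : Finset Nat.Primes :=
  P.attach.image (fun p => ⟨p.1, hP p.1 p.2⟩)

lemma mem_PPs {P : Finset ℕ} {hP : ∀ p ∈ P, p.Prime} {p : Nat.Primes} : p ∈ PPs P hP ↔ (p : ℕ) ∈ P := by
  unfold PPs
  rw [Finset.mem_image]
  constructor
  · rintro ⟨q, hq, rfl⟩
    exact q.2
  · intro h
    exact ⟨⟨p, h⟩, Finset.mem_attach _ _, rfl⟩

lemma tsum_primes_ite (P : Finset ℕ) (hP : ∀ p ∈ P, p.Prime) (F : ℕ → ℝ) :
    ∑' p : Nat.Primes, (if (p : ℕ) ∈ P then F p else 0) = ∑ p ∈ P, F p := by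
  rw [tsum_eq_sum (s := PPs P hP)]
  · refine Finset.sum_nbij (fun p => (p : ℕ)) ?_ ?_ ?_ ?_
    · intro p hp; exact mem_PPs.mp hp
    · intro a _ b _ h; exact Subtype.ext h
    · intro p hp
      exact ⟨⟨p, hP p hp⟩, mem_PPs.mpr hp, rfl⟩
    · intro p hp
      rw [if_pos (mem_PPs.mp hp)]
  · intro p hp
    rw [mem_PPs] at hp
    rw [if_neg hp]

lemma ite_summable (P : Finset ℕ) (hP : ∀ p ∈ P, p.Prime) (F : ℕ → ℝ) :
    Summable (fun p : Nat.Primes => if (p : ℕ) ∈ P then F p else 0) := by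
  apply summable_of_ne_finset_zero (s := PPs P hP)
  intro p hp
  rw [mem_PPs] at hp
  rw [if_neg hp]

/-- limits used below -/
lemma lim_aux (δ : ℝ) (hδ : 0 < δ) :
    Tendsto (fun T : ℕ => ((⌊δ * T⌋₊ : ℕ) : ℝ) / T) atTop (𝓝 δ) := by
  have h1 : Tendsto (fun T : ℕ => δ * (T : ℝ)) atTop atTop :=
    tendsto_natCast_atTop_atTop.const_mul_atTop hδ
  have h2 := (tendsto_nat_floor_div_atTop (R := ℝ)).comp h1
  have h3 := h2.mul_const δ
  rw [one_mul] at h3
  refine h3.congr' ?_
  filter_upwards [eventually_gt_atTop 0] with T hT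
  have : (0 : ℝ) < T := by exact_mod_cast hT
  simp only [Function.comp]
  field_simp

/-- upper bound for the sum of `GG` over an interval -/
theorem sum_GG_le (δ η : ℝ) (hδ : 0 < δ) (hδ1 : δ ≤ 1) (hη : 0 < η) (hη1 : η < 1) : ∀ᶠ T : ℕ in atTop,
    ∑ t ∈ Ioc T (T + ⌊δ * T⌋₊), GG t ≤
      ((Nat.primeCounting ⌊(1 + δ + η) * T⌋₊ : ℝ) - Nat.primeCounting ⌊(1 - η) * T⌋₊) *
        (2 + √(Real.pi / (Real.log 2 / (T + (⌊δ * T⌋₊ : ℝ))))) +
      (⌊δ * T⌋₊ : ℝ) * ((∑' p : Nat.Primes, 1 / (p : ℝ) ^ 2) / T) := by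
  obtain ⟨t0, ht02, h0⟩ := weight_compare 1 one_pos
  obtain ⟨t1, ht12, h1⟩ := ggt_summable
  have hev : ∀ᶠ x : ℝ in atTop, (2 * x) ^ (7 / 12 : ℝ) + 1 ≤ η * x := by
    have e1 : Tendsto (fun x : ℝ => x ^ (-(5 / 12) : ℝ)) atTop (𝓝 0) := tendsto_rpow_neg_atTop (by norm_num)
    have e2 : Tendsto (fun x : ℝ => 1 / x) atTop (𝓝 0) := tendsto_const_nhds.div_atTop tendsto_id
    have e3 := (e1.const_mul ((2 : ℝ) ^ (7 / 12 : ℝ))).add e2
    rw [mul_zero, add_zero] at e3
    filter_upwards [e3.eventually (ge_mem_nhds hη), eventually_gt_atTop 0] with x hx hx0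
    have e4 : (2 * x) ^ (7 / 12 : ℝ) + 1 = ((2 : ℝ) ^ (7 / 12 : ℝ) * x ^ (-(5 / 12) : ℝ) + 1 / x) * x := by
      rw [Real.mul_rpow (by norm_num) hx0.le, add_mul, one_div, inv_mul_cancel₀ hx0.ne', mul_assoc]
      congr 2
      rw [← Real.rpow_add_one hx0.ne']
      norm_num
    rw [e4]
    exact mul_le_mul_of_nonneg_right hx hx0.le
  filter_upwards [eventually_gt_atTop 0, tendsto_natCast_atTop_atTop.eventually hev,
    tendsto_natCast_atTop_atTop.eventually (eventually_ge_atTop t0),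
    tendsto_natCast_atTop_atTop.eventually (eventually_ge_atTop t1)] with T hT hwin hTt0 hTt1
  have hT0 : (0 : ℝ) < T := by exact_mod_cast hT
  set D := ⌊δ * T⌋₊ with hD
  have hDle : (D : ℝ) ≤ δ * T := Nat.floor_le (by positivity)
  have hDT : (D : ℝ) ≤ T := hDle.trans (by nlinarith)
  set A := ⌊(1 - η) * T⌋₊ with hA
  set B := ⌊(1 + δ + η) * T⌋₊ with hB
  have hAB : A ≤ B := by
    apply Nat.floor_le_floor
    apply mul_le_mul_of_nonneg_right (by linarith) hT0.le
  set a : ℝ := Real.log 2 / (T + (D : ℝ)) with ha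
  have hlog := log_two_pos
  have ha0 : 0 < a := by
    apply div_pos hlog
    positivity
  set C := ∑' p : Nat.Primes, 1 / (p : ℝ) ^ 2 with hC
  have hPprime : ∀ p ∈ PP A B, p.Prime := fun p hp => (Finset.mem_filter.mp hp).2
  have hpt : ∀ t ∈ Ioc T (T + D), GG t ≤ ∑ p ∈ PP A B, Real.exp (-a * ((p : ℝ) - t) ^ 2) + C / T := by
    intro t ht
    rw [Finset.mem_Ioc] at ht
    have htT : (T : ℝ) < t := by exact_mod_cast ht.1
    have htTD : (t : ℝ) ≤ T + D := by exact_mod_cast ht.2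
    have ht0' : (0 : ℝ) < t := by linarith
    have hs1 := ite_summable (PP A B) hPprime (fun p => Real.exp (-a * ((p : ℝ) - t) ^ 2))
    have hs2 := inv_summable (t : ℝ)
    have hle : ∀ p : Nat.Primes, ggt t p ≤ (if (p : ℕ) ∈ PP A B then Real.exp (-a * ((p : ℝ) - t) ^ 2) else 0) +
        1 / ((t : ℝ) * (p : ℝ) ^ 2) := by
      intro p
      split_ifs with hp
      · have h2 : 0 ≤ 1 / ((t : ℝ) * (p : ℝ) ^ 2) := by positivity
        have h3 : ggt t p ≤ Real.exp (-a * ((p : ℝ) - t) ^ 2) := by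
          unfold ggt
          apply Real.exp_le_exp.mpr
          rw [neg_mul]
          apply neg_le_neg
          have h4 : a ≤ Real.log 2 / t := by
            rw [ha]
            apply div_le_div_of_nonneg_left hlog.le ht0' htTD
          calc a * ((p : ℝ) - t) ^ 2 ≤ Real.log 2 / t * ((p : ℝ) - t) ^ 2 := by gcongr
            _ = _ := by ring
        linarith
      · rw [zero_add]
        apply (h0 t (hTt0.trans htT.le) p).2.2
        have h2 : (t : ℝ) ^ (7 / 12 : ℝ) ≤ (2 * T) ^ (7 / 12 : ℝ) := by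
          apply Real.rpow_le_rpow ht0'.le _ (by norm_num)
          linarith
        have h3 : η * T - 1 < |(p : ℝ) - 1 - t| ∨ η * T ≤ |(p : ℝ) - 1 - t| := by
          unfold PP at hp
          rw [Finset.mem_filter, Finset.mem_Ioc] at hp
          have hp' : ¬ (A < (p : ℕ) ∧ (p : ℕ) ≤ B) := fun h => hp ⟨h, p.2⟩
          rcases le_or_gt (p : ℕ) A with h | h
          · right
            have h4 : ((p : ℕ) : ℝ) ≤ (1 - η) * T := by
              refine le_trans ?_ (Nat.floor_le (mul_nonneg (by linarith) hT0.le))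
              exact_mod_cast h
            rw [abs_of_neg (by nlinarith)]
            nlinarith
          · left
            have h5 : B < (p : ℕ) := by
              by_contra hcon
              exact hp' ⟨h, by omega⟩
            have h4 : (1 + δ + η) * T < ((p : ℕ) : ℝ) := (Nat.floor_lt (by positivity)).mp h5
            have h6 : η * T - 1 < (p : ℝ) - 1 - t := by nlinarith
            exact lt_of_lt_of_le h6 (le_abs_self _)
        rcases h3 with h3 | h3
        · linarith
        · linarith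
    have h2 := (h1 t (hTt1.trans htT.le)).tsum_le_tsum hle (hs1.add hs2)
    have e5 := tsum_primes_ite (PP A B) hPprime (fun p => Real.exp (-a * ((p : ℝ) - t) ^ 2))
    rw [hs1.tsum_add hs2, e5] at h2
    have e : ∑' p : Nat.Primes, 1 / ((t : ℝ) * (p : ℝ) ^ 2) = C / t := by
      rw [hC, ← tsum_div_const]
      apply tsum_congr
      intro p
      rw [div_div, mul_comm]
    rw [e] at h2
    have hC0 : 0 ≤ C := tsum_nonneg fun p => by positivity
    have h3 : C / t ≤ C / T := div_le_div_of_nonneg_left hC0 hT0 htT.le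
    have h4 : GG t = ∑' p, ggt t p := rfl
    rw [h4]
    linarith
  refine (Finset.sum_le_sum hpt).trans ?_
  rw [Finset.sum_add_distrib, Finset.sum_comm, Finset.sum_const, Nat.card_Ioc, Nat.add_sub_cancel_left,
    nsmul_eq_mul]
  apply add_le_add_left
  have h2 : ∑ p ∈ PP A B, ∑ t ∈ Ioc T (T + D), Real.exp (-a * ((p : ℝ) - t) ^ 2) ≤
      (PP A B).card * (2 + √(Real.pi / a)) := by
    refine (Finset.sum_le_card_nsmul _ _ _ (fun p _ => inner_upper a ha0 T D p)).trans ?_
    rw [nsmul_eq_mul]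
  refine h2.trans (le_of_eq ?_)
  congr 1
  have := card_PP A B hAB
  rw [← this]
  push_cast
  ring

/-- lower bound for the sum of `GG` over an interval -/
theorem le_sum_GG (δ η ε : ℝ) (hδ : 0 < δ) (hδ1 : δ ≤ 1) (hη : 0 < η) (hη1 : 2 * η < δ) (hε : 0 < ε) :
    ∀ᶠ T : ℕ in atTop,
    ((Nat.primeCounting ⌊(1 + δ - η) * T⌋₊ : ℝ) - Nat.primeCounting ⌊(1 + η) * T⌋₊) *
        ((1 - ε) * √(Real.pi / (Real.log 2 / T)) - 1) ≤
    ∑ t ∈ Ioc T (T + ⌊δ * T⌋₊), GG t := by
  obtain ⟨t1, ht12, h1⟩ := ggt_summable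
  obtain ⟨Y0, hY0⟩ := gsum_lower ε hε
  have hlog := log_two_pos
  have hev : ∀ᶠ x : ℝ in atTop, Y0 ≤ (η * x - 1) * √(Real.log 2 / x) ∧ 1 ≤ η * x := by
    have e1 : Tendsto (fun x : ℝ => η / 2 * √(Real.log 2) * √x) atTop atTop :=
      Real.tendsto_sqrt_atTop.const_mul_atTop (by positivity)
    filter_upwards [e1.eventually_ge_atTop Y0, eventually_ge_atTop (2 / η), eventually_gt_atTop 0] with x h1 h2 h3
    rw [div_le_iff₀ hη] at h2
    refine ⟨h1.trans ?_, by linarith⟩
    have e2 : η / 2 * √(Real.log 2) * √x = (η / 2 * x) * √(Real.log 2 / x) := by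
      rw [Real.sqrt_div' _ h3.le]
      have h4 : 0 < √x := Real.sqrt_pos.mpr h3
      have h5 : √x * √x = x := Real.mul_self_sqrt h3.le
      field_simp
      rw [Real.sq_sqrt h3.le]
    rw [e2]
    apply mul_le_mul_of_nonneg_right _ (Real.sqrt_nonneg _)
    linarith
  filter_upwards [eventually_gt_atTop 0, tendsto_natCast_atTop_atTop.eventually hev,
    tendsto_natCast_atTop_atTop.eventually (eventually_ge_atTop t1)] with T hT hwin hTt1
  have hT0 : (0 : ℝ) < T := by exact_mod_cast hT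
  set D := ⌊δ * T⌋₊ with hD
  set A := ⌊(1 + η) * T⌋₊ with hA
  set B := ⌊(1 + δ - η) * T⌋₊ with hB
  have hAB : A ≤ B := by
    apply Nat.floor_le_floor
    apply mul_le_mul_of_nonneg_right (by linarith) hT0.le
  set a : ℝ := Real.log 2 / T with ha
  have ha0 : 0 < a := div_pos hlog hT0
  have hPprime : ∀ p ∈ PP A B, p.Prime := fun p hp => (Finset.mem_filter.mp hp).2
  have hpt : ∀ t ∈ Ioc T (T + D), ∑ p ∈ PP A B, Real.exp (-a * ((p : ℝ) - t) ^ 2) ≤ GG t := by
    intro t ht
    rw [Finset.mem_Ioc] at ht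
    have htT : (T : ℝ) < t := by exact_mod_cast ht.1
    have ht0' : (0 : ℝ) < t := by linarith
    have hs1 := ite_summable (PP A B) hPprime (fun p => Real.exp (-a * ((p : ℝ) - t) ^ 2))
    have hle : ∀ p : Nat.Primes, (if (p : ℕ) ∈ PP A B then Real.exp (-a * ((p : ℝ) - t) ^ 2) else 0) ≤ ggt t p := by
      intro p
      split_ifs with hp
      · unfold ggt
        apply Real.exp_le_exp.mpr
        rw [neg_mul]
        apply neg_le_neg
        have h4 : Real.log 2 / t ≤ a := by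
          rw [ha]
          apply div_le_div_of_nonneg_left hlog.le hT0 htT.le
        calc Real.log 2 * ((p : ℝ) - t) ^ 2 / t = Real.log 2 / t * ((p : ℝ) - t) ^ 2 := by ring
          _ ≤ _ := by gcongr
      · exact (Real.exp_pos _).le
    have h2 := hs1.tsum_le_tsum hle (h1 t (hTt1.trans htT.le))
    have e5 := tsum_primes_ite (PP A B) hPprime (fun p => Real.exp (-a * ((p : ℝ) - t) ^ 2))
    rw [e5] at h2
    exact h2
  refine le_trans ?_ (Finset.sum_le_sum hpt)
  rw [Finset.sum_comm]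
  -- the inner sums
  set K := ⌊η * T⌋₊ with hK
  have hKle : (K : ℝ) ≤ η * T := Nat.floor_le (by positivity)
  have hKge : η * T - 1 ≤ K := by
    have := Nat.lt_floor_add_one (η * T)
    linarith
  have hYK : Y0 ≤ K * √a := hwin.1.trans (mul_le_mul_of_nonneg_right hKge (Real.sqrt_nonneg _))
  have hgl := hY0 a ha0 K hYK
  have hinner : ∀ p ∈ PP A B, (1 - ε) * √(Real.pi / a) - 1 ≤ ∑ t ∈ Ioc T (T + D), Real.exp (-a * ((p : ℝ) - t) ^ 2) := by
    intro p hp
    unfold PP at hp
    rw [Finset.mem_filter, Finset.mem_Ioc] at hp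
    have hp1 : (1 + η) * T < (p : ℝ) := (Nat.floor_lt (by positivity)).mp hp.1.1
    have hp2 : (p : ℝ) ≤ (1 + δ - η) * T := by
      refine le_trans ?_ (Nat.floor_le (mul_nonneg (by linarith) hT0.le))
      exact_mod_cast hp.1.2
    have hc1 : T + K ≤ p := by
      have : ((T + K : ℕ) : ℝ) ≤ p := by push_cast; linarith
      exact_mod_cast this
    have hc2 : p + K ≤ T + D + 1 := by
      have h3 : ((p + K : ℕ) : ℝ) < ((T + D + 1 : ℕ) : ℝ) := by
        push_cast
        have := Nat.lt_floor_add_one (δ * T)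
        have h4 : (p : ℝ) + K ≤ (1 + δ) * T := by linarith
        linarith
      have h5 : p + K < T + D + 1 := by exact_mod_cast h3
      omega
    have h3 := inner_lower a T D p K hc1 hc2
    linarith
  have h2 : ((PP A B).card : ℝ) * ((1 - ε) * √(Real.pi / a) - 1) ≤
      ∑ p ∈ PP A B, ∑ t ∈ Ioc T (T + D), Real.exp (-a * ((p : ℝ) - t) ^ 2) := by
    rw [← nsmul_eq_mul]
    exact Finset.card_nsmul_le_sum _ _ _ hinner
  refine le_trans (le_of_eq ?_) h2
  congr 1
  have := card_PP A B hAB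
  rw [← this]
  push_cast
  ring

end Pool.Agent.H93
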