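import Mathlib

/-!
Hardy fields and closed forms: every closed form has a limit (helper file).
-/

namespace Pool.Agent.H93

open Finset Filter Topology

/-- eventually of constant sign -/
def Sgn (f : ℝ → ℝ) : Prop :=
  (∀ᶠ x in atTop, 0 < f x) ∨ (∀ᶠ x in atTop, f x < 0) ∨ (∀ᶠ x in atTop, f x = 0)

/-- a Hardy field, as a ring of real functions closed under eventual equality -/
structure HardyField (K : Subring (ℝ → ℝ)) : Prop where
  const : ∀ c : ℝ, (fun _ => c) ∈ K
  congr : ∀ f g : ℝ → ℝ, f ∈ K → f =ᶠ[atTop] g → g ∈ K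
  inv : ∀ f ∈ K, f⁻¹ ∈ K
  sgn : ∀ f ∈ K, Sgn f
  der : ∀ f ∈ K, ∃ f' ∈ K, ∀ᶠ x in atTop, HasDerivAt f (f' x) x

lemma Sgn.congr {f g : ℝ → ℝ} (hf : Sgn f) (h : f =ᶠ[atTop] g) : Sgn g := by
  rcases hf with hf | hf | hf
  · left; filter_upwards [hf, h] with x h1 h2; rwa [← h2]
  · right; left; filter_upwards [hf, h] with x h1 h2; rwa [← h2]
  · right; right; filter_upwards [hf, h] with x h1 h2; rwa [← h2]

lemma Sgn.mul {f g : ℝ → ℝ} (hf : Sgn f) (hg : Sgn g) : Sgn (f * g) := by
  rcases hf with hf | hf | hf
  · rcases hg with hg | hg | hg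
    · left; filter_upwards [hf, hg] with x h1 h2; exact mul_pos h1 h2
    · right; left; filter_upwards [hf, hg] with x h1 h2; exact mul_neg_of_pos_of_neg h1 h2
    · right; right; filter_upwards [hf, hg] with x h1 h2; simp [h2]
  · rcases hg with hg | hg | hg
    · right; left; filter_upwards [hf, hg] with x h1 h2; exact mul_neg_of_neg_of_pos h1 h2
    · left; filter_upwards [hf, hg] with x h1 h2; exact mul_pos_of_neg_of_neg h1 h2
    · right; right; filter_upwards [hf, hg] with x h1 h2; simp [h2]
  · right; right; filter_upwards [hf] with x h1; simp [h1]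

lemma Sgn.inv {f : ℝ → ℝ} (hf : Sgn f) : Sgn f⁻¹ := by
  rcases hf with hf | hf | hf
  · left; filter_upwards [hf] with x h1; exact inv_pos.mpr h1
  · right; left; filter_upwards [hf] with x h1; exact inv_lt_zero.mpr h1
  · right; right; filter_upwards [hf] with x h1; simp [h1]

/-- a function with a derivative of constant sign is eventually monotone -/
lemma mono_of_der {f f' : ℝ → ℝ} (hd : ∀ᶠ x in atTop, HasDerivAt f (f' x) x) (hs : Sgn f') :
    ∃ a : ℝ, MonotoneOn f (Set.Ici a) ∨ AntitoneOn f (Set.Ici a) := by
  rcases hs with hs | hs | hs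
  · obtain ⟨a, ha⟩ := eventually_atTop.mp (hd.and hs)
    refine ⟨a, Or.inl ?_⟩
    apply monotoneOn_of_deriv_nonneg (convex_Ici a)
    · intro x hx; exact (ha x hx).1.continuousAt.continuousWithinAt
    · intro x hx
      rw [interior_Ici] at hx
      exact (ha x (le_of_lt hx)).1.differentiableAt.differentiableWithinAt
    · intro x hx
      rw [interior_Ici] at hx
      rw [(ha x (le_of_lt hx)).1.deriv]
      exact (ha x (le_of_lt hx)).2.le
  · obtain ⟨a, ha⟩ := eventually_atTop.mp (hd.and hs)
    refine ⟨a, Or.inr ?_⟩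
    apply antitoneOn_of_deriv_nonpos (convex_Ici a)
    · intro x hx; exact (ha x hx).1.continuousAt.continuousWithinAt
    · intro x hx
      rw [interior_Ici] at hx
      exact (ha x (le_of_lt hx)).1.differentiableAt.differentiableWithinAt
    · intro x hx
      rw [interior_Ici] at hx
      rw [(ha x (le_of_lt hx)).1.deriv]
      exact (ha x (le_of_lt hx)).2.le
  · obtain ⟨a, ha⟩ := eventually_atTop.mp (hd.and hs)
    refine ⟨a, Or.inl ?_⟩
    apply monotoneOn_of_deriv_nonneg (convex_Ici a)
    · intro x hx; exact (ha x hx).1.continuousAt.continuousWithinAt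
    · intro x hx
      rw [interior_Ici] at hx
      exact (ha x (le_of_lt hx)).1.differentiableAt.differentiableWithinAt
    · intro x hx
      rw [interior_Ici] at hx
      rw [(ha x (le_of_lt hx)).1.deriv]
      exact (ha x (le_of_lt hx)).2.ge

/-- an eventually monotone function has constant sign -/
lemma sgn_of_mono {f : ℝ → ℝ} {a : ℝ} (h : MonotoneOn f (Set.Ici a)) : Sgn f := by
  by_cases h1 : ∃ b, a ≤ b ∧ 0 < f b
  · obtain ⟨b, hb, hfb⟩ := h1
    left
    filter_upwards [eventually_ge_atTop b] with x hx
    exact lt_of_lt_of_le hfb (h hb (hb.trans hx) hx)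
  · push Not at h1
    by_cases h2 : ∃ b, a ≤ b ∧ 0 ≤ f b
    · obtain ⟨b, hb, hfb⟩ := h2
      right; right
      filter_upwards [eventually_ge_atTop b] with x hx
      exact le_antisymm (h1 x (hb.trans hx)) (hfb.trans (h hb (hb.trans hx) hx))
    · push Not at h2
      right; left
      filter_upwards [eventually_ge_atTop a] with x hx
      exact h2 x hx

lemma Sgn.neg {f : ℝ → ℝ} (hf : Sgn f) : Sgn (-f) := by
  rcases hf with hf | hf | hf
  · right; left; filter_upwards [hf] with x h1; simpa using h1
  · left; filter_upwards [hf] with x h1; simpa using h1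
  · right; right; filter_upwards [hf] with x h1; simpa using h1

lemma sgn_of_der {f f' : ℝ → ℝ} (hd : ∀ᶠ x in atTop, HasDerivAt f (f' x) x) (hs : Sgn f') : Sgn f := by
  obtain ⟨a, h | h⟩ := mono_of_der hd hs
  · exact sgn_of_mono h
  · have h1 : MonotoneOn (-f) (Set.Ici a) := h.neg
    have h2 := (sgn_of_mono h1).neg
    rwa [neg_neg] at h2

/-- limits of functions in a Hardy field -/
lemma limit_of_mono {f : ℝ → ℝ} {a : ℝ} (h : MonotoneOn f (Set.Ici a)) :
    (∃ l : ℝ, Tendsto f atTop (𝓝 l)) ∨ Tendsto f atTop atTop := by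
  have h1 : Monotone (fun x => f (max x a)) := by
    intro x y hxy
    have h1 : a ≤ max x a := le_max_right x a
    have h2 : a ≤ max y a := le_max_right y a
    exact h h1 h2 (max_le_max_right a hxy)
  have h2 : (fun x => f (max x a)) =ᶠ[atTop] f := by
    filter_upwards [eventually_ge_atTop a] with x hx
    rw [max_eq_left hx]
  rcases tendsto_atTop_of_monotone h1 with h3 | ⟨l, h3⟩
  · right; exact h3.congr' h2
  · left; exact ⟨l, h3.congr' h2⟩

lemma HardyField.limit {K : Subring (ℝ → ℝ)} (hK : HardyField K) {f : ℝ → ℝ} (hf : f ∈ K) :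
    (∃ l : ℝ, Tendsto f atTop (𝓝 l)) ∨ Tendsto f atTop atTop ∨ Tendsto f atTop atBot := by
  obtain ⟨f', hf', hd⟩ := hK.der f hf
  obtain ⟨a, h | h⟩ := mono_of_der hd (hK.sgn f' hf')
  · rcases limit_of_mono h with h1 | h1
    · exact Or.inl h1
    · exact Or.inr (Or.inl h1)
  · have h1 : MonotoneOn (-f) (Set.Ici a) := h.neg
    rcases limit_of_mono h1 with ⟨l, h2⟩ | h2
    · left
      refine ⟨-l, ?_⟩
      have := h2.neg
      simpa using this
    · right; right
      have := tendsto_neg_atTop_atBot.comp h2
      simpa [Function.comp_def] using this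

/-- sign of expressions, exponential case -/
lemma sgn_exp_case {K : Subring (ℝ → ℝ)} (hK : HardyField K) (y α : ℝ → ℝ) (hα : α ∈ K)
    (hy : ∀ᶠ x in atTop, HasDerivAt y (α x * y x) x) (hy0 : ∀ᶠ x in atTop, 0 < y x) (n : ℕ) :
    ∀ a : ℕ → ℝ → ℝ, (∀ i, a i ∈ K) → Sgn (fun x => ∑ i ∈ range n, a i x * y x ^ i) := by
  induction n with
  | zero =>
    intro a _
    right; right
    exact Eventually.of_forall fun x => by simp
  | succ n ih =>
    intro a ha
    have hys : Sgn y := Or.inl hy0
    by_cases h0 : ∀ᶠ x in atTop, a 0 x = 0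
    · have h1 := ih (fun i => a (i + 1)) (fun i => ha (i + 1))
      have h2 := hys.mul h1
      refine h2.congr ?_
      filter_upwards [h0] with x hx
      simp only [Pi.mul_apply]
      rw [Finset.sum_range_succ', hx, zero_mul, add_zero, Finset.mul_sum]
      refine Finset.sum_congr rfl fun i _ => ?_
      rw [pow_succ]; ring
    · have hne : ∀ᶠ x in atTop, a 0 x ≠ 0 := by
        rcases hK.sgn _ (ha 0) with h | h | h
        · filter_upwards [h] with x hx; exact hx.ne'
        · filter_upwards [h] with x hx; exact hx.ne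
        · exact absurd h h0
      -- derivatives of the quotients
      have hq : ∀ i, (fun x => a (i + 1) x * (a 0 x)⁻¹) ∈ K := fun i => K.mul_mem (ha (i + 1)) (hK.inv _ (ha 0))
      choose b' hb' hbd using fun i => hK.der _ (hq i)
      have hc : ∀ i, (fun x => b' i x + ((i : ℝ) + 1) * α x * (a (i + 1) x * (a 0 x)⁻¹)) ∈ K := by
        intro i
        apply K.add_mem (hb' i)
        apply K.mul_mem _ (hq i)
        exact K.mul_mem (hK.const _) hα
      have h1 := ih _ hc
      have hall : ∀ᶠ x in atTop, ∀ i ∈ range n, HasDerivAt (fun x => a (i + 1) x * (a 0 x)⁻¹) (b' i x) x := by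
        rw [Filter.eventually_all_finset]
        intro i _
        exact hbd i
      have hder : ∀ᶠ x in atTop, HasDerivAt (fun x => 1 + ∑ i ∈ range n, (a (i + 1) x * (a 0 x)⁻¹) * y x ^ (i + 1))
          ((y * fun x => ∑ i ∈ range n, (b' i x + ((i : ℝ) + 1) * α x * (a (i + 1) x * (a 0 x)⁻¹)) * y x ^ i) x) x := by
        filter_upwards [hall, hy] with x hx hyx
        have h3 : HasDerivAt (fun x => ∑ i ∈ range n, (a (i + 1) x * (a 0 x)⁻¹) * y x ^ (i + 1))
            (∑ i ∈ range n, (b' i x * y x ^ (i + 1) + (a (i + 1) x * (a 0 x)⁻¹) * (((i + 1 : ℕ) : ℝ) * y x ^ i * (α x * y x)))) x := by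
          apply HasDerivAt.fun_sum
          intro i hi
          have h4 := (hyx.pow (i + 1))
          simp only [Nat.add_sub_cancel] at h4
          exact (hx i hi).mul h4
        have h4 := h3.const_add 1
        refine h4.congr_deriv ?_
        rw [Pi.mul_apply, Finset.mul_sum]
        refine Finset.sum_congr rfl fun i _ => ?_
        push_cast
        ring
      have h2 := sgn_of_der hder (hys.mul h1)
      have h3 := (hK.sgn _ (ha 0)).mul h2
      refine h3.congr ?_
      filter_upwards [hne] with x hx
      simp only [Pi.mul_apply]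
      rw [Finset.sum_range_succ', pow_zero, mul_one, mul_add, mul_one, add_comm, Finset.mul_sum]
      congr 1
      refine Finset.sum_congr rfl fun i _ => ?_
      field_simp

/-- sign of expressions, logarithmic case -/
lemma sgn_log_case {K : Subring (ℝ → ℝ)} (hK : HardyField K) (y α : ℝ → ℝ) (hα : α ∈ K)
    (hy : ∀ᶠ x in atTop, HasDerivAt y (α x) x) (n : ℕ) :
    ∀ a : ℕ → ℝ → ℝ, (∀ i, a i ∈ K) → Sgn (fun x => ∑ i ∈ range n, a i x * y x ^ i) := by
  induction n with
  | zero =>
    intro a _
    right; right
    exact Eventually.of_forall fun x => by simp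
  | succ n ih =>
    intro a ha
    by_cases h0 : ∀ᶠ x in atTop, a n x = 0
    · refine (ih a ha).congr ?_
      filter_upwards [h0] with x hx
      rw [Finset.sum_range_succ, hx, zero_mul, add_zero]
    · have hne : ∀ᶠ x in atTop, a n x ≠ 0 := by
        rcases hK.sgn _ (ha n) with h | h | h
        · filter_upwards [h] with x hx; exact hx.ne'
        · filter_upwards [h] with x hx; exact hx.ne
        · exact absurd h h0
      -- the normalised coefficients; the top one is the constant 1
      have hq : ∀ i, (fun x => if i = n then (1 : ℝ) else a i x * (a n x)⁻¹) ∈ K := by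
        intro i
        by_cases hi : i = n
        · simp only [hi, if_true]; exact hK.const 1
        · simp only [hi, if_false]; exact K.mul_mem (ha i) (hK.inv _ (ha n))
      have hb : ∀ i, ∃ b' ∈ K, (i = n → b' = 0) ∧
          ∀ᶠ x in atTop, HasDerivAt (fun x => if i = n then (1 : ℝ) else a i x * (a n x)⁻¹) (b' x) x := by
        intro i
        by_cases hi : i = n
        · refine ⟨0, K.zero_mem, fun _ => rfl, ?_⟩
          simp only [hi, if_true]
          exact Eventually.of_forall fun x => hasDerivAt_const x 1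
        · obtain ⟨b', hb1, hb2⟩ := hK.der _ (hq i)
          exact ⟨b', hb1, fun h => absurd h hi, hb2⟩
      choose b' hb' hbn hbd using hb
      set B : ℕ → ℝ → ℝ := fun i x => if i = n then (1 : ℝ) else a i x * (a n x)⁻¹ with hB
      have hc : ∀ i, (fun x => b' i x + ((i : ℝ) + 1) * α x * B (i + 1) x) ∈ K := by
        intro i
        apply K.add_mem (hb' i)
        apply K.mul_mem _ (hq (i + 1))
        exact K.mul_mem (hK.const _) hα
      have h1 := ih _ hc
      have hall : ∀ᶠ x in atTop, ∀ i ∈ range (n + 1), HasDerivAt (B i) (b' i x) x := by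
        rw [Filter.eventually_all_finset]
        intro i _
        exact hbd i
      have hder : ∀ᶠ x in atTop, HasDerivAt (fun x => ∑ i ∈ range (n + 1), B i x * y x ^ i)
          ((fun x => ∑ i ∈ range n, (b' i x + ((i : ℝ) + 1) * α x * B (i + 1) x) * y x ^ i) x) x := by
        filter_upwards [hall, hy] with x hx hyx
        have h3 : HasDerivAt (fun x => ∑ i ∈ range (n + 1), B i x * y x ^ i)
            (∑ i ∈ range (n + 1), (b' i x * y x ^ i + B i x * ((i : ℝ) * y x ^ (i - 1) * (α x)))) x := by
          apply HasDerivAt.fun_sum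
          intro i hi
          exact (hx i hi).mul (hyx.pow i)
        refine h3.congr_deriv ?_
        rw [Finset.sum_add_distrib, Finset.sum_range_succ (fun i => b' i x * y x ^ i), hbn n rfl,
          Finset.sum_range_succ' (fun i => B i x * ((i : ℝ) * y x ^ (i - 1) * (α x)))]
        simp only [Pi.zero_apply, zero_mul, add_zero, Nat.cast_zero, mul_zero]
        rw [← Finset.sum_add_distrib]
        refine Finset.sum_congr rfl fun i _ => ?_
        simp only [Nat.add_sub_cancel]
        push_cast
        ring
      have h2 := sgn_of_der hder h1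
      have h3 := (hK.sgn _ (ha n)).mul h2
      refine h3.congr ?_
      filter_upwards [hne] with x hx
      simp only [Pi.mul_apply]
      rw [Finset.mul_sum]
      refine Finset.sum_congr rfl fun i _ => ?_
      rw [hB]
      simp only
      split_ifs with hi
      · subst hi; ring
      · field_simp

end Pool.Agent.H93
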