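import Pool.Agent.H93.CharSum

/-!
Explicit lower bound for `L(1,χ)`, complex characters (helper file).
-/

namespace Pool.Agent.H93

open Finset Filter Topology

/-- weight `n^{-(1+x)}` -/
noncomputable def wt (x : ℝ) (n : ℕ) : ℝ := (n : ℝ) ^ (-(1 + x))

lemma hasSum_LSeries {N : ℕ} (χ : DirichletCharacter ℂ N) (x : ℝ) (hx : 0 < x) :
    HasSum (fun n : ℕ => (wt x n : ℂ) * χ (n : ZMod N)) (LSeries (fun n => χ n) (1 + x)) := by
  have h : LSeriesSummable (fun n => χ n) (1 + (x : ℂ)) := by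
    apply DirichletCharacter.LSeriesSummable_of_one_lt_re
    simp [hx]
  have h2 := h.hasSum
  unfold LSeries
  refine h2.congr_fun fun n => ?_
  rw [LSeries.term_def]
  split_ifs with hn
  · subst hn
    unfold wt
    rw [Nat.cast_zero, Real.zero_rpow (by linarith)]
    simp
  · unfold wt
    rw [Complex.ofReal_cpow (by positivity), div_eq_mul_inv, mul_comm, ← Complex.cpow_neg]
    push_cast
    rfl

lemma wt_nonneg (x : ℝ) (n : ℕ) : 0 ≤ wt x n := by unfold wt; positivity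

lemma wt_anti (x : ℝ) (hx : 0 < x) (n : ℕ) (hn : 1 ≤ n) : wt x (n + 1) ≤ wt x n := by
  unfold wt
  apply Real.rpow_le_rpow_of_nonpos
  · exact_mod_cast hn
  · push_cast; linarith
  · linarith

lemma wt_one (x : ℝ) : wt x 1 = 1 := by unfold wt; simp

lemma tendsto_Ico_LSeries {N : ℕ} (χ : DirichletCharacter ℂ N) (x : ℝ) (hx : 0 < x) :
    Tendsto (fun m : ℕ => ∑ n ∈ Ico 1 (m + 1), (wt x n : ℂ) * χ (n : ZMod N)) atTop
      (𝓝 (LSeries (fun n => χ n) (1 + x))) := by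
  have h := ((hasSum_LSeries χ x hx).tendsto_sum_nat).comp (tendsto_add_atTop_nat 1)
  refine h.congr fun m => ?_
  simp only [Function.comp]
  rw [Finset.range_eq_Ico, Finset.sum_eq_sum_Ico_succ_bot (by omega)]
  have : wt x 0 = 0 := by
    unfold wt
    rw [Nat.cast_zero, Real.zero_rpow (by linarith)]
  rw [this]
  simp

lemma norm_LSeries_le {N : ℕ} [NeZero N] (χ : DirichletCharacter ℂ N) (hχ : χ ≠ 1) (x : ℝ)
    (hx : 0 < x) : ‖LSeries (fun n => χ n) (1 + x)‖ ≤ 2 * N := by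
  refine le_of_tendsto' (tendsto_Ico_LSeries χ x hx).norm fun m => ?_
  have := norm_sum_Ico_char_le χ hχ (wt x) 1 (m + 1) (fun n _ => wt_nonneg x n)
    (fun n hn => wt_anti x hx n hn)
  rwa [wt_one, mul_one] at this

lemma norm_LSeries_triv : ∃ δ : ℝ, 0 < δ ∧ ∀ (N : ℕ) (χ : DirichletCharacter ℂ N) (x : ℝ),
    0 < x → x < δ → ‖LSeries (fun n => χ n) (1 + x)‖ ≤ 2 / x := by
  have h := tendsto_sub_mul_tsum_nat_rpow
  have h2 : ∀ᶠ s in 𝓝[>] (1 : ℝ), (s - 1) * ∑' (n : ℕ), 1 / (n : ℝ) ^ s < 2 :=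
    h.eventually (gt_mem_nhds (by norm_num))
  rw [eventually_nhdsWithin_iff, Metric.eventually_nhds_iff] at h2
  obtain ⟨δ, hδ, h3⟩ := h2
  refine ⟨δ, hδ, fun N χ x hx hxδ => ?_⟩
  have h4 := h3 (y := 1 + x) (by rw [Real.dist_eq]; simp [abs_of_pos hx, hxδ]) (by simp [hx])
  have hs : Summable (fun n : ℕ => 1 / (n : ℝ) ^ (1 + x)) :=
    Real.summable_one_div_nat_rpow.mpr (by linarith)
  have h5 : ‖LSeries (fun n => χ n) (1 + x)‖ ≤ ∑' (n : ℕ), 1 / (n : ℝ) ^ (1 + x) := by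
    rw [← (hasSum_LSeries χ x hx).tsum_eq]
    apply tsum_of_norm_bounded hs.hasSum
    intro n
    rw [norm_mul, Complex.norm_real, Real.norm_of_nonneg (wt_nonneg x n)]
    have h6 : wt x n = 1 / (n : ℝ) ^ (1 + x) := by
      unfold wt
      rw [Real.rpow_neg (by positivity), one_div]
    rw [← h6]
    exact mul_le_of_le_one_right (wt_nonneg x n) (DirichletCharacter.norm_le_one χ _)
  rw [le_div_iff₀ hx]
  have h7 : (1 + x - 1) = x := by ring
  rw [h7] at h4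
  nlinarith

/-- the difference weight -/
noncomputable def dw (x : ℝ) (n : ℕ) : ℝ := (n : ℝ)⁻¹ - wt x n

lemma wt_eq (x : ℝ) (n : ℕ) (hn : 1 ≤ n) : wt x n = (n : ℝ)⁻¹ * (n : ℝ) ^ (-x) := by
  unfold wt
  have : (0 : ℝ) < n := by exact_mod_cast hn
  rw [show -(1 + x) = -1 + -x by ring, Real.rpow_add this, Real.rpow_neg_one]

lemma one_sub_rpow_le (y x : ℝ) (hy : 1 ≤ y) (hx : 0 < x) : 1 - y ^ (-x) ≤ x * Real.log y := by
  have hy0 : 0 < y := by linarith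
  rw [Real.rpow_def_of_pos hy0]
  have := Real.add_one_le_exp (Real.log y * -x)
  linarith

lemma dw_var (x : ℝ) (hx : 0 < x) (n : ℕ) (hn : 1 ≤ n) :
    |dw x n - dw x (n + 1)| ≤ x * (3 * (1 / (n : ℝ) ^ (3 / 2 : ℝ))) := by
  have hn0 : (0 : ℝ) < n := by exact_mod_cast hn
  have hn1 : (1 : ℝ) ≤ n := by exact_mod_cast hn
  set u := (n : ℝ) ^ (-x) with hu
  set v := ((n + 1 : ℕ) : ℝ) ^ (-x) with hv
  have hu1 : u ≤ 1 := Real.rpow_le_one_of_one_le_of_nonpos hn1 (by linarith)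
  have hu0 : 0 < u := by positivity
  have h1 : 1 - u ≤ x * Real.log n := one_sub_rpow_le _ x hn1 hx
  have h2 : v ≤ u := by
    apply Real.rpow_le_rpow_of_nonpos hn0
    · push_cast; linarith
    · linarith
  have h3 : u - v ≤ x / n := by
    have h4 : v = u * ((1 + 1 / (n : ℝ)) ^ (-x)) := by
      rw [hu, hv, ← Real.mul_rpow hn0.le (by positivity)]
      congr 1
      push_cast
      field_simp
    have h5 := one_sub_rpow_le (1 + 1 / (n : ℝ)) x (by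
      have : 0 < 1 / (n : ℝ) := by positivity
      linarith) hx
    have h6 : Real.log (1 + 1 / (n : ℝ)) ≤ 1 / (n : ℝ) := by
      have := Real.log_le_sub_one_of_pos (show 0 < 1 + 1 / (n : ℝ) by positivity)
      linarith
    have h7 : 0 ≤ 1 - (1 + 1 / (n : ℝ)) ^ (-x) := by
      rw [sub_nonneg]
      apply Real.rpow_le_one_of_one_le_of_nonpos
      · have : 0 < 1 / (n : ℝ) := by positivity
        linarith
      · linarith
    have h8 : x * Real.log (1 + 1 / (n : ℝ)) ≤ x * (1 / (n : ℝ)) :=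
      mul_le_mul_of_nonneg_left h6 hx.le
    rw [h4]
    have : x / n = x * (1 / n) := by ring
    rw [this]
    nlinarith
  have e : dw x n - dw x (n + 1) =
      ((n : ℝ)⁻¹ - ((n + 1 : ℕ) : ℝ)⁻¹) * (1 - u) - ((n + 1 : ℕ) : ℝ)⁻¹ * (u - v) := by
    unfold dw
    rw [wt_eq x n hn, wt_eq x (n + 1) (by omega)]
    ring
  rw [e]
  have hlog : Real.log n ≤ 2 * (n : ℝ) ^ (1 / 2 : ℝ) := by
    have := Real.log_natCast_le_rpow_div n (show (0 : ℝ) < 1 / 2 by norm_num)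
    linarith
  have hr1 : 1 ≤ (n : ℝ) ^ (1 / 2 : ℝ) := Real.one_le_rpow hn1 (by norm_num)
  have hd : (n : ℝ)⁻¹ - ((n + 1 : ℕ) : ℝ)⁻¹ = 1 / (n * (n + 1)) := by
    push_cast
    field_simp
    ring
  rw [hd]
  have b1 : 1 / ((n : ℝ) * (n + 1)) * (1 - u) ≤ 1 / ((n : ℝ) * n) * (x * Real.log n) := by
    apply mul_le_mul _ h1 (by linarith) (by positivity)
    apply one_div_le_one_div_of_le (by positivity)
    nlinarith
  have b2 : ((n + 1 : ℕ) : ℝ)⁻¹ * (u - v) ≤ 1 / ((n : ℝ) * n) * x := by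
    have : ((n + 1 : ℕ) : ℝ)⁻¹ ≤ (n : ℝ)⁻¹ := by
      apply inv_anti₀ hn0
      push_cast; linarith
    calc ((n + 1 : ℕ) : ℝ)⁻¹ * (u - v) ≤ (n : ℝ)⁻¹ * (x / n) :=
          mul_le_mul this h3 (by linarith) (by positivity)
      _ = 1 / ((n : ℝ) * n) * x := by field_simp
  have b3 : 0 ≤ 1 / ((n : ℝ) * (n + 1)) * (1 - u) := mul_nonneg (by positivity) (by linarith)
  have b4 : 0 ≤ ((n + 1 : ℕ) : ℝ)⁻¹ * (u - v) := mul_nonneg (by positivity) (by linarith)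
  have b5 : 1 / ((n : ℝ) * n) * (x * Real.log n) + 1 / ((n : ℝ) * n) * x ≤
      x * (3 * (1 / (n : ℝ) ^ (3 / 2 : ℝ))) := by
    have hp : (n : ℝ) ^ (3 / 2 : ℝ) * (n : ℝ) ^ (1 / 2 : ℝ) = n * n := by
      rw [← Real.rpow_add hn0]
      norm_num
      ring
    have hp0 : 0 < (n : ℝ) ^ (3 / 2 : ℝ) := by positivity
    have h9 : 1 / (n : ℝ) ^ (3 / 2 : ℝ) = (n : ℝ) ^ (1 / 2 : ℝ) / (n * n) := by
      rw [← hp]
      field_simp
    rw [h9]
    have : 1 / ((n : ℝ) * n) * (x * Real.log n) + 1 / ((n : ℝ) * n) * x =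
        x * ((Real.log n + 1) / (n * n)) := by field_simp
    rw [this]
    apply mul_le_mul_of_nonneg_left _ hx.le
    rw [← mul_div_assoc]
    apply div_le_div_of_nonneg_right _ (by positivity)
    linarith
  rw [abs_le]
  constructor <;> linarith

lemma dw_le (x : ℝ) (hx : 0 < x) (n : ℕ) (hn : 1 ≤ n) : |dw x n| ≤ x := by
  have hn0 : (0 : ℝ) < n := by exact_mod_cast hn
  have hn1 : (1 : ℝ) ≤ n := by exact_mod_cast hn
  unfold dw
  rw [wt_eq x n hn]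
  have hu1 : (n : ℝ) ^ (-x) ≤ 1 := Real.rpow_le_one_of_one_le_of_nonpos hn1 (by linarith)
  have h1 : 1 - (n : ℝ) ^ (-x) ≤ x * Real.log n := one_sub_rpow_le _ x hn1 hx
  have h2 : Real.log n ≤ n := (Real.log_le_self hn0.le)
  have e : (n : ℝ)⁻¹ - (n : ℝ)⁻¹ * (n : ℝ) ^ (-x) = (n : ℝ)⁻¹ * (1 - (n : ℝ) ^ (-x)) := by ring
  rw [e, abs_of_nonneg (mul_nonneg (by positivity) (by linarith))]
  calc (n : ℝ)⁻¹ * (1 - (n : ℝ) ^ (-x)) ≤ (n : ℝ)⁻¹ * (x * n) := by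
        apply mul_le_mul_of_nonneg_left _ (by positivity)
        nlinarith
    _ = x := by field_simp

lemma exists_diff_const : ∃ C : ℝ, 0 < C ∧ ∀ (N : ℕ) [NeZero N] (χ : DirichletCharacter ℂ N)
    (_ : χ ≠ 1) (l : ℂ)
    (_ : ∀ m : ℕ, 1 ≤ m → ‖l - ∑ n ∈ range m, ((n : ℝ)⁻¹ : ℝ) * χ (n : ZMod N)‖ ≤ 2 * N / m)
    (x : ℝ) (_ : 0 < x), ‖l - LSeries (fun n => χ n) (1 + x)‖ ≤ C * N * x := by
  have hs : Summable (fun n : ℕ => 1 / (n : ℝ) ^ (3 / 2 : ℝ)) :=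
    Real.summable_one_div_nat_rpow.mpr (by norm_num)
  set T := ∑' n : ℕ, 1 / (n : ℝ) ^ (3 / 2 : ℝ) with hT
  have hT0 : 0 ≤ T := tsum_nonneg fun n => by positivity
  refine ⟨3 * T + 2, by positivity, fun N _ χ hχ l hl x hx => ?_⟩
  have hlim1 : Tendsto (fun m => ∑ n ∈ range m, ((n : ℝ)⁻¹ : ℝ) * χ (n : ZMod N))
      atTop (nhds l) := by
    rw [tendsto_iff_norm_sub_tendsto_zero]
    have hz : Tendsto (fun m : ℕ => 2 * (N : ℝ) / m) atTop (nhds 0) :=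
      tendsto_const_div_atTop_nhds_zero_nat _
    refine squeeze_zero' (Eventually.of_forall fun _ => norm_nonneg _) ?_ hz
    filter_upwards [eventually_ge_atTop 1] with m hm
    rw [norm_sub_rev]
    exact hl m hm
  have hlim2 : Tendsto (fun m : ℕ => ∑ n ∈ Ico 1 (m + 1), ((dw x n : ℝ) : ℂ) * χ (n : ZMod N))
      atTop (𝓝 (l - LSeries (fun n => χ n) (1 + x))) := by
    refine ((hlim1.comp (tendsto_add_atTop_nat 1)).sub (tendsto_Ico_LSeries χ x hx)).congr ?_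
    intro m
    simp only [Function.comp]
    rw [Finset.range_eq_Ico, Finset.sum_eq_sum_Ico_succ_bot (by omega)]
    have hz : (((((0 : ℕ) : ℝ)⁻¹ : ℝ) : ℂ)) = 0 := by simp
    rw [hz, zero_mul, zero_add, zero_add, ← Finset.sum_sub_distrib]
    refine Finset.sum_congr rfl fun n hn => ?_
    unfold dw
    push_cast
    ring
  refine le_of_tendsto' hlim2.norm fun m => ?_
  refine (abel_bound_var (dw x) _ N (norm_sum_range_char_le χ hχ) 1 (m + 1) (by omega)).trans ?_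
  have h1 : |dw x (m + 1)| ≤ x := dw_le x hx _ (by omega)
  have h2 : |dw x 1| ≤ x := dw_le x hx _ le_rfl
  have h3 : ∑ n ∈ Ico 1 (m + 1), |dw x n - dw x (n + 1)| ≤ x * (3 * T) := by
    calc ∑ n ∈ Ico 1 (m + 1), |dw x n - dw x (n + 1)| ≤
        ∑ n ∈ Ico 1 (m + 1), x * (3 * (1 / (n : ℝ) ^ (3 / 2 : ℝ))) :=
          Finset.sum_le_sum fun n hn => dw_var x hx n (Finset.mem_Ico.mp hn).1
      _ = x * (3 * ∑ n ∈ Ico 1 (m + 1), (1 / (n : ℝ) ^ (3 / 2 : ℝ))) := by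
          rw [← Finset.mul_sum, ← Finset.mul_sum]
      _ ≤ x * (3 * T) := by
          gcongr
          exact hs.sum_le_tsum _ fun n _ => by positivity
  calc (N : ℝ) * (|dw x (m + 1)| + |dw x 1| + ∑ n ∈ Ico 1 (m + 1), |dw x n - dw x (n + 1)|)
      ≤ N * (x + x + x * (3 * T)) := by gcongr
    _ = (3 * T + 2) * N * x := by ring

theorem lone_lower_complex : ∃ c : ℝ, 0 < c ∧ ∀ (N : ℕ) [NeZero N] (χ : DirichletCharacter ℂ N)
    (_ : χ ^ 2 ≠ 1) (l : ℂ)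
    (_ : ∀ m : ℕ, 1 ≤ m → ‖l - ∑ n ∈ range m, ((n : ℝ)⁻¹ : ℝ) * χ (n : ZMod N)‖ ≤ 2 * N / m),
    c / (N : ℝ) ^ 4 ≤ ‖l‖ := by
  obtain ⟨C, hC, hdiff⟩ := exists_diff_const
  obtain ⟨δ, hδ, htriv⟩ := norm_LSeries_triv
  -- choose x = κ / N^5 with κ small
  set κ : ℝ := min (δ / 2) (1 / (512 * C ^ 4)) with hκ
  have hκ0 : 0 < κ := by rw [hκ]; positivity
  refine ⟨C * κ, by positivity, fun N _ χ hχ2 l hl => ?_⟩
  have hN : 0 < N := Nat.pos_of_ne_zero (NeZero.ne N)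
  have hNr : (1 : ℝ) ≤ N := by exact_mod_cast hN
  have hχ : χ ≠ 1 := by
    rintro rfl
    simp at hχ2
  set x : ℝ := κ / (N : ℝ) ^ 5 with hx
  have hx0 : 0 < x := by positivity
  have hxδ : x < δ := by
    have h1 : x ≤ κ := div_le_self hκ0.le (one_le_pow₀ hNr)
    have h2 : κ ≤ δ / 2 := min_le_left _ _
    linarith
  by_contra hcon
  push Not at hcon
  have h1 := hdiff N χ hχ l hl x hx0
  have hl2 : ‖l‖ < C * N * x := by
    have : C * κ / (N : ℝ) ^ 4 = C * N * x := by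
      rw [hx]; field_simp
    rwa [← this]
  have h2 : ‖LSeries (fun n => χ n) (1 + x)‖ ≤ 2 * (C * N * x) := by
    have := norm_sub_norm_le (LSeries (fun n => χ n) (1 + x)) l
    rw [norm_sub_rev] at this
    linarith
  have h3 := htriv N (1 : DirichletCharacter ℂ N) x hx0 hxδ
  have h4 := norm_LSeries_le (χ ^ 2) hχ2 x hx0
  have h5 := DirichletCharacter.norm_LSeries_product_ge_one χ hx0 0
  simp only [Complex.ofReal_zero, mul_zero, add_zero] at h5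
  rw [norm_mul, norm_mul, norm_pow, norm_pow] at h5
  have h6 : ‖LSeries (fun n => (1 : DirichletCharacter ℂ N) n) (1 + x)‖ ^ 3 *
      ‖LSeries (fun n => χ n) (1 + x)‖ ^ 4 * ‖LSeries (fun n => (χ ^ 2) n) (1 + x)‖ ≤
      (2 / x) ^ 3 * (2 * (C * N * x)) ^ 4 * (2 * N) := by
    gcongr
  have h7 : (2 / x) ^ 3 * (2 * (C * N * x)) ^ 4 * (2 * (N : ℝ)) = 256 * C ^ 4 * N ^ 5 * x := by
    field_simp
    ring
  rw [h7] at h6
  have h8 : 256 * C ^ 4 * (N : ℝ) ^ 5 * x = 256 * C ^ 4 * κ := by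
    rw [hx]; field_simp
  rw [h8] at h6
  have h9 : 256 * C ^ 4 * κ ≤ 1 / 2 := by
    have : κ ≤ 1 / (512 * C ^ 4) := min_le_right _ _
    calc 256 * C ^ 4 * κ ≤ 256 * C ^ 4 * (1 / (512 * C ^ 4)) := by gcongr
      _ = 1 / 2 := by field_simp; norm_num
  linarith

end Pool.Agent.H93
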