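import Pool.Agent.H93.CharSum

/-!
Explicit lower bound for `L(1,χ)`, quadratic characters (helper file), following the
elementary argument of Gelfond - Linnik and Monsky with the Lambert series.
-/

namespace Pool.Agent.H93

open Finset

section lambert

lemma geom_ge (s : ℝ) (hs : 0 ≤ s) (n : ℕ) :
    (n : ℝ) * s ^ (n - 1) ≤ ∑ i ∈ range n, (s ^ 2) ^ i := by
  have h1 : ∑ i ∈ range n, (s ^ 2) ^ i = ∑ i ∈ range n, (s ^ 2) ^ (n - 1 - i) :=
    (Finset.sum_range_reflect (fun i => (s ^ 2) ^ i) n).symm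
  have h2 : ∑ i ∈ range n, 2 * s ^ (n - 1) ≤
      ∑ i ∈ range n, ((s ^ 2) ^ i + (s ^ 2) ^ (n - 1 - i)) := by
    refine Finset.sum_le_sum fun i hi => ?_
    rw [Finset.mem_range] at hi
    have h3 : s ^ (n - 1) = s ^ i * s ^ (n - 1 - i) := by
      rw [← pow_add]; congr 1; omega
    rw [h3, ← pow_mul, ← pow_mul, mul_comm 2 i, mul_comm 2 (n - 1 - i), pow_mul, pow_mul]
    nlinarith [sq_nonneg (s ^ i - s ^ (n - 1 - i))]
  rw [Finset.sum_add_distrib, ← h1, Finset.sum_const, Finset.card_range, nsmul_eq_mul] at h2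
  linarith

/-- the weights in the Lambert series comparison -/
noncomputable def bw (t : ℝ) (n : ℕ) : ℝ := 1 / (n * (1 - t)) - t ^ n / (1 - t ^ n)

lemma one_sub_pow_eq (t : ℝ) (n : ℕ) : 1 - t ^ n = (1 - t) * ∑ i ∈ range n, t ^ i := by
  rw [mul_comm, ← neg_sub (t ^ n) 1, ← geom_sum_mul]; ring

lemma bw_anti (t : ℝ) (ht0 : 0 < t) (ht1 : t < 1) (n : ℕ) (hn : 1 ≤ n) :
    bw t (n + 1) ≤ bw t n := by
  obtain ⟨s, hs0, rfl⟩ : ∃ s : ℝ, 0 < s ∧ s ^ 2 = t :=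
    ⟨√t, Real.sqrt_pos.mpr ht0, Real.sq_sqrt ht0.le⟩
  have hs1 : s < 1 := by nlinarith
  have hn0 : (0 : ℝ) < n := by exact_mod_cast hn
  set g1 := ∑ i ∈ range n, (s ^ 2) ^ i with hg1
  set g2 := ∑ i ∈ range (n + 1), (s ^ 2) ^ i with hg2
  have k1 : (n : ℝ) * s ^ (n - 1) ≤ g1 := geom_ge s hs0.le n
  have k2 : ((n + 1 : ℕ) : ℝ) * s ^ (n + 1 - 1) ≤ g2 := geom_ge s hs0.le (n + 1)
  have g1pos : 0 < g1 := lt_of_lt_of_le (by positivity) k1
  have g2pos : 0 < g2 := lt_of_lt_of_le (by positivity) k2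
  have e1 : 1 - (s ^ 2) ^ n = (1 - s ^ 2) * g1 := one_sub_pow_eq _ _
  have e2 : 1 - (s ^ 2) ^ (n + 1) = (1 - s ^ 2) * g2 := one_sub_pow_eq _ _
  have hd : 0 < 1 - s ^ 2 := by linarith
  have e1pos : 0 < 1 - (s ^ 2) ^ n := by rw [e1]; positivity
  have e2pos : 0 < 1 - (s ^ 2) ^ (n + 1) := by rw [e2]; positivity
  have key : (n : ℝ) * (n + 1) * (s ^ 2) ^ n ≤ g1 * g2 := by
    have h1 : (n : ℝ) * s ^ (n - 1) * (((n + 1 : ℕ) : ℝ) * s ^ (n + 1 - 1)) ≤ g1 * g2 :=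
      mul_le_mul k1 k2 (by positivity) g1pos.le
    refine le_trans ?_ h1
    have h2 : (s ^ 2) ^ n ≤ s ^ (n - 1) * s ^ n := by
      rw [← pow_mul, ← pow_add]
      exact pow_le_pow_of_le_one hs0.le hs1.le (by omega)
    push_cast
    calc (n : ℝ) * (n + 1) * (s ^ 2) ^ n ≤ (n : ℝ) * (n + 1) * (s ^ (n - 1) * s ^ n) := by gcongr
      _ = _ := by ring
  unfold bw
  have main : (s ^ 2) ^ n / (1 - (s ^ 2) ^ n) - (s ^ 2) ^ (n + 1) / (1 - (s ^ 2) ^ (n + 1)) ≤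
      1 / (n * (1 - s ^ 2)) - 1 / ((n + 1 : ℕ) * (1 - s ^ 2)) := by
    have l1 : (s ^ 2) ^ n / (1 - (s ^ 2) ^ n) - (s ^ 2) ^ (n + 1) / (1 - (s ^ 2) ^ (n + 1)) =
        (s ^ 2) ^ n / ((1 - s ^ 2) * (g1 * g2)) := by
      rw [div_sub_div _ _ e1pos.ne' e2pos.ne', div_eq_div_iff (by positivity) (by positivity)]
      rw [e1, e2]
      have : (s ^ 2) ^ n * ((1 - s ^ 2) * g2) - (1 - s ^ 2) * g1 * (s ^ 2) ^ (n + 1) =
          (s ^ 2) ^ n * (1 - s ^ 2) := by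
        rw [← e1, ← e2]; ring
      rw [this]; ring
    have l2 : 1 / (n * (1 - s ^ 2)) - 1 / ((n + 1 : ℕ) * (1 - s ^ 2)) =
        1 / ((1 - s ^ 2) * (n * (n + 1))) := by
      push_cast
      field_simp
      ring
    rw [l1, l2, div_le_div_iff₀ (by positivity) (by positivity)]
    have : 0 < (1 - s ^ 2) := hd
    nlinarith [mul_le_mul_of_nonneg_left key hd.le]
  linarith

lemma bw_nonneg (t : ℝ) (ht0 : 0 < t) (ht1 : t < 1) (n : ℕ) (hn : 1 ≤ n) :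
    0 ≤ bw t n := by
  have hn0 : (0 : ℝ) < n := by exact_mod_cast hn
  have hd : 0 < 1 - t := by linarith
  have e1 : 1 - t ^ n = (1 - t) * ∑ i ∈ range n, t ^ i := one_sub_pow_eq _ _
  have k1 : (n : ℝ) * t ^ n ≤ ∑ i ∈ range n, t ^ i := by
    have : ∑ i ∈ range n, t ^ n ≤ ∑ i ∈ range n, t ^ i := by
      refine Finset.sum_le_sum fun i hi => ?_
      exact pow_le_pow_of_le_one ht0.le ht1.le (Finset.mem_range.mp hi).le
    simpa using this
  have gpos : 0 < ∑ i ∈ range n, t ^ i := lt_of_lt_of_le (by positivity) k1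
  unfold bw
  rw [e1, sub_nonneg, div_le_div_iff₀ (by positivity) (by positivity)]
  nlinarith [mul_le_mul_of_nonneg_left k1 hd.le]

lemma bw_one (t : ℝ) (ht1 : t < 1) : bw t 1 = 1 := by
  have hd : (1 - t) ≠ 0 := by linarith
  unfold bw
  field_simp
  simp

end lambert

section series

variable {N : ℕ} [NeZero N]

/-- the double family -/
noncomputable def dbl (χ : DirichletCharacter ℂ N) (t : ℝ) (c : ℕ+ × ℕ+) : ℂ :=
  χ ((c.1 : ℕ) : ZMod N) * (t : ℂ) ^ ((c.1 : ℕ) * (c.2 : ℕ))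

lemma summable_dbl (χ : DirichletCharacter ℂ N) (t : ℝ) (ht0 : 0 < t) (ht1 : t < 1) :
    Summable (dbl χ t) := by
  have h := (summable_prod_mul_pow (𝕜 := ℂ) 0 (r := (t : ℂ)) (by
    rw [Complex.norm_real, Real.norm_eq_abs, abs_of_pos ht0]; exact ht1)).norm
  refine Summable.of_norm_bounded h fun c => ?_
  unfold dbl
  rw [norm_mul]
  simp only [pow_zero, one_mul]
  exact mul_le_of_le_one_left (norm_nonneg _) (DirichletCharacter.norm_le_one χ _)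

lemma hasSum_dbl_fst (χ : DirichletCharacter ℂ N) (t : ℝ) (ht0 : 0 < t) (ht1 : t < 1) :
    HasSum (fun a : ℕ+ => χ ((a : ℕ) : ZMod N) * ((t : ℂ) ^ (a : ℕ) / (1 - (t : ℂ) ^ (a : ℕ))))
      (∑' c, dbl χ t c) := by
  have hs := (summable_dbl χ t ht0 ht1).hasSum
  refine hs.prod_fiberwise fun a => ?_
  have hnorm : ‖(t : ℂ) ^ (a : ℕ)‖ < 1 := by
    rw [norm_pow, Complex.norm_real, Real.norm_eq_abs, abs_of_pos ht0]
    exact pow_lt_one₀ ht0.le ht1 a.ne_zero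
  have h1 := (hasSum_geometric_of_norm_lt_one hnorm).mul_left ((t : ℂ) ^ (a : ℕ))
  have h2 : HasSum (fun b : ℕ+ => (t : ℂ) ^ ((a : ℕ) * (b : ℕ)))
      ((t : ℂ) ^ (a : ℕ) / (1 - (t : ℂ) ^ (a : ℕ))) := by
    rw [← Equiv.hasSum_iff Equiv.pnatEquivNat.symm]
    rw [div_eq_mul_inv]
    have he : ((fun b : ℕ+ => (t : ℂ) ^ ((a : ℕ) * (b : ℕ))) ∘ Equiv.pnatEquivNat.symm) =
        fun i : ℕ => (t : ℂ) ^ (a : ℕ) * ((t : ℂ) ^ (a : ℕ)) ^ i := by
      funext b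
      simp only [Function.comp, Equiv.pnatEquivNat_symm_apply, Nat.succPNat_coe,
        Nat.succ_eq_add_one]
      rw [← pow_mul, ← pow_add]
      congr 1
      ring
    rw [he]
    exact h1
  exact h2.mul_left _

lemma hasSum_dbl_conv (χ : DirichletCharacter ℂ N) (t : ℝ) (ht0 : 0 < t) (ht1 : t < 1) :
    HasSum (fun n : ℕ+ => χ.zetaMul (n : ℕ) * (t : ℂ) ^ (n : ℕ)) (∑' c, dbl χ t c) := by
  have hs := (summable_dbl χ t ht0 ht1).hasSum
  rw [← Equiv.hasSum_iff sigmaAntidiagonalEquivProd] at hs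
  refine hs.sigma fun n => ?_
  have h1 : χ.zetaMul (n : ℕ) * (t : ℂ) ^ (n : ℕ) =
      ∑ x : Nat.divisorsAntidiagonal n, χ ((x.1.1 : ℕ) : ZMod N) * (t : ℂ) ^ (n : ℕ) := by
    rw [Finset.univ_eq_attach, Finset.sum_attach (n : ℕ).divisorsAntidiagonal
      (fun x => χ ((x.1 : ℕ) : ZMod N) * (t : ℂ) ^ (n : ℕ)), ← Finset.sum_mul,
      Nat.sum_divisorsAntidiagonal (fun a _ => χ ((a : ℕ) : ZMod N))]
    congr 1
    unfold DirichletCharacter.zetaMul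
    rw [ArithmeticFunction.coe_zeta_mul_apply]
    refine Finset.sum_congr rfl fun d hd => ?_
    have : d ≠ 0 := (Nat.pos_of_mem_divisors hd).ne'
    simp [toArithmeticFunction, this]
  rw [h1]
  have h2 : ∀ x : Nat.divisorsAntidiagonal n,
      (dbl χ t ∘ sigmaAntidiagonalEquivProd) ⟨n, x⟩ =
        χ ((x.1.1 : ℕ) : ZMod N) * (t : ℂ) ^ (n : ℕ) := by
    intro x
    have hx : ((divisorsAntidiagonalFactors n x).1 : ℕ) *
        ((divisorsAntidiagonalFactors n x).2 : ℕ) = n := divisorsAntidiagonalFactors_eq x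
    change χ (((divisorsAntidiagonalFactors n x).1 : ℕ) : ZMod N) *
      (t : ℂ) ^ (((divisorsAntidiagonalFactors n x).1 : ℕ) *
        ((divisorsAntidiagonalFactors n x).2 : ℕ)) = _
    rw [hx]
    rfl
  simp_rw [h2]
  exact hasSum_fintype _

lemma zetaMul_sq_ge_one (χ : DirichletCharacter ℂ N) (hq : χ ^ 2 = 1) (k : ℕ) (hk : 1 ≤ k) :
    1 ≤ (χ.zetaMul (k ^ 2)).re := by
  have hk0 : k ^ 2 ≠ 0 := by positivity
  have hre : ∀ n, χ.zetaMul n = ((χ.zetaMul n).re : ℂ) := by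
    intro n
    have h := DirichletCharacter.zetaMul_nonneg hq n
    rw [Complex.le_def] at h
    apply Complex.ext
    · simp
    · simpa using h.2.symm
  have h1 : χ.zetaMul (k ^ 2) = ∏ p ∈ (k ^ 2).primeFactors, χ.zetaMul (p ^ ((k ^ 2).factorization p)) := by
    rw [χ.isMultiplicative_zetaMul.multiplicative_factorization _ hk0]
    rfl
  have h2 : (χ.zetaMul (k ^ 2)).re = ∏ p ∈ (k ^ 2).primeFactors, (χ.zetaMul (p ^ ((k ^ 2).factorization p))).re := by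
    have : χ.zetaMul (k ^ 2) = ((∏ p ∈ (k ^ 2).primeFactors,
        (χ.zetaMul (p ^ ((k ^ 2).factorization p))).re : ℝ) : ℂ) := by
      rw [h1]
      push_cast
      exact Finset.prod_congr rfl fun p _ => hre _
    rw [this, Complex.ofReal_re]
  rw [h2]
  have h3 : ∀ p ∈ (k ^ 2).primeFactors, 1 ≤ (χ.zetaMul (p ^ ((k ^ 2).factorization p))).re := by
    intro p hp
    have hpp := Nat.prime_of_mem_primeFactors hp
    rw [Nat.factorization_pow]
    simp only [Finsupp.smul_apply, smul_eq_mul]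
    rw [DirichletCharacter.zetaMul, ArithmeticFunction.coe_zeta_mul_apply,
      Nat.sum_divisors_prime_pow hpp]
    have h4 : ∀ i, (toArithmeticFunction fun x : ℕ => χ (x : ZMod N)) (p ^ i) = χ (p : ZMod N) ^ i := by
      intro i
      simp [toArithmeticFunction, hpp.ne_zero]
    simp_rw [h4]
    rcases MulChar.isQuadratic_iff_sq_eq_one.mpr hq p with h | h | h
    · rw [h, Finset.sum_range_succ']
      simp
    · rw [h]
      simp
    · rw [h, neg_one_geom_sum]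
      split_ifs with h5
      · exfalso
        rw [Nat.even_iff] at h5
        omega
      · simp
  calc (1 : ℝ) = ∏ p ∈ (k ^ 2).primeFactors, (1 : ℝ) := by simp
    _ ≤ _ := Finset.prod_le_prod (fun _ _ => zero_le_one) h3

lemma re_tsum_dbl_ge (χ : DirichletCharacter ℂ N) (hq : χ ^ 2 = 1) (t : ℝ) (ht0 : 0 < t)
    (ht1 : t < 1) (K : ℕ+) :
    (K : ℝ) * t ^ ((K : ℕ) ^ 2) ≤ (∑' c, dbl χ t c).re := by
  have h1 := Complex.hasSum_re (hasSum_dbl_conv χ t ht0 ht1)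
  have hre : ∀ n : ℕ+, (χ.zetaMul (n : ℕ) * (t : ℂ) ^ (n : ℕ)).re =
      (χ.zetaMul (n : ℕ)).re * t ^ (n : ℕ) := by
    intro n
    rw [← Complex.ofReal_pow, Complex.re_mul_ofReal]
  simp_rw [hre] at h1
  have hnn : ∀ n : ℕ+, 0 ≤ (χ.zetaMul (n : ℕ)).re * t ^ (n : ℕ) := by
    intro n
    have h := DirichletCharacter.zetaMul_nonneg hq n
    rw [Complex.le_def] at h
    exact mul_nonneg h.1 (by positivity)
  have h2 := sum_le_hasSum ((Finset.Icc 1 K).image fun k => k ^ 2) (fun n _ => hnn n) h1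
  refine le_trans ?_ h2
  rw [Finset.sum_image (by
    intro a _ b _ hab
    exact (pow_left_injective (M := ℕ+) (n := 2) two_ne_zero) hab)]
  have h3 : ∑ k ∈ Finset.Icc (1 : ℕ+) K, t ^ ((K : ℕ) ^ 2) = (K : ℝ) * t ^ ((K : ℕ) ^ 2) := by
    rw [Finset.sum_const, nsmul_eq_mul, PNat.card_Icc]
    simp
  rw [← h3]
  refine Finset.sum_le_sum fun k hk => ?_
  rw [Finset.mem_Icc] at hk
  have h4 := zetaMul_sq_ge_one χ hq k k.pos
  have h5 : t ^ ((K : ℕ) ^ 2) ≤ t ^ ((k : ℕ) ^ 2) := by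
    apply pow_le_pow_of_le_one ht0.le ht1.le
    have : (k : ℕ) ≤ K := by exact_mod_cast hk.2
    gcongr
  have h6 : 0 ≤ t ^ ((k : ℕ) ^ 2) := by positivity
  rw [PNat.pow_coe]
  nlinarith

lemma lone_sub_dbl (χ : DirichletCharacter ℂ N) (hχ : χ ≠ 1) (l : ℂ)
    (hl : ∀ m : ℕ, 1 ≤ m → ‖l - ∑ n ∈ range m, ((n : ℝ)⁻¹ : ℝ) * χ (n : ZMod N)‖ ≤ 2 * N / m)
    (t : ℝ) (ht0 : 0 < t) (ht1 : t < 1) :
    ‖l * (((1 - t)⁻¹ : ℝ) : ℂ) - ∑' c, dbl χ t c‖ ≤ 2 * N := by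
  have h1 : ∀ M : ℕ, ‖∑ n ∈ Ico 1 M, ((bw t n : ℝ) : ℂ) * χ (n : ZMod N)‖ ≤ 2 * N := by
    intro M
    have := norm_sum_Ico_char_le χ hχ (bw t) 1 M (fun n hn => bw_nonneg t ht0 ht1 n hn)
      (fun n hn => bw_anti t ht0 ht1 n hn)
    rwa [bw_one t ht1, mul_one] at this
  have hN : 0 ≤ (N : ℝ) := Nat.cast_nonneg _
  have hlim1 : Filter.Tendsto (fun m => ∑ n ∈ range m, ((n : ℝ)⁻¹ : ℝ) * χ (n : ZMod N))
      Filter.atTop (nhds l) := by
    rw [tendsto_iff_norm_sub_tendsto_zero]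
    have hz : Filter.Tendsto (fun m : ℕ => 2 * (N : ℝ) / m) Filter.atTop (nhds 0) :=
      tendsto_const_div_atTop_nhds_zero_nat _
    refine squeeze_zero' (Filter.Eventually.of_forall fun _ => norm_nonneg _) ?_ hz
    filter_upwards [Filter.eventually_ge_atTop 1] with m hm
    rw [norm_sub_rev]
    exact hl m hm
  have hlim2 : Filter.Tendsto (fun m : ℕ => ∑ n ∈ Ico 1 (m + 1),
      χ (n : ZMod N) * ((t : ℂ) ^ n / (1 - (t : ℂ) ^ n)))
      Filter.atTop (nhds (∑' c, dbl χ t c)) := by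
    have h2 := hasSum_dbl_fst χ t ht0 ht1
    rw [← Equiv.hasSum_iff Equiv.pnatEquivNat.symm] at h2
    have h3 := h2.tendsto_sum_nat
    convert h3 using 1
    funext m
    rw [Finset.sum_Ico_eq_sum_range]
    simp only [Nat.add_sub_cancel]
    refine Finset.sum_congr rfl fun i _ => ?_
    simp only [Function.comp, Equiv.pnatEquivNat_symm_apply, Nat.succPNat_coe,
      Nat.succ_eq_add_one, add_comm 1 i]
  have hlim3 : Filter.Tendsto (fun m : ℕ => ∑ n ∈ Ico 1 (m + 1), ((bw t n : ℝ) : ℂ) * χ (n : ZMod N))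
      Filter.atTop (nhds (l * (((1 - t)⁻¹ : ℝ) : ℂ) - ∑' c, dbl χ t c)) := by
    have h4 := ((hlim1.comp (Filter.tendsto_add_atTop_nat 1)).mul_const
      (((1 - t)⁻¹ : ℝ) : ℂ)).sub hlim2
    refine h4.congr fun m => ?_
    simp only [Function.comp]
    rw [Finset.range_eq_Ico, Finset.sum_eq_sum_Ico_succ_bot (by omega)]
    have hz : (((((0 : ℕ) : ℝ)⁻¹ : ℝ) : ℂ)) = 0 := by simp
    rw [hz, zero_mul, zero_add, zero_add, Finset.sum_mul, ← Finset.sum_sub_distrib]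
    refine Finset.sum_congr rfl fun n hn => ?_
    unfold bw
    push_cast
    rw [one_div, mul_inv]
    ring
  have h5 := hlim3.norm
  exact le_of_tendsto' h5 fun m => h1 _

lemma one_quarter_le_pow (n : ℕ) (hn : 2 ≤ n) : (1 : ℝ) / 4 ≤ (1 - 1 / (n : ℝ)) ^ n := by
  induction n, hn using Nat.le_induction with
  | base => norm_num
  | succ n hn ih =>
    have hn0 : (0 : ℝ) < n := by positivity
    have hn1 : (1 : ℝ) < n := by exact_mod_cast (by omega : 1 < n)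
    refine ih.trans ?_
    -- `(1 - 1/n)^n ≤ (1 - 1/(n+1))^(n+1)`: AM-GM
    have h1 : ((1 - 1 / (n : ℝ)) ^ n * 1) ≤ (1 - 1 / ((n + 1 : ℕ) : ℝ)) ^ (n + 1) := by
      have hx : 0 ≤ 1 - 1 / (n : ℝ) := by
        rw [sub_nonneg, div_le_one hn0]; exact hn1.le
      have := one_add_mul_le_pow (a := (1 - 1 / ((n + 1 : ℕ) : ℝ)) / (1 - 1 / (n : ℝ)) - 1) (by
        have h2 : 0 ≤ (1 - 1 / ((n + 1 : ℕ) : ℝ)) / (1 - 1 / (n : ℝ)) := by
          apply div_nonneg _ hx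
          rw [sub_nonneg]
          rw [div_le_one (by positivity)]
          push_cast; linarith
        linarith) (n + 1)
      have hx' : 0 < 1 - 1 / (n : ℝ) := by
        rw [sub_pos, div_lt_one hn0]; exact hn1
      rw [add_sub_cancel] at this
      rw [div_pow, le_div_iff₀ (by positivity)] at this
      refine le_trans ?_ this
      have e : (1 + ((n + 1 : ℕ) : ℝ) * ((1 - 1 / ((n + 1 : ℕ) : ℝ)) / (1 - 1 / (n : ℝ)) - 1)) *
          (1 - 1 / (n : ℝ)) ^ (n + 1) = (1 - 1 / (n : ℝ)) ^ n * 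
          ((1 - 1 / (n : ℝ)) + ((n + 1 : ℕ) : ℝ) * ((1 - 1 / ((n + 1 : ℕ) : ℝ)) - (1 - 1 / (n : ℝ)))) := by
        rw [pow_succ]
        have hu : (1 - 1 / (n : ℝ)) ≠ 0 := hx'.ne'
        generalize (1 - 1 / (n : ℝ)) = u at hu
        generalize (1 - 1 / ((n + 1 : ℕ) : ℝ)) = v
        field_simp
      rw [e]
      apply mul_le_mul_of_nonneg_left _ (by positivity)
      push_cast
      have : (n : ℝ) + 1 ≠ 0 := by positivity
      have e2 : (1 - 1 / (n : ℝ)) + ((n : ℝ) + 1) * ((1 - 1 / ((n : ℝ) + 1)) - (1 - 1 / (n : ℝ))) = 1 := by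
        field_simp
        ring
      rw [e2]
    linarith

theorem lone_lower_real (χ : DirichletCharacter ℂ N) (hχ : χ ≠ 1) (hq : χ ^ 2 = 1) (l : ℂ)
    (hl : ∀ m : ℕ, 1 ≤ m → ‖l - ∑ n ∈ range m, ((n : ℝ)⁻¹ : ℝ) * χ (n : ZMod N)‖ ≤ 2 * N / m) :
    1 / (128 * (N : ℝ)) ≤ ‖l‖ := by
  have hN : 0 < N := Nat.pos_of_ne_zero (NeZero.ne N)
  have hNr : (1 : ℝ) ≤ N := by exact_mod_cast hN
  set K : ℕ+ := ⟨16 * N, by positivity⟩ with hK
  have hKr : ((K : ℕ) : ℝ) = 16 * N := by simp [hK]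
  have hK2 : (2 : ℝ) ≤ ((K : ℕ) : ℝ) ^ 2 := by rw [hKr]; nlinarith
  set t : ℝ := 1 - 1 / (((K : ℕ) ^ 2 : ℕ) : ℝ) with ht
  have hKK : (0 : ℝ) < (((K : ℕ) ^ 2 : ℕ) : ℝ) := by positivity
  have ht1 : t < 1 := by
    rw [ht]
    have : 0 < 1 / (((K : ℕ) ^ 2 : ℕ) : ℝ) := by positivity
    linarith
  have ht0 : 0 < t := by
    rw [ht, sub_pos, div_lt_one hKK]
    push_cast
    linarith
  have h1 := re_tsum_dbl_ge χ hq t ht0 ht1 K
  have h2 := lone_sub_dbl χ hχ l hl t ht0 ht1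
  have h3 : (1 : ℝ) / 4 ≤ t ^ ((K : ℕ) ^ 2) := one_quarter_le_pow _ (by
    have : 16 ≤ (K : ℕ) := by
      have : (K : ℕ) = 16 * N := rfl
      omega
    nlinarith)
  have h4 : (1 - t)⁻¹ = ((K : ℕ) : ℝ) ^ 2 := by
    rw [ht]; push_cast; simp
  have h5 : (∑' c, dbl χ t c).re ≤ ‖∑' c, dbl χ t c‖ := Complex.re_le_norm _
  have h6 : ‖∑' c, dbl χ t c‖ ≤ ‖l * (((1 - t)⁻¹ : ℝ) : ℂ)‖ + 2 * N := by
    have := norm_sub_norm_le (∑' c, dbl χ t c) (l * (((1 - t)⁻¹ : ℝ) : ℂ))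
    rw [norm_sub_rev] at this
    linarith
  rw [norm_mul, Complex.norm_real, Real.norm_eq_abs, h4, abs_of_nonneg (by positivity), hKr] at h6
  have h7 : (16 * (N : ℝ)) * (1 / 4) ≤ (16 * (N : ℝ)) * t ^ ((K : ℕ) ^ 2) := by
    apply mul_le_mul_of_nonneg_left h3 (by positivity)
  rw [hKr] at h1
  have h8 : 2 * (N : ℝ) ≤ ‖l‖ * (16 * N) ^ 2 := by linarith
  rw [div_le_iff₀ (by positivity)]
  have h9 : 2 * (N : ℝ) ≤ (2 * N) * (‖l‖ * (128 * N)) := by nlinarith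
  have h10 : (0 : ℝ) < 2 * N := by positivity
  exact (le_mul_iff_one_le_right h10).mp h9

end series

end Pool.Agent.H93
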