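import Pool.Agent.H93.Sifted

/-!
Lower bound for the number of non-arithmetic integers (helper file).
-/

namespace Pool.Agent.H93

open Finset Filter Topology

/-- elementary facts about real exponentials used below, for large `L` -/
lemma eventually_L2 (A : ℝ) : ∀ᶠ L : ℝ in atTop, 4096 ≤ L ∧
    A + 8 * √L + 100 + Real.log L ≤ Real.exp L / 16 ∧ 16 * L ≤ Real.exp L := by
  have h1 := (Real.tendsto_exp_div_pow_atTop 2).eventually_ge_atTop 1
  filter_upwards [h1, eventually_ge_atTop (4096 + |A|)] with L hL hL1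
  have hA := abs_nonneg A
  have hA2 := le_abs_self A
  have hL0 : 0 < L := by linarith
  rw [le_div_iff₀ (by positivity), one_mul] at hL
  have h3 : √L ≤ L := by
    rw [Real.sqrt_le_left (by linarith)]
    nlinarith
  have h4 : Real.log L ≤ L := Real.log_le_self (by linarith)
  refine ⟨by linarith, ?_, ?_⟩ <;> nlinarith

lemma mid_facts {L : ℝ} (hL : 4096 ≤ L) {p : ℕ} (hpl : √L / 8 ≤ p) :
    (8 : ℝ) ≤ p ∧ L / ((p : ℝ) - 1) ≤ 8 * √L + 80 ∧ 64 ≤ √L := by
  have hs64 : 64 ≤ √L := by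
    rw [show (64 : ℝ) = √4096 by
      rw [show (4096 : ℝ) = 64 ^ 2 by norm_num, Real.sqrt_sq (by norm_num)]]
    exact Real.sqrt_le_sqrt hL
  have hss : √L * √L = L := Real.mul_self_sqrt (by linarith)
  have hp8 : (8 : ℝ) ≤ p := by linarith
  refine ⟨hp8, ?_, hs64⟩
  rw [div_le_iff₀ (by linarith)]
  nlinarith

lemma sift_dvd_card (Q : Finset ℕ) (Y s : ℕ) (hs : 0 < s) :
    ((sift Q Y).filter (s ∣ ·)).card ≤ (sift Q (Y / s)).card := by
  have h : (sift Q Y).filter (s ∣ ·) ⊆ (sift Q (Y / s)).image (s * ·) := by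
    intro m hm
    unfold sift at hm
    simp only [Finset.mem_filter, Finset.mem_Ioc] at hm
    obtain ⟨⟨⟨hm0, hmY⟩, hmQ⟩, k, rfl⟩ := hm
    rw [Finset.mem_image]
    refine ⟨k, ?_, rfl⟩
    unfold sift
    rw [Finset.mem_filter, Finset.mem_Ioc]
    refine ⟨⟨Nat.pos_of_mul_pos_left hm0, ?_⟩, fun q hq hqk => hmQ q hq (Dvd.dvd.mul_left hqk _)⟩
    rw [Nat.le_div_iff_mul_le hs]
    rw [mul_comm]; exact hmY
  exact (Finset.card_le_card h).trans Finset.card_image_le

/-- numbers with a large prime factor `≡ -1` -/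
theorem B1_lemma (ε : ℝ) (hε : 0 < ε) : ∃ L0 : ℝ, ∀ X : ℕ, L0 ≤ LL X → ∀ p : ℕ, p.Prime →
    √(LL X) / 8 ≤ p → (p : ℝ) ≤ 3 * √(LL X) →
    ∀ Y : ℕ, Y ≤ X → Real.log X / 2 ≤ Real.log Y →
    ((((sift (QQ p X) Y).filter (fun m => ∃ q ∈ Pset p (Zc X) Y, q ∣ m)).card : ℕ) : ℝ) ≤
      ε * (Y * VV p X) := by
  obtain ⟨C, hC, hS⟩ := sift_recip
  obtain ⟨L1, h1⟩ := sift_bounds
  set ε' := min (ε / 8) 1 with hε'
  have hε'0 : 0 < ε' := by positivity
  obtain ⟨L2, h2⟩ := V_lemma ε' hε'0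
  obtain ⟨p0, hp0⟩ := mertens_neg_one ε' hε'0
  obtain ⟨L3, hL3100, h3⟩ := Zc_facts
  obtain ⟨L4, h4⟩ := eventually_atTop.mp (eventually_L2 0)
  set L5 : ℝ := max (40 * C * Real.exp 2 / ε) ((8 * p0) ^ 2) with hL5
  refine ⟨max (max L1 L2) (max (max L3 L4) L5), fun X hX p hp hpl hpu Y hYX hlY => ?_⟩
  have hX1 : L1 ≤ LL X := ((le_max_left _ _).trans (le_max_left _ _)).trans hX
  have hX2 : L2 ≤ LL X := ((le_max_right _ _).trans (le_max_left _ _)).trans hX
  have hX34 : max L3 L4 ≤ LL X := ((le_max_left _ _).trans (le_max_right _ _)).trans hX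
  have hX3 : L3 ≤ LL X := (le_max_left _ _).trans hX34
  have hX4 : L4 ≤ LL X := (le_max_right _ _).trans hX34
  have hX5 : L5 ≤ LL X := ((le_max_right _ _).trans (le_max_right _ _)).trans hX
  obtain ⟨hV1, hV2, hVs⟩ := h2 X hX2 p hp hpl hpu
  obtain ⟨hL4096, hLe1, hLe2⟩ := h4 (LL X) hX4
  obtain ⟨hZ3, hZ1, hZ2, hZE, hZX⟩ := h3 X hX3
  obtain ⟨hp8, hLp, hs64⟩ := mid_facts hL4096 hpl
  have hsb := h1 X hX1 p hp hpl hpu
  set L := LL X with hL
  have hL0 : 0 < L := by linarith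
  have hlog : Real.log X = Real.exp L := log_eq_exp_LL hL0
  have hV0 : 0 < VV p X := lt_of_lt_of_le (Real.exp_pos _) hV1
  have hpp0 : p0 ≤ p := by
    have h5 : (8 * (p0 : ℝ)) ^ 2 ≤ L := (le_max_right _ _).trans hX5
    have h6 : 8 * (p0 : ℝ) ≤ √L := Real.le_sqrt_of_sq_le h5
    have h7 : (p0 : ℝ) ≤ p := by linarith
    exact_mod_cast h7
  have hCL : 40 * C * Real.exp 2 / ε ≤ L := (le_max_left _ _).trans hX5
  have hY1 : 1 ≤ Y := by
    rcases Nat.eq_zero_or_pos Y with h0 | h0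
    · exfalso
      rw [h0, hlog] at hlY
      simp at hlY
      have := Real.exp_pos L
      linarith
    · exact h0
  have hYr : (1 : ℝ) ≤ Y := by exact_mod_cast hY1
  set ℓ := Real.log X with hℓ
  have hℓ0 : 0 < ℓ := by rw [hlog]; exact Real.exp_pos _
  -- the cut W
  set W : ℕ := ⌊Real.exp (ℓ / (2 * L))⌋₊ with hW
  have hWle : (W : ℝ) ≤ Real.exp (ℓ / (2 * L)) := Nat.floor_le (Real.exp_pos _).le
  have hZW : Zc X ≤ W := by
    apply Nat.floor_mono
    apply Real.exp_le_exp.mpr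
    apply div_le_div_of_nonneg_left hℓ0.le (by positivity)
    have e : (LL X) ^ 3 = LL X * (LL X) ^ 2 := by ring
    rw [e]
    have : 2 ≤ (LL X) ^ 2 := by nlinarith
    nlinarith
  have hW3 : 3 ≤ W := hZ3.trans hZW
  have hWr : (3 : ℝ) ≤ W := by exact_mod_cast hW3
  set P1 := (Pset p (Zc X) Y).filter (fun q => ℓ / (2 * L) ≤ Real.log ((Y / q : ℕ) : ℝ)) with hP1
  -- covering
  have hcov : (sift (QQ p X) Y).filter (fun m => ∃ q ∈ Pset p (Zc X) Y, q ∣ m) ⊆
      (P1.biUnion fun q => (sift (QQ p X) Y).filter (q ∣ ·)) ∪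
      ((sift (QQ p X) W).biUnion fun m' => ((Ioc 0 (Y / m')).filter Nat.Prime).image (m' * ·)) := by
    intro m hm
    rw [Finset.mem_filter] at hm
    obtain ⟨hms, q, hq, hqm⟩ := hm
    rw [Finset.mem_union]
    by_cases hqP : q ∈ P1
    · left
      rw [Finset.mem_biUnion]
      exact ⟨q, hqP, Finset.mem_filter.mpr ⟨hms, hqm⟩⟩
    · right
      have hq' := mem_Pset.mp hq
      obtain ⟨k, rfl⟩ := hqm
      unfold sift at hms
      rw [Finset.mem_filter, Finset.mem_Ioc] at hms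
      have hk0 : 0 < k := Nat.pos_of_mul_pos_left hms.1.1
      have hkY : k ≤ Y / q := by
        rw [Nat.le_div_iff_mul_le hq'.2.1.pos, mul_comm]; exact hms.1.2
      have hqY : q ≤ Y / k := by
        rw [Nat.le_div_iff_mul_le hk0]; exact hms.1.2
      have hlt : Real.log ((Y / q : ℕ) : ℝ) < ℓ / (2 * L) := by
        by_contra hcon
        push Not at hcon
        exact hqP (Finset.mem_filter.mpr ⟨hq, hcon⟩)
      have hYq0 : 0 < Y / q := lt_of_lt_of_le hk0 hkY
      have hYqW : Y / q ≤ W := by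
        apply Nat.le_floor
        have h5 : (0 : ℝ) < ((Y / q : ℕ) : ℝ) := by exact_mod_cast hYq0
        rw [← Real.exp_log h5]
        exact (Real.exp_le_exp.mpr hlt.le)
      rw [Finset.mem_biUnion]
      refine ⟨k, ?_, ?_⟩
      · unfold sift
        rw [Finset.mem_filter, Finset.mem_Ioc]
        exact ⟨⟨hk0, hkY.trans hYqW⟩, fun r hr hrk => hms.2 r hr (Dvd.dvd.mul_left hrk _)⟩
      · rw [Finset.mem_image]
        refine ⟨q, ?_, mul_comm _ _⟩
        rw [Finset.mem_filter, Finset.mem_Ioc]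
        exact ⟨⟨hq'.2.1.pos, hqY⟩, hq'.2.1⟩
  have hcard : ((((sift (QQ p X) Y).filter (fun m => ∃ q ∈ Pset p (Zc X) Y, q ∣ m)).card : ℕ) : ℝ) ≤
      ∑ q ∈ P1, ((sift (QQ p X) (Y / q)).card : ℝ) +
      ∑ m' ∈ sift (QQ p X) W, (((Ioc 0 (Y / m')).filter Nat.Prime).card : ℝ) := by
    have h5 : ((sift (QQ p X) Y).filter (fun m => ∃ q ∈ Pset p (Zc X) Y, q ∣ m)).card ≤
      ∑ q ∈ P1, (sift (QQ p X) (Y / q)).card +
      ∑ m' ∈ sift (QQ p X) W, ((Ioc 0 (Y / m')).filter Nat.Prime).card := by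
      refine (Finset.card_le_card hcov).trans ((Finset.card_union_le _ _).trans ?_)
      apply add_le_add
      · refine Finset.card_biUnion_le.trans (Finset.sum_le_sum fun q hq => ?_)
        apply sift_dvd_card
        exact (mem_Pset.mp (Finset.mem_filter.mp hq).1).2.1.pos
      · refine Finset.card_biUnion_le.trans (Finset.sum_le_sum fun m' _ => Finset.card_image_le)
    exact_mod_cast h5
  refine hcard.trans ?_
  -- first sum
  have hfirst : ∑ q ∈ P1, ((sift (QQ p X) (Y / q)).card : ℝ) ≤ (ε / 2) * (Y * VV p X) := by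
    have h5 : ∀ q ∈ P1, ((sift (QQ p X) (Y / q)).card : ℝ) ≤ 2 * (Y * VV p X) * (1 / q) := by
      intro q hq
      rw [hP1, Finset.mem_filter] at hq
      have hq' := mem_Pset.mp hq.1
      have hq0 : (0 : ℝ) < q := by exact_mod_cast hq'.2.1.pos
      have hYq : 1 ≤ Y / q := by
        rw [Nat.le_div_iff_mul_le hq'.2.1.pos, one_mul]; exact hq'.1.2
      have h6 := (hsb (Y / q) hYq hq.2).1
      refine h6.trans ?_
      have h7 : ((Y / q : ℕ) : ℝ) ≤ (Y : ℝ) / q := Nat.cast_div_le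
      calc 2 * ((Y / q : ℕ) : ℝ) * VV p X ≤ 2 * ((Y : ℝ) / q) * VV p X := by gcongr
        _ = _ := by ring
    have h6 : ∑ q ∈ P1, (1 / (q : ℝ)) ≤ 2 * ε' := by
      have h7 : ∑ q ∈ P1, (1 / (q : ℝ)) ≤ ∑ q ∈ Pset p (Zc X) X, (1 / (q : ℝ)) := by
        refine Finset.sum_le_sum_of_subset_of_nonneg ?_ fun q _ _ => by positivity
        intro q hq
        have hq' := mem_Pset.mp (Finset.mem_filter.mp hq).1
        rw [mem_Pset]
        exact ⟨⟨hq'.1.1, hq'.1.2.trans hYX⟩, hq'.2⟩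
      have h8 : ∑ q ∈ Pset p 0 X, (1 / (q : ℝ)) =
          ∑ q ∈ QQ p X, (1 / (q : ℝ)) + ∑ q ∈ Pset p (Zc X) X, (1 / (q : ℝ)) := by
        unfold QQ Pset
        simp_rw [Finset.sum_filter]
        rw [Finset.sum_Ioc_consecutive _ (Nat.zero_le _) hZX]
      have h9 := hp0 p hp hpp0 X ((hZE p hpu).trans hZX)
      have h10 : Real.log (Real.log X) = L := rfl
      rw [h10] at h9
      rw [abs_le] at h9 hVs
      linarith [h9.2, hVs.1]
    calc ∑ q ∈ P1, ((sift (QQ p X) (Y / q)).card : ℝ) ≤ ∑ q ∈ P1, 2 * (Y * VV p X) * (1 / (q : ℝ)) :=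
          Finset.sum_le_sum h5
      _ = 2 * (Y * VV p X) * ∑ q ∈ P1, (1 / (q : ℝ)) := by rw [← Finset.mul_sum]
      _ ≤ 2 * (Y * VV p X) * (2 * ε') := by gcongr
      _ ≤ 2 * (Y * VV p X) * (2 * (ε / 8)) := by
          gcongr
          exact min_le_left _ _
      _ = _ := by ring
  -- second sum
  have hsecond : ∑ m' ∈ sift (QQ p X) W, (((Ioc 0 (Y / m')).filter Nat.Prime).card : ℝ) ≤
      (ε / 2) * (Y * VV p X) := by
    have h5 : ∀ m' ∈ sift (QQ p X) W, (((Ioc 0 (Y / m')).filter Nat.Prime).card : ℝ) ≤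
        20 * Y / ℓ * (1 / m') := by
      intro m hm
      unfold sift at hm
      rw [Finset.mem_filter, Finset.mem_Ioc] at hm
      have hm0 : (0 : ℝ) < m := by exact_mod_cast hm.1.1
      have hmW : (m : ℝ) ≤ W := by exact_mod_cast hm.1.2
      -- Y/m is large
      have hYexp : Real.exp (ℓ / 2) ≤ Y := by
        rw [← Real.exp_log (show (0 : ℝ) < Y by linarith)]
        exact Real.exp_le_exp.mpr hlY
      have h6 : Real.exp (ℓ / 2 - ℓ / (2 * L)) ≤ (Y : ℝ) / m := by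
        rw [Real.exp_sub]
        apply div_le_div₀ (by linarith) hYexp hm0 (hmW.trans hWle)
      have h7 : Real.exp (ℓ / 4) * 2 ≤ Real.exp (ℓ / 2 - ℓ / (2 * L)) := by
        have h8 : Real.exp (ℓ / 4) * 2 ≤ Real.exp (ℓ / 4) * Real.exp 1 := by
          apply mul_le_mul_of_nonneg_left _ (Real.exp_pos _).le
          have := Real.exp_one_gt_d9
          linarith
        rw [← Real.exp_add] at h8
        refine h8.trans (Real.exp_le_exp.mpr ?_)
        have h9 : ℓ / (2 * L) ≤ ℓ / 8 := by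
          apply div_le_div_of_nonneg_left hℓ0.le (by norm_num) (by linarith)
        have h10 : 16 * L ≤ ℓ := by rw [hlog]; exact hLe2
        linarith
      have h8 : (Y : ℝ) / m - 1 ≤ ((Y / m : ℕ) : ℝ) := by
        rw [sub_le_iff_le_add, div_le_iff₀ hm0]
        have := Nat.lt_mul_div_succ Y hm.1.1
        have h4 : (Y : ℝ) ≤ m * ((Y / m + 1 : ℕ) : ℝ) := by exact_mod_cast this.le
        push_cast at h4
        linarith
      have h9 : Real.exp (ℓ / 4) ≤ ((Y / m : ℕ) : ℝ) := by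
        have : (1 : ℝ) ≤ Real.exp (ℓ / 4) := Real.one_le_exp (by positivity)
        linarith
      have h10 : 2 ≤ Y / m := by
        have h11 : (2 : ℝ) ≤ ((Y / m : ℕ) : ℝ) := by
          refine le_trans ?_ h9
          have h12 := Real.add_one_le_exp (ℓ / 4)
          have h13 : 16 * L ≤ ℓ := by rw [hlog]; exact hLe2
          linarith
        exact_mod_cast h11
      have h11 : ℓ / 4 ≤ Real.log ((Y / m : ℕ) : ℝ) := by
        rw [Real.le_log_iff_exp_le (lt_of_lt_of_le (Real.exp_pos _) h9)]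
        exact h9
      refine (card_primes_le (Y / m) h10).trans ?_
      have h12 : ((Y / m : ℕ) : ℝ) ≤ (Y : ℝ) / m := Nat.cast_div_le
      calc 5 * ((Y / m : ℕ) : ℝ) / Real.log ((Y / m : ℕ) : ℝ) ≤ 5 * ((Y : ℝ) / m) / (ℓ / 4) := by
            gcongr
        _ = 20 * Y / ℓ * (1 / m) := by field_simp; norm_num
    have h6 := hS W hW3 (QQ p X) (fun q hq => ⟨(QQ_prime hq).1, (QQ_prime hq).2.trans hZW⟩)
    have h7 : Real.log W ≤ ℓ / (2 * L) := by
      rw [Real.log_le_iff_le_exp (by linarith)]; exact hWle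
    have h8 : Real.exp (- ∑ q ∈ QQ p X, 1 / (q : ℝ)) ≤ Real.exp 2 * VV p X := by
      have h9 : Real.exp (- ∑ q ∈ QQ p X, 1 / (q : ℝ)) ≤ Real.exp (2 + (-(L / (p - 1)) - ε')) := by
        apply Real.exp_le_exp.mpr
        have : ε' ≤ 1 := min_le_right _ _
        rw [abs_le] at hVs
        linarith [hVs.1]
      rw [Real.exp_add] at h9
      exact h9.trans (mul_le_mul_of_nonneg_left hV1 (Real.exp_pos _).le)
    calc ∑ m' ∈ sift (QQ p X) W, (((Ioc 0 (Y / m')).filter Nat.Prime).card : ℝ)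
        ≤ ∑ m' ∈ sift (QQ p X) W, 20 * Y / ℓ * (1 / (m' : ℝ)) := Finset.sum_le_sum h5
      _ = 20 * Y / ℓ * ∑ m' ∈ sift (QQ p X) W, (1 / (m' : ℝ)) := by rw [← Finset.mul_sum]
      _ ≤ 20 * Y / ℓ * (C * (ℓ / (2 * L)) * (Real.exp 2 * VV p X)) := by
          apply mul_le_mul_of_nonneg_left _ (by positivity)
          refine h6.trans ?_
          apply mul_le_mul _ h8 (Real.exp_pos _).le (by positivity)
          apply mul_le_mul_of_nonneg_left h7 hC.le
      _ = (10 * C * Real.exp 2 / L) * (Y * VV p X) := by field_simp; norm_num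
      _ ≤ (ε / 2) * (Y * VV p X) := by
          apply mul_le_mul_of_nonneg_right _ (by positivity)
          rw [div_le_iff₀ hL0]
          rw [div_le_iff₀ hε] at hCL
          have : 0 < C * Real.exp 2 := by positivity
          linarith
  linarith

end Pool.Agent.H93
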