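import Pool.Agent.H93.Lower

/-!
Lower bound for the number of non-arithmetic integers, part 2 (helper file).
-/

namespace Pool.Agent.H93

open Finset Filter Topology

open Classical in
/-- square-full integers `s ≤ Y` with `s ≥ T` -/
noncomputable def SFset (T : ℝ) (Y : ℕ) : Finset ℕ :=
  (Ioc 0 Y).filter (fun s => IsSF Set.univ s ∧ T ≤ s)

open Classical in
lemma mem_SFset {T : ℝ} {Y s : ℕ} : s ∈ SFset T Y ↔ (0 < s ∧ s ≤ Y) ∧ IsSF Set.univ s ∧ T ≤ s := by
  unfold SFset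
  rw [Finset.mem_filter, Finset.mem_Ioc]

theorem SFB_lemma : ∃ C : ℝ, 0 < C ∧ ∃ L0 : ℝ, ∀ X : ℕ, L0 ≤ LL X → ∀ p : ℕ, p.Prime →
    √(LL X) / 8 ≤ p → (p : ℝ) ≤ 3 * √(LL X) →
    ∀ Y : ℕ, Real.log X / 2 ≤ Real.log Y → ∀ T : ℝ, 1 ≤ T →
    ∑ s ∈ SFset T Y, ((sift (QQ p X) (Y / s)).card : ℝ) ≤
      C * ((T ^ (1 / 4 : ℝ))⁻¹ + 1 / LL X) * (Y * VV p X) := by
  obtain ⟨C, hC1, hC⟩ := exists_sf_const
  obtain ⟨L1, h1⟩ := sift_bounds
  obtain ⟨L2, h2⟩ := V_lemma 1 zero_lt_one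
  obtain ⟨L4, h4⟩ := eventually_atTop.mp (eventually_L2 0)
  refine ⟨2 * C, by positivity, max (max L1 L2) L4, fun X hX p hp hpl hpu Y hlY T hT => ?_⟩
  have hX1 : L1 ≤ LL X := ((le_max_left _ _).trans (le_max_left _ _)).trans hX
  have hX2 : L2 ≤ LL X := ((le_max_right _ _).trans (le_max_left _ _)).trans hX
  have hX4 : L4 ≤ LL X := (le_max_right _ _).trans hX
  obtain ⟨hV1, hV2, hVs⟩ := h2 X hX2 p hp hpl hpu
  obtain ⟨hL4096, hLe1, hLe2⟩ := h4 (LL X) hX4
  obtain ⟨hp8, hLp, hs64⟩ := mid_facts hL4096 hpl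
  have hsb := h1 X hX1 p hp hpl hpu
  set L := LL X with hL
  have hL0 : 0 < L := by linarith
  have hlog : Real.log X = Real.exp L := log_eq_exp_LL hL0
  have hV0 : 0 < VV p X := lt_of_lt_of_le (Real.exp_pos _) hV1
  have hY1 : 1 ≤ Y := by
    rcases Nat.eq_zero_or_pos Y with h0 | h0
    · exfalso
      rw [h0, hlog] at hlY
      simp at hlY
      have := Real.exp_pos L
      linarith
    · exact h0
  have hYr : (1 : ℝ) ≤ Y := by exact_mod_cast hY1
  set ℓ := Real.log X with hℓ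
  have hℓ0 : 0 < ℓ := by rw [hlog]; exact Real.exp_pos _
  have h16 : 16 * L ≤ ℓ := by rw [hlog]; exact hLe2
  set S1 := (SFset T Y).filter (fun s => ℓ / (2 * L) ≤ Real.log ((Y / s : ℕ) : ℝ)) with hS1
  set S2 := (SFset T Y).filter (fun s => ¬ (ℓ / (2 * L) ≤ Real.log ((Y / s : ℕ) : ℝ))) with hS2
  rw [← Finset.sum_filter_add_sum_filter_not (SFset T Y)
    (fun s => ℓ / (2 * L) ≤ Real.log ((Y / s : ℕ) : ℝ))]
  rw [← hS1, ← hS2]
  have hfirst : ∑ s ∈ S1, ((sift (QQ p X) (Y / s)).card : ℝ) ≤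
      2 * C * (T ^ (1 / 4 : ℝ))⁻¹ * (Y * VV p X) := by
    have h5 : ∀ s ∈ S1, ((sift (QQ p X) (Y / s)).card : ℝ) ≤ 2 * (Y * VV p X) * (1 / s) := by
      intro s hs
      rw [hS1, Finset.mem_filter, mem_SFset] at hs
      have hs0 : (0 : ℝ) < s := by exact_mod_cast hs.1.1.1
      have hYs : 1 ≤ Y / s := by
        rw [Nat.le_div_iff_mul_le hs.1.1.1, one_mul]; exact hs.1.1.2
      refine (hsb (Y / s) hYs hs.2).1.trans ?_
      have h7 : ((Y / s : ℕ) : ℝ) ≤ (Y : ℝ) / s := Nat.cast_div_le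
      calc 2 * ((Y / s : ℕ) : ℝ) * VV p X ≤ 2 * ((Y : ℝ) / s) * VV p X := by gcongr
        _ = _ := by ring
    have h6 := sf_sum_recip C hC S1 (fun s hs => by
      rw [hS1, Finset.mem_filter, mem_SFset] at hs
      exact hs.1.2.1) T hT (fun s hs => by
      rw [hS1, Finset.mem_filter, mem_SFset] at hs
      exact hs.1.2.2)
    calc ∑ s ∈ S1, ((sift (QQ p X) (Y / s)).card : ℝ) ≤ ∑ s ∈ S1, 2 * (Y * VV p X) * (1 / (s : ℝ)) :=
          Finset.sum_le_sum h5
      _ = 2 * (Y * VV p X) * ∑ s ∈ S1, (1 / (s : ℝ)) := by rw [← Finset.mul_sum]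
      _ ≤ 2 * (Y * VV p X) * (C * (T ^ (1 / 4 : ℝ))⁻¹) := by gcongr
      _ = _ := by ring
  have hsecond : ∑ s ∈ S2, ((sift (QQ p X) (Y / s)).card : ℝ) ≤
      2 * C * (1 / L) * (Y * VV p X) := by
    have h5 : ∀ s ∈ S2, ((sift (QQ p X) (Y / s)).card : ℝ) ≤ Y * (1 / s) := by
      intro s hs
      have h6 : ((sift (QQ p X) (Y / s)).card : ℝ) ≤ ((Y / s : ℕ) : ℝ) := by
        have : (sift (QQ p X) (Y / s)).card ≤ Y / s := by
          refine (Finset.card_filter_le _ _).trans ?_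
          simp
        exact_mod_cast this
      refine h6.trans ?_
      have h7 : ((Y / s : ℕ) : ℝ) ≤ (Y : ℝ) / s := Nat.cast_div_le
      refine h7.trans (le_of_eq ?_)
      ring
    have hYexp : Real.exp (ℓ / 2) ≤ Y := by
      rw [← Real.exp_log (show (0 : ℝ) < Y by linarith)]
      exact Real.exp_le_exp.mpr hlY
    have hT2 : (1 : ℝ) ≤ Real.exp (ℓ / 4) := Real.one_le_exp (by positivity)
    have h6 := sf_sum_recip C hC S2 (fun s hs => by
      rw [hS2, Finset.mem_filter, mem_SFset] at hs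
      exact hs.1.2.1) (Real.exp (ℓ / 4)) hT2 (fun s hs => by
      rw [hS2, Finset.mem_filter, mem_SFset] at hs
      obtain ⟨⟨⟨hs0, hsY⟩, _, _⟩, hlt⟩ := hs
      push Not at hlt
      have hs0' : (0 : ℝ) < s := by exact_mod_cast hs0
      have hYs : 1 ≤ Y / s := by
        rw [Nat.le_div_iff_mul_le hs0, one_mul]; exact hsY
      have hYs0 : (0 : ℝ) < ((Y / s : ℕ) : ℝ) := by exact_mod_cast hYs
      have h7 : ((Y / s : ℕ) : ℝ) < Real.exp (ℓ / (2 * L)) := by
        rw [← Real.log_lt_iff_lt_exp hYs0]; exact hlt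
      have h8 : (Y : ℝ) ≤ s * (((Y / s : ℕ) : ℝ) + 1) := by
        have := Nat.lt_mul_div_succ Y hs0
        have h4 : (Y : ℝ) ≤ s * ((Y / s + 1 : ℕ) : ℝ) := by exact_mod_cast this.le
        push_cast at h4
        exact h4
      have h9 : (Y : ℝ) ≤ s * (2 * Real.exp (ℓ / (2 * L))) := by
        refine h8.trans ?_
        apply mul_le_mul_of_nonneg_left _ hs0'.le
        have : (1 : ℝ) ≤ Real.exp (ℓ / (2 * L)) := Real.one_le_exp (by positivity)
        linarith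
      -- so s ≥ exp(ℓ/2 - ℓ/(2L))/2 ≥ exp(ℓ/4)
      have h10 : Real.exp (ℓ / 4) * (2 * Real.exp (ℓ / (2 * L))) ≤ Real.exp (ℓ / 2) := by
        have h11 : Real.exp (ℓ / 4) * (2 * Real.exp (ℓ / (2 * L))) ≤
            Real.exp (ℓ / 4) * (Real.exp 1 * Real.exp (ℓ / (2 * L))) := by
          have := Real.exp_one_gt_d9
          gcongr
          linarith
        rw [← Real.exp_add, ← Real.exp_add] at h11
        refine h11.trans (Real.exp_le_exp.mpr ?_)
        have h9 : ℓ / (2 * L) ≤ ℓ / 8 := by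
          apply div_le_div_of_nonneg_left hℓ0.le (by norm_num) (by linarith)
        linarith
      have h11 : Real.exp (ℓ / 4) * (2 * Real.exp (ℓ / (2 * L))) ≤ s * (2 * Real.exp (ℓ / (2 * L))) :=
        h10.trans (hYexp.trans h9)
      exact le_of_mul_le_mul_right h11 (by positivity))
    have h7 : ((Real.exp (ℓ / 4)) ^ (1 / 4 : ℝ))⁻¹ ≤ 1 / L * VV p X := by
      rw [← Real.exp_mul, ← Real.exp_neg]
      have h8 : Real.exp (-(ℓ / 4 * (1 / 4))) ≤ Real.exp (-Real.log L + (-(L / (p - 1)) - 1)) := by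
        apply Real.exp_le_exp.mpr
        have h9 : 0 + 8 * √L + 100 + Real.log L ≤ ℓ / 16 := by rw [hlog]; exact hLe1
        linarith
      refine h8.trans ?_
      rw [Real.exp_add, Real.exp_neg, Real.exp_log hL0, one_div]
      gcongr
    calc ∑ s ∈ S2, ((sift (QQ p X) (Y / s)).card : ℝ) ≤ ∑ s ∈ S2, (Y : ℝ) * (1 / (s : ℝ)) :=
          Finset.sum_le_sum h5
      _ = Y * ∑ s ∈ S2, (1 / (s : ℝ)) := by rw [← Finset.mul_sum]
      _ ≤ Y * (C * (1 / L * VV p X)) := by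
          apply mul_le_mul_of_nonneg_left _ (by linarith)
          exact h6.trans (mul_le_mul_of_nonneg_left h7 (by linarith))
      _ = C * (1 / L) * (Y * VV p X) := by ring
      _ ≤ 2 * C * (1 / L) * (Y * VV p X) := by
          have : 0 ≤ C * (1 / L) * (Y * VV p X) := by positivity
          linarith
  calc _ ≤ 2 * C * (T ^ (1 / 4 : ℝ))⁻¹ * (Y * VV p X) + 2 * C * (1 / L) * (Y * VV p X) :=
        add_le_add hfirst hsecond
    _ = _ := by ring

/-- sum of divisors -/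
def sg (n : ℕ) : ℕ := ∑ d ∈ n.divisors, d

lemma sum_pow_le (q a : ℕ) (hq : 2 ≤ q) : ∑ k ∈ range (a + 1), q ^ k + 1 ≤ 2 * q ^ a := by
  induction a with
  | zero => simp
  | succ a ih =>
    rw [Finset.sum_range_succ]
    have : q ^ (a + 1) = q ^ a * q := pow_succ q a
    nlinarith [Nat.pos_of_ne_zero (pow_ne_zero a (by omega : q ≠ 0))]

/-- if `p ∣ σ(m)` then `m` has an exact prime divisor `≡ -1` or a large square-full prime power -/
lemma dvd_sg {p m : ℕ} (hp : p.Prime) (hm : m ≠ 0) (h : p ∣ sg m) :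
    (∃ q, q.Prime ∧ q ∣ m ∧ (q : ZMod p) = -1) ∨
    (∃ s, IsSF Set.univ s ∧ (p : ℝ) / 2 ≤ s ∧ s ∣ m) := by
  unfold sg at h
  rw [Nat.sum_divisors hm, hp.prime.dvd_finsetProd_iff] at h
  obtain ⟨q, hq, hqd⟩ := h
  have hqp := Nat.prime_of_mem_primeFactors hq
  have hqm := Nat.dvd_of_mem_primeFactors hq
  have hv : 0 < m.factorization q := hqp.factorization_pos_of_dvd hm hqm
  rcases Nat.lt_or_ge (m.factorization q) 2 with hlt | hge
  · left
    refine ⟨q, hqp, hqm, ?_⟩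
    have : m.factorization q = 1 := by omega
    rw [this] at hqd
    rw [neg_one_iff]
    simpa [Finset.sum_range_succ, add_comm] using hqd
  · right
    refine ⟨q ^ (m.factorization q), ⟨pow_ne_zero _ hqp.ne_zero, ?_⟩, ?_, Nat.ordProj_dvd m q⟩
    · intro r hr hrd
      have := (Nat.prime_dvd_prime_iff_eq hr hqp).mp (hr.dvd_of_dvd_pow hrd)
      subst this
      exact ⟨Set.mem_univ _, pow_dvd_pow r hge⟩
    · have h1 := sum_pow_le q (m.factorization q) hqp.two_le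
      have h2 : p ≤ ∑ k ∈ range (m.factorization q + 1), q ^ k := by
        apply Nat.le_of_dvd _ hqd
        apply Finset.sum_pos (fun k _ => pow_pos hqp.pos _)
        exact ⟨0, by simp⟩
      have h3 : p ≤ 2 * q ^ (m.factorization q) := by omega
      have h4 : (p : ℝ) ≤ 2 * ((q ^ (m.factorization q) : ℕ) : ℝ) := by exact_mod_cast h3
      linarith

open Classical in
/-- odd integers `m ≤ Y` with `p ∤ σ(m)` -/
noncomputable def good (p Y : ℕ) : Finset ℕ := (Ioc 0 Y).filter (fun m => m % 2 = 1 ∧ ¬ p ∣ sg m)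

theorem good_lower (ε : ℝ) (hε : 0 < ε) : ∃ L0 : ℝ, ∀ X : ℕ, L0 ≤ LL X → ∀ p : ℕ, p.Prime →
    √(LL X) / 8 ≤ p → (p : ℝ) ≤ 3 * √(LL X) →
    ∀ Y : ℕ, Y ≤ X → Real.log X / 2 ≤ Real.log Y →
    (Y / 2 : ℝ) * VV p X * (1 - ε) ≤ (good p Y).card := by
  obtain ⟨L1, h1⟩ := sift_bounds
  obtain ⟨L2, h2⟩ := B1_lemma (ε / 8) (by positivity)
  obtain ⟨C, hC, L3, h3⟩ := SFB_lemma
  -- T^{-1/4} small
  have hev : ∀ᶠ L : ℝ in atTop, C * (((√L / 16) ^ (1 / 4 : ℝ))⁻¹ + 1 / L) ≤ ε / 8 ∧ 1 / L ≤ ε / 8 := by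
    have hs : Tendsto (fun L : ℝ => √L / 16) atTop atTop :=
      Real.tendsto_sqrt_atTop.atTop_div_const (by norm_num)
    have t1 : Tendsto (fun L : ℝ => ((√L / 16) ^ (1 / 4 : ℝ))⁻¹) atTop (𝓝 0) :=
      ((tendsto_rpow_atTop (by norm_num : (0 : ℝ) < 1 / 4)).comp hs).inv_tendsto_atTop
    have t2 : Tendsto (fun L : ℝ => 1 / L) atTop (𝓝 0) := tendsto_const_nhds.div_atTop tendsto_id
    have t3 := (t1.add t2).const_mul C
    rw [add_zero, mul_zero] at t3
    filter_upwards [t3.eventually (ge_mem_nhds (show (0 : ℝ) < ε / 8 by positivity)),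
      t2.eventually (ge_mem_nhds (show (0 : ℝ) < ε / 8 by positivity))] with L h1 h2
    exact ⟨h1, h2⟩
  obtain ⟨L4, h4⟩ := eventually_atTop.mp hev
  refine ⟨max (max L1 L2) (max (max L3 L4) 4096), fun X hX p hp hpl hpu Y hYX hlY => ?_⟩
  have hX1 : L1 ≤ LL X := ((le_max_left _ _).trans (le_max_left _ _)).trans hX
  have hX2 : L2 ≤ LL X := ((le_max_right _ _).trans (le_max_left _ _)).trans hX
  have hX34 : max L3 L4 ≤ LL X := ((le_max_left _ _).trans (le_max_right _ _)).trans hX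
  have hX3 : L3 ≤ LL X := (le_max_left _ _).trans hX34
  have hX4 : L4 ≤ LL X := (le_max_right _ _).trans hX34
  have hX5 : 4096 ≤ LL X := ((le_max_right _ _).trans (le_max_right _ _)).trans hX
  obtain ⟨hp8, hLp, hs64⟩ := mid_facts hX5 hpl
  obtain ⟨hT1, hT2⟩ := h4 _ hX4
  have hsb := h1 X hX1 p hp hpl hpu
  have hB1 := h2 X hX2 p hp hpl hpu Y hYX hlY
  set L := LL X with hL
  have hL0 : 0 < L := by linarith
  have hlog : Real.log X = Real.exp L := log_eq_exp_LL hL0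
  have hY1 : 1 ≤ Y := by
    rcases Nat.eq_zero_or_pos Y with h0 | h0
    · exfalso
      rw [h0, hlog] at hlY
      simp at hlY
      have := Real.exp_pos L
      linarith
    · exact h0
  have hYr : (1 : ℝ) ≤ Y := by exact_mod_cast hY1
  have hB2 := h3 X hX3 p hp hpl hpu Y hlY (p / 2) (by linarith)
  have hlY' : Real.log X / (2 * L) ≤ Real.log Y := by
    refine le_trans ?_ hlY
    apply div_le_div_of_nonneg_left _ (by norm_num) (by linarith)
    rw [hlog]; exact (Real.exp_pos _).le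
  obtain ⟨_, hodd, _⟩ := hsb Y hY1 hlY'
  have hV0 : 0 ≤ VV p X := by
    unfold VV
    refine Finset.prod_nonneg fun q hq => ?_
    have : (1 : ℝ) ≤ q := by exact_mod_cast (QQ_prime hq).1.one_le
    rw [sub_nonneg, div_le_one (by linarith)]
    exact this
  -- covering
  have hcov : siftOdd (QQ p X) Y ⊆ good p Y ∪
      ((sift (QQ p X) Y).filter (fun m => ∃ q ∈ Pset p (Zc X) Y, q ∣ m) ∪
      (SFset (p / 2) Y).biUnion fun s => (sift (QQ p X) Y).filter (s ∣ ·)) := by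
    intro m hm
    unfold siftOdd at hm
    rw [Finset.mem_filter, Finset.mem_Ioc] at hm
    obtain ⟨⟨hm0, hmY⟩, hmo, hmQ⟩ := hm
    have hms : m ∈ sift (QQ p X) Y := by
      unfold sift
      rw [Finset.mem_filter, Finset.mem_Ioc]
      exact ⟨⟨hm0, hmY⟩, hmQ⟩
    rw [Finset.mem_union, Finset.mem_union]
    by_cases hg : p ∣ sg m
    · right
      rcases dvd_sg hp (by omega) hg with ⟨q, hq, hqm, hq1⟩ | ⟨s, hs, hsp, hsm⟩
      · left
        rw [Finset.mem_filter]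
        refine ⟨hms, q, ?_, hqm⟩
        rw [mem_Pset]
        refine ⟨⟨?_, (Nat.le_of_dvd hm0 hqm).trans hmY⟩, hq, hq1⟩
        by_contra hcon
        push Not at hcon
        apply hmQ q _ hqm
        unfold QQ
        rw [mem_Pset]
        exact ⟨⟨hq.pos, hcon⟩, hq, hq1⟩
      · right
        rw [Finset.mem_biUnion]
        refine ⟨s, ?_, Finset.mem_filter.mpr ⟨hms, hsm⟩⟩
        rw [mem_SFset]
        exact ⟨⟨Nat.pos_of_dvd_of_pos hsm hm0, (Nat.le_of_dvd hm0 hsm).trans hmY⟩, hs, hsp⟩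
    · left
      unfold good
      rw [Finset.mem_filter, Finset.mem_Ioc]
      exact ⟨⟨hm0, hmY⟩, hmo, hg⟩
  have hcard : ((siftOdd (QQ p X) Y).card : ℝ) ≤ (good p Y).card +
      ((((sift (QQ p X) Y).filter (fun m => ∃ q ∈ Pset p (Zc X) Y, q ∣ m)).card : ℕ) : ℝ) +
      ∑ s ∈ SFset (p / 2) Y, ((sift (QQ p X) (Y / s)).card : ℝ) := by
    have h5 : (siftOdd (QQ p X) Y).card ≤ (good p Y).card +
      (((sift (QQ p X) Y).filter (fun m => ∃ q ∈ Pset p (Zc X) Y, q ∣ m)).card +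
      ∑ s ∈ SFset (p / 2) Y, (sift (QQ p X) (Y / s)).card) := by
      refine (Finset.card_le_card hcov).trans ((Finset.card_union_le _ _).trans ?_)
      apply Nat.add_le_add_left
      refine (Finset.card_union_le _ _).trans ?_
      apply Nat.add_le_add_left
      refine Finset.card_biUnion_le.trans (Finset.sum_le_sum fun s hs => ?_)
      apply sift_dvd_card
      exact (mem_SFset.mp hs).1.1
    have h6 : (((siftOdd (QQ p X) Y).card : ℕ) : ℝ) ≤ (((good p Y).card +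
      (((sift (QQ p X) Y).filter (fun m => ∃ q ∈ Pset p (Zc X) Y, q ∣ m)).card +
      ∑ s ∈ SFset (p / 2) Y, (sift (QQ p X) (Y / s)).card) : ℕ) : ℝ) := by exact_mod_cast h5
    push_cast at h6
    linarith
  have hT3 : C * ((((p : ℝ) / 2) ^ (1 / 4 : ℝ))⁻¹ + 1 / L) ≤ ε / 8 := by
    refine le_trans ?_ hT1
    apply mul_le_mul_of_nonneg_left _ hC.le
    have h5 : (√L / 16) ^ (1 / 4 : ℝ) ≤ ((p : ℝ) / 2) ^ (1 / 4 : ℝ) :=
      Real.rpow_le_rpow (by positivity) (by linarith) (by norm_num)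
    have h6 : (((p : ℝ) / 2) ^ (1 / 4 : ℝ))⁻¹ ≤ ((√L / 16) ^ (1 / 4 : ℝ))⁻¹ :=
      inv_anti₀ (by positivity) h5
    linarith
  have hYV : 0 ≤ Y * VV p X := by positivity
  have hB2' : ∑ s ∈ SFset (p / 2) Y, ((sift (QQ p X) (Y / s)).card : ℝ) ≤ ε / 8 * (Y * VV p X) :=
    hB2.trans (mul_le_mul_of_nonneg_right hT3 hYV)
  have h7 : (Y / 2 : ℝ) * VV p X * (1 - 1 / L) = (Y / 2 : ℝ) * VV p X - (1 / L) * (Y * VV p X / 2) := by ring
  have h8 : (1 / L) * (Y * VV p X / 2) ≤ (ε / 8) * (Y * VV p X / 2) := by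
    apply mul_le_mul_of_nonneg_right hT2 (by positivity)
  have h9 : (Y / 2 : ℝ) * VV p X * (1 - ε) = (Y / 2 : ℝ) * VV p X - ε / 2 * (Y * VV p X) := by ring
  rw [h9]
  rw [h7] at hodd
  nlinarith

end Pool.Agent.H93
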