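import Pool.Agent.H93.Lower2

/-!
Lower bound for the number of non-arithmetic integers, assembled (helper file).
-/

namespace Pool.Agent.H93

open Finset Filter Topology

/-- the non-arithmetic integers up to `X` -/
def NA (X : ℕ) : Finset ℕ := (Ioc 0 X).filter (fun n => ¬ n.divisors.card ∣ sg n)

/-- primes in the middle range -/
noncomputable def mid (X : ℕ) : Finset ℕ :=
  (range (⌊3 * √(LL X)⌋₊ + 1)).filter (fun p => p.Prime ∧ √(LL X) / 8 ≤ (p : ℝ))

lemma mem_mid {X p : ℕ} : p ∈ mid X ↔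
    p.Prime ∧ √(LL X) / 8 ≤ (p : ℝ) ∧ (p : ℝ) ≤ 3 * √(LL X) := by
  unfold mid
  rw [Finset.mem_filter, Finset.mem_range, Nat.lt_succ_iff,
    Nat.le_floor_iff (by positivity)]
  tauto

/-- the main sum over the middle range -/
noncomputable def Smid (X : ℕ) : ℝ :=
  ∑ p ∈ mid X, (1 / 2 : ℝ) ^ p * Real.exp (-(LL X / ((p : ℝ) - 1)))

lemma sg_mul {m n : ℕ} (h : m.Coprime n) : sg (m * n) = sg m * sg n :=
  Nat.Coprime.sum_divisors_mul h

lemma sg_two_pow (k : ℕ) : sg (2 ^ k) + 1 = 2 ^ (k + 1) := by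
  unfold sg
  rw [Nat.sum_divisors_prime_pow Nat.prime_two]
  have := Nat.geomSum_eq (m := 2) le_rfl (k + 1)
  simp only [Nat.add_one_sub_one, Nat.div_one] at this
  rw [this]
  have : 1 ≤ 2 ^ (k + 1) := Nat.one_le_two_pow
  omega

/-- elements `2^(p-1) m` with `m` odd, `p ∤ σ(m)` are non-arithmetic -/
lemma good_NA {p m : ℕ} (hp : p.Prime) (hp3 : 3 ≤ p) (hm : m % 2 = 1) (hpm : ¬ p ∣ sg m) :
    ¬ (2 ^ (p - 1) * m).divisors.card ∣ sg (2 ^ (p - 1) * m) := by
  have hcop : (2 ^ (p - 1)).Coprime m := by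
    apply Nat.Coprime.pow_left
    rw [Nat.prime_two.coprime_iff_not_dvd]
    omega
  rw [Nat.Coprime.card_divisors_mul hcop, sg_mul hcop, Nat.divisors_prime_pow Nat.prime_two]
  simp only [Finset.card_map, Finset.card_range]
  rw [Nat.sub_add_cancel hp.one_le]
  intro h
  have hpd : p ∣ sg (2 ^ (p - 1)) * sg m := (Dvd.intro _ rfl).trans h
  rcases (Nat.Prime.dvd_mul hp).mp hpd with h1 | h1
  · have h2 := sg_two_pow (p - 1)
    rw [Nat.sub_add_cancel hp.one_le] at h2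
    -- 2^p ≡ 2 mod p
    have hfact : Fact p.Prime := ⟨hp⟩
    have h3 : ((2 ^ p : ℕ) : ZMod p) = 2 := by
      push_cast
      exact ZMod.pow_card 2
    rw [← h2] at h3
    push_cast at h3
    have h4 : ((sg (2 ^ (p - 1)) : ℕ) : ZMod p) = 0 := (ZMod.natCast_eq_zero_iff _ _).mpr h1
    rw [h4, zero_add] at h3
    have h5 : ((1 : ℕ) : ZMod p) = 0 := by
      push_cast
      have : (2 : ZMod p) = 1 + 1 := by norm_num
      rw [this] at h3
      have h6 := add_left_cancel (a := (1 : ZMod p)) (b := 0) (c := 1) (by rw [add_zero]; exact h3)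
      exact h6.symm
    rw [ZMod.natCast_eq_zero_iff] at h5
    have := Nat.le_of_dvd one_pos h5
    omega
  · exact hpm h1

/-- size facts for `Y = X / 2^(p-1)` -/
lemma Y_facts : ∃ L0 : ℝ, ∀ X : ℕ, L0 ≤ LL X → ∀ p : ℕ, p.Prime → √(LL X) / 8 ≤ p →
    (p : ℝ) ≤ 3 * √(LL X) →
    Real.log X / 2 ≤ Real.log ((X / 2 ^ (p - 1) : ℕ) : ℝ) ∧
    (X : ℝ) / 2 ^ (p - 1) * (1 - 1 / LL X) ≤ ((X / 2 ^ (p - 1) : ℕ) : ℝ) ∧
    4096 ≤ LL X := by
  obtain ⟨L1, h1⟩ := eventually_atTop.mp (eventually_L2 0)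
  refine ⟨L1, fun X hX p hp hpl hpu => ?_⟩
  obtain ⟨hL4096, hLe1, hLe2⟩ := h1 (LL X) hX
  obtain ⟨hp8, hLp, hs64⟩ := mid_facts hL4096 hpl
  set L := LL X with hL
  have hL0 : 0 < L := by linarith
  have hlog : Real.log X = Real.exp L := log_eq_exp_LL hL0
  have hX0 : (0 : ℝ) < X := by
    rcases Nat.eq_zero_or_pos X with h0 | h0
    · exfalso
      rw [h0] at hlog
      simp at hlog
      have := Real.exp_pos L
      linarith
    · exact_mod_cast h0
  -- 2^(p-1) ≤ exp (3 √L)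
  have h2p : (2 : ℝ) ^ (p - 1) ≤ Real.exp (3 * √L) := by
    have h2 : (2 : ℝ) ≤ Real.exp 1 := by have := Real.exp_one_gt_d9; linarith
    calc (2 : ℝ) ^ (p - 1) ≤ (Real.exp 1) ^ (p - 1) := pow_le_pow_left₀ (by norm_num) h2 _
      _ = Real.exp ((p - 1 : ℕ) : ℝ) := by rw [← Real.exp_nat_mul]; simp
      _ ≤ Real.exp (3 * √L) := by
          apply Real.exp_le_exp.mpr
          refine le_trans ?_ hpu
          exact_mod_cast Nat.sub_le _ _
  have h2p0 : (0 : ℝ) < (2 : ℝ) ^ (p - 1) := by positivity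
  have hXe : (X : ℝ) = Real.exp (Real.log X) := (Real.exp_log hX0).symm
  have hbig : Real.exp (Real.log X / 2) * (2 * L) ≤ (X : ℝ) / 2 ^ (p - 1) := by
    rw [le_div_iff₀ h2p0]
    have h3 : 2 * L ≤ Real.exp (1 + Real.log L) := by
      rw [Real.exp_add, Real.exp_log hL0]
      have := Real.exp_one_gt_d9
      nlinarith
    calc Real.exp (Real.log X / 2) * (2 * L) * 2 ^ (p - 1) ≤
          Real.exp (Real.log X / 2) * Real.exp (1 + Real.log L) * Real.exp (3 * √L) := by gcongr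
      _ = Real.exp (Real.log X / 2 + (1 + Real.log L) + 3 * √L) := by
          rw [← Real.exp_add, ← Real.exp_add]
      _ ≤ Real.exp (Real.log X) := by
          apply Real.exp_le_exp.mpr
          rw [hlog]
          have : 0 ≤ √L := Real.sqrt_nonneg _
          linarith
      _ = X := hXe.symm
  have hfloor : (X : ℝ) / 2 ^ (p - 1) - 1 ≤ ((X / 2 ^ (p - 1) : ℕ) : ℝ) := by
    rw [sub_le_iff_le_add, div_le_iff₀ h2p0]
    have hpos : 0 < 2 ^ (p - 1) := by positivity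
    have := Nat.lt_mul_div_succ X hpos
    have h4 : (X : ℝ) ≤ (2 : ℝ) ^ (p - 1) * ((X / 2 ^ (p - 1) + 1 : ℕ) : ℝ) := by exact_mod_cast this.le
    push_cast at h4
    linarith
  have he1 : 1 ≤ Real.exp (Real.log X / 2) := Real.one_le_exp (by rw [hlog]; positivity)
  have hbig2 : 2 * L ≤ (X : ℝ) / 2 ^ (p - 1) := by
    refine le_trans ?_ hbig
    nlinarith
  refine ⟨?_, ?_, hL4096⟩
  · have h5 : Real.exp (Real.log X / 2) ≤ ((X / 2 ^ (p - 1) : ℕ) : ℝ) := by
      refine le_trans ?_ hfloor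
      refine le_trans ?_ (sub_le_sub_right hbig 1)
      nlinarith
    rw [Real.le_log_iff_exp_le (lt_of_lt_of_le (Real.exp_pos _) h5)]
    exact h5
  · refine le_trans ?_ hfloor
    have h6 : (X : ℝ) / 2 ^ (p - 1) * (1 - 1 / L) = (X : ℝ) / 2 ^ (p - 1) - (X : ℝ) / 2 ^ (p - 1) / L := by ring
    rw [h6]
    have h7 : 1 ≤ (X : ℝ) / 2 ^ (p - 1) / L := by
      rw [le_div_iff₀ hL0]; linarith
    linarith

theorem lower_main (ε : ℝ) (hε : 0 < ε) (hε1 : ε < 1) : ∃ L0 : ℝ, ∀ X : ℕ, L0 ≤ LL X →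
    (1 - ε) * (X * Smid X) ≤ (NA X).card := by
  obtain ⟨L1, h1⟩ := good_lower (ε / 4) (by positivity)
  obtain ⟨L2, h2⟩ := V_lemma (ε / 4) (by positivity)
  obtain ⟨L3, h3⟩ := Y_facts
  refine ⟨max (max L1 L2) (max L3 (4 / ε)), fun X hX => ?_⟩
  have hX1 : L1 ≤ LL X := ((le_max_left _ _).trans (le_max_left _ _)).trans hX
  have hX2 : L2 ≤ LL X := ((le_max_right _ _).trans (le_max_left _ _)).trans hX
  have hX3 : L3 ≤ LL X := ((le_max_left _ _).trans (le_max_right _ _)).trans hX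
  have hX4 : 4 / ε ≤ LL X := ((le_max_right _ _).trans (le_max_right _ _)).trans hX
  -- the disjoint sets
  set f : ℕ → Finset ℕ := fun p => (good p (X / 2 ^ (p - 1))).image (2 ^ (p - 1) * ·) with hf
  have hdisj : (mid X : Set ℕ).PairwiseDisjoint f := by
    intro p hp q hq hpq
    simp only [Function.onFun]
    rw [Finset.disjoint_left]
    intro n hn hn'
    simp only [hf, Finset.mem_image] at hn hn'
    obtain ⟨a, ha, rfl⟩ := hn
    obtain ⟨b, hb, hab⟩ := hn'
    unfold good at ha hb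
    simp only [Finset.mem_filter, Finset.mem_Ioc] at ha hb
    have e : ∀ k m : ℕ, m % 2 = 1 → (2 ^ k * m).factorization 2 = k := by
      intro k m hm
      have hm0 : m ≠ 0 := by omega
      rw [Nat.factorization_mul (by positivity) hm0]
      simp only [Finsupp.add_apply]
      rw [Nat.prime_two.factorization_pow]
      simp only [Finsupp.single_eq_same]
      rw [Nat.factorization_eq_zero_of_not_dvd (by omega)]
      simp
    have h5 : p - 1 = q - 1 := by
      rw [← e (p - 1) a ha.2.1, ← e (q - 1) b hb.2.1, hab]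
    have hp' := (mem_mid.mp hp).1.one_le
    have hq' := (mem_mid.mp hq).1.one_le
    exact hpq (by omega)
  have hsub : (mid X).biUnion f ⊆ NA X := by
    intro n hn
    rw [Finset.mem_biUnion] at hn
    obtain ⟨p, hp, hn⟩ := hn
    obtain ⟨hpp, hpl, hpu⟩ := mem_mid.mp hp
    obtain ⟨_, _, hL⟩ := h3 X hX3 p hpp hpl hpu
    obtain ⟨hp8, _, _⟩ := mid_facts hL hpl
    simp only [hf, Finset.mem_image] at hn
    obtain ⟨m, hm, rfl⟩ := hn
    unfold good at hm
    simp only [Finset.mem_filter, Finset.mem_Ioc] at hm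
    unfold NA
    rw [Finset.mem_filter, Finset.mem_Ioc]
    refine ⟨⟨Nat.mul_pos (by positivity) hm.1.1, ?_⟩, good_NA hpp (by
      have : (8 : ℝ) ≤ p := hp8
      have : 8 ≤ p := by exact_mod_cast this
      omega) hm.2.1 hm.2.2⟩
    have := hm.1.2
    rw [Nat.le_div_iff_mul_le (by positivity), mul_comm] at this
    exact this
  have hcard : ∑ p ∈ mid X, ((good p (X / 2 ^ (p - 1))).card : ℝ) ≤ (NA X).card := by
    have h5 := Finset.card_le_card hsub
    rw [Finset.card_biUnion hdisj] at h5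
    have h6 : ∀ p, (f p).card = (good p (X / 2 ^ (p - 1))).card := by
      intro p
      apply Finset.card_image_of_injective
      intro a b hab
      exact Nat.eq_of_mul_eq_mul_left (by positivity) hab
    simp_rw [h6] at h5
    exact_mod_cast h5
  refine le_trans ?_ hcard
  unfold Smid
  rw [Finset.mul_sum, Finset.mul_sum]
  refine Finset.sum_le_sum fun p hp => ?_
  obtain ⟨hpp, hpl, hpu⟩ := mem_mid.mp hp
  obtain ⟨hY1, hY2, hL⟩ := h3 X hX3 p hpp hpl hpu
  obtain ⟨hV1, _, _⟩ := h2 X hX2 p hpp hpl hpu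
  have hg := h1 X hX1 p hpp hpl hpu (X / 2 ^ (p - 1)) (Nat.div_le_self _ _) hY1
  refine le_trans ?_ hg
  set L := LL X with hLdef
  have hL0 : 0 < L := by linarith
  have hX0 : (0 : ℝ) ≤ X := Nat.cast_nonneg X
  have hLinv : 1 / L ≤ ε / 4 := by
    rw [div_le_iff₀ hL0]
    rw [div_le_iff₀ hε] at hX4
    linarith
  have hexp : Real.exp (-(L / ((p : ℝ) - 1))) * (1 - ε / 4) ≤ VV p X := by
    refine le_trans ?_ hV1
    rw [sub_eq_add_neg (-(L / ((p : ℝ) - 1))) (ε / 4), Real.exp_add]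
    apply mul_le_mul_of_nonneg_left _ (Real.exp_pos _).le
    have := Real.add_one_le_exp (-(ε / 4))
    linarith
  have h2pow : (2 : ℝ) ^ (p - 1) * 2 = 2 ^ p := by
    rw [← pow_succ, Nat.sub_add_cancel hpp.one_le]
  have h5 : (X : ℝ) / 2 ^ (p - 1) * (1 - ε / 4) ≤ ((X / 2 ^ (p - 1) : ℕ) : ℝ) := by
    refine le_trans ?_ hY2
    apply mul_le_mul_of_nonneg_left _ (by positivity)
    linarith
  have h6 : (0 : ℝ) ≤ 1 - ε / 4 := by linarith
  have h7 : (1 - ε) ≤ (1 - ε / 4) * ((1 - ε / 4) * (1 - ε / 4)) := by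
    have e : (1 - ε / 4) * ((1 - ε / 4) * (1 - ε / 4)) - (1 - ε) =
        ε / 4 + (ε / 4) ^ 2 * (3 - ε / 4) := by ring
    have e2 : 0 ≤ (ε / 4) ^ 2 * (3 - ε / 4) := mul_nonneg (by positivity) (by linarith)
    linarith
  calc (1 - ε) * ((X : ℝ) * ((1 / 2) ^ p * Real.exp (-(L / ((p : ℝ) - 1)))))
      ≤ ((1 - ε / 4) * ((1 - ε / 4) * (1 - ε / 4))) * ((X : ℝ) * ((1 / 2) ^ p * Real.exp (-(L / ((p : ℝ) - 1))))) := by
        apply mul_le_mul_of_nonneg_right h7 (by positivity)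
    _ = ((X : ℝ) / 2 ^ (p - 1) * (1 - ε / 4)) / 2 * (Real.exp (-(L / ((p : ℝ) - 1))) * (1 - ε / 4)) * (1 - ε / 4) := by
        rw [one_div, inv_pow, ← h2pow]
        field_simp
    _ ≤ ((X / 2 ^ (p - 1) : ℕ) : ℝ) / 2 * VV p X * (1 - ε / 4) := by
        apply mul_le_mul_of_nonneg_right _ h6
        apply mul_le_mul _ hexp (by positivity) (by positivity)
        linarith

end Pool.Agent.H93
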