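import Pool.Agent.H93.UpperE

/-!
Upper bound for the number of non-arithmetic integers: assembly (helper file).
-/

namespace Pool.Agent.H93

open Finset Filter Topology

open Classical in
lemma NA_card_le (X : ℕ) (hXL : 64 ≤ √(LL X)) :
    ((NA X).card : ℝ) ≤ (PS X (BB X - 1) 2).card + (FX (Q4 X) X (BB X)).card +
      (PS X 2 (2 ^ BB X)).card + ∑ p ∈ small X, ((FX (QQ p X) X (BB X)).card : ℝ) +
      ∑ p ∈ mid X, ((PS X (p - 1) (2 ^ 24)).card : ℝ) + ∑ p ∈ mid X, ((C2 p X).card : ℝ) +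
      ∑ p ∈ mid X, ((MainSet X p).card : ℝ) := by
  have h1 : NA X ⊆ PS X (BB X - 1) 2 ∪ FX (Q4 X) X (BB X) ∪ PS X 2 (2 ^ BB X) ∪
      (small X).biUnion (fun p => FX (QQ p X) X (BB X)) ∪
      (mid X).biUnion (fun p => PS X (p - 1) (2 ^ 24)) ∪ (mid X).biUnion (fun p => C2 p X) ∪
      (mid X).biUnion (fun p => MainSet X p) := by
    intro n hn
    have := covering X n hn hXL
    simp only [Finset.mem_union, Finset.mem_biUnion, or_assoc]
    exact this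
  have h2 : (NA X).card ≤ (PS X (BB X - 1) 2).card + (FX (Q4 X) X (BB X)).card +
      (PS X 2 (2 ^ BB X)).card + ∑ p ∈ small X, (FX (QQ p X) X (BB X)).card +
      ∑ p ∈ mid X, (PS X (p - 1) (2 ^ 24)).card + ∑ p ∈ mid X, (C2 p X).card +
      ∑ p ∈ mid X, (MainSet X p).card := by
    refine (Finset.card_le_card h1).trans ?_
    refine (Finset.card_union_le _ _).trans (add_le_add ?_ Finset.card_biUnion_le)
    refine (Finset.card_union_le _ _).trans (add_le_add ?_ Finset.card_biUnion_le)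
    refine (Finset.card_union_le _ _).trans (add_le_add ?_ Finset.card_biUnion_le)
    refine (Finset.card_union_le _ _).trans (add_le_add ?_ Finset.card_biUnion_le)
    refine (Finset.card_union_le _ _).trans (add_le_add ?_ le_rfl)
    exact Finset.card_union_le _ _
  exact_mod_cast h2

lemma card_mid (X : ℕ) : ((mid X).card : ℝ) ≤ 3 * √(LL X) + 1 := by
  have h : (mid X).card ≤ ⌊3 * √(LL X)⌋₊ + 1 := by
    unfold mid
    exact (Finset.card_filter_le _ _).trans (by rw [Finset.card_range])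
  have h2 : ((mid X).card : ℝ) ≤ ((⌊3 * √(LL X)⌋₊ + 1 : ℕ) : ℝ) := by exact_mod_cast h
  refine h2.trans ?_
  push_cast
  have := Nat.floor_le (show 0 ≤ 3 * √(LL X) by positivity)
  linarith

lemma card_small (X : ℕ) : ((small X).card : ℝ) ≤ 3 * √(LL X) + 1 := by
  have h : (small X).card ≤ ⌊√(LL X)⌋₊ + 1 := by
    unfold small
    exact (Finset.card_filter_le _ _).trans (by rw [Finset.card_range])
  have h2 : ((small X).card : ℝ) ≤ ((⌊√(LL X)⌋₊ + 1 : ℕ) : ℝ) := by exact_mod_cast h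
  refine h2.trans ?_
  push_cast
  have := Nat.floor_le (show 0 ≤ √(LL X) by positivity)
  have := Real.sqrt_nonneg (LL X)
  linarith

theorem error_bound : ∃ C : ℝ, 0 < C ∧ ∃ L0 : ℝ, ∀ X : ℕ, L0 ≤ LL X →
    ((NA X).card : ℝ) ≤ ∑ p ∈ mid X, ((MainSet X p).card : ℝ) + C * (X * Real.exp (-(2.03 * √(LL X)))) := by
  obtain ⟨D, L1, h1⟩ := small_p_sum
  obtain ⟨C1, hC1, L2, h2⟩ := FX_small D
  obtain ⟨C2', hC2, L3, h3⟩ := FX_small 0
  obtain ⟨L4, h4⟩ := Q4_sum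
  obtain ⟨C3, hC3, L5, h5⟩ := C2_bound
  obtain ⟨L6, hL100, hZ⟩ := Zc_facts
  refine ⟨2 * (2 : ℝ) ^ (2 : ℝ) + C2' + 2 * (2 : ℝ) ^ (0 : ℝ) + 301 * C1 + 301 * (2 * (2 : ℝ) ^ (48 : ℝ)) + 301 * C3,
    by positivity, max (max (max L1 L2) (max L3 L4)) (max L5 4096), fun X hX => ?_⟩
  have hXa := (le_max_left _ _).trans hX
  have hXb := (le_max_right _ _).trans hX
  have hXc := (le_max_left _ _).trans hXa
  have hXd := (le_max_right _ _).trans hXa
  have hX1 : L1 ≤ LL X := (le_max_left _ _).trans hXc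
  have hX2 : L2 ≤ LL X := (le_max_right _ _).trans hXc
  have hX3 : L3 ≤ LL X := (le_max_left _ _).trans hXd
  have hX4 : L4 ≤ LL X := (le_max_right _ _).trans hXd
  have hX5 : L5 ≤ LL X := (le_max_left _ _).trans hXb
  have hX7 : 4096 ≤ LL X := (le_max_right _ _).trans hXb
  have hs64 : 64 ≤ √(LL X) := by
    rw [show (64 : ℝ) = √4096 by
      rw [show (4096 : ℝ) = 64 ^ 2 by norm_num, Real.sqrt_sq (by norm_num)]]
    exact Real.sqrt_le_sqrt hX7
  have hcov := NA_card_le X hs64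
  have hBBl := le_BB X
  set s := √(LL X) with hs
  have hs0 : 0 ≤ s := by linarith
  have hX0 : (0 : ℝ) ≤ X := Nat.cast_nonneg X
  have hE1 : Real.exp (-(2.05 * s)) ≤ Real.exp (-(2.03 * s)) := Real.exp_le_exp.mpr (by linarith)
  have hE2 : Real.exp (-(2.05 * s)) ≤ Real.exp (-(2.04 * s)) := Real.exp_le_exp.mpr (by linarith)
  have hE3 := sqrt_le_exp_small s hs0
  set E := X * Real.exp (-(2.03 * s)) with hE
  have hBB3 : 3 ≤ BB X := by
    have : (3 : ℝ) ≤ BB X := by linarith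
    exact_mod_cast this
  -- first
  have b1 : ((PS X (BB X - 1) 2).card : ℝ) ≤ 2 * (2 : ℝ) ^ (2 : ℝ) * E := by
    refine (card_pow_dvd X (BB X - 1) 2 (by omega) le_rfl).trans ?_
    have h6 := two_pow_bound s hs0 (BB X - 1 - 1) 2 (by
      have : ((BB X - 1 - 1 : ℕ) : ℝ) = (BB X : ℝ) - 2 := by
        rw [Nat.sub_sub, Nat.cast_sub (by omega)]; norm_num
      rw [this]; linarith)
    push_cast
    rw [div_eq_mul_inv]
    calc 2 * (X : ℝ) * ((2 : ℝ) ^ (BB X - 1 - 1))⁻¹ ≤ 2 * X * ((2 : ℝ) ^ (2 : ℝ) * Real.exp (-(2.05 * s))) := by gcongr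
      _ ≤ 2 * X * ((2 : ℝ) ^ (2 : ℝ) * Real.exp (-(2.03 * s))) := by gcongr
      _ = _ := by rw [hE]; ring
  have b2 : ((FX (Q4 X) X (BB X)).card : ℝ) ≤ C2' * E := by
    refine (h3 X hX3 (Q4 X) (fun q hq => ?_) (h4 X hX4)).trans ?_
    · unfold Q4 at hq
      rw [Finset.mem_filter, Finset.mem_Ioc] at hq
      exact ⟨hq.2.1, hq.1.2⟩
    · rw [hE]; gcongr
  have b3 : ((PS X 2 (2 ^ BB X)).card : ℝ) ≤ 2 * (2 : ℝ) ^ (0 : ℝ) * E := by
    refine (card_pow_dvd X 2 (2 ^ BB X) le_rfl ?_).trans ?_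
    · calc 2 = 2 ^ 1 := by norm_num
        _ ≤ 2 ^ BB X := Nat.pow_le_pow_right (by norm_num) (by omega)
    have h6 := two_pow_bound s hs0 (BB X) 0 (by linarith)
    push_cast
    rw [div_eq_mul_inv]
    simp only [Nat.add_one_sub_one, pow_one]
    calc 2 * (X : ℝ) * ((2 : ℝ) ^ (BB X))⁻¹ ≤ 2 * X * ((2 : ℝ) ^ (0 : ℝ) * Real.exp (-(2.05 * s))) := by gcongr
      _ ≤ 2 * X * ((2 : ℝ) ^ (0 : ℝ) * Real.exp (-(2.03 * s))) := by gcongr
      _ = _ := by rw [hE]; ring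
  have b4 : ∑ p ∈ small X, ((FX (QQ p X) X (BB X)).card : ℝ) ≤ 301 * C1 * E := by
    have h6 : ∀ p ∈ small X, ((FX (QQ p X) X (BB X)).card : ℝ) ≤ C1 * (X * Real.exp (-(2.05 * s))) := by
      intro p hp
      rw [mem_small] at hp
      exact h2 X hX2 (QQ p X) (fun q hq => QQ_prime hq) (h1 X hX1 p hp.1 hp.2)
    refine (Finset.sum_le_card_nsmul _ _ _ h6).trans ?_
    rw [nsmul_eq_mul]
    calc ((small X).card : ℝ) * (C1 * (X * Real.exp (-(2.05 * s)))) ≤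
          (3 * s + 1) * (C1 * (X * Real.exp (-(2.04 * s)))) := by
          have := card_small X
          gcongr
      _ = C1 * X * ((3 * s + 1) * Real.exp (-(2.04 * s))) := by ring
      _ ≤ C1 * X * (301 * Real.exp (-(2.03 * s))) := by gcongr
      _ = _ := by rw [hE]; ring
  have b5 : ∑ p ∈ mid X, ((PS X (p - 1) (2 ^ 24)).card : ℝ) ≤ 301 * (2 * (2 : ℝ) ^ (48 : ℝ)) * E := by
    have h6 : ∀ p ∈ mid X, ((PS X (p - 1) (2 ^ 24)).card : ℝ) ≤ 2 * (2 : ℝ) ^ (48 : ℝ) * (X * Real.exp (-(2.05 * s))) := by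
      intro p hp
      rw [mem_mid] at hp
      have hp8 : (8 : ℝ) ≤ p := by linarith [hp.2.1]
      have hp8' : 8 ≤ p := by exact_mod_cast hp8
      refine (card_pow_dvd X (p - 1) (2 ^ 24) (by omega) (by norm_num)).trans ?_
      have h7 := two_pow_bound s hs0 (24 * (p - 1 - 1)) 48 (by
        have : ((24 * (p - 1 - 1) : ℕ) : ℝ) = 24 * ((p : ℝ) - 2) := by
          rw [Nat.sub_sub, Nat.cast_mul, Nat.cast_sub (by omega)]; norm_num
        rw [this]
        linarith [hp.2.1])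
      have h8 : (((2 ^ 24 : ℕ) : ℝ)) ^ (p - 1 - 1) = (2 : ℝ) ^ (24 * (p - 1 - 1)) := by
        rw [pow_mul]; norm_num
      rw [h8, div_eq_mul_inv]
      calc 2 * (X : ℝ) * ((2 : ℝ) ^ (24 * (p - 1 - 1)))⁻¹ ≤
          2 * X * ((2 : ℝ) ^ (48 : ℝ) * Real.exp (-(2.05 * s))) := by gcongr
        _ = _ := by ring
    refine (Finset.sum_le_card_nsmul _ _ _ h6).trans ?_
    rw [nsmul_eq_mul]
    calc ((mid X).card : ℝ) * (2 * (2 : ℝ) ^ (48 : ℝ) * (X * Real.exp (-(2.05 * s)))) ≤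
          (3 * s + 1) * (2 * (2 : ℝ) ^ (48 : ℝ) * (X * Real.exp (-(2.04 * s)))) := by
          have := card_mid X
          gcongr
      _ = 2 * (2 : ℝ) ^ (48 : ℝ) * X * ((3 * s + 1) * Real.exp (-(2.04 * s))) := by ring
      _ ≤ 2 * (2 : ℝ) ^ (48 : ℝ) * X * (301 * Real.exp (-(2.03 * s))) := by gcongr
      _ = _ := by rw [hE]; ring
  have b6 : ∑ p ∈ mid X, ((C2 p X).card : ℝ) ≤ 301 * C3 * E := by
    have h6 : ∀ p ∈ mid X, ((C2 p X).card : ℝ) ≤ C3 * (X * Real.exp (-(2.04 * s))) := by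
      intro p hp
      rw [mem_mid] at hp
      exact h5 X hX5 p hp.1 hp.2.1 hp.2.2
    refine (Finset.sum_le_card_nsmul _ _ _ h6).trans ?_
    rw [nsmul_eq_mul]
    calc ((mid X).card : ℝ) * (C3 * (X * Real.exp (-(2.04 * s)))) ≤
          (3 * s + 1) * (C3 * (X * Real.exp (-(2.04 * s)))) := by
          have := card_mid X
          gcongr
      _ = C3 * X * ((3 * s + 1) * Real.exp (-(2.04 * s))) := by ring
      _ ≤ C3 * X * (301 * Real.exp (-(2.03 * s))) := by gcongr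
      _ = _ := by rw [hE]; ring
  linarith

theorem main_upper (ε : ℝ) (hε : 0 < ε) : ∃ L0 : ℝ, ∀ X : ℕ, L0 ≤ LL X →
    ∑ p ∈ mid X, ((MainSet X p).card : ℝ) ≤ (1 + ε) * (X * Smid X) := by
  obtain ⟨δ, hδ0, hδ1⟩ : ∃ δ : ℝ, 0 < δ ∧ Real.exp δ * (1 + δ) ≤ 1 + ε := by
    have h1 : Tendsto (fun δ : ℝ => Real.exp δ * (1 + δ)) (𝓝 0) (𝓝 (Real.exp 0 * (1 + 0))) := by
      apply Continuous.tendsto
      fun_prop
    rw [Real.exp_zero, add_zero, mul_one] at h1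
    have h2 := h1.eventually (ge_mem_nhds (show (1 : ℝ) < 1 + ε by linarith))
    obtain ⟨r, hr, h3⟩ := Metric.eventually_nhds_iff.mp h2
    refine ⟨r / 2, by linarith, h3 ?_⟩
    rw [Real.dist_eq, sub_zero, abs_of_pos (by linarith)]
    linarith
  obtain ⟨L1, h1⟩ := exOdd_upper δ hδ0
  obtain ⟨L2, h2⟩ := V_lemma δ hδ0
  obtain ⟨L3, h3⟩ := Y_facts
  refine ⟨max (max L1 L2) L3, fun X hX => ?_⟩
  have hX1 : L1 ≤ LL X := ((le_max_left _ _).trans (le_max_left _ _)).trans hX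
  have hX2 : L2 ≤ LL X := ((le_max_right _ _).trans (le_max_left _ _)).trans hX
  have hX3 : L3 ≤ LL X := (le_max_right _ _).trans hX
  unfold Smid
  rw [Finset.mul_sum, Finset.mul_sum]
  refine Finset.sum_le_sum fun p hp => ?_
  rw [mem_mid] at hp
  obtain ⟨hpp, hpl, hpu⟩ := hp
  obtain ⟨hY1, hY2, hL4096⟩ := h3 X hX3 p hpp hpl hpu
  have ha := h1 X hX1 p hpp hpl hpu _ hY1
  obtain ⟨hV1, hV2, _⟩ := h2 X hX2 p hpp hpl hpu
  have hVpos : 0 ≤ VV p X := (Real.exp_pos _).le.trans hV1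
  have hX0 : (0 : ℝ) ≤ X := Nat.cast_nonneg X
  have hcard : ((MainSet X p).card : ℝ) ≤ (exOdd p X (X / 2 ^ (p - 1))).card := by
    unfold MainSet
    exact_mod_cast Finset.card_image_le
  refine hcard.trans (ha.trans ?_)
  have hYle : (((X / 2 ^ (p - 1) : ℕ) : ℝ)) ≤ X / (2 : ℝ) ^ (p - 1) := by
    have := Nat.cast_div_le (α := ℝ) (m := X) (n := 2 ^ (p - 1))
    push_cast at this
    exact this
  have h2p : (1 / 2 : ℝ) ^ p = 1 / (2 : ℝ) ^ (p - 1) / 2 := by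
    have : p = p - 1 + 1 := by have := hpp.one_le; omega
    conv_lhs => rw [this, pow_succ]
    rw [one_div_pow]
    ring
  calc (((X / 2 ^ (p - 1) : ℕ) : ℝ)) / 2 * VV p X * (1 + δ) ≤
      (X / (2 : ℝ) ^ (p - 1)) / 2 * Real.exp (-(LL X / (p - 1)) + δ) * (1 + δ) := by gcongr
    _ = (Real.exp δ * (1 + δ)) * (X * ((1 / 2 : ℝ) ^ p * Real.exp (-(LL X / (p - 1))))) := by
        rw [h2p, Real.exp_add]
        ring
    _ ≤ (1 + ε) * (X * ((1 / 2 : ℝ) ^ p * Real.exp (-(LL X / (p - 1))))) := by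
        gcongr

end Pool.Agent.H93
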