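import Pool.Agent.H93.LReal
import Pool.Agent.H93.LComplex

/-!
Mertens' theorem in arithmetic progressions with polynomial dependence on the modulus
(helper file).
-/

namespace Pool.Agent.H93

open Finset Filter Topology ArithmeticFunction

theorem lone_lower : ∃ c : ℝ, 0 < c ∧ ∀ (N : ℕ) [NeZero N] (χ : DirichletCharacter ℂ N)
    (_ : χ ≠ 1) (l : ℂ)
    (_ : ∀ m : ℕ, 1 ≤ m → ‖l - ∑ n ∈ range m, ((n : ℝ)⁻¹ : ℝ) * χ (n : ZMod N)‖ ≤ 2 * N / m),
    c / (N : ℝ) ^ 4 ≤ ‖l‖ := by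
  obtain ⟨c, hc, h⟩ := lone_lower_complex
  refine ⟨min c (1 / 128), by positivity, fun N _ χ hχ l hl => ?_⟩
  have hN : 0 < N := Nat.pos_of_ne_zero (NeZero.ne N)
  have hNr : (1 : ℝ) ≤ N := by exact_mod_cast hN
  by_cases hq : χ ^ 2 = 1
  · refine le_trans ?_ (lone_lower_real χ hχ hq l hl)
    rw [div_le_div_iff₀ (by positivity) (by positivity), one_mul]
    have h1 : min c (1 / 128) ≤ 1 / 128 := min_le_right _ _
    have h2 : (N : ℝ) ≤ (N : ℝ) ^ 4 := le_self_pow₀ hNr (by norm_num)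
    have h3 : 0 < min c (1 / 128) := by positivity
    calc min c (1 / 128) * (128 * (N : ℝ)) ≤ 1 / 128 * (128 * N) := by gcongr
      _ = N := by ring
      _ ≤ _ := h2
  · refine le_trans ?_ (h N χ hq l hl)
    apply div_le_div_of_nonneg_right (min_le_left _ _) (by positivity)

section charLambda

variable {N : ℕ} [NeZero N]

/-- `χ(n)Λ(n)/n` -/
noncomputable def fL (χ : DirichletCharacter ℂ N) : ArithmeticFunction ℂ :=
  ⟨fun n => ((Λ n * (n : ℝ)⁻¹ : ℝ) : ℂ) * χ (n : ZMod N), by simp⟩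

/-- `χ(n)/n` -/
noncomputable def gL (χ : DirichletCharacter ℂ N) : ArithmeticFunction ℂ :=
  ⟨fun n => (((n : ℝ)⁻¹ : ℝ) : ℂ) * χ (n : ZMod N), by simp⟩

lemma fL_mul_gL (χ : DirichletCharacter ℂ N) (n : ℕ) (hn : n ≠ 0) :
    (fL χ * gL χ) n = ((Real.log n / n : ℝ) : ℂ) * χ (n : ZMod N) := by
  rw [ArithmeticFunction.mul_apply]
  have h1 : ∀ x ∈ n.divisorsAntidiagonal, fL χ x.1 * gL χ x.2 =
      (Λ x.1 : ℂ) * (((n : ℝ)⁻¹ : ℝ) * χ (n : ZMod N)) := by
    intro x hx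
    rw [Nat.mem_divisorsAntidiagonal] at hx
    simp only [fL, gL, ArithmeticFunction.coe_mk]
    rw [← hx.1]
    push_cast
    rw [map_mul, mul_inv]
    ring
  rw [Finset.sum_congr rfl h1, ← Finset.sum_mul,
    Nat.sum_divisorsAntidiagonal (fun a _ => (Λ a : ℂ)), ← Complex.ofReal_sum, vonMangoldt_sum]
  push_cast
  ring

lemma norm_sum_log_le (χ : DirichletCharacter ℂ N) (hχ : χ ≠ 1) (M : ℕ) :
    ‖∑ n ∈ Ico 1 M, ((Real.log n / n : ℝ) : ℂ) * χ (n : ZMod N)‖ ≤ 3 * N := by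
  have hN : 0 < N := Nat.pos_of_ne_zero (NeZero.ne N)
  have hNr : (1 : ℝ) ≤ N := by exact_mod_cast hN
  have hle : ∀ n : ℕ, ‖((Real.log n / n : ℝ) : ℂ) * χ (n : ZMod N)‖ ≤ 1 / 2 ∨ 3 ≤ n := by
    intro n
    rcases lt_or_ge n 3 with h | h
    · left
      rw [norm_mul, Complex.norm_real, Real.norm_eq_abs]
      have h1 : |Real.log n / n| ≤ 1 / 2 := by
        interval_cases n
        · simp
        · simp
        · have := Real.log_two_lt_d9
          have h2 := Real.log_pos (show (1 : ℝ) < 2 by norm_num)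
          push_cast
          rw [abs_of_pos (by positivity)]
          linarith
      calc _ ≤ 1 / 2 * 1 := mul_le_mul h1 (DirichletCharacter.norm_le_one χ _) (norm_nonneg _)
            (by norm_num)
        _ = 1 / 2 := by ring
    · right; exact h
  rcases le_or_gt M 3 with hM | hM
  · have : ∀ n ∈ Ico 1 M, ‖((Real.log n / n : ℝ) : ℂ) * χ (n : ZMod N)‖ ≤ 1 / 2 := by
      intro n hn
      rw [Finset.mem_Ico] at hn
      rcases hle n with h | h
      · exact h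
      · omega
    calc _ ≤ ∑ n ∈ Ico 1 M, (1 / 2 : ℝ) := norm_sum_le_of_le _ this
      _ = (M - 1 : ℕ) * (1 / 2) := by simp
      _ ≤ 2 * (1 / 2) := by
          gcongr
          have : M - 1 ≤ 2 := by omega
          exact_mod_cast this
      _ ≤ 3 * N := by linarith
  · rw [← Finset.sum_Ico_consecutive _ (show 1 ≤ 3 by norm_num) hM.le]
    refine (norm_add_le _ _).trans ?_
    have h1 : ‖∑ n ∈ Ico (1 : ℕ) 3, ((Real.log n / n : ℝ) : ℂ) * χ (n : ZMod N)‖ ≤ 1 := by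
      calc _ ≤ ∑ n ∈ Ico (1 : ℕ) 3, (1 / 2 : ℝ) := norm_sum_le_of_le _ (by
            intro n hn
            rw [Finset.mem_Ico] at hn
            rcases hle n with h | h
            · exact h
            · omega)
        _ = 1 := by simp
    have h2 := norm_sum_Ico_char_le χ hχ (fun n => Real.log n / n) 3 M
      (fun n _ => by
        apply div_nonneg (Real.log_natCast_nonneg n) (Nat.cast_nonneg n))
      (fun n hn => by
        have hn3 : (3 : ℝ) ≤ n := by exact_mod_cast hn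
        have he : Real.exp 1 ≤ 3 := by
          have := Real.exp_one_lt_d9
          linarith
        apply Real.log_div_self_antitoneOn
        · exact he.trans hn3
        · rw [Set.mem_Ici]; push_cast; linarith
        · push_cast; linarith)
    have h3 : Real.log ((3 : ℕ) : ℝ) / ((3 : ℕ) : ℝ) ≤ 1 := by
      push_cast
      rw [div_le_one (by norm_num)]
      exact (Real.log_le_self (by norm_num))
    have h4 : 2 * (N : ℝ) * (Real.log ((3 : ℕ) : ℝ) / ((3 : ℕ) : ℝ)) ≤ 2 * N * 1 := by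
      gcongr
    linarith

lemma norm_sum_fL_le (χ : DirichletCharacter ℂ N) (hχ : χ ≠ 1) (l : ℂ)
    (hl : ∀ m : ℕ, 1 ≤ m → ‖l - ∑ n ∈ range m, ((n : ℝ)⁻¹ : ℝ) * χ (n : ZMod N)‖ ≤ 2 * N / m)
    (M : ℕ) (hM : 1 ≤ M) :
    ‖l‖ * ‖∑ n ∈ Ioc 0 M, fL χ n‖ ≤ 16 * N := by
  have hN : 0 < N := Nat.pos_of_ne_zero (NeZero.ne N)
  have hNr : (1 : ℝ) ≤ N := by exact_mod_cast hN
  have hMr : (1 : ℝ) ≤ M := by exact_mod_cast hM
  have h1 := sum_Ioc_mul_eq_sum_sum (fL χ) (gL χ) M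
  have h2 : ‖∑ n ∈ Ioc 0 M, (fL χ * gL χ) n‖ ≤ 3 * N := by
    have : ∑ n ∈ Ioc 0 M, (fL χ * gL χ) n =
        ∑ n ∈ Ico 1 (M + 1), ((Real.log n / n : ℝ) : ℂ) * χ (n : ZMod N) := by
      have e : Ioc 0 M = Ico 1 (M + 1) := by ext; simp; omega
      rw [e]
      refine Finset.sum_congr rfl fun n hn => ?_
      rw [Finset.mem_Ico] at hn
      exact fL_mul_gL χ n (by omega)
    rw [this]
    exact norm_sum_log_le χ hχ _
  have h3 : ‖l * ∑ n ∈ Ioc 0 M, fL χ n - ∑ n ∈ Ioc 0 M, (fL χ * gL χ) n‖ ≤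
      2 * N * ((Real.log 4 + 4)) := by
    rw [h1, Finset.mul_sum, ← Finset.sum_sub_distrib]
    have h4 : ∀ n ∈ Ioc 0 M, ‖l * fL χ n - fL χ n * ∑ m ∈ Ioc 0 (M / n), gL χ m‖ ≤
        Λ n * (2 * N / M) := by
      intro n hn
      rw [Finset.mem_Ioc] at hn
      have hn0 : (0 : ℝ) < n := by exact_mod_cast hn.1
      have e1 : l * fL χ n - fL χ n * ∑ m ∈ Ioc 0 (M / n), gL χ m =
          fL χ n * (l - ∑ k ∈ range (M / n + 1), ((k : ℝ)⁻¹ : ℝ) * χ (k : ZMod N)) := by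
        have e2 : ∑ k ∈ range (M / n + 1), (((k : ℝ)⁻¹ : ℝ) : ℂ) * χ (k : ZMod N) =
            ∑ m ∈ Ioc 0 (M / n), gL χ m := by
          have e : Ioc 0 (M / n) = Ico 1 (M / n + 1) := by ext; simp; omega
          rw [e, Finset.range_eq_Ico, Finset.sum_eq_sum_Ico_succ_bot (Nat.succ_pos _)]
          simp [gL]
        rw [e2]
        ring
      rw [e1, norm_mul]
      have e3 : ‖fL χ n‖ ≤ Λ n * (n : ℝ)⁻¹ := by
        simp only [fL, ArithmeticFunction.coe_mk]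
        rw [norm_mul, Complex.norm_real, Real.norm_of_nonneg
          (mul_nonneg vonMangoldt_nonneg (by positivity))]
        exact mul_le_of_le_one_right (mul_nonneg vonMangoldt_nonneg (by positivity))
          (DirichletCharacter.norm_le_one χ _)
      have e4 := hl (M / n + 1) (Nat.le_add_left 1 _)
      have e5 : 2 * (N : ℝ) / ((M / n + 1 : ℕ) : ℝ) ≤ 2 * N * n / M := by
        rw [div_le_div_iff₀ (by positivity) (by positivity)]
        have : (M : ℝ) ≤ n * ((M / n + 1 : ℕ) : ℝ) := by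
          have := Nat.lt_mul_div_succ M hn.1
          exact_mod_cast this.le
        calc 2 * (N : ℝ) * M ≤ 2 * N * (n * ((M / n + 1 : ℕ) : ℝ)) := by gcongr
          _ = _ := by ring
      calc ‖fL χ n‖ * _ ≤ (Λ n * (n : ℝ)⁻¹) * (2 * N * n / M) :=
            mul_le_mul e3 (e4.trans e5) (norm_nonneg _)
              (mul_nonneg vonMangoldt_nonneg (by positivity))
        _ = Λ n * (2 * N / M) := by
            field_simp
    refine (norm_sum_le_of_le _ h4).trans ?_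
    rw [← Finset.sum_mul]
    have h5 : ∑ n ∈ Ioc 0 M, Λ n ≤ (Real.log 4 + 4) * M := by
      have := Chebyshev.psi_le_const_mul_self (x := (M : ℝ)) (by positivity)
      unfold Chebyshev.psi at this
      simpa using this
    calc (∑ n ∈ Ioc 0 M, Λ n) * (2 * N / M) ≤ ((Real.log 4 + 4) * M) * (2 * N / M) := by
          gcongr
      _ = _ := by field_simp
  rw [← norm_mul]
  have h6 := norm_sub_norm_le (l * ∑ n ∈ Ioc 0 M, fL χ n) (∑ n ∈ Ioc 0 M, (fL χ * gL χ) n)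
  have h7 : Real.log 4 + 4 ≤ 6 := by
    have : Real.log 4 = 2 * Real.log 2 := by
      rw [show (4 : ℝ) = 2 ^ 2 by norm_num, Real.log_pow]; norm_num
    have h8 := Real.log_two_lt_d9
    linarith
  nlinarith

end charLambda

theorem exists_char_const : ∃ C : ℝ, 0 < C ∧ ∀ (N : ℕ) [NeZero N] (χ : DirichletCharacter ℂ N)
    (_ : χ ≠ 1) (M : ℕ), ‖∑ n ∈ Ioc 0 M, fL χ n‖ ≤ C * (N : ℝ) ^ 5 := by
  obtain ⟨c, hc, h⟩ := lone_lower
  refine ⟨16 / c, by positivity, fun N _ χ hχ M => ?_⟩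
  have hN : 0 < N := Nat.pos_of_ne_zero (NeZero.ne N)
  have hNr : (1 : ℝ) ≤ N := by exact_mod_cast hN
  rcases Nat.eq_zero_or_pos M with rfl | hM
  · simp; positivity
  obtain ⟨l, hl⟩ := exists_Lone χ hχ
  have h1 := h N χ hχ l hl
  have h2 := norm_sum_fL_le χ hχ l hl M hM
  have h3 : c / (N : ℝ) ^ 4 * ‖∑ n ∈ Ioc 0 M, fL χ n‖ ≤ 16 * N :=
    le_trans (mul_le_mul_of_nonneg_right h1 (norm_nonneg _)) h2
  rw [div_mul_eq_mul_div, div_le_iff₀ (by positivity)] at h3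
  rw [div_mul_eq_mul_div, le_div_iff₀ hc]
  calc ‖∑ n ∈ Ioc 0 M, fL χ n‖ * c = c * ‖∑ n ∈ Ioc 0 M, fL χ n‖ := by ring
    _ ≤ _ := h3
    _ = _ := by ring

end Pool.Agent.H93
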