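import Pool.Agent.H93.MertensAP

/-!
Mertens' theorem in arithmetic progressions, part 2 (helper file).
-/

namespace Pool.Agent.H93

open Finset Filter Topology ArithmeticFunction

lemma sum_vonMangoldt_le (M : ℕ) : ∑ n ∈ Ioc 0 M, Λ n ≤ 6 * M := by
  have := Chebyshev.psi_le_const_mul_self (x := (M : ℝ)) (by positivity)
  unfold Chebyshev.psi at this
  have h7 : Real.log 4 + 4 ≤ 6 := by
    have : Real.log 4 = 2 * Real.log 2 := by
      rw [show (4 : ℝ) = 2 ^ 2 by norm_num, Real.log_pow]; norm_num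
    have h8 := Real.log_two_lt_d9
    linarith
  simp only [Nat.floor_natCast] at this
  refine this.trans ?_
  gcongr

/-- Mertens' first theorem with `Λ`. -/
lemma mertens_one (M : ℕ) (hM : 1 ≤ M) :
    |∑ n ∈ Ioc 0 M, Λ n / n - Real.log M| ≤ 6 := by
  have hMr : (1 : ℝ) ≤ M := by exact_mod_cast hM
  have h1 := sum_Ioc_mul_zeta_eq_sum (Λ : ArithmeticFunction ℝ) M
  rw [vonMangoldt_mul_zeta] at h1
  have hfac : ∑ n ∈ Ioc 0 M, (ArithmeticFunction.log : ArithmeticFunction ℝ) n = Real.log (M.factorial) := by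
    have : ∀ K : ℕ, ∑ n ∈ Ioc 0 K, (ArithmeticFunction.log : ArithmeticFunction ℝ) n = Real.log (K.factorial) := by
      intro K
      induction K with
      | zero => simp
      | succ K ih =>
        rw [Finset.sum_Ioc_succ_top (Nat.zero_le _), ih, Nat.factorial_succ]
        push_cast
        rw [Real.log_mul (by positivity) (by positivity)]
        simp only [ArithmeticFunction.log_apply]
        push_cast
        ring
    exact this M
  rw [hfac] at h1
  set S := ∑ n ∈ Ioc 0 M, Λ n / n with hS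
  have hup : Real.log M.factorial ≤ M * S := by
    rw [h1, hS, Finset.mul_sum]
    refine Finset.sum_le_sum fun n hn => ?_
    rw [Finset.mem_Ioc] at hn
    have : ((M / n : ℕ) : ℝ) ≤ (M : ℝ) / n := Nat.cast_div_le
    calc Λ n * ((M / n : ℕ) : ℝ) ≤ Λ n * (M / n) := by
          apply mul_le_mul_of_nonneg_left this vonMangoldt_nonneg
      _ = M * (Λ n / n) := by ring
  have hlow : M * S - 6 * M ≤ Real.log M.factorial := by
    have h2 := sum_vonMangoldt_le M
    have h3 : M * S - ∑ n ∈ Ioc 0 M, Λ n ≤ Real.log M.factorial := by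
      rw [h1, hS, Finset.mul_sum, ← Finset.sum_sub_distrib]
      refine Finset.sum_le_sum fun n hn => ?_
      rw [Finset.mem_Ioc] at hn
      have hn0 : (0 : ℝ) < n := by exact_mod_cast hn.1
      have : (M : ℝ) / n - 1 ≤ ((M / n : ℕ) : ℝ) := by
        rw [sub_le_iff_le_add, div_le_iff₀ hn0]
        have := Nat.lt_mul_div_succ M hn.1
        have h4 : (M : ℝ) ≤ n * ((M / n + 1 : ℕ) : ℝ) := by exact_mod_cast this.le
        push_cast at h4
        linarith
      calc (M : ℝ) * (Λ n / n) - Λ n = Λ n * ((M : ℝ) / n - 1) := by ring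
        _ ≤ Λ n * ((M / n : ℕ) : ℝ) := mul_le_mul_of_nonneg_left this vonMangoldt_nonneg
    linarith
  have hfu : Real.log M.factorial ≤ M * Real.log M := by
    have : (M.factorial : ℝ) ≤ (M : ℝ) ^ M := by exact_mod_cast Nat.factorial_le_pow M
    calc Real.log M.factorial ≤ Real.log ((M : ℝ) ^ M) :=
          Real.log_le_log (by positivity) this
      _ = M * Real.log M := by rw [Real.log_pow]
  have hfl : M * Real.log M - M ≤ Real.log M.factorial := by
    have h5 := Real.pow_div_factorial_le_exp (M : ℝ) (by positivity) M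
    have h6 : Real.log ((M : ℝ) ^ M / M.factorial) ≤ M := by
      rw [Real.log_le_iff_le_exp (by positivity)]
      exact h5
    rw [Real.log_div (by positivity) (by positivity), Real.log_pow] at h6
    linarith
  have hM0 : (0 : ℝ) < M := by linarith
  rw [abs_le]
  constructor
  · have : M * (Real.log M - 6) ≤ M * S := by nlinarith
    have := le_of_mul_le_mul_left this hM0
    linarith
  · have : M * S ≤ M * (Real.log M + 6) := by nlinarith
    have := le_of_mul_le_mul_left this hM0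
    linarith

/-- contribution of the powers of one prime -/
lemma sum_dvd_vonMangoldt_le (q M : ℕ) (hq : q.Prime) :
    ∑ n ∈ Ioc 0 M with q ∣ n, Λ n / n ≤ 2 := by
  have hq2 : (2 : ℝ) ≤ q := by exact_mod_cast hq.two_le
  -- the nonzero terms are powers of q
  have h1 : ∑ n ∈ Ioc 0 M with q ∣ n, Λ n / n ≤
      ∑ n ∈ (Finset.Icc 1 M).image (fun k => q ^ k), Λ n / (n : ℝ) := by
    rw [← Finset.sum_filter_ne_zero]
    refine Finset.sum_le_sum_of_subset_of_nonneg ?_ (fun n _ _ => ?_)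
    · intro n hn
      simp only [Finset.mem_filter, Finset.mem_Ioc] at hn
      obtain ⟨⟨⟨hn0, hnM⟩, hqn⟩, hne⟩ := hn
      have hpp : IsPrimePow n := by
        by_contra hcon
        apply hne
        rw [vonMangoldt_eq_zero_iff.mpr hcon]
        simp
      rw [isPrimePow_nat_iff] at hpp
      obtain ⟨p, k, hp, hk, rfl⟩ := hpp
      have hqp : q = p := (Nat.prime_dvd_prime_iff_eq hq hp).mp (hq.dvd_of_dvd_pow hqn)
      subst hqp
      rw [Finset.mem_image]
      refine ⟨k, ?_, rfl⟩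
      rw [Finset.mem_Icc]
      exact ⟨hk, ((Nat.lt_pow_self hq.one_lt).le).trans hnM⟩
    · exact div_nonneg vonMangoldt_nonneg (Nat.cast_nonneg _)
  refine h1.trans ?_
  rw [Finset.sum_image (fun a _ b _ hab => Nat.pow_right_injective hq.two_le hab)]
  have h2 : ∀ k ∈ Finset.Icc 1 M, Λ (q ^ k) / ((q ^ k : ℕ) : ℝ) = Real.log q * ((q : ℝ)⁻¹) ^ k := by
    intro k hk
    rw [Finset.mem_Icc] at hk
    rw [vonMangoldt_apply_pow (by omega), vonMangoldt_apply_prime hq]
    push_cast
    rw [inv_pow]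
    rfl
  rw [Finset.sum_congr rfl h2, ← Finset.mul_sum]
  have h3 : ∑ k ∈ Finset.Icc 1 M, ((q : ℝ)⁻¹) ^ k ≤ 2 / q := by
    have e : Finset.Icc 1 M = Finset.Ico 1 (M + 1) := by ext; simp [Nat.lt_succ_iff]
    have hlt : (q : ℝ)⁻¹ < 1 := by
      rw [inv_lt_one₀ (by linarith)]; linarith
    have hne : (q : ℝ)⁻¹ ≠ 1 := hlt.ne
    rw [e, geom_sum_Ico hne (by omega)]
    rw [← neg_sub, ← neg_sub (1 : ℝ), neg_div_neg_eq, pow_one]
    have h4 : 1 - (q : ℝ)⁻¹ ≥ 1 / 2 := by
      have : (q : ℝ)⁻¹ ≤ 1 / 2 := by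
        rw [inv_le_comm₀ (by linarith) (by norm_num)]; norm_num; exact hq.two_le
      linarith
    rw [div_le_div_iff₀ (by linarith) (by linarith)]
    have h5 : (0 : ℝ) ≤ (q : ℝ)⁻¹ ^ (M + 1) := by positivity
    have h6 : ((q : ℝ)⁻¹ - (q : ℝ)⁻¹ ^ (M + 1)) * q ≤ (q : ℝ)⁻¹ * q := by
      apply mul_le_mul_of_nonneg_right _ (by linarith)
      linarith
    rw [inv_mul_cancel₀ (by linarith)] at h6
    linarith
  have h7 : Real.log q ≤ q := Real.log_le_self (by linarith)
  have h8 : 0 ≤ Real.log q := Real.log_nonneg (by linarith)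
  calc Real.log q * ∑ k ∈ Finset.Icc 1 M, ((q : ℝ)⁻¹) ^ k ≤ q * (2 / q) := by
        apply mul_le_mul h7 h3 (by positivity) (by linarith)
    _ = 2 := by field_simp

/-- the terms not coprime to the modulus -/
lemma sum_not_coprime_le (N M : ℕ) (hN : 0 < N) :
    ∑ n ∈ Ioc 0 M with ¬ n.Coprime N, Λ n / n ≤ 2 * N := by
  have h1 : ∑ n ∈ Ioc 0 M with ¬ n.Coprime N, Λ n / (n : ℝ) ≤
      ∑ q ∈ N.primeFactors, ∑ n ∈ Ioc 0 M with q ∣ n, Λ n / (n : ℝ) := by
    simp_rw [Finset.sum_filter]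
    rw [Finset.sum_comm]
    refine Finset.sum_le_sum fun n hn => ?_
    have hnn : ∀ q ∈ N.primeFactors, 0 ≤ (if q ∣ n then Λ n / (n : ℝ) else 0) := by
      intro q _
      split_ifs
      · exact div_nonneg vonMangoldt_nonneg (Nat.cast_nonneg _)
      · exact le_rfl
    split_ifs with h
    · exact Finset.sum_nonneg hnn
    · obtain ⟨q, hq, hqn, hqN⟩ := Nat.Prime.not_coprime_iff_dvd.mp h
      have hmem : q ∈ N.primeFactors := Nat.mem_primeFactors.mpr ⟨hq, hqN, hN.ne'⟩
      have := Finset.single_le_sum hnn hmem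
      simpa [hqn] using this
  refine h1.trans ?_
  calc ∑ q ∈ N.primeFactors, ∑ n ∈ Ioc 0 M with q ∣ n, Λ n / (n : ℝ)
      ≤ ∑ q ∈ N.primeFactors, (2 : ℝ) :=
        Finset.sum_le_sum fun q hq => sum_dvd_vonMangoldt_le q M (Nat.prime_of_mem_primeFactors hq)
    _ = 2 * N.primeFactors.card := by rw [Finset.sum_const, nsmul_eq_mul]; ring
    _ ≤ 2 * N := by
        gcongr
        have h2 : N.primeFactors ⊆ Finset.Icc 1 N := by
          intro q hq
          rw [Finset.mem_Icc]
          exact ⟨(Nat.prime_of_mem_primeFactors hq).one_le, Nat.le_of_mem_primeFactors hq⟩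
        have h3 := Finset.card_le_card h2
        simpa using h3

/-- Mertens in arithmetic progressions with `Λ`. -/
theorem exists_mertens_AP : ∃ C : ℝ, 0 < C ∧ ∀ (N : ℕ) [NeZero N] (a : ZMod N) (_ : IsUnit a)
    (M : ℕ) (_ : 1 ≤ M),
    |∑ n ∈ (Ioc 0 M).filter (fun n : ℕ => (n : ZMod N) = a), Λ n / n - Real.log M / N.totient| ≤ C * (N : ℝ) ^ 5 := by
  obtain ⟨C, hC, h⟩ := exists_char_const
  refine ⟨C + 8, by positivity, fun N _ a ha M hM => ?_⟩
  have hN : 0 < N := Nat.pos_of_ne_zero (NeZero.ne N)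
  have hNr : (1 : ℝ) ≤ N := by exact_mod_cast hN
  have hφ : 0 < N.totient := Nat.totient_pos.mpr hN
  have hφr : (1 : ℝ) ≤ N.totient := by exact_mod_cast hφ
  set A := ∑ n ∈ (Ioc 0 M).filter (fun n : ℕ => (n : ZMod N) = a), Λ n / (n : ℝ) with hA
  -- orthogonality
  have h1 : ((N.totient : ℝ) * A : ℝ) = ∑ χ : DirichletCharacter ℂ N, χ a⁻¹ * ∑ n ∈ Ioc 0 M, fL χ n := by
    have e1 : ∑ χ : DirichletCharacter ℂ N, χ a⁻¹ * ∑ n ∈ Ioc 0 M, fL χ n =
        ∑ n ∈ Ioc 0 M, ((Λ n * (n : ℝ)⁻¹ : ℝ) : ℂ) * ∑ χ : DirichletCharacter ℂ N, χ a⁻¹ * χ (n : ZMod N) := by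
      simp_rw [Finset.mul_sum]
      rw [Finset.sum_comm]
      refine Finset.sum_congr rfl fun n _ => Finset.sum_congr rfl fun χ _ => ?_
      simp only [fL, ArithmeticFunction.coe_mk]
      ring
    rw [e1]
    simp_rw [DirichletCharacter.sum_char_inv_mul_char_eq ℂ ha]
    rw [hA, Finset.sum_filter, Finset.mul_sum]
    push_cast
    refine Finset.sum_congr rfl fun n _ => ?_
    by_cases hn : (n : ZMod N) = a
    · simp [hn]; ring
    · have : ¬ (a = (n : ZMod N)) := fun h => hn h.symm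
      simp [hn, this]
  -- the principal character
  have h2 : ∑ n ∈ Ioc 0 M, fL (1 : DirichletCharacter ℂ N) n =
      ((∑ n ∈ Ioc 0 M with n.Coprime N, Λ n / (n : ℝ) : ℝ) : ℂ) := by
    rw [Finset.sum_filter]
    push_cast
    refine Finset.sum_congr rfl fun n _ => ?_
    simp only [fL, ArithmeticFunction.coe_mk]
    by_cases hn : n.Coprime N
    · have hu : IsUnit (n : ZMod N) := (ZMod.isUnit_iff_coprime n N).mpr hn
      rw [MulChar.one_apply hu, if_pos hn]
      simp [div_eq_mul_inv]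
    · have hu : ¬ IsUnit (n : ZMod N) := fun h => hn ((ZMod.isUnit_iff_coprime n N).mp h)
      rw [MulChar.map_nonunit _ hu, if_neg hn]
      simp
  have h3 : |∑ n ∈ Ioc 0 M with n.Coprime N, Λ n / (n : ℝ) - Real.log M| ≤ 6 + 2 * N := by
    have h4 := mertens_one M hM
    have h5 := Finset.sum_filter_add_sum_filter_not (Ioc 0 M) (fun n => n.Coprime N)
      (fun n => Λ n / (n : ℝ))
    have h6 := sum_not_coprime_le N M hN
    have h7 : 0 ≤ ∑ n ∈ Ioc 0 M with ¬ n.Coprime N, Λ n / (n : ℝ) :=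
      Finset.sum_nonneg fun n _ => div_nonneg vonMangoldt_nonneg (Nat.cast_nonneg _)
    rw [abs_le] at h4 ⊢
    constructor <;> linarith
  -- the other characters
  have h4 : ‖∑ χ ∈ (univ : Finset (DirichletCharacter ℂ N)).erase 1,
      χ a⁻¹ * ∑ n ∈ Ioc 0 M, fL χ n‖ ≤ N.totient * (C * (N : ℝ) ^ 5) := by
    have h5 : ∀ χ ∈ (univ : Finset (DirichletCharacter ℂ N)).erase 1,
        ‖χ a⁻¹ * ∑ n ∈ Ioc 0 M, fL χ n‖ ≤ C * (N : ℝ) ^ 5 := by
      intro χ hχ
      rw [norm_mul]
      calc _ ≤ 1 * (C * (N : ℝ) ^ 5) := mul_le_mul (DirichletCharacter.norm_le_one χ _)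
            (h N χ (Finset.ne_of_mem_erase hχ) M) (norm_nonneg _) zero_le_one
        _ = _ := one_mul _
    refine (norm_sum_le_of_le _ h5).trans ?_
    rw [Finset.sum_const, nsmul_eq_mul]
    have hcard : ((univ : Finset (DirichletCharacter ℂ N)).erase 1).card ≤ N.totient := by
      rw [Finset.card_erase_of_mem (Finset.mem_univ _), Finset.card_univ,
        ← Nat.card_eq_fintype_card,
        DirichletCharacter.card_eq_totient_of_hasEnoughRootsOfUnity]
      omega
    gcongr
  have h5 : ‖((N.totient * A - Real.log M : ℝ) : ℂ)‖ ≤ 6 + 2 * N + N.totient * (C * (N : ℝ) ^ 5) := by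
    have e : ((N.totient * A - Real.log M : ℝ) : ℂ) =
        ((∑ n ∈ Ioc 0 M with n.Coprime N, Λ n / (n : ℝ) - Real.log M : ℝ) : ℂ) +
        ∑ χ ∈ (univ : Finset (DirichletCharacter ℂ N)).erase 1,
          χ a⁻¹ * ∑ n ∈ Ioc 0 M, fL χ n := by
      rw [Complex.ofReal_sub, h1, ← Finset.add_sum_erase _ _ (Finset.mem_univ (1 : DirichletCharacter ℂ N)),
        h2]
      have : (1 : DirichletCharacter ℂ N) a⁻¹ = 1 := by
        apply MulChar.one_apply
        exact IsUnit.of_mul_eq_one a (ZMod.inv_mul_of_unit a ha)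
      rw [this]
      push_cast
      ring
    rw [e]
    refine (norm_add_le _ _).trans ?_
    rw [Complex.norm_real, Real.norm_eq_abs]
    linarith
  rw [Complex.norm_real, Real.norm_eq_abs] at h5
  have h6 : A - Real.log M / N.totient = (N.totient * A - Real.log M) / N.totient := by
    field_simp
  rw [h6, abs_div, abs_of_pos (show (0 : ℝ) < N.totient by linarith), div_le_iff₀ (by linarith)]
  refine h5.trans ?_
  have h7 : (6 : ℝ) + 2 * N ≤ 8 * (N : ℝ) ^ 5 := by
    have : (N : ℝ) ≤ (N : ℝ) ^ 5 := le_self_pow₀ hNr (by norm_num)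
    linarith
  have h8 : 8 * (N : ℝ) ^ 5 ≤ 8 * (N : ℝ) ^ 5 * N.totient := by
    apply le_mul_of_one_le_right (by positivity) hφr
  nlinarith

end Pool.Agent.H93
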