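import Mathlib

/-!
Square-full numbers and the decomposition of an integer into its square-full part (helper file).
-/

namespace Pool.Agent.H93

open Finset

/-- `s` is composed of primes of `Q`, each occurring at least twice. -/
def IsSF (Q : Set ℕ) (s : ℕ) : Prop := s ≠ 0 ∧ ∀ q : ℕ, q.Prime → q ∣ s → q ∈ Q ∧ q ^ 2 ∣ s

lemma IsSF.repr {Q : Set ℕ} {s : ℕ} (h : IsSF Q s) :
    ∃ a b : ℕ, s = a ^ 2 * b ^ 3 ∧ a ≠ 0 ∧ b ≠ 0 := by
  obtain ⟨a, b, hab, hsq⟩ := Nat.sq_mul_squarefree s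
  have ha0 : a ≠ 0 := hsq.ne_zero
  have hb0 : b ≠ 0 := by
    rintro rfl
    apply h.1
    rw [← hab]; simp
  have hdvd : a ∣ b := by
    rw [← Nat.prod_primeFactors_of_squarefree hsq]
    apply Finset.prod_primes_dvd b (fun q hq => (Nat.prime_of_mem_primeFactors hq).prime)
    intro q hq
    have hqp := Nat.prime_of_mem_primeFactors hq
    have hqa := Nat.dvd_of_mem_primeFactors hq
    have hqs : q ∣ s := by rw [← hab]; exact Dvd.dvd.mul_left hqa _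
    have hq2 := (h.2 q hqp hqs).2
    by_contra hqb
    have hcop : (q ^ 2).Coprime (b ^ 2) :=
      Nat.Coprime.pow _ _ ((Nat.Prime.coprime_iff_not_dvd hqp).mpr hqb)
    rw [← hab] at hq2
    have h3 : q ^ 2 ∣ a := hcop.dvd_of_dvd_mul_left hq2
    rw [sq] at h3
    exact (Nat.squarefree_iff_prime_squarefree.mp hsq) q hqp h3
  obtain ⟨c, rfl⟩ := hdvd
  refine ⟨c, a, ?_, ?_, ha0⟩
  · rw [← hab]; ring
  · rintro rfl; simp at hb0

/-- the constant bounding sums over square-full numbers -/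
lemma exists_sf_const : ∃ C : ℝ, 1 ≤ C ∧ ∀ S : Finset ℕ, (∀ s ∈ S, IsSF Set.univ s) →
    ∑ s ∈ S, ((s : ℝ) ^ (3 / 4 : ℝ))⁻¹ ≤ C := by
  have h1 : Summable (fun n : ℕ => ((n : ℝ) ^ (3 / 2 : ℝ))⁻¹) :=
    Real.summable_nat_rpow_inv.mpr (by norm_num)
  have h2 : Summable (fun n : ℕ => ((n : ℝ) ^ (9 / 4 : ℝ))⁻¹) :=
    Real.summable_nat_rpow_inv.mpr (by norm_num)
  have h3 := h1.mul_of_nonneg h2 (fun n => by positivity) (fun n => by positivity)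
  set T := ∑' x : ℕ × ℕ, ((x.1 : ℝ) ^ (3 / 2 : ℝ))⁻¹ * ((x.2 : ℝ) ^ (9 / 4 : ℝ))⁻¹ with hT
  refine ⟨max T 1, le_max_right _ _, fun S hS => le_trans ?_ (le_max_left _ _)⟩
  have hrep : ∀ s : ℕ, ∃ x : ℕ × ℕ, s ∈ S → s = x.1 ^ 2 * x.2 ^ 3 ∧ x.1 ≠ 0 ∧ x.2 ≠ 0 := by
    intro s
    by_cases hs : s ∈ S
    · obtain ⟨a, b, hab⟩ := (hS s hs).repr
      exact ⟨(a, b), fun _ => hab⟩
    · exact ⟨(0, 0), fun h => absurd h hs⟩
  choose f hf using hrep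
  have hinj : Set.InjOn f S := by
    intro s hs t ht hst
    rw [(hf s hs).1, (hf t ht).1, hst]
  have h4 : ∑ s ∈ S, ((s : ℝ) ^ (3 / 4 : ℝ))⁻¹ =
      ∑ x ∈ S.image f, ((x.1 : ℝ) ^ (3 / 2 : ℝ))⁻¹ * ((x.2 : ℝ) ^ (9 / 4 : ℝ))⁻¹ := by
    rw [Finset.sum_image hinj]
    refine Finset.sum_congr rfl fun s hs => ?_
    obtain ⟨e, ha, hb⟩ := hf s hs
    conv_lhs => rw [e]
    have ha0 : (0 : ℝ) ≤ ((f s).1 : ℝ) := Nat.cast_nonneg _
    have hb0 : (0 : ℝ) ≤ ((f s).2 : ℝ) := Nat.cast_nonneg _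
    push_cast
    rw [Real.mul_rpow (by positivity) (by positivity), mul_inv]
    congr 2
    · rw [← Real.rpow_natCast, ← Real.rpow_mul ha0]; norm_num
    · rw [← Real.rpow_natCast, ← Real.rpow_mul hb0]; norm_num
  rw [h4]
  exact h3.sum_le_tsum _ fun x _ => by positivity

lemma sf_sum_recip (C : ℝ) (hC : ∀ S : Finset ℕ, (∀ s ∈ S, IsSF Set.univ s) →
    ∑ s ∈ S, ((s : ℝ) ^ (3 / 4 : ℝ))⁻¹ ≤ C) (S : Finset ℕ) (hS : ∀ s ∈ S, IsSF Set.univ s)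
    (T : ℝ) (hT : 1 ≤ T) (hST : ∀ s ∈ S, T ≤ s) :
    ∑ s ∈ S, (1 : ℝ) / s ≤ C * (T ^ (1 / 4 : ℝ))⁻¹ := by
  have hT0 : 0 < T := by linarith
  calc ∑ s ∈ S, (1 : ℝ) / s ≤ ∑ s ∈ S, ((s : ℝ) ^ (3 / 4 : ℝ))⁻¹ * (T ^ (1 / 4 : ℝ))⁻¹ := by
        refine Finset.sum_le_sum fun s hs => ?_
        have hs0 : (0 : ℝ) < s := lt_of_lt_of_le hT0 (hST s hs)
        have e : (1 : ℝ) / s = ((s : ℝ) ^ (3 / 4 : ℝ))⁻¹ * ((s : ℝ) ^ (1 / 4 : ℝ))⁻¹ := by
          rw [← mul_inv, ← Real.rpow_add hs0]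
          norm_num
        rw [e]
        gcongr
        exact hST s hs
    _ = (∑ s ∈ S, ((s : ℝ) ^ (3 / 4 : ℝ))⁻¹) * (T ^ (1 / 4 : ℝ))⁻¹ := by rw [Finset.sum_mul]
    _ ≤ _ := by
        apply mul_le_mul_of_nonneg_right (hC S hS) (by positivity)

lemma IsSF.mono {Q Q' : Set ℕ} (h : Q ⊆ Q') {s : ℕ} (hs : IsSF Q s) : IsSF Q' s :=
  ⟨hs.1, fun q hq hqs => ⟨h (hs.2 q hq hqs).1, (hs.2 q hq hqs).2⟩⟩

/-- primes of `Q` dividing `n` exactly once -/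
def ex (Q : Finset ℕ) (n : ℕ) : Finset ℕ := Q.filter (fun q => q ∣ n ∧ ¬ q ^ 2 ∣ n)

/-- decomposition `n = s * t` -/
lemma exists_decomp (Q : Finset ℕ) (n : ℕ) (hn : n ≠ 0) :
    ∃ s t : ℕ, s * t = n ∧ IsSF (Q : Set ℕ) s ∧ ((Q.filter Nat.Prime).filter (· ∣ t)) =
      ex (Q.filter Nat.Prime) n := by
  set R := Q.filter (fun q => q ^ 2 ∣ n) with hR
  set s := ∏ q ∈ n.primeFactors.filter (· ∈ R), q ^ (n.factorization q) with hs
  set t := ∏ q ∈ n.primeFactors.filter (¬ · ∈ R), q ^ (n.factorization q) with ht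
  have hst : s * t = n := by
    rw [hs, ht, Finset.prod_filter_mul_prod_filter_not]
    exact Nat.prod_factorization_pow_eq_self hn
  have hdvd : ∀ (A : Finset ℕ) (q : ℕ), (∀ x ∈ A, x ∈ n.primeFactors) → q.Prime →
      q ∣ ∏ x ∈ A, x ^ (n.factorization x) → q ∈ A := by
    intro A q hA hq h
    rw [hq.prime.dvd_finsetProd_iff] at h
    obtain ⟨x, hx, hqx⟩ := h
    have hxp := Nat.prime_of_mem_primeFactors (hA x hx)
    have := (Nat.prime_dvd_prime_iff_eq hq hxp).mp (hq.dvd_of_dvd_pow hqx)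
    rwa [this]
  refine ⟨s, t, hst, ⟨?_, ?_⟩, ?_⟩
  · intro h0
    apply hn
    rw [← hst, h0, zero_mul]
  · intro q hq hqs
    have h1 := hdvd _ q (fun x hx => (Finset.mem_filter.mp hx).1) hq hqs
    rw [Finset.mem_filter] at h1
    have h2 := h1.2
    rw [hR, Finset.mem_filter] at h2
    refine ⟨h2.1, ?_⟩
    have h3 : 2 ≤ n.factorization q := (hq.pow_dvd_iff_le_factorization hn).mp h2.2
    have h4 : q ^ (n.factorization q) ∣ s := by
      rw [hs]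
      exact Finset.dvd_prod_of_mem (fun q => q ^ (n.factorization q)) (Finset.mem_filter.mpr h1)
    exact (pow_dvd_pow q h3).trans h4
  · ext q
    unfold ex
    simp only [Finset.mem_filter]
    constructor
    · rintro ⟨⟨hqQ, hq⟩, hqt⟩
      have h1 := hdvd _ q (fun x hx => (Finset.mem_filter.mp hx).1) hq hqt
      rw [Finset.mem_filter] at h1
      refine ⟨⟨hqQ, hq⟩, Nat.dvd_of_mem_primeFactors h1.1, ?_⟩
      intro h2
      apply h1.2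
      rw [hR, Finset.mem_filter]
      exact ⟨hqQ, h2⟩
    · rintro ⟨⟨hqQ, hq⟩, hqn, hqn2⟩
      refine ⟨⟨hqQ, hq⟩, ?_⟩
      have h1 : q ∈ n.primeFactors.filter (¬ · ∈ R) := by
        rw [Finset.mem_filter]
        refine ⟨Nat.mem_primeFactors.mpr ⟨hq, hqn, hn⟩, ?_⟩
        intro h2
        rw [hR, Finset.mem_filter] at h2
        exact hqn2 h2.2
      have h4 : q ^ (n.factorization q) ∣ t := by
        rw [ht]
        exact Finset.dvd_prod_of_mem (fun q => q ^ (n.factorization q)) h1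
      have h5 : n.factorization q ≠ 0 := (hq.factorization_pos_of_dvd hn hqn).ne'
      exact (dvd_pow_self q h5).trans h4

end Pool.Agent.H93
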