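import Pool.Agent.H93.Uniform
import Pool.Agent.H93.Sqfull

/-!
The parameters of the sieve, and the uniform sieve estimates (helper file).
-/

namespace Pool.Agent.H93

open Finset Filter Topology

/-- `log log X` -/
noncomputable def LL (X : ℕ) : ℝ := Real.log (Real.log X)

/-- the sieving cut `⌊exp (log X / (log log X)^3)⌋` -/
noncomputable def Zc (X : ℕ) : ℕ := ⌊Real.exp (Real.log X / LL X ^ 3)⌋₊

lemma tendsto_LL : Tendsto LL atTop atTop :=
  Real.tendsto_log_atTop.comp (Real.tendsto_log_atTop.comp tendsto_natCast_atTop_atTop)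

/-- everything that holds for all large `L` holds for `L = LL X`. -/
lemma log_eq_exp_LL {X : ℕ} (h : 0 < LL X) : Real.log X = Real.exp (LL X) := by
  unfold LL at *
  rw [Real.exp_log]
  by_contra hcon
  push Not at hcon
  rcases hcon.lt_or_eq with h1 | h1
  · -- log X < 0 is impossible for a natural number
    have := Real.log_natCast_nonneg X
    linarith
  · rw [h1] at h; simp at h

/-- elementary facts valid for all large `L` -/
lemma eventually_L : ∀ᶠ L : ℝ in atTop, 100 ≤ L ∧ 4 * L ^ 7 * 2187 ≤ Real.exp L ∧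
    2 * L ^ 3 * (1 + 6 * L) ≤ Real.exp L := by
  have h1 := (Real.tendsto_exp_div_pow_atTop 8).eventually_ge_atTop 1
  filter_upwards [h1, eventually_ge_atTop 8748] with L hL hL1
  have hL0 : 0 < L := by linarith
  rw [le_div_iff₀ (by positivity), one_mul] at hL
  have h7 : 0 < L ^ 7 := by positivity
  refine ⟨by linarith, ?_, ?_⟩
  · have e : L ^ 8 = L ^ 7 * L := by ring
    rw [e] at hL
    nlinarith
  · have e : L ^ 8 = L ^ 3 * L * L ^ 4 := by ring
    have h4 : (14 : ℝ) ≤ L ^ 4 := by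
      have h5 : (8748 : ℝ) ^ 4 ≤ L ^ 4 := pow_le_pow_left₀ (by norm_num) hL1 4
      have h6 : (14 : ℝ) ≤ 8748 ^ 4 := by norm_num
      linarith
    have h6 : 2 * L ^ 3 * (1 + 6 * L) ≤ L ^ 3 * L * 14 := by
      have h3 : 0 < L ^ 3 := by positivity
      nlinarith
    have h8 : L ^ 3 * L * 14 ≤ L ^ 3 * L * L ^ 4 := by
      apply mul_le_mul_of_nonneg_left h4 (by positivity)
    linarith

/-- product bounds -/
lemma prod_le_exp_neg (Q : Finset ℕ) (hQ : ∀ q ∈ Q, q.Prime) (c : ℝ) (hc0 : 0 ≤ c) (hc1 : c ≤ 1) :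
    ∏ q ∈ Q, (1 - c / (q : ℝ)) ≤ Real.exp (- (c * ∑ q ∈ Q, 1 / (q : ℝ))) := by
  rw [Finset.mul_sum, ← Finset.sum_neg_distrib, Real.exp_sum]
  refine Finset.prod_le_prod (fun q hq => ?_) (fun q hq => ?_)
  · have : (1 : ℝ) ≤ q := by exact_mod_cast (hQ q hq).one_le
    rw [sub_nonneg, div_le_one (by linarith)]
    linarith
  · have := Real.add_one_le_exp (-(c * (1 / (q : ℝ))))
    have e : c * (1 / (q : ℝ)) = c / q := by ring
    rw [e] at this
    rw [e]
    linarith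

lemma exp_neg_le_one_sub (t : ℝ) (h0 : 0 ≤ t) (h1 : t ≤ 1 / 2) : Real.exp (-(t + t ^ 2)) ≤ 1 - t := by
  have h2 : 1 ≤ Real.exp (t + t ^ 2) * (1 - t) := by
    have h3 := Real.quadratic_le_exp_of_nonneg (show 0 ≤ t + t ^ 2 by positivity)
    have h4 : (1 + (t + t ^ 2) + (t + t ^ 2) ^ 2 / 2) * (1 - t) ≤ Real.exp (t + t ^ 2) * (1 - t) :=
      mul_le_mul_of_nonneg_right h3 (by linarith)
    have h5 : 1 ≤ (1 + (t + t ^ 2) + (t + t ^ 2) ^ 2 / 2) * (1 - t) := by
      have e : (1 + (t + t ^ 2) + (t + t ^ 2) ^ 2 / 2) * (1 - t) - 1 =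
          t ^ 2 * (1 - t - t ^ 2 - t ^ 3) / 2 := by ring
      have h6 : 0 ≤ 1 - t - t ^ 2 - t ^ 3 := by
        have : t ^ 2 ≤ 1 / 4 := by nlinarith
        have : t ^ 3 ≤ 1 / 8 := by
          have e3 : t ^ 3 = t ^ 2 * t := by ring
          rw [e3]; nlinarith
        linarith
      have : 0 ≤ t ^ 2 * (1 - t - t ^ 2 - t ^ 3) / 2 := by positivity
      linarith
    linarith
  rw [Real.exp_neg, inv_le_iff_one_le_mul₀ (Real.exp_pos _)]
  linarith

lemma exp_le_prod (Q : Finset ℕ) (hQ : ∀ q ∈ Q, q.Prime) :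
    Real.exp (- (∑ q ∈ Q, 1 / (q : ℝ) + ∑ q ∈ Q, (1 / (q : ℝ)) ^ 2)) ≤ ∏ q ∈ Q, (1 - 1 / (q : ℝ)) := by
  rw [← Finset.sum_add_distrib, ← Finset.sum_neg_distrib, Real.exp_sum]
  refine Finset.prod_le_prod (fun q hq => (Real.exp_pos _).le) (fun q hq => ?_)
  have : (2 : ℝ) ≤ q := by exact_mod_cast (hQ q hq).two_le
  apply exp_neg_le_one_sub
  · positivity
  · exact one_div_le_one_div_of_le (by norm_num) this

/-- the uniform sieve -/
theorem F_lemma : ∃ L0 : ℝ, ∀ X : ℕ, L0 ≤ LL X → ∀ Q : Finset ℕ, (∀ q ∈ Q, q.Prime ∧ q ≤ Zc X) →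
    ∀ M : ℕ, 0 < M → (∀ q ∈ Q, q.Coprime M) → ∀ a : ℕ, ∀ c : ℝ, 0 ≤ c → c ≤ 1 →
    ∀ Y : ℕ, 1 ≤ Y → Real.log X / (2 * LL X) ≤ Real.log Y →
    |∑ n ∈ (Ioc 0 Y).filter (fun n => n ≡ a [MOD M]), (1 - c) ^ (Q.filter (· ∣ n)).card -
      Y / M * ∏ q ∈ Q, (1 - c / q)| ≤ Y * Real.exp (-(LL X ^ 2 / 4)) := by
  obtain ⟨C, hC, hM⟩ := exists_mertens_all
  obtain ⟨L1, hL1⟩ := eventually_atTop.mp eventually_L
  refine ⟨max L1 (max 100 (12 + 12 * C)), fun X hX Q hQ M hM0 hcop a c hc0 hc1 Y hY hlY => ?_⟩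
  obtain ⟨hL100, hLe1, hLe2⟩ := hL1 (LL X) ((le_max_left _ _).trans hX)
  have hLC : 12 + 12 * C ≤ LL X := ((le_max_right _ _).trans (le_max_right _ _)).trans hX
  set L := LL X with hL
  have hL0 : 0 < L := by linarith
  have hlog : Real.log X = Real.exp L := log_eq_exp_LL hL0
  set z : ℝ := Real.exp (Real.log X / L ^ 3) with hz
  have hlz : Real.log z = Real.log X / L ^ 3 := Real.log_exp _
  have hlz1 : 4 ≤ Real.log X / L ^ 3 := by
    rw [le_div_iff₀ (by positivity), hlog]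
    have h3 : 0 < L ^ 3 := by positivity
    have : 4 * L ^ 3 ≤ 2 * L ^ 3 * (1 + 6 * L) := by nlinarith
    linarith
  have hze : Real.exp 1 ≤ z := Real.exp_le_exp.mpr (by linarith)
  have hz0 : 0 < z := Real.exp_pos _
  have hZz : ((Zc X : ℕ) : ℝ) ≤ z := Nat.floor_le hz0.le
  have hz3 : 4 ≤ z := by
    have := Real.add_one_le_exp (Real.log X / L ^ 3)
    linarith
  have hZ3 : 3 ≤ Zc X := by
    apply Nat.le_floor
    push_cast
    exact le_trans (by norm_num) hz3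
  have hsum : ∑ q ∈ Q, 1 / (q : ℝ) ≤ L + C := by
    have h1 : ∑ q ∈ Q, 1 / (q : ℝ) ≤ ∑ q ∈ (Ioc 0 (Zc X)).filter Nat.Prime, (1 : ℝ) / q := by
      refine Finset.sum_le_sum_of_subset_of_nonneg ?_ fun q _ _ => by positivity
      intro q hq
      rw [Finset.mem_filter, Finset.mem_Ioc]
      exact ⟨⟨(hQ q hq).1.pos, (hQ q hq).2⟩, (hQ q hq).1⟩
    have h2 := hM (Zc X) hZ3
    rw [abs_le] at h2
    have h3 : Real.log (Real.log (Zc X)) ≤ L := by
      have hZr : (3 : ℝ) ≤ Zc X := by exact_mod_cast hZ3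
      have h4 : Real.log (Zc X) ≤ Real.log X / L ^ 3 := by
        rw [← hlz]; exact Real.log_le_log (by linarith) hZz
      have h5 : Real.log X / L ^ 3 ≤ Real.log X := by
        apply div_le_self
        · rw [hlog]; exact (Real.exp_pos _).le
        · exact one_le_pow₀ (by linarith)
      rw [hL]
      unfold LL
      apply Real.log_le_log
      · exact Real.log_pos (by linarith)
      · linarith
    linarith [h2.2]
  have hGL := sieve_GL Q (fun q hq => (hQ q hq).1) z hze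
    (fun q hq => le_trans (by exact_mod_cast (hQ q hq).2) hZz) M hM0 hcop a c hc0 hc1 Y hY
  refine hGL.trans ?_
  apply mul_le_mul_of_nonneg_left _ (Nat.cast_nonneg _)
  apply Real.exp_le_exp.mpr
  have h6 : L ^ 2 / 2 ≤ Real.log Y / Real.log z := by
    rw [le_div_iff₀ (by rw [hlz]; linarith), hlz]
    have : L ^ 2 / 2 * (Real.log X / L ^ 3) = Real.log X / (2 * L) := by field_simp
    rw [this]
    exact hlY
  nlinarith

end Pool.Agent.H93
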