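import Mathlib

/-!
A terminating very-well-poised sum (helper file for a q-congruence).
-/

namespace Pool.Agent.H93.QC

open Finset

variable {K : Type*} [Field K] (q : K)

/-- `1 - q^m` -/
def e (m : ℤ) : K := 1 - q ^ m

/-- the product of `1 - q^(m+4i)`, `i < k` -/
def pz (m : ℤ) (k : ℕ) : K := ∏ i ∈ range k, e q (m + 4 * i)

lemma pz_zero (m : ℤ) : pz q m 0 = 1 := by simp [pz]

lemma pz_succ (m : ℤ) (k : ℕ) : pz q m (k + 1) = pz q m k * e q (m + 4 * k) := by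
  unfold pz
  rw [Finset.prod_range_succ]

lemma pz_succ' (m : ℤ) (k : ℕ) : pz q m (k + 1) = e q m * pz q (m + 4) k := by
  unfold pz
  rw [Finset.prod_range_succ', mul_comm]
  congr 1
  · simp
  · refine Finset.prod_congr rfl fun i _ => ?_
    congr 1
    push_cast
    ring

lemma pz_shift (m : ℤ) (k : ℕ) : pz q m k * e q (m + 4 * k) = e q m * pz q (m + 4) k := by
  rw [← pz_succ, pz_succ']

/-- `q` is not a root of unity -/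
structure NR (q : K) : Prop where
  ne : q ≠ 0
  nr : ∀ m : ℤ, m ≠ 0 → q ^ m ≠ 1

variable {q}

lemma NR.e_ne (h : NR q) {m : ℤ} (hm : m ≠ 0) : e q m ≠ 0 := by
  unfold e
  rw [sub_ne_zero]
  exact (h.nr m hm).symm

lemma NR.pz_ne (h : NR q) {m : ℤ} {k : ℕ} (hm : ∀ i : ℕ, i < k → m + 4 * i ≠ 0) : pz q m k ≠ 0 := by
  unfold pz
  rw [Finset.prod_ne_zero_iff]
  intro i hi
  exact h.e_ne (hm i (Finset.mem_range.mp hi))

variable (q)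

/-- base product of the Jackson sum -/
def B (M k : ℕ) : K :=
  pz q (-(4 * M)) k * pz q (4 * M + 2) k * pz q (-1) k ^ 3 * pz q 2 k /
    (pz q (4 * M + 3) k * pz q (1 - 4 * M) k * pz q 4 k ^ 3 * pz q 1 k)

/-- terms of the Jackson sum -/
def jt (M k : ℕ) : K := e q (8 * k - 1) * B q M k * q ^ (4 * k)

/-- value of the Jackson sum -/
def Jc (M : ℕ) : K := e q (-1) * e q (4 * M + 1) / e q 1 * pz q 2 M ^ 2 / pz q 4 M ^ 2

/-- the companion -/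
def Hc (M k : ℕ) : K :=
  -(B q M k / Jc q M) * (q ^ 3 * q ^ (4 * M) * (1 - q ^ 6 * (q ^ (4 * M)) ^ 2) * (1 - q ^ 2 * q ^ (4 * M) * q ^ (4 * k)) *
    (1 - q⁻¹ * q ^ (4 * k)) ^ 3 * (1 - q ^ 2 * q ^ (4 * k))) /
    ((1 - q ^ 2 * q ^ (4 * M)) ^ 3 * (1 - q ^ 5 * q ^ (4 * M)) * (1 - q ^ 3 * q ^ (4 * M) * q ^ (4 * k)))

variable {q}

lemma e_eq (h : NR q) (a : ℤ) (b c : ℤ) (M k : ℕ) :
    e q (a + 4 * b * M + 4 * c * k) = 1 - q ^ a * (q ^ (4 * M)) ^ b * (q ^ (4 * k)) ^ c := by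
  have h1 : (q ^ (4 * M)) ^ b = q ^ (4 * b * (M : ℤ)) := by
    rw [← zpow_natCast q (4 * M), ← zpow_mul]
    congr 1
    push_cast
    ring
  have h2 : (q ^ (4 * k)) ^ c = q ^ (4 * c * (k : ℤ)) := by
    rw [← zpow_natCast q (4 * k), ← zpow_mul]
    congr 1
    push_cast
    ring
  unfold e
  rw [zpow_add₀ h.ne, zpow_add₀ h.ne, h1, h2]

/-- the rational function identity behind the companion -/
lemma wz_identity (q X Y d1 d2 d3 d4 d5 d6 d7 d8 : K) (hq : q ≠ 0) (hX : X ≠ 0) (hY : Y ≠ 0)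
    (h1 : d1 = 1 - q ^ 2 * X) (h2 : d2 = 1 - q ^ 5 * X) (h3 : d3 = 1 - q ^ 3 * X * Y)
    (h4 : d4 = 1 - q ^ 7 * X * Y) (h5 : d5 = X - q * Y) (h6 : d6 = 1 - q ^ 4 * Y)
    (h7 : d7 = 1 - q * Y) (h8 : d8 = q ^ 3 * X - 1)
    (k1 : d1 ≠ 0) (k2 : d2 ≠ 0) (k3 : d3 ≠ 0) (k4 : d4 ≠ 0) (k5 : d5 ≠ 0) (k6 : d6 ≠ 0)
    (k7 : d7 ≠ 0) (k8 : d8 ≠ 0) :
    (1 - q ^ 7 * Y ^ 2) * (q ^ 4 * Y) * ((q ^ 4 * X - 1) * (1 - q ^ 6 * X * Y) * (1 - q ^ 3 * X)) /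
        (d1 * d3 * d4 * (d8 * q) * d6 ^ 3 * d7) *
        ((1 - q * X) * (1 - q ^ 4 * X) ^ 2 / (d2 * d1 ^ 2)) -
      (1 - q ^ 7 * Y ^ 2) * (q ^ 4 * Y) * (X - Y) /
        (d3 * d5 * d6 ^ 3 * d7) =
    -(q ^ 3 * X * (1 - q ^ 6 * X ^ 2) / (d1 ^ 3 * d2)) *
      ((1 - q ^ 6 * X * Y) * (1 - q ^ 3 * Y) ^ 3 * (1 - q ^ 6 * Y) * (X - Y) /
        (d3 * d5 * d6 ^ 3 * d7 * d4) - 1 / d3) := by
  field_simp
  subst h1 h2 h3 h4 h5 h6 h7 h8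
  ring

lemma ev1 (h : NR q) (M k : ℕ) : e q (-(4 * M) + 4 * k) = (q ^ (4 * M) - q ^ (4 * k)) / q ^ (4 * M) := by
  have hX : q ^ (4 * M) ≠ 0 := pow_ne_zero _ h.ne
  have := e_eq h 0 (-1) 1 M k
  rw [show (0 : ℤ) + 4 * (-1) * M + 4 * 1 * k = -(4 * M) + 4 * k by ring] at this
  rw [this, sub_div, div_self hX]
  simp [div_eq_inv_mul]

lemma ev2 (h : NR q) (M k : ℕ) : e q (4 * M + 2 + 4 * k) = 1 - q ^ 2 * q ^ (4 * M) * q ^ (4 * k) := by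
  have := e_eq h 2 1 1 M k
  rw [show (2 : ℤ) + 4 * 1 * M + 4 * 1 * k = 4 * M + 2 + 4 * k by ring] at this
  rw [this]; simp [zpow_ofNat]

lemma ev3 (h : NR q) (k : ℕ) : e q (-1 + 4 * k) = 1 - q⁻¹ * q ^ (4 * k) := by
  have := e_eq h (-1) 0 1 0 k
  rw [show (-1 : ℤ) + 4 * 0 * (0 : ℕ) + 4 * 1 * k = -1 + 4 * k by ring] at this
  rw [this]; simp

lemma ev4 (h : NR q) (k : ℕ) : e q (2 + 4 * k) = 1 - q ^ 2 * q ^ (4 * k) := by
  have := e_eq h 2 0 1 0 k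
  rw [show (2 : ℤ) + 4 * 0 * (0 : ℕ) + 4 * 1 * k = 2 + 4 * k by ring] at this
  rw [this]; simp [zpow_ofNat]

lemma ev5 (h : NR q) (M k : ℕ) : e q (4 * M + 3 + 4 * k) = 1 - q ^ 3 * q ^ (4 * M) * q ^ (4 * k) := by
  have := e_eq h 3 1 1 M k
  rw [show (3 : ℤ) + 4 * 1 * M + 4 * 1 * k = 4 * M + 3 + 4 * k by ring] at this
  rw [this]; simp [zpow_ofNat]

lemma ev6 (h : NR q) (M k : ℕ) : e q (1 - 4 * M + 4 * k) = (q ^ (4 * M) - q * q ^ (4 * k)) / q ^ (4 * M) := by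
  have hX : q ^ (4 * M) ≠ 0 := pow_ne_zero _ h.ne
  have := e_eq h 1 (-1) 1 M k
  rw [show (1 : ℤ) + 4 * (-1) * M + 4 * 1 * k = 1 - 4 * M + 4 * k by ring] at this
  rw [this, sub_div, div_self hX]
  simp [div_eq_mul_inv]
  ring

lemma ev7 (h : NR q) (k : ℕ) : e q (4 + 4 * k) = 1 - q ^ 4 * q ^ (4 * k) := by
  have := e_eq h 4 0 1 0 k
  rw [show (4 : ℤ) + 4 * 0 * (0 : ℕ) + 4 * 1 * k = 4 + 4 * k by ring] at this
  rw [this]; simp [zpow_ofNat]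

lemma ev8 (h : NR q) (k : ℕ) : e q (1 + 4 * k) = 1 - q * q ^ (4 * k) := by
  have := e_eq h 1 0 1 0 k
  rw [show (1 : ℤ) + 4 * 0 * (0 : ℕ) + 4 * 1 * k = 1 + 4 * k by ring] at this
  rw [this]; simp

lemma frac_aux (n1 n2 n3 n4 z1 z2 z3 z4 a1 a2 a3 a4 b1 b2 b3 b4 : K) :
    (n1 * a1) * (n2 * a2) * (n3 * a3) ^ 3 * (n4 * a4) / ((z1 * b1) * (z2 * b2) * (z3 * b3) ^ 3 * (z4 * b4)) =
      (n1 * n2 * n3 ^ 3 * n4 / (z1 * z2 * z3 ^ 3 * z4)) * (a1 * a2 * a3 ^ 3 * a4 / (b1 * b2 * b3 ^ 3 * b4)) := by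
  rw [div_mul_div_comm]
  congr 1 <;> ring

lemma frac_aux2 (X u a b v c : K) (hX : X ≠ 0) : ((u / X) * a) / (b * (v / X) * c) = (u * a) / (b * v * c) := by
  rw [show (u / X) * a = (u * a) / X by ring, show b * (v / X) * c = (b * v * c) / X by ring,
    div_div_div_cancel_right₀ hX]

lemma frac_aux3 (X u a2 a3 a4 b1 v b3 b4 : K) (hX : X ≠ 0) :
    (u / X) * a2 * a3 ^ 3 * a4 / (b1 * (v / X) * b3 ^ 3 * b4) =
      (a2 * a3 ^ 3 * a4) * (u / (b1 * v * b3 ^ 3 * b4)) := by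
  rw [show (u / X) * a2 * a3 ^ 3 * a4 = (u / X) * (a2 * a3 ^ 3 * a4) by ring,
    show b1 * (v / X) * b3 ^ 3 * b4 = b1 * (v / X) * (b3 ^ 3 * b4) by ring,
    frac_aux2 X _ _ _ _ _ hX, ← mul_div_assoc]
  congr 1 <;> ring

/-- ratio factor for `k` -/
lemma B_succ (h : NR q) (M k : ℕ) :
    B q M (k + 1) = B q M k * (((1 - q ^ 2 * q ^ (4 * M) * q ^ (4 * k)) * (1 - q⁻¹ * q ^ (4 * k)) ^ 3 *
      (1 - q ^ 2 * q ^ (4 * k))) * ((q ^ (4 * M) - q ^ (4 * k)) /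
      ((1 - q ^ 3 * q ^ (4 * M) * q ^ (4 * k)) * (q ^ (4 * M) - q * q ^ (4 * k)) * (1 - q ^ 4 * q ^ (4 * k)) ^ 3 *
        (1 - q * q ^ (4 * k))))) := by
  have hX : q ^ (4 * M) ≠ 0 := pow_ne_zero _ h.ne
  unfold B
  rw [pz_succ, pz_succ, pz_succ, pz_succ, pz_succ, pz_succ, pz_succ, pz_succ, frac_aux,
    ev1 h, ev2 h, ev3 h, ev4 h, ev5 h, ev6 h, ev7 h, ev8 h, frac_aux3 _ _ _ _ _ _ _ _ _ hX]

/-- algebra for `B_succ_succ` -/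
lemma bss_alg (q X Y n1 n2 n3 n4 z1 z2 z3 z4 : K) (hq : q ≠ 0) (hX : X ≠ 0)
    (k1 : 1 - q ^ 2 * X ≠ 0) (k2 : 1 - q ^ 3 * X ≠ 0) (k2' : q ^ 3 * X - 1 ≠ 0)
    (l1 : 1 - q ^ 3 * X * Y ≠ 0) (l2 : 1 - q ^ 7 * X * Y ≠ 0) (l3 : 1 - q ^ 4 * Y ≠ 0)
    (l4 : 1 - q * Y ≠ 0) (l5 : z1 ≠ 0) (l6 : z2 ≠ 0) (l7 : z3 ≠ 0) (l8 : z4 ≠ 0) :
    (q ^ 4 * X - 1) / (q ^ 4 * X) * n1 * (n2 * ((1 - q ^ 2 * X * Y) * (1 - q ^ 6 * X * Y) / (1 - q ^ 2 * X))) *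
      (n3 * (1 - q⁻¹ * Y)) ^ 3 * (n4 * (1 - q ^ 2 * Y)) /
      (z1 * ((1 - q ^ 3 * X * Y) * (1 - q ^ 7 * X * Y) / (1 - q ^ 3 * X)) *
        ((q ^ 3 * X - 1) / (q ^ 3 * X) * z2) * (z3 * (1 - q ^ 4 * Y)) ^ 3 * (z4 * (1 - q * Y))) =
    n1 * n2 * n3 ^ 3 * n4 / (z1 * z2 * z3 ^ 3 * z4) * (((1 - q ^ 2 * X * Y) * (1 - q⁻¹ * Y) ^ 3 *
      (1 - q ^ 2 * Y)) * ((q ^ 4 * X - 1) * (1 - q ^ 6 * X * Y) * (1 - q ^ 3 * X) /
      ((1 - q ^ 2 * X) * (1 - q ^ 3 * X * Y) * (1 - q ^ 7 * X * Y) * ((q ^ 3 * X - 1) * q) * (1 - q ^ 4 * Y) ^ 3 *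
        (1 - q * Y)))) := by
  generalize 1 - q⁻¹ * Y = w
  generalize h1 : 1 - q ^ 2 * X = d1 at *
  generalize h2 : 1 - q ^ 3 * X = d2 at *
  generalize h3 : q ^ 3 * X - 1 = d3 at *
  generalize h4 : 1 - q ^ 3 * X * Y = d4 at *
  generalize h5 : 1 - q ^ 7 * X * Y = d5 at *
  generalize h6 : 1 - q ^ 4 * Y = d6 at *
  generalize h7 : 1 - q * Y = d7 at *
  generalize 1 - q ^ 2 * X * Y = d8
  generalize 1 - q ^ 6 * X * Y = d9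
  generalize 1 - q ^ 2 * Y = d10
  generalize q ^ 4 * X - 1 = d11
  clear h1 h2 h3 h4 h5 h6 h7
  field_simp

/-- ratio factor for `M` and `k` -/
lemma B_succ_succ (h : NR q) (M k : ℕ) :
    B q (M + 1) (k + 1) = B q M k * (((1 - q ^ 2 * q ^ (4 * M) * q ^ (4 * k)) * (1 - q⁻¹ * q ^ (4 * k)) ^ 3 *
      (1 - q ^ 2 * q ^ (4 * k))) * ((q ^ 4 * q ^ (4 * M) - 1) * (1 - q ^ 6 * q ^ (4 * M) * q ^ (4 * k)) *
        (1 - q ^ 3 * q ^ (4 * M)) /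
      ((1 - q ^ 2 * q ^ (4 * M)) * (1 - q ^ 3 * q ^ (4 * M) * q ^ (4 * k)) *
        (1 - q ^ 7 * q ^ (4 * M) * q ^ (4 * k)) * ((q ^ 3 * q ^ (4 * M) - 1) * q) * (1 - q ^ 4 * q ^ (4 * k)) ^ 3 *
        (1 - q * q ^ (4 * k))))) := by
  have hX : q ^ (4 * M) ≠ 0 := pow_ne_zero _ h.ne
  -- the shifted products
  have g1 : pz q (-(4 * ((M + 1 : ℕ) : ℤ))) (k + 1) = (q ^ 4 * q ^ (4 * M) - 1) / (q ^ 4 * q ^ (4 * M)) * pz q (-(4 * M)) k := by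
    rw [pz_succ', show (-(4 * ((M + 1 : ℕ) : ℤ)) + 4) = -(4 * M) by push_cast; ring]
    congr 1
    have := e_eq h (-4) (-1) 0 M 0
    rw [show (-4 : ℤ) + 4 * (-1) * M + 4 * 0 * (0 : ℕ) = -(4 * ((M + 1 : ℕ) : ℤ)) by push_cast; ring] at this
    rw [this, sub_div, div_self (mul_ne_zero (pow_ne_zero _ h.ne) hX)]
    simp [zpow_neg, zpow_ofNat]
    ring
  have g2 : pz q (4 * ((M + 1 : ℕ) : ℤ) + 2) (k + 1) = pz q (4 * M + 2) k *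
      ((1 - q ^ 2 * q ^ (4 * M) * q ^ (4 * k)) * (1 - q ^ 6 * q ^ (4 * M) * q ^ (4 * k)) / (1 - q ^ 2 * q ^ (4 * M))) := by
    have h1 := pz_succ' q (4 * M + 2) (k + 1)
    rw [pz_succ, pz_succ, ev2 h] at h1
    have h2 : e q (4 * M + 2 + 4 * ((k + 1 : ℕ) : ℤ)) = 1 - q ^ 6 * q ^ (4 * M) * q ^ (4 * k) := by
      have := e_eq h 6 1 1 M k
      rw [show (6 : ℤ) + 4 * 1 * M + 4 * 1 * k = 4 * M + 2 + 4 * ((k + 1 : ℕ) : ℤ) by push_cast; ring] at this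
      rw [this]; simp [zpow_ofNat]
    have h3 : e q (4 * M + 2) = 1 - q ^ 2 * q ^ (4 * M) := by
      have := e_eq h 2 1 0 M 0
      rw [show (2 : ℤ) + 4 * 1 * M + 4 * 0 * (0 : ℕ) = 4 * M + 2 by ring] at this
      rw [this]; simp [zpow_ofNat]
    have h4 : e q (4 * M + 2) ≠ 0 := h.e_ne (by omega)
    rw [h2, h3] at h1
    rw [h3] at h4
    rw [show (4 * ((M + 1 : ℕ) : ℤ) + 2) = 4 * M + 2 + 4 by push_cast; ring]
    rw [← mul_div_assoc, eq_div_iff h4, mul_comm, ← h1]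
    ring
  have g3 : pz q (4 * ((M + 1 : ℕ) : ℤ) + 3) (k + 1) = pz q (4 * M + 3) k *
      ((1 - q ^ 3 * q ^ (4 * M) * q ^ (4 * k)) * (1 - q ^ 7 * q ^ (4 * M) * q ^ (4 * k)) / (1 - q ^ 3 * q ^ (4 * M))) := by
    have h1 := pz_succ' q (4 * M + 3) (k + 1)
    rw [pz_succ, pz_succ, ev5 h] at h1
    have h2 : e q (4 * M + 3 + 4 * ((k + 1 : ℕ) : ℤ)) = 1 - q ^ 7 * q ^ (4 * M) * q ^ (4 * k) := by
      have := e_eq h 7 1 1 M k
      rw [show (7 : ℤ) + 4 * 1 * M + 4 * 1 * k = 4 * M + 3 + 4 * ((k + 1 : ℕ) : ℤ) by push_cast; ring] at this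
      rw [this]; simp [zpow_ofNat]
    have h3 : e q (4 * M + 3) = 1 - q ^ 3 * q ^ (4 * M) := by
      have := e_eq h 3 1 0 M 0
      rw [show (3 : ℤ) + 4 * 1 * M + 4 * 0 * (0 : ℕ) = 4 * M + 3 by ring] at this
      rw [this]; simp [zpow_ofNat]
    have h4 : e q (4 * M + 3) ≠ 0 := h.e_ne (by omega)
    rw [h2, h3] at h1
    rw [h3] at h4
    rw [show (4 * ((M + 1 : ℕ) : ℤ) + 3) = 4 * M + 3 + 4 by push_cast; ring]
    rw [← mul_div_assoc, eq_div_iff h4, mul_comm, ← h1]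
    ring
  have g4 : pz q (1 - 4 * ((M + 1 : ℕ) : ℤ)) (k + 1) = (q ^ 3 * q ^ (4 * M) - 1) / (q ^ 3 * q ^ (4 * M)) * pz q (1 - 4 * M) k := by
    rw [pz_succ', show (1 - 4 * ((M + 1 : ℕ) : ℤ) + 4) = 1 - 4 * M by push_cast; ring]
    congr 1
    have := e_eq h (-3) (-1) 0 M 0
    rw [show (-3 : ℤ) + 4 * (-1) * M + 4 * 0 * (0 : ℕ) = 1 - 4 * ((M + 1 : ℕ) : ℤ) by push_cast; ring] at this
    rw [this, sub_div, div_self (mul_ne_zero (pow_ne_zero _ h.ne) hX)]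
    simp [zpow_neg, zpow_ofNat]
    ring
  have k1 : (1 - q ^ 2 * q ^ (4 * M)) ≠ 0 := by
    have h4 : e q (4 * M + 2) ≠ 0 := h.e_ne (by omega)
    have h3 : e q (4 * M + 2) = 1 - q ^ 2 * q ^ (4 * M) := by
      have := e_eq h 2 1 0 M 0
      rw [show (2 : ℤ) + 4 * 1 * M + 4 * 0 * (0 : ℕ) = 4 * M + 2 by ring] at this
      rw [this]; simp [zpow_ofNat]
    rwa [h3] at h4
  have k2 : (1 - q ^ 3 * q ^ (4 * M)) ≠ 0 := by
    have h4 : e q (4 * M + 3) ≠ 0 := h.e_ne (by omega)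
    have h3 : e q (4 * M + 3) = 1 - q ^ 3 * q ^ (4 * M) := by
      have := e_eq h 3 1 0 M 0
      rw [show (3 : ℤ) + 4 * 1 * M + 4 * 0 * (0 : ℕ) = 4 * M + 3 by ring] at this
      rw [this]; simp [zpow_ofNat]
    rwa [h3] at h4
  unfold B
  rw [g1, g2, g3, g4, pz_succ, pz_succ, pz_succ, pz_succ, ev3 h, ev4 h, ev7 h, ev8 h]
  have hq := h.ne
  generalize hXd : q ^ (4 * M) = X at *
  generalize hYd : q ^ (4 * k) = Y at *
  have l1 : (1 - q ^ 3 * X * Y) ≠ 0 := by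
    have h4 : e q (4 * M + 3 + 4 * k) ≠ 0 := h.e_ne (by omega)
    rwa [ev5 h, hXd, hYd] at h4
  have l2 : (1 - q ^ 7 * X * Y) ≠ 0 := by
    have h4 : e q (4 * M + 7 + 4 * k) ≠ 0 := h.e_ne (by omega)
    have h3 : e q (4 * M + 7 + 4 * k) = 1 - q ^ 7 * q ^ (4 * M) * q ^ (4 * k) := by
      have := e_eq h 7 1 1 M k
      rw [show (7 : ℤ) + 4 * 1 * M + 4 * 1 * k = 4 * M + 7 + 4 * k by ring] at this
      rw [this]; simp [zpow_ofNat]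
    rwa [h3, hXd, hYd] at h4
  have l3 : (1 - q ^ 4 * Y) ≠ 0 := by
    have h4 : e q (4 + 4 * k) ≠ 0 := h.e_ne (by omega)
    rwa [ev7 h, hYd] at h4
  have l4 : (1 - q * Y) ≠ 0 := by
    have h4 : e q (1 + 4 * k) ≠ 0 := h.e_ne (by omega)
    rwa [ev8 h, hYd] at h4
  have l5 : pz q (4 * M + 3) k ≠ 0 := h.pz_ne (by intros; omega)
  have l6 : pz q (1 - 4 * M) k ≠ 0 := h.pz_ne (by intros; omega)
  have l7 : pz q 4 k ≠ 0 := h.pz_ne (by intros; omega)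
  have l8 : pz q 1 k ≠ 0 := h.pz_ne (by intros; omega)
  have k2' : q ^ 3 * X - 1 ≠ 0 := by
    intro h0
    apply k2
    rw [← neg_eq_zero, neg_sub]
    exact h0
  clear hXd hYd g1 g2 g3 g4
  generalize pz q (-(4 * M)) k = n1
  generalize pz q (4 * M + 2) k = n2
  generalize pz q (-1) k = n3
  generalize pz q 2 k = n4
  generalize pz q (4 * M + 3) k = z1 at *
  generalize pz q (1 - 4 * M) k = z2 at *
  generalize pz q 4 k = z3 at *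
  generalize pz q 1 k = z4 at *
  exact bss_alg q X Y n1 n2 n3 n4 z1 z2 z3 z4 hq hX k1 k2 k2' l1 l2 l3 l4 l5 l6 l7 l8

lemma ev9 (h : NR q) (k : ℕ) : e q (8 * ((k + 1 : ℕ) : ℤ) - 1) = 1 - q ^ 7 * (q ^ (4 * k)) ^ 2 := by
  have := e_eq h 7 0 2 0 k
  rw [show (7 : ℤ) + 4 * 0 * (0 : ℕ) + 4 * 2 * k = 8 * ((k + 1 : ℕ) : ℤ) - 1 by push_cast; ring] at this
  rw [this]; simp [zpow_ofNat]

lemma Jc_ne (h : NR q) (M : ℕ) : Jc q M ≠ 0 := by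
  unfold Jc
  have h1 : e q (-1) ≠ 0 := h.e_ne (by omega)
  have h2 : e q (4 * M + 1) ≠ 0 := h.e_ne (by omega)
  have h3 : e q 1 ≠ 0 := h.e_ne (by omega)
  have h4 : pz q 2 M ≠ 0 := h.pz_ne (by intros; omega)
  have h5 : pz q 4 M ≠ 0 := h.pz_ne (by intros; omega)
  exact div_ne_zero (mul_ne_zero (div_ne_zero (mul_ne_zero h1 h2) h3) (pow_ne_zero _ h4)) (pow_ne_zero _ h5)

lemma Jc_succ (h : NR q) (M : ℕ) : Jc q (M + 1) = Jc q M * ((1 - q ^ 5 * q ^ (4 * M)) * (1 - q ^ 2 * q ^ (4 * M)) ^ 2 /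
    ((1 - q * q ^ (4 * M)) * (1 - q ^ 4 * q ^ (4 * M)) ^ 2)) := by
  have h1 : e q (4 * M + 1) = 1 - q * q ^ (4 * M) := by
    rw [← ev8 h]; congr 1; ring
  have h2 : e q (4 * ((M + 1 : ℕ) : ℤ) + 1) = 1 - q ^ 5 * q ^ (4 * M) := by
    have := e_eq h 5 1 0 M 0
    rw [show (5 : ℤ) + 4 * 1 * M + 4 * 0 * (0 : ℕ) = 4 * ((M + 1 : ℕ) : ℤ) + 1 by push_cast; ring] at this
    rw [this]; simp [zpow_ofNat]
  have h3 : e q (4 * M + 1) ≠ 0 := h.e_ne (by omega)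
  rw [h1] at h3
  unfold Jc
  rw [h1, h2, pz_succ, pz_succ, ev4 h, ev7 h]
  have l3 : (1 - q ^ 4 * q ^ (4 * M)) ≠ 0 := by
    have h4 : e q (4 + 4 * M) ≠ 0 := h.e_ne (by omega)
    rwa [ev7 h] at h4
  have l5 : pz q 4 M ≠ 0 := h.pz_ne (by intros; omega)
  have l6 : e q 1 ≠ 0 := h.e_ne (by omega)
  generalize 1 - q ^ 5 * q ^ (4 * M) = a1 at *
  generalize 1 - q * q ^ (4 * M) = a2 at *
  generalize 1 - q ^ 4 * q ^ (4 * M) = a3 at *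
  generalize 1 - q ^ 2 * q ^ (4 * M) = a4 at *
  generalize pz q 4 M = z at *
  generalize pz q 2 M = w at *
  field_simp

/-- the relation between the terms and the companion -/
lemma wz_step (h : NR q) (M k : ℕ) :
    jt q (M + 1) (k + 1) / Jc q (M + 1) - jt q M (k + 1) / Jc q M = Hc q M (k + 1) - Hc q M k := by
  have k1 : (1 - q ^ 2 * q ^ (4 * M)) ≠ 0 := by
    have h4 : e q (2 + 4 * M) ≠ 0 := h.e_ne (by omega)
    rwa [ev4 h] at h4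
  have k2 : (1 - q ^ 5 * q ^ (4 * M)) ≠ 0 := by
    have h4 : e q (4 * M + 5) ≠ 0 := h.e_ne (by omega)
    have := e_eq h 5 1 0 M 0
    rw [show (5 : ℤ) + 4 * 1 * M + 4 * 0 * (0 : ℕ) = 4 * M + 5 by ring] at this
    rw [this] at h4
    simpa [zpow_ofNat] using h4
  have k3 : (1 - q ^ 3 * q ^ (4 * M) * q ^ (4 * k)) ≠ 0 := by
    have h4 : e q (4 * M + 3 + 4 * k) ≠ 0 := h.e_ne (by omega)
    rwa [ev5 h] at h4
  have k4 : (1 - q ^ 7 * q ^ (4 * M) * q ^ (4 * k)) ≠ 0 := by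
    have h4 : e q (4 * M + 7 + 4 * k) ≠ 0 := h.e_ne (by omega)
    have h3 : e q (4 * M + 7 + 4 * k) = 1 - q ^ 7 * q ^ (4 * M) * q ^ (4 * k) := by
      have := e_eq h 7 1 1 M k
      rw [show (7 : ℤ) + 4 * 1 * M + 4 * 1 * k = 4 * M + 7 + 4 * k by ring] at this
      rw [this]; simp [zpow_ofNat]
    rwa [h3] at h4
  have hX : q ^ (4 * M) ≠ 0 := pow_ne_zero _ h.ne
  have k5 : q ^ (4 * M) - q * q ^ (4 * k) ≠ 0 := by
    have h4 : e q (1 - 4 * M + 4 * k) ≠ 0 := h.e_ne (by omega)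
    rw [ev6 h] at h4
    intro h0
    apply h4
    rw [h0, zero_div]
  have k6 : (1 - q ^ 4 * q ^ (4 * k)) ≠ 0 := by
    have h4 : e q (4 + 4 * k) ≠ 0 := h.e_ne (by omega)
    rwa [ev7 h] at h4
  have k7 : (1 - q * q ^ (4 * k)) ≠ 0 := by
    have h4 : e q (1 + 4 * k) ≠ 0 := h.e_ne (by omega)
    rwa [ev8 h] at h4
  have k8 : q ^ 3 * q ^ (4 * M) - 1 ≠ 0 := by
    have h4 : e q (4 * M + 3) ≠ 0 := h.e_ne (by omega)
    have := e_eq h 3 1 0 M 0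
    rw [show (3 : ℤ) + 4 * 1 * M + 4 * 0 * (0 : ℕ) = 4 * M + 3 by ring] at this
    rw [this] at h4
    intro h0
    apply h4
    simp [zpow_ofNat]
    rw [← neg_eq_zero, neg_sub]
    exact h0
  have hJ := Jc_ne h M
  have k9 : (1 - q * q ^ (4 * M)) ≠ 0 := by
    have h4 : e q (1 + 4 * M) ≠ 0 := h.e_ne (by omega)
    rwa [ev8 h] at h4
  have k10 : (1 - q ^ 4 * q ^ (4 * M)) ≠ 0 := by
    have h4 : e q (4 + 4 * M) ≠ 0 := h.e_ne (by omega)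
    rwa [ev7 h] at h4
  have hY : q ^ (4 * k) ≠ 0 := pow_ne_zero _ h.ne
  have hY1 : q ^ (4 * (k + 1)) = q ^ 4 * q ^ (4 * k) := by
    rw [show 4 * (k + 1) = 4 + 4 * k by ring, pow_add]
  have key := wz_identity q (q ^ (4 * M)) (q ^ (4 * k)) _ _ _ _ _ _ _ _ h.ne hX hY rfl rfl rfl rfl rfl rfl rfl rfl
    k1 k2 k3 k4 k5 k6 k7 k8
  unfold jt Hc
  rw [B_succ_succ h, B_succ h, Jc_succ h, ev9 h, hY1]
  have hq := h.ne
  have hqq : q⁻¹ * (q ^ 4 * q ^ (4 * k)) = q ^ 3 * q ^ (4 * k) := by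
    field_simp
  rw [hqq]
  have e1 : 1 - q ^ 2 * q ^ (4 * M) * (q ^ 4 * q ^ (4 * k)) = 1 - q ^ 6 * q ^ (4 * M) * q ^ (4 * k) := by ring
  have e2 : 1 - q ^ 2 * (q ^ 4 * q ^ (4 * k)) = 1 - q ^ 6 * q ^ (4 * k) := by ring
  have e3 : 1 - q ^ 3 * q ^ (4 * M) * (q ^ 4 * q ^ (4 * k)) = 1 - q ^ 7 * q ^ (4 * M) * q ^ (4 * k) := by ring
  rw [e1, e2, e3]
  generalize q ^ (4 * M) = X at *
  generalize q ^ (4 * k) = Y at *
  generalize B q M k = b at *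
  generalize Jc q M = J at *
  clear hJ hq hqq e1 e2 e3 hY1 hX hY k1 k2 k3 k4 k5 k6 k7 k8 k9 k10
  generalize 1 - q ^ 7 * Y ^ 2 = u at *
  generalize 1 - q ^ 2 * X = d1 at *
  generalize 1 - q ^ 5 * X = d2 at *
  generalize 1 - q ^ 3 * X * Y = d3 at *
  generalize 1 - q ^ 7 * X * Y = d4 at *
  generalize X - q * Y = d5 at *
  generalize 1 - q ^ 4 * Y = d6 at *
  generalize 1 - q * Y = d7 at *
  generalize q ^ 3 * X - 1 = d8 at *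
  generalize 1 - q ^ 2 * X * Y = c1 at *
  generalize 1 - q⁻¹ * Y = c2 at *
  generalize 1 - q ^ 2 * Y = c3 at *
  generalize 1 - q * X = r1 at *
  generalize 1 - q ^ 4 * X = r2 at *
  generalize 1 - q ^ 6 * X ^ 2 = r3 at *
  generalize 1 - q ^ 6 * X * Y = r4 at *
  generalize 1 - q ^ 3 * Y = r5 at *
  generalize 1 - q ^ 6 * Y = r6 at *
  generalize q ^ 4 * X - 1 = r7 at *
  generalize 1 - q ^ 3 * X = r8 at *
  generalize X - Y = r9 at *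
  linear_combination (norm := skip) (b * (c1 * c2 ^ 3 * c3) / J) * key
  ring_nf
  simp only [inv_inv]
  ring

lemma wz_zero (h : NR q) (M : ℕ) :
    jt q (M + 1) 0 / Jc q (M + 1) - jt q M 0 / Jc q M = Hc q M 0 := by
  have k1 : (1 - q ^ 2 * q ^ (4 * M)) ≠ 0 := by
    have h4 : e q (2 + 4 * M) ≠ 0 := h.e_ne (by omega)
    rwa [ev4 h] at h4
  have k2 : (1 - q ^ 5 * q ^ (4 * M)) ≠ 0 := by
    have h4 : e q (4 * M + 5) ≠ 0 := h.e_ne (by omega)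
    have := e_eq h 5 1 0 M 0
    rw [show (5 : ℤ) + 4 * 1 * M + 4 * 0 * (0 : ℕ) = 4 * M + 5 by ring] at this
    rw [this] at h4
    simpa [zpow_ofNat] using h4
  have k3 : (1 - q ^ 3 * q ^ (4 * M)) ≠ 0 := by
    have h4 : e q (4 * M + 3) ≠ 0 := h.e_ne (by omega)
    have := e_eq h 3 1 0 M 0
    rw [show (3 : ℤ) + 4 * 1 * M + 4 * 0 * (0 : ℕ) = 4 * M + 3 by ring] at this
    rw [this] at h4
    simpa [zpow_ofNat] using h4
  have hX : q ^ (4 * M) ≠ 0 := pow_ne_zero _ h.ne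
  have hJ := Jc_ne h M
  have k9 : (1 - q * q ^ (4 * M)) ≠ 0 := by
    have h4 : e q (1 + 4 * M) ≠ 0 := h.e_ne (by omega)
    rwa [ev8 h] at h4
  have k10 : (1 - q ^ 4 * q ^ (4 * M)) ≠ 0 := by
    have h4 : e q (4 + 4 * M) ≠ 0 := h.e_ne (by omega)
    rwa [ev7 h] at h4
  unfold jt Hc
  rw [Jc_succ h]
  have hq := h.ne
  have hB : ∀ M, B q M 0 = 1 := by
    intro M
    simp [B, pz_zero]
  have he : e q (8 * ((0 : ℕ) : ℤ) - 1) = 1 - q⁻¹ := by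
    simp [e]
  rw [hB, hB, he]
  simp only [mul_zero, pow_zero, mul_one]
  generalize q ^ (4 * M) = X at *
  generalize Jc q M = J at *
  generalize h1 : 1 - q ^ 2 * X = d1 at *
  generalize h2 : 1 - q ^ 5 * X = d2 at *
  generalize h3 : 1 - q ^ 3 * X = d3 at *
  generalize h4 : 1 - q * X = d4 at *
  generalize h5 : 1 - q ^ 4 * X = d5 at *
  field_simp
  subst h1 h2 h3 h4 h5
  ring

lemma B_top (M : ℕ) : B q M (M + 1) = 0 := by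
  unfold B
  have : pz q (-(4 * (M : ℤ))) (M + 1) = 0 := by
    rw [pz_succ]
    simp [e]
  rw [this]
  simp

/-- the terminating very-well-poised sum -/
lemma jackson (h : NR q) (M : ℕ) : ∑ k ∈ range (M + 1), jt q M k = Jc q M := by
  have key : ∀ M : ℕ, ∑ k ∈ range (M + 1), jt q M k / Jc q M = 1 := by
    intro M
    induction M with
    | zero =>
      have h1 : e q (-1) ≠ 0 := h.e_ne (by omega)
      have h2 : e q 1 ≠ 0 := h.e_ne (by omega)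
      simp [jt, Jc, B, pz_zero]
      field_simp
    | succ M ih =>
      rw [Finset.sum_range_succ']
      have h1 : ∀ k, jt q (M + 1) (k + 1) / Jc q (M + 1) =
          jt q M (k + 1) / Jc q M + (Hc q M (k + 1) - Hc q M k) := by
        intro k
        rw [← wz_step h]
        ring
      have h0 : jt q (M + 1) 0 / Jc q (M + 1) = jt q M 0 / Jc q M + Hc q M 0 := by
        rw [← wz_zero h]
        ring
      simp_rw [h1]
      rw [Finset.sum_add_distrib, Finset.sum_range_sub, h0, Finset.sum_range_succ]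
      have h2 : jt q M (M + 1) = 0 := by
        unfold jt
        rw [B_top]
        simp
      have h3 : Hc q M (M + 1) = 0 := by
        unfold Hc
        rw [B_top]
        simp
      rw [h2, h3]
      rw [Finset.sum_range_succ'] at ih
      rw [← ih]
      ring
  have h1 := key M
  rw [← Finset.sum_div, div_eq_one_iff_eq (Jc_ne h M)] at h1
  exact h1

end Pool.Agent.H93.QC
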