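import Pool.Agent.H93.QA

/-!
The second terminating sum and its interpolation expansion.
-/

namespace Pool.Agent.H93.QC

open Finset Polynomial

variable {K : Type*} [Field K] (q : K)

/-- terms of the second terminating sum -/
def st (M k : ℕ) : K :=
  e q (8 * k - 1) * pz q (4 * M - 2) k * pz q (-(4 * M)) k * pz q (-1) k ^ 3 * pz q 2 k /
    (pz q (5 - 4 * M) k * pz q (4 * M + 3) k * pz q 4 k ^ 3 * pz q 1 k) * q ^ (8 * k)

/-- value of the second terminating sum for `M + 1` -/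
def Fc (M : ℕ) : K :=
  e q (4 * M + 3) * pz q 2 M ^ 2 / pz q 4 (M + 1) ^ 2 *
    (e q (4 * M + 2) ^ 2 - (1 + q⁻¹) * e q (4 * M + 4) * e q (4 * M + 1))

variable {q}

lemma st_step (h : NR q) (M k : ℕ) :
    st q (M + 1) k * ((1 - q) * (q ^ 2 * q ^ (4 * M) - (q ^ 4 * q ^ (4 * M))⁻¹)) =
      e q (-4 * M - 4) * e q (4 * M + 3) * jt q M k - e q (4 * M + 2) * e q (-4 * M - 3) * jt q (M + 1) k := by
  have p1 := pz_shift q (-4 * M - 4) k
  have p2 := pz_shift q (4 * M + 3) k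
  have p3 := pz_shift q (4 * M + 2) k
  have p4 := pz_shift q (-4 * M - 3) k
  rw [show (-4 * (M : ℤ) - 4 + 4) = -(4 * M) by ring] at p1
  rw [show (4 * (M : ℤ) + 3 + 4) = 4 * M + 7 by ring] at p2
  rw [show (4 * (M : ℤ) + 2 + 4) = 4 * M + 6 by ring] at p3
  rw [show (-4 * (M : ℤ) - 3 + 4) = 1 - 4 * M by ring] at p4
  have hX : q ^ (4 * M) ≠ 0 := pow_ne_zero _ h.ne
  have hY : q ^ (4 * k) ≠ 0 := pow_ne_zero _ h.ne
  have diff : e q (-4 * M - 4 + 4 * k) * e q (4 * M + 3 + 4 * k) - e q (4 * M + 2 + 4 * k) * e q (-4 * M - 3 + 4 * k) =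
      q ^ (4 * k) * ((1 - q) * (q ^ 2 * q ^ (4 * M) - (q ^ 4 * q ^ (4 * M))⁻¹)) := by
    have a1 := e_eq h (-4) (-1) 1 M k
    have a2 := e_eq h 3 1 1 M k
    have a3 := e_eq h 2 1 1 M k
    have a4 := e_eq h (-3) (-1) 1 M k
    rw [show (-4 : ℤ) + 4 * (-1) * M + 4 * 1 * k = -4 * M - 4 + 4 * k by ring] at a1
    rw [show (3 : ℤ) + 4 * 1 * M + 4 * 1 * k = 4 * M + 3 + 4 * k by ring] at a2
    rw [show (2 : ℤ) + 4 * 1 * M + 4 * 1 * k = 4 * M + 2 + 4 * k by ring] at a3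
    rw [show (-3 : ℤ) + 4 * (-1) * M + 4 * 1 * k = -4 * M - 3 + 4 * k by ring] at a4
    rw [a1, a2, a3, a4]
    generalize q ^ (4 * M) = X at *
    generalize q ^ (4 * k) = Y at *
    have hq := h.ne
    simp only [zpow_neg, zpow_one, zpow_ofNat]
    field_simp
    ring
  have n1 : e q (-4 * M - 4) ≠ 0 := h.e_ne (by omega)
  have n2 : e q (4 * M + 3) ≠ 0 := h.e_ne (by omega)
  have n3 : e q (4 * M + 2) ≠ 0 := h.e_ne (by omega)
  have n4 : e q (-4 * M - 3) ≠ 0 := h.e_ne (by omega)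
  have n5 : e q (4 * M + 3 + 4 * k) ≠ 0 := h.e_ne (by omega)
  have n6 : e q (-4 * M - 3 + 4 * k) ≠ 0 := h.e_ne (by omega)
  have z1 : pz q (4 * M + 3) k ≠ 0 := h.pz_ne (by intros; omega)
  have z2 : pz q (-4 * M - 3) k ≠ 0 := h.pz_ne (by intros; omega)
  have z3 : pz q (1 - 4 * M) k ≠ 0 := h.pz_ne (by intros; omega)
  have z4 : pz q (4 * M + 7) k ≠ 0 := h.pz_ne (by intros; omega)
  have z5 : pz q 4 k ≠ 0 := h.pz_ne (by intros; omega)
  have z6 : pz q 1 k ≠ 0 := h.pz_ne (by intros; omega)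
  have hq8 : q ^ (8 * k) = q ^ (4 * k) * q ^ (4 * k) := by rw [← pow_add]; congr 1; ring
  unfold st jt B
  rw [show (4 * ((M + 1 : ℕ) : ℤ) - 2) = 4 * M + 2 by push_cast; ring,
    show (-(4 * ((M + 1 : ℕ) : ℤ))) = -4 * M - 4 by push_cast; ring,
    show (5 - 4 * ((M + 1 : ℕ) : ℤ)) = 1 - 4 * M by push_cast; ring,
    show (4 * ((M + 1 : ℕ) : ℤ) + 3) = 4 * M + 7 by push_cast; ring,
    show (4 * ((M + 1 : ℕ) : ℤ) + 2) = 4 * M + 6 by push_cast; ring,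
    show (1 - 4 * ((M + 1 : ℕ) : ℤ)) = -4 * M - 3 by push_cast; ring, hq8]
  generalize q ^ (4 * k) = Y at *
  generalize (1 - q) * (q ^ 2 * q ^ (4 * M) - (q ^ 4 * q ^ (4 * M))⁻¹) = D at *
  generalize e q (8 * k - 1) = E1
  generalize pz q (-1) k = t1
  generalize pz q 2 k = t2
  generalize pz q 4 k = t3 at *
  generalize pz q 1 k = t4 at *
  generalize e q (-4 * M - 4 + 4 * k) = f1 at *
  generalize e q (4 * M + 3 + 4 * k) = f2 at *
  generalize e q (4 * M + 2 + 4 * k) = f3 at *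
  generalize e q (-4 * M - 3 + 4 * k) = f4 at *
  generalize e q (-4 * M - 4) = g1 at *
  generalize e q (4 * M + 3) = g2 at *
  generalize e q (4 * M + 2) = g3 at *
  generalize e q (-4 * M - 3) = g4 at *
  generalize pz q (4 * M + 2) k = x1 at *
  generalize pz q (-4 * M - 4) k = x2 at *
  generalize pz q (4 * M + 7) k = x3 at *
  generalize pz q (1 - 4 * M) k = x4 at *
  generalize pz q (4 * M + 3) k = x5 at *
  generalize pz q (-4 * M - 3) k = x6 at *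
  generalize pz q (-(4 * M)) k = x7 at *
  generalize pz q (4 * M + 6) k = x8 at *
  clear hq8
  have r1 : x7 = x2 * f1 / g1 := by rw [eq_div_iff n1]; linear_combination -p1
  have r2 : x5 = g2 * x3 / f2 := by rw [eq_div_iff n5]; linear_combination p2
  have r3 : x8 = x1 * f3 / g3 := by rw [eq_div_iff n3]; linear_combination -p3
  have r4 : x6 = g4 * x4 / f4 := by rw [eq_div_iff n6]; linear_combination p4
  have hD : E1 * x1 * x2 * t1 ^ 3 * t2 / (x4 * x3 * t3 ^ 3 * t4) * Y * (f1 * f2 - f3 * f4) =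
      E1 * x1 * x2 * t1 ^ 3 * t2 / (x4 * x3 * t3 ^ 3 * t4) * Y * (Y * D) := by rw [diff]
  rw [show E1 * x1 * x2 * t1 ^ 3 * t2 / (x4 * x3 * t3 ^ 3 * t4) * (Y * Y) * D =
    E1 * x1 * x2 * t1 ^ 3 * t2 / (x4 * x3 * t3 ^ 3 * t4) * Y * (Y * D) by ring, ← hD]
  rw [r1, r2, r3, r4]
  clear hD diff r1 r2 r3 r4 p1 p2 p3 p4
  field_simp

lemma B_zero_of_gt (M k : ℕ) (hk : M < k) : pz q (-(4 * (M : ℤ))) k = 0 := by
  unfold pz
  rw [Finset.prod_eq_zero_iff]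
  refine ⟨M, Finset.mem_range.mpr hk, ?_⟩
  simp [e]

lemma st_sum (h : NR q) (M : ℕ) : ∑ k ∈ range (M + 2), st q (M + 1) k = Fc q M := by
  have hX : q ^ (4 * M) ≠ 0 := pow_ne_zero _ h.ne
  have hq := h.ne
  have h1q : (1 - q) ≠ 0 := by
    have := h.e_ne (m := 1) (by omega)
    simpa [e] using this
  have n0 : q ^ 2 * q ^ (4 * M) - (q ^ 4 * q ^ (4 * M))⁻¹ ≠ 0 := by
    intro h0
    have h1 := h.e_ne (m := 6 + 4 * 2 * M + 4 * 0 * (0 : ℕ)) (by omega)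
    rw [e_eq h 6 2 0 M 0] at h1
    apply h1
    rw [sub_eq_zero, inv_eq_one_div, eq_div_iff (mul_ne_zero (pow_ne_zero _ hq) hX)] at h0
    simp only [zpow_ofNat, zpow_zero, mul_one]
    rw [← h0]
    ring
  have hD : (1 - q) * (q ^ 2 * q ^ (4 * M) - (q ^ 4 * q ^ (4 * M))⁻¹) ≠ 0 := mul_ne_zero h1q n0
  apply mul_right_cancel₀ hD
  rw [Finset.sum_mul]
  simp_rw [st_step h]
  rw [Finset.sum_sub_distrib, ← Finset.mul_sum, ← Finset.mul_sum, jackson h (M + 1), Finset.sum_range_succ, jackson h M]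
  have h0 : jt q M (M + 1) = 0 := by
    unfold jt
    rw [B_top]
    simp
  rw [h0, add_zero, Jc_succ h]
  unfold Fc Jc
  rw [pz_succ, ev7 h]
  have a1 : e q (-4 * M - 4) = (q ^ 4 * q ^ (4 * M) - 1) / (q ^ 4 * q ^ (4 * M)) := by
    have := e_eq h (-4) (-1) 0 M 0
    rw [show (-4 : ℤ) + 4 * (-1) * M + 4 * 0 * (0 : ℕ) = -4 * M - 4 by ring] at this
    rw [this, sub_div, div_self (mul_ne_zero (pow_ne_zero _ h.ne) hX)]
    simp [zpow_neg, zpow_ofNat]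
    ring
  have a2 : e q (-4 * M - 3) = (q ^ 3 * q ^ (4 * M) - 1) / (q ^ 3 * q ^ (4 * M)) := by
    have := e_eq h (-3) (-1) 0 M 0
    rw [show (-3 : ℤ) + 4 * (-1) * M + 4 * 0 * (0 : ℕ) = -4 * M - 3 by ring] at this
    rw [this, sub_div, div_self (mul_ne_zero (pow_ne_zero _ h.ne) hX)]
    simp [zpow_neg, zpow_ofNat]
    ring
  have a3 : e q (4 * M + 3) = 1 - q ^ 3 * q ^ (4 * M) := by
    have := e_eq h 3 1 0 M 0
    rw [show (3 : ℤ) + 4 * 1 * M + 4 * 0 * (0 : ℕ) = 4 * M + 3 by ring] at this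
    rw [this]; simp [zpow_ofNat]
  have a4 : e q (4 * M + 2) = 1 - q ^ 2 * q ^ (4 * M) := by
    have := e_eq h 2 1 0 M 0
    rw [show (2 : ℤ) + 4 * 1 * M + 4 * 0 * (0 : ℕ) = 4 * M + 2 by ring] at this
    rw [this]; simp [zpow_ofNat]
  have a5 : e q (4 * M + 4) = 1 - q ^ 4 * q ^ (4 * M) := by
    have := e_eq h 4 1 0 M 0
    rw [show (4 : ℤ) + 4 * 1 * M + 4 * 0 * (0 : ℕ) = 4 * M + 4 by ring] at this
    rw [this]; simp [zpow_ofNat]
  have a6 : e q (4 * M + 1) = 1 - q * q ^ (4 * M) := by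
    have := e_eq h 1 1 0 M 0
    rw [show (1 : ℤ) + 4 * 1 * M + 4 * 0 * (0 : ℕ) = 4 * M + 1 by ring] at this
    rw [this]; simp
  have a7 : e q (-1) / e q 1 = -q⁻¹ := by
    have : e q 1 = 1 - q := by simp [e]
    rw [this, div_eq_iff h1q]
    simp [e]
    field_simp
    ring
  have l3 : (1 - q ^ 4 * q ^ (4 * M)) ≠ 0 := by
    have h4 : e q (4 + 4 * M) ≠ 0 := h.e_ne (by omega)
    rwa [ev7 h] at h4
  have l4 : (1 - q * q ^ (4 * M)) ≠ 0 := by
    have h4 : e q (1 + 4 * M) ≠ 0 := h.e_ne (by omega)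
    rwa [ev8 h] at h4
  have l5 : pz q 4 M ≠ 0 := h.pz_ne (by intros; omega)
  rw [show e q (-1) * e q (4 * M + 1) / e q 1 = (e q (-1) / e q 1) * e q (4 * M + 1) by ring, a1, a2, a3, a4, a5, a6, a7]
  generalize q ^ (4 * M) = X at *
  generalize pz q 2 M = x at *
  generalize pz q 4 M = y at *
  clear a1 a2 a3 a4 a5 a6 a7 hD n0 h0
  generalize h1 : 1 - q ^ 4 * X = d1 at *
  generalize h2 : 1 - q * X = d2 at *
  field_simp
  subst h1 h2
  ring

end Pool.Agent.H93.QC
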