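import Mathlib

/-!
Definitions for the `q`-congruence with factor `[8k-1]`, in the field `ℚ(q)` of rational functions.
-/

namespace Pool.Agent.H93.QDefs

open Polynomial

/-- the indeterminate `q` of `ℚ(q)` -/
noncomputable abbrev q : RatFunc ℚ := RatFunc.X

/-- the `q`-integer `[m] = (1 - q^m) / (1 - q)`, for an integer `m` -/
noncomputable def qint (m : ℤ) : RatFunc ℚ := (1 - q ^ m) / (1 - q)

/-- the `q`-shifted factorial `(a; p)_k = (1 - a)(1 - a p) ⋯ (1 - a p^(k-1))` -/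
noncomputable def poch (a p : RatFunc ℚ) (k : ℕ) : RatFunc ℚ := ∏ i ∈ Finset.range k, (1 - a * p ^ i)

/-- `A_k(q) = (q⁻¹; q⁴)_k / (q⁴; q⁴)_k` -/
noncomputable def A (k : ℕ) : RatFunc ℚ := poch q⁻¹ (q ^ 4) k / poch (q ^ 4) (q ^ 4) k

/-- `B_k(q) = (q²; q²)_{2k} / (q⁻¹; q²)_{2k}` -/
noncomputable def B (k : ℕ) : RatFunc ℚ := poch (q ^ 2) (q ^ 2) (2 * k) / poch q⁻¹ (q ^ 2) (2 * k)

/-- `S_n(q) = ∑_{k=0}^{n-1} [8k-1] A_k(q)^6 B_k(q) q^(8k)` -/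
noncomputable def S (n : ℕ) : RatFunc ℚ :=
  ∑ k ∈ Finset.range n, qint (8 * (k : ℤ) - 1) * A k ^ 6 * B k * q ^ (8 * k)

/-- `R ≡ 0 (mod P)`: in lowest terms, the denominator of `R` is coprime to `P` and `P` divides the
numerator of `R` -/
def CongZero (R : RatFunc ℚ) (P : ℚ[X]) : Prop := IsCoprime R.denom P ∧ P ∣ R.num

/-- the polynomial `[n] = 1 + q + ⋯ + q^(n-1)` -/
noncomputable def bracket (n : ℕ) : ℚ[X] := ∑ i ∈ Finset.range n, X ^ i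

end Pool.Agent.H93.QDefs
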