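import Pool.Agent.H93.QV

/-!
The valuation of the sum, and the congruence.
-/

namespace Pool.Agent.H93.QC

open Finset Polynomial IsDedekindDomain WithZero

variable {d : ℕ} (hd : 0 < d)

lemma cn_shift (m : ℤ) (n : ℕ) (hn : 0 < n) : cn d (m + 4) (n - 1) = cn d m n - ind d m := by
  obtain ⟨k, rfl⟩ : ∃ k, n = k + 1 := ⟨n - 1, by omega⟩
  unfold cn
  rw [Nat.add_sub_cancel, Finset.sum_range_succ']
  simp only [Nat.cast_zero, mul_zero, add_zero, add_sub_cancel_right]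
  refine Finset.sum_congr rfl fun i _ => ?_
  congr 1
  push_cast
  ring

lemma ind_zero : ind d 0 = 1 := by
  unfold ind
  simp

lemma ind_two_mul (hodd : Odd d) (m : ℤ) : ind d (2 * m) = ind d m := by
  unfold ind
  have h : IsCoprime (d : ℤ) 2 := by
    exact_mod_cast Nat.isCoprime_iff_coprime.mpr hodd.coprime_two_right
  have : (d : ℤ) ∣ 2 * m ↔ (d : ℤ) ∣ m := ⟨fun h1 => h.dvd_of_dvd_mul_left h1, fun h1 => Dvd.dvd.mul_left h1 _⟩
  simp only [this]

include hd in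
lemma vd_basis (hodd : Odd d) (n M : ℕ) (hdn : d ∣ n) (hM : M < n) :
    vd hd (∏ j ∈ (range n).erase M, (-(RatFunc.X : RatFunc ℚ) ^ (1 - 4 * (j : ℤ)) * e RatFunc.X (4 * j - 1) ^ 2) /
        ((RatFunc.X : RatFunc ℚ) ^ (4 * (M : ℤ) - 1) * e RatFunc.X (4 * j - 4 * M) * e RatFunc.X (2 - 4 * M - 4 * j))) =
    exp (-(1 - ind d (4 * M - 1))) := by
  have h1 : ∀ j ∈ (range n).erase M, vd hd ((-(RatFunc.X : RatFunc ℚ) ^ (1 - 4 * (j : ℤ)) * e RatFunc.X (4 * j - 1) ^ 2) /
        ((RatFunc.X : RatFunc ℚ) ^ (4 * (M : ℤ) - 1) * e RatFunc.X (4 * j - 4 * M) * e RatFunc.X (2 - 4 * M - 4 * j))) =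
      exp (-(2 * ind d (4 * j - 1) - ind d (4 * j - 4 * M) - ind d (2 - 4 * M - 4 * j))) := by
    intro j hj
    have hj' : j ≠ M := (Finset.mem_erase.mp hj).1
    rw [map_div₀, map_mul, map_mul, map_mul, Valuation.map_neg, vd_zpow, vd_zpow, one_mul, one_mul, map_pow,
      vd_e hd _ (by omega), vd_e hd _ (by omega), vd_e hd _ (by omega), ← exp_nsmul, ← exp_add, ← exp_sub]
    congr 1
    simp only [nsmul_eq_mul]
    push_cast
    ring
  rw [map_prod, Finset.prod_congr rfl h1, exp_sum, Finset.sum_neg_distrib]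
  congr 2
  rw [Finset.sum_erase_eq_sub (Finset.mem_range.mpr hM), Finset.sum_sub_distrib, Finset.sum_sub_distrib, ← Finset.mul_sum]
  have c1 : ∑ j ∈ range n, ind d (4 * (j : ℤ) - 1) = n / d := by
    rw [← cn_full hd hodd (-1) n hdn]
    unfold cn
    refine Finset.sum_congr rfl fun i _ => ?_
    congr 1
  have c2 : ∑ j ∈ range n, ind d (4 * (j : ℤ) - 4 * M) = n / d := by
    rw [← cn_full hd hodd (-(4 * M)) n hdn]
    unfold cn
    refine Finset.sum_congr rfl fun i _ => ?_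
    congr 1; ring
  have c3 : ∑ j ∈ range n, ind d (2 - 4 * M - 4 * (j : ℤ)) = n / d := by
    rw [← cn_full hd hodd (4 * M - 2) n hdn]
    unfold cn
    refine Finset.sum_congr rfl fun i _ => ?_
    rw [← ind_neg]
    congr 1; ring
  rw [c1, c2, c3]
  have h2 : ind d (4 * (M : ℤ) - 4 * M) = 1 := by rw [sub_self, ind_zero]
  have h3 : ind d (2 - 4 * (M : ℤ) - 4 * M) = ind d (4 * M - 1) := by
    rw [← ind_neg, ← ind_two_mul hodd (4 * M - 1)]
    congr 1; ring
  rw [h2, h3]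
  ring

include hd in
/-- the valuation of the sum -/
theorem vd_SS (hodd : Odd d) (hd1 : 1 < d) (n : ℕ) (hdn : d ∣ n) (hn : 0 < n) :
    vd hd (SS (RatFunc.X : RatFunc ℚ) n) ≤ exp (-(if d % 4 = 1 then 3 else 1)) := by
  rw [expansion nr_X n hn]
  refine (vd hd).map_sum_le fun M hM => ?_
  rw [Finset.mem_range] at hM
  rw [map_mul, map_mul, map_div₀, map_mul, map_pow, vd_basis hd hodd n M hdn hM,
    vd_pz hd _ _ (by intros; omega), vd_pz hd _ _ (by intros; omega), vd_pz hd _ _ (by intros; omega)]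
  have a1 : cn d (4 * M + 3) (n - 1) = n / d - ind d (4 * M - 1) := by
    rw [← cn_full hd hodd (4 * M - 1) n hdn, ← cn_shift _ n hn]
    congr 1; ring
  have a2 : cn d (5 - 4 * M) (n - 1) = n / d - ind d (4 * M - 1) := by
    rw [← ind_neg, ← cn_full hd hodd (1 - 4 * M) n hdn, show -(4 * (M : ℤ) - 1) = 1 - 4 * M by ring, ← cn_shift _ n hn]
    congr 1; ring
  have a3 : cn d 4 (n - 1) = n / d - 1 := by
    rw [← cn_full hd hodd 0 n hdn, ← ind_zero (d := d), ← cn_shift _ n hn]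
    congr 1
  rw [a1, a2, a3]
  refine (mul_le_mul' (mul_le_mul' le_rfl (vd_F hd hodd hd1 M)) le_rfl).trans ?_
  rw [← exp_add, ← exp_nsmul, ← exp_sub, ← exp_add, ← exp_add, exp_le_exp]
  simp only [nsmul_eq_mul]
  have h0 : ind d (4 * M - 1) = 0 ∨ ind d (4 * M - 1) = 1 := by
    unfold ind
    split_ifs
    · exact Or.inr rfl
    · exact Or.inl rfl
  push_cast
  split_ifs
  · linarith
  · rcases h0 with h0 | h0 <;> rw [h0] <;> linarith

end Pool.Agent.H93.QC
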