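import Pool.Agent.H93.QF
import Pool.Agent.H93.QDefs

/-!
The congruence.
-/

namespace Pool.Agent.H93.QC

open Finset Polynomial IsDedekindDomain WithZero Pool.Agent.H93.QDefs

lemma cong_of_vals (R : RatFunc ℚ) (D : Finset ℕ) (r : ℕ → ℕ) (hD : ∀ d ∈ D, 0 < d)
    (hr : ∀ d ∈ D, 1 ≤ r d) (h : ∀ (d : ℕ) (hd : d ∈ D), vd (hD d hd) R ≤ exp (-(r d : ℤ))) :
    CongZero R (∏ d ∈ D, cyclotomic d ℚ ^ r d) := by
  have key : ∀ d ∈ D, ¬ cyclotomic d ℚ ∣ R.denom ∧ cyclotomic d ℚ ^ r d ∣ R.num := by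
    intro d hd
    have hd0 := hD d hd
    have h1 := h d hd
    have h2 := hr d hd
    have hR : vd hd0 R = (pl d hd0).intValuation R.num / (pl d hd0).intValuation R.denom := by
      conv_lhs => rw [← RatFunc.num_div_denom R]
      rw [map_div₀, vd_poly, vd_poly]
    have hirr := cyclotomic.irreducible_rat hd0
    have hden : ¬ cyclotomic d ℚ ∣ R.denom := by
      intro h3
      have h4 : ¬ cyclotomic d ℚ ∣ R.num := by
        intro h4
        exact hirr.not_isUnit (R.isCoprime_num_denom.isUnit_of_dvd' h4 h3)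
      rw [hR, int_eq_one hd0 h4] at h1
      have h5 := HeightOneSpectrum.intValuation_le_one (pl d hd0) R.denom
      have h6 : (pl d hd0).intValuation R.denom ≠ 0 := HeightOneSpectrum.intValuation_ne_zero _ _ R.denom_ne_zero
      have h7 : (1 : ℤᵐ⁰) ≤ 1 / (pl d hd0).intValuation R.denom := by
        rw [le_div_iff₀ (zero_lt_iff.mpr h6), one_mul]
        exact h5
      have h8 := h7.trans h1
      rw [← exp_zero, exp_le_exp] at h8
      omega
    refine ⟨hden, ?_⟩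
    rw [hR, int_eq_one hd0 hden, div_one] at h1
    exact (int_le hd0 (r d)).mp h1
  constructor
  · refine IsCoprime.prod_right fun d hd => IsCoprime.pow_right ?_
    exact ((cyclotomic.irreducible_rat (hD d hd)).coprime_iff_not_dvd.mpr (key d hd).1).symm
  · refine Finset.prod_dvd_of_coprime ?_ fun d hd => (key d hd).2
    intro a _ b _ hab
    exact IsCoprime.pow (cyclotomic.isCoprime_rat hab)

lemma poch_neg_one (k : ℕ) : poch QDefs.q⁻¹ (QDefs.q ^ 4) k = pz RatFunc.X (-1) k := by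
  unfold poch pz e
  refine Finset.prod_congr rfl fun i _ => ?_
  rw [zpow_add₀ RatFunc.X_ne_zero, zpow_neg_one, zpow_mul]
  norm_cast

lemma poch_four (k : ℕ) : poch (QDefs.q ^ 4) (QDefs.q ^ 4) k = pz RatFunc.X 4 k := by
  unfold poch pz e
  refine Finset.prod_congr rfl fun i _ => ?_
  rw [zpow_add₀ RatFunc.X_ne_zero, zpow_mul]
  norm_cast

lemma poch_two (k : ℕ) : poch (QDefs.q ^ 2) (QDefs.q ^ 2) (2 * k) = pz RatFunc.X 2 k * pz RatFunc.X 4 k := by
  induction k with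
  | zero => simp [poch, pz]
  | succ k ih =>
    have h1 : ∀ m, poch (QDefs.q ^ 2) (QDefs.q ^ 2) (m + 1) = poch (QDefs.q ^ 2) (QDefs.q ^ 2) m * (1 - QDefs.q ^ 2 * (QDefs.q ^ 2) ^ m) := by
      intro m
      unfold poch
      rw [Finset.prod_range_succ]
    rw [show 2 * (k + 1) = 2 * k + 1 + 1 by ring, h1, h1, ih, pz_succ, pz_succ]
    have h2 : e (RatFunc.X : RatFunc ℚ) (2 + 4 * k) = 1 - QDefs.q ^ 2 * (QDefs.q ^ 2) ^ (2 * k) := by
      rw [ev4 nr_X]
      congr 2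
      rw [← pow_mul]; congr 1; ring
    have h3 : e (RatFunc.X : RatFunc ℚ) (4 + 4 * k) = 1 - QDefs.q ^ 2 * (QDefs.q ^ 2) ^ (2 * k + 1) := by
      rw [ev7 nr_X]
      congr 1
      rw [← pow_mul, ← pow_add, ← pow_add]; congr 1; ring
    rw [h2, h3]
    ring

lemma poch_neg_one_two (k : ℕ) : poch QDefs.q⁻¹ (QDefs.q ^ 2) (2 * k) = pz RatFunc.X (-1) k * pz RatFunc.X 1 k := by
  induction k with
  | zero => simp [poch, pz]
  | succ k ih =>
    have h1 : ∀ m, poch QDefs.q⁻¹ (QDefs.q ^ 2) (m + 1) = poch QDefs.q⁻¹ (QDefs.q ^ 2) m * (1 - QDefs.q⁻¹ * (QDefs.q ^ 2) ^ m) := by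
      intro m
      unfold poch
      rw [Finset.prod_range_succ]
    rw [show 2 * (k + 1) = 2 * k + 1 + 1 by ring, h1, h1, ih, pz_succ, pz_succ]
    have h2 : e (RatFunc.X : RatFunc ℚ) (-1 + 4 * k) = 1 - QDefs.q⁻¹ * (QDefs.q ^ 2) ^ (2 * k) := by
      rw [ev3 nr_X]
      congr 2
      rw [← pow_mul]; congr 1; ring
    have h3 : e (RatFunc.X : RatFunc ℚ) (1 + 4 * k) = 1 - QDefs.q⁻¹ * (QDefs.q ^ 2) ^ (2 * k + 1) := by
      rw [ev8 nr_X]
      congr 1
      have hX : (RatFunc.X : RatFunc ℚ) ≠ 0 := RatFunc.X_ne_zero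
      rw [← pow_mul, eq_inv_mul_iff_mul_eq₀ hX, ← pow_succ', ← pow_succ']
      congr 1; ring
    rw [h2, h3]
    ring

lemma SS_eq (n : ℕ) : SS (RatFunc.X : RatFunc ℚ) n = (1 - RatFunc.X) * S n := by
  unfold SS S
  rw [Finset.mul_sum]
  refine Finset.sum_congr rfl fun k _ => ?_
  unfold qint QDefs.A QDefs.B
  rw [poch_neg_one, poch_four, poch_two, poch_neg_one_two]
  have h := nr_X
  have z1 : pz (RatFunc.X : RatFunc ℚ) (-1) k ≠ 0 := h.pz_ne (by intros; omega)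
  have z2 : pz (RatFunc.X : RatFunc ℚ) 4 k ≠ 0 := h.pz_ne (by intros; omega)
  have z3 : pz (RatFunc.X : RatFunc ℚ) 1 k ≠ 0 := h.pz_ne (by intros; omega)
  have z4 : (1 - RatFunc.X : RatFunc ℚ) ≠ 0 := by
    have := h.e_ne (m := 1) (by omega)
    simpa [e] using this
  unfold e
  generalize pz (RatFunc.X : RatFunc ℚ) (-1) k = a at *
  generalize pz (RatFunc.X : RatFunc ℚ) 4 k = b at *
  generalize pz (RatFunc.X : RatFunc ℚ) 1 k = c at *
  generalize pz (RatFunc.X : RatFunc ℚ) 2 k = f at *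
  field_simp

lemma vd_S {d : ℕ} (hd : 0 < d) (hodd : Odd d) (hd1 : 1 < d) (n : ℕ) (hdn : d ∣ n) (hn : 0 < n) :
    vd hd (S n) ≤ exp (-(if d % 4 = 1 then 3 else 1)) := by
  have h1 := vd_SS hd hodd hd1 n hdn hn
  rw [SS_eq, map_mul] at h1
  have h2 : vd hd (1 - RatFunc.X) = 1 := by
    have h3 := vd_e hd 1 (by norm_num)
    have h4 : ind d 1 = 0 := by
      unfold ind
      rw [if_neg]
      intro h5
      have := Int.le_of_dvd (by norm_num) h5
      omega
    rw [h4] at h3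
    simpa [e] using h3
  rwa [h2, one_mul] at h1

lemma bracket_eq (n : ℕ) (hn : 0 < n) : bracket n = ∏ d ∈ n.divisors.erase 1, cyclotomic d ℚ := by
  unfold bracket
  rw [prod_cyclotomic_eq_geom_sum hn]

/-- strong form -/
theorem strong (n : ℕ) (hn : 1 < n) (hodd : Odd n) :
    CongZero (S n) (bracket n * ∏ d ∈ (n.divisors.erase 1).filter (fun d => d % 4 = 1), cyclotomic d ℚ ^ 2) := by
  have h1 : bracket n * ∏ d ∈ (n.divisors.erase 1).filter (fun d => d % 4 = 1), cyclotomic d ℚ ^ 2 =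
      ∏ d ∈ n.divisors.erase 1, cyclotomic d ℚ ^ (if d % 4 = 1 then 3 else 1) := by
    rw [bracket_eq n (by omega), Finset.prod_filter, ← Finset.prod_mul_distrib]
    refine Finset.prod_congr rfl fun d _ => ?_
    split_ifs
    · ring
    · simp
  rw [h1]
  have hD : ∀ d ∈ n.divisors.erase 1, 0 < d := by
    intro d hd
    exact Nat.pos_of_mem_divisors (Finset.mem_of_mem_erase hd)
  refine cong_of_vals _ _ _ hD ?_ ?_
  · intro d _
    split_ifs <;> norm_num
  · intro d hd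
    have hd0 := hD d hd
    have hdn : d ∣ n := Nat.dvd_of_mem_divisors (Finset.mem_of_mem_erase hd)
    have hd1 : d ≠ 1 := Finset.ne_of_mem_erase hd
    have := vd_S hd0 (Odd.of_dvd_nat hodd hdn) (by omega) n hdn (by omega)
    refine this.trans (le_of_eq ?_)
    congr 1
    split_ifs <;> simp

lemma CongZero.of_dvd {R : RatFunc ℚ} {P Q : ℚ[X]} (h : CongZero R Q) (hPQ : P ∣ Q) : CongZero R P :=
  ⟨IsCoprime.of_isCoprime_of_dvd_right h.1 hPQ, hPQ.trans h.2⟩

theorem main : (∀ n : ℕ, 1 < n → n % 4 = 1 → CongZero (S n) (bracket n * cyclotomic n ℚ ^ 2)) ∧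
    (∀ n : ℕ, 1 < n → n % 4 = 3 → CongZero (S n) (bracket n)) ∧
    (∀ n : ℕ, 1 < n → Odd n → CongZero (S n)
      (bracket n * ∏ d ∈ (n.divisors.erase 1).filter (fun d => d % 4 = 1), cyclotomic d ℚ ^ 2)) := by
  refine ⟨fun n hn h4 => ?_, fun n hn h4 => ?_, strong⟩
  · refine CongZero.of_dvd (strong n hn (Nat.odd_iff.mpr (by omega))) ?_
    refine mul_dvd_mul_left _ ?_
    refine Finset.dvd_prod_of_mem (fun d => cyclotomic d ℚ ^ 2) ?_
    rw [Finset.mem_filter, Finset.mem_erase, Nat.mem_divisors]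
    exact ⟨⟨by omega, dvd_refl n, by omega⟩, h4⟩
  · exact CongZero.of_dvd (strong n hn (Nat.odd_iff.mpr (by omega))) (Dvd.intro _ rfl)

end Pool.Agent.H93.QC
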