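import Pool.Agent.H93.QB

/-!
Interpolation expansion of the sum.
-/

namespace Pool.Agent.H93.QC

open Finset Polynomial

variable {K : Type*} [Field K] (q : K)

/-- the factor of the numerator -/
noncomputable def fa (j : ℕ) : K[X] := C (1 + q ^ (8 * (j : ℤ) - 2)) - C (q ^ (4 * (j : ℤ) - 1)) * X

/-- the factor of the denominator -/
noncomputable def fb (j : ℕ) : K[X] := C (1 + q ^ (8 * (j : ℤ))) - C (q ^ (4 * (j : ℤ))) * X

/-- weights -/
def wt (k : ℕ) : K := e q (8 * k - 1) * pz q (-1) k ^ 3 * pz q 2 k / (pz q 4 k ^ 3 * pz q 1 k) * q ^ (8 * k)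

/-- the interpolated polynomial -/
noncomputable def PP (n : ℕ) : K[X] :=
  ∑ k ∈ range n, C (wt q k) * (∏ j ∈ range k, fa q j) * ∏ j ∈ Ico (k + 1) n, fb q j

/-- the nodes -/
def nd (M : ℕ) : K := q ^ (4 * (M : ℤ) - 1) + q ^ (1 - 4 * (M : ℤ))

/-- the sum -/
def SS (n : ℕ) : K :=
  ∑ k ∈ range n, e q (8 * k - 1) * pz q (-1) k ^ 5 * pz q 2 k / (pz q 4 k ^ 5 * pz q 1 k) * q ^ (8 * k)

variable {q}

lemma natDegree_fa (j : ℕ) : (fa q j).natDegree ≤ 1 := by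
  unfold fa
  compute_degree

lemma natDegree_fb (j : ℕ) : (fb q j).natDegree ≤ 1 := by
  unfold fb
  compute_degree

lemma degree_PP (n : ℕ) (hn : 0 < n) : (PP q n).degree < n := by
  have h1 : (PP q n).natDegree ≤ n - 1 := by
    unfold PP
    refine Polynomial.natDegree_sum_le_of_forall_le _ _ fun k hk => ?_
    rw [Finset.mem_range] at hk
    refine (Polynomial.natDegree_mul_le).trans ?_
    have h2 : (C (wt q k) * ∏ j ∈ range k, fa q j).natDegree ≤ k := by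
      refine (Polynomial.natDegree_C_mul_le _ _).trans ?_
      refine (Polynomial.natDegree_prod_le _ _).trans ?_
      refine (Finset.sum_le_card_nsmul _ _ 1 fun j _ => natDegree_fa j).trans ?_
      simp
    have h3 : (∏ j ∈ Ico (k + 1) n, fb q j).natDegree ≤ n - (k + 1) := by
      refine (Polynomial.natDegree_prod_le _ _).trans ?_
      refine (Finset.sum_le_card_nsmul _ _ 1 fun j _ => natDegree_fb j).trans ?_
      simp
    omega
  refine (Polynomial.degree_le_natDegree).trans_lt ?_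
  exact_mod_cast Nat.lt_of_le_of_lt h1 (by omega)

lemma eval_fa_nd (h : NR q) (j M : ℕ) : (fa q j).eval (nd q M) = e q (4 * M - 2 + 4 * j) * e q (-(4 * M) + 4 * j) := by
  unfold fa nd e
  simp only [eval_sub, eval_mul, eval_C, eval_X]
  have h1 : q ^ (8 * (j : ℤ) - 2) = q ^ (4 * (M : ℤ) - 2 + 4 * j) * q ^ (-(4 * (M : ℤ)) + 4 * j) := by
    rw [← zpow_add₀ h.ne]; congr 1; ring
  have h2 : q ^ (4 * (j : ℤ) - 1) * q ^ (4 * (M : ℤ) - 1) = q ^ (4 * (M : ℤ) - 2 + 4 * j) := by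
    rw [← zpow_add₀ h.ne]; congr 1; ring
  have h3 : q ^ (4 * (j : ℤ) - 1) * q ^ (1 - 4 * (M : ℤ)) = q ^ (-(4 * (M : ℤ)) + 4 * j) := by
    rw [← zpow_add₀ h.ne]; congr 1; ring
  rw [mul_add, h1, h2, h3]
  ring

lemma eval_fb_nd (h : NR q) (j M : ℕ) : (fb q j).eval (nd q M) = e q (4 * M - 1 + 4 * j) * e q (1 - 4 * M + 4 * j) := by
  unfold fb nd e
  simp only [eval_sub, eval_mul, eval_C, eval_X]
  have h1 : q ^ (8 * (j : ℤ)) = q ^ (4 * (M : ℤ) - 1 + 4 * j) * q ^ (1 - 4 * (M : ℤ) + 4 * j) := by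
    rw [← zpow_add₀ h.ne]; congr 1; ring
  have h2 : q ^ (4 * (j : ℤ)) * q ^ (4 * (M : ℤ) - 1) = q ^ (4 * (M : ℤ) - 1 + 4 * j) := by
    rw [← zpow_add₀ h.ne]; congr 1; ring
  have h3 : q ^ (4 * (j : ℤ)) * q ^ (1 - 4 * (M : ℤ)) = q ^ (1 - 4 * (M : ℤ) + 4 * j) := by
    rw [← zpow_add₀ h.ne]; congr 1; ring
  rw [mul_add, h1, h2, h3]
  ring

lemma eval_fa_two (h : NR q) (j : ℕ) : (fa q j).eval 2 = e q (-1 + 4 * j) ^ 2 := by
  unfold fa e
  simp only [eval_sub, eval_mul, eval_C, eval_X]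
  have h1 : q ^ (8 * (j : ℤ) - 2) = q ^ (-1 + 4 * (j : ℤ)) * q ^ (-1 + 4 * (j : ℤ)) := by
    rw [← zpow_add₀ h.ne]; congr 1; ring
  have h2 : q ^ (4 * (j : ℤ) - 1) = q ^ (-1 + 4 * (j : ℤ)) := by
    rw [show 4 * (j : ℤ) - 1 = -1 + 4 * (j : ℤ) by ring]
  rw [h1, h2]
  ring

lemma eval_fb_two (h : NR q) (j : ℕ) : (fb q j).eval 2 = e q (4 * j) ^ 2 := by
  unfold fb e
  simp only [eval_sub, eval_mul, eval_C, eval_X]
  have h1 : q ^ (8 * (j : ℤ)) = q ^ (4 * (j : ℤ)) * q ^ (4 * (j : ℤ)) := by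
    rw [← zpow_add₀ h.ne]; congr 1; ring
  rw [h1]
  ring

lemma prod_Ico_eq (g : ℤ → K) (a : ℤ) (k n : ℕ) (hk : k < n) :
    (∏ i ∈ range k, g (a + 4 + 4 * i)) * ∏ j ∈ Ico (k + 1) n, g (a + 4 * j) = ∏ i ∈ range (n - 1), g (a + 4 + 4 * i) := by
  have h1 : ∏ i ∈ range k, g (a + 4 + 4 * i) = ∏ j ∈ Ico 1 (k + 1), g (a + 4 * j) := by
    rw [Finset.range_eq_Ico, Finset.prod_Ico_add' (fun j : ℕ => g (a + 4 * j)) 0 k 1 |>.symm]
    · refine Finset.prod_congr (by simp) fun i _ => ?_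
      congr 1; push_cast; ring
  have h2 : ∏ i ∈ range (n - 1), g (a + 4 + 4 * i) = ∏ j ∈ Ico 1 n, g (a + 4 * j) := by
    obtain ⟨m, rfl⟩ : ∃ m, n = m + 1 := ⟨n - 1, by omega⟩
    rw [Nat.add_sub_cancel, Finset.range_eq_Ico, Finset.prod_Ico_add' (fun j : ℕ => g (a + 4 * j)) 0 m 1 |>.symm]
    · refine Finset.prod_congr (by simp) fun i _ => ?_
      congr 1; push_cast; ring
  rw [h1, h2, Finset.prod_Ico_consecutive _ (by omega) (by omega)]

/-- value at a node -/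
lemma eval_PP_nd (h : NR q) (n M : ℕ) (hM : M < n) :
    (PP q n).eval (nd q M) = (pz q (4 * M + 3) (n - 1) * pz q (5 - 4 * M) (n - 1)) * ∑ k ∈ range (M + 1), st q M k := by
  have hsum : ∑ k ∈ range (M + 1), st q M k = ∑ k ∈ range n, st q M k := by
    refine Finset.sum_subset (fun x hx => ?_) fun k hk hk' => ?_
    · rw [Finset.mem_range] at hx ⊢; omega
    · rw [Finset.mem_range] at hk'
      unfold st
      rw [B_zero_of_gt M k (by omega)]
      simp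
  rw [hsum]
  unfold PP
  rw [Polynomial.eval_finsetSum, Finset.mul_sum]
  refine Finset.sum_congr rfl fun k hk => ?_
  rw [Finset.mem_range] at hk
  simp only [eval_mul, eval_C, eval_prod]
  simp_rw [eval_fa_nd h, eval_fb_nd h]
  rw [Finset.prod_mul_distrib, Finset.prod_mul_distrib]
  have h1 := prod_Ico_eq (fun m => e q m) (4 * M - 1) k n hk
  have h2 := prod_Ico_eq (fun m => e q m) (1 - 4 * M) k n hk
  have h1' : ∏ i ∈ range k, e q (4 * M - 1 + 4 + 4 * i) = pz q (4 * M + 3) k := by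
    unfold pz; refine Finset.prod_congr rfl fun i _ => ?_; congr 1; ring
  have h2' : ∏ i ∈ range k, e q (1 - 4 * M + 4 + 4 * i) = pz q (5 - 4 * M) k := by
    unfold pz; refine Finset.prod_congr rfl fun i _ => ?_; congr 1; ring
  have h1'' : ∏ i ∈ range (n - 1), e q (4 * M - 1 + 4 + 4 * i) = pz q (4 * M + 3) (n - 1) := by
    unfold pz; refine Finset.prod_congr rfl fun i _ => ?_; congr 1; ring
  have h2'' : ∏ i ∈ range (n - 1), e q (1 - 4 * M + 4 + 4 * i) = pz q (5 - 4 * M) (n - 1) := by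
    unfold pz; refine Finset.prod_congr rfl fun i _ => ?_; congr 1; ring
  rw [h1', h1''] at h1
  rw [h2', h2''] at h2
  rw [← h1, ← h2]
  have z1 : pz q (4 * M + 3) k ≠ 0 := h.pz_ne (by intros; omega)
  have z2 : pz q (5 - 4 * M) k ≠ 0 := h.pz_ne (by intros; omega)
  unfold st wt
  rw [show ∏ i ∈ range k, e q (4 * M - 2 + 4 * i) = pz q (4 * M - 2) k from rfl,
    show ∏ i ∈ range k, e q (-(4 * M) + 4 * i) = pz q (-(4 * M)) k from rfl]
  generalize ∏ j ∈ Ico (k + 1) n, e q (4 * M - 1 + 4 * j) = u1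
  generalize ∏ j ∈ Ico (k + 1) n, e q (1 - 4 * M + 4 * j) = u2
  generalize pz q (4 * M + 3) k = x1 at *
  generalize pz q (5 - 4 * M) k = x2 at *
  clear h1 h2 h1' h2' h1'' h2''
  field_simp

/-- value at `2` -/
lemma eval_PP_two (h : NR q) (n : ℕ) : (PP q n).eval 2 = pz q 4 (n - 1) ^ 2 * SS q n := by
  unfold PP SS
  rw [Polynomial.eval_finsetSum, Finset.mul_sum]
  refine Finset.sum_congr rfl fun k hk => ?_
  rw [Finset.mem_range] at hk
  simp only [eval_mul, eval_C, eval_prod]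
  simp_rw [eval_fa_two h, eval_fb_two h]
  rw [Finset.prod_pow, Finset.prod_pow]
  have h1 := prod_Ico_eq (fun m => e q m) 0 k n hk
  have h1' : ∏ i ∈ range k, e q (0 + 4 + 4 * i) = pz q 4 k := by
    unfold pz; refine Finset.prod_congr rfl fun i _ => ?_; congr 1
  have h1'' : ∏ i ∈ range (n - 1), e q (0 + 4 + 4 * i) = pz q 4 (n - 1) := by
    unfold pz; refine Finset.prod_congr rfl fun i _ => ?_; congr 1
  rw [h1', h1''] at h1
  simp only [zero_add] at h1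
  rw [← h1]
  have z1 : pz q 4 k ≠ 0 := h.pz_ne (by intros; omega)
  unfold wt
  rw [show ∏ i ∈ range k, e q (-1 + 4 * i) = pz q (-1) k from rfl]
  generalize ∏ j ∈ Ico (k + 1) n, e q (4 * j) = u1
  generalize pz q 4 k = x1 at *
  clear h1 h1' h1''
  field_simp

lemma nd_sub (h : NR q) (M j : ℕ) : nd q M - nd q j =
    q ^ (4 * (M : ℤ) - 1) * e q (4 * j - 4 * M) * e q (2 - 4 * M - 4 * j) := by
  unfold nd e
  have h1 : q ^ (4 * (M : ℤ) - 1) * q ^ (4 * (j : ℤ) - 4 * M) = q ^ (4 * (j : ℤ) - 1) := by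
    rw [← zpow_add₀ h.ne]; congr 1; ring
  have h2 : q ^ (4 * (M : ℤ) - 1) * q ^ (2 - 4 * (M : ℤ) - 4 * j) = q ^ (1 - 4 * (j : ℤ)) := by
    rw [← zpow_add₀ h.ne]; congr 1; ring
  have h3 : q ^ (4 * (M : ℤ) - 1) * q ^ (4 * (j : ℤ) - 4 * M) * q ^ (2 - 4 * (M : ℤ) - 4 * j) = q ^ (1 - 4 * (M : ℤ)) := by
    rw [← zpow_add₀ h.ne, ← zpow_add₀ h.ne]; congr 1; ring
  linear_combination h1 + h2 - h3

lemma two_sub_nd (h : NR q) (j : ℕ) : 2 - nd q j = -q ^ (1 - 4 * (j : ℤ)) * e q (4 * j - 1) ^ 2 := by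
  unfold nd e
  have h1 : q ^ (1 - 4 * (j : ℤ)) * q ^ (4 * (j : ℤ) - 1) = 1 := by
    rw [← zpow_add₀ h.ne]; simp
  linear_combination (-2 + q ^ (4 * (j : ℤ) - 1)) * h1

/-- the expansion -/
theorem expansion (h : NR q) (n : ℕ) (hn : 0 < n) :
    SS q n = ∑ M ∈ range n, (pz q (4 * M + 3) (n - 1) * pz q (5 - 4 * M) (n - 1) / pz q 4 (n - 1) ^ 2) *
      (∑ k ∈ range (M + 1), st q M k) *
      ∏ j ∈ (range n).erase M, (-q ^ (1 - 4 * (j : ℤ)) * e q (4 * j - 1) ^ 2) /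
        (q ^ (4 * (M : ℤ) - 1) * e q (4 * j - 4 * M) * e q (2 - 4 * M - 4 * j)) := by
  have hinj : Set.InjOn (nd q) (range n : Set ℕ) := by
    intro a _ b _ hab
    by_contra hne
    have h1 := nd_sub h a b
    rw [hab, sub_self] at h1
    have h2 : e q (4 * b - 4 * a) ≠ 0 := h.e_ne (by omega)
    have h3 : e q (2 - 4 * a - 4 * b) ≠ 0 := h.e_ne (by omega)
    have h4 : q ^ (4 * (a : ℤ) - 1) ≠ 0 := zpow_ne_zero _ h.ne
    exact (mul_ne_zero (mul_ne_zero h4 h2) h3) h1.symm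
  have key := Lagrange.eq_interpolate hinj (f := PP q n) (by simpa using degree_PP n hn)
  have h2 := congrArg (Polynomial.eval 2) key
  rw [Lagrange.interpolate_apply, Polynomial.eval_finsetSum, eval_PP_two h] at h2
  have z1 : pz q 4 (n - 1) ≠ 0 := h.pz_ne (by intros; omega)
  have h3 : SS q n = (∑ M ∈ range n, eval 2 (C (eval (nd q M) (PP q n)) * Lagrange.basis (range n) (nd q) M)) / pz q 4 (n - 1) ^ 2 := by
    rw [eq_div_iff (pow_ne_zero _ z1), mul_comm]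
    exact h2
  rw [h3, Finset.sum_div]
  refine Finset.sum_congr rfl fun M hM => ?_
  rw [Finset.mem_range] at hM
  rw [eval_mul, eval_C, eval_PP_nd h n M hM]
  have h4 : eval 2 (Lagrange.basis (range n) (nd q) M) = ∏ j ∈ (range n).erase M, (-q ^ (1 - 4 * (j : ℤ)) * e q (4 * j - 1) ^ 2) /
        (q ^ (4 * (M : ℤ) - 1) * e q (4 * j - 4 * M) * e q (2 - 4 * M - 4 * j)) := by
    unfold Lagrange.basis
    rw [Polynomial.eval_prod]
    refine Finset.prod_congr rfl fun j _ => ?_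
    unfold Lagrange.basisDivisor
    simp only [eval_mul, eval_C, eval_sub, eval_X]
    rw [nd_sub h, two_sub_nd h, mul_comm, div_eq_mul_inv]
  rw [h4]
  ring

end Pool.Agent.H93.QC
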