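import Pool.Agent.H93.QL

/-!
Valuations at cyclotomic polynomials.
-/

namespace Pool.Agent.H93.QC

open Finset Polynomial IsDedekindDomain WithZero

/-- the place of `ℚ(q)` attached to the cyclotomic polynomial -/
noncomputable def pl (d : ℕ) (hd : 0 < d) : HeightOneSpectrum ℚ[X] where
  asIdeal := Ideal.span {cyclotomic d ℚ}
  isPrime := by
    rw [Ideal.span_singleton_prime (cyclotomic_ne_zero d ℚ)]
    exact (cyclotomic.irreducible_rat hd).prime
  ne_bot := by
    rw [Ne, Ideal.span_singleton_eq_bot]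
    exact cyclotomic_ne_zero d ℚ

lemma nr_X : NR (RatFunc.X : RatFunc ℚ) where
  ne := RatFunc.X_ne_zero
  nr := by
    have key : ∀ m : ℕ, 0 < m → (RatFunc.X : RatFunc ℚ) ^ m ≠ 1 := by
      intro m hm h
      rw [← RatFunc.algebraMap_X, ← map_pow, ← map_one (algebraMap ℚ[X] (RatFunc ℚ))] at h
      have h1 := RatFunc.algebraMap_injective ℚ h
      have h2 := congrArg Polynomial.natDegree h1
      rw [natDegree_X_pow, natDegree_one] at h2
      omega
    intro m hm h
    rcases lt_or_gt_of_ne hm with h1 | h1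
    · obtain ⟨k, rfl⟩ : ∃ k : ℕ, m = -k := ⟨(-m).toNat, by omega⟩
      rw [zpow_neg, inv_eq_one, zpow_natCast] at h
      exact key k (by omega) h
    · obtain ⟨k, rfl⟩ : ∃ k : ℕ, m = k := ⟨m.toNat, by omega⟩
      rw [zpow_natCast] at h
      exact key k (by omega) h

lemma not_dvd_pow_sub (d m : ℕ) (hd : 0 < d) (h : ¬ d ∣ m) : ¬ cyclotomic d ℚ ∣ X ^ m - 1 := by
  intro hdvd
  have hne : (d : ℂ) ≠ 0 := by exact_mod_cast hd.ne'
  have hprim := Complex.isPrimitiveRoot_exp d hd.ne'
  set ζ := Complex.exp (2 * Real.pi * Complex.I / d)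
  have h1 : (cyclotomic d ℂ).eval ζ = 0 := by
    have := hprim.isRoot_cyclotomic hd
    exact this
  have h2 : (cyclotomic d ℂ) ∣ X ^ m - 1 := by
    have := Polynomial.map_dvd (algebraMap ℚ ℂ) hdvd
    rwa [map_cyclotomic, Polynomial.map_sub, Polynomial.map_pow, Polynomial.map_X, Polynomial.map_one] at this
  obtain ⟨c, hc⟩ := h2
  have h3 := congrArg (Polynomial.eval ζ) hc
  rw [eval_mul, h1, zero_mul] at h3
  simp only [eval_sub, eval_pow, eval_X, eval_one] at h3
  exact h (hprim.dvd_of_pow_eq_one m (sub_eq_zero.mp h3))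

lemma not_dvd_X (d : ℕ) (hd : 0 < d) : ¬ cyclotomic d ℚ ∣ X := by
  intro h
  have h1 : cyclotomic d ℚ ∣ X ^ d := h.trans (dvd_pow_self X hd.ne')
  have h2 : cyclotomic d ℚ ∣ X ^ d - 1 := cyclotomic.dvd_X_pow_sub_one d ℚ
  have h3 : cyclotomic d ℚ ∣ 1 := by
    have := dvd_sub h1 h2
    simpa using this
  exact (cyclotomic.irreducible_rat hd).not_isUnit (isUnit_of_dvd_one h3)

variable {d : ℕ} (hd : 0 < d)

/-- the valuation -/
noncomputable abbrev vd : Valuation (RatFunc ℚ) ℤᵐ⁰ := (pl d hd).valuation (RatFunc ℚ)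

lemma vd_poly (p : ℚ[X]) : vd hd (algebraMap ℚ[X] (RatFunc ℚ) p) = (pl d hd).intValuation p :=
  HeightOneSpectrum.valuation_of_algebraMap _ _

lemma int_eq_one {p : ℚ[X]} (h : ¬ cyclotomic d ℚ ∣ p) : (pl d hd).intValuation p = 1 := by
  rw [HeightOneSpectrum.intValuation_eq_one_iff]
  intro h1
  exact h (Ideal.mem_span_singleton.mp h1)

lemma int_le {p : ℚ[X]} (k : ℕ) : (pl d hd).intValuation p ≤ exp (-(k : ℤ)) ↔ cyclotomic d ℚ ^ k ∣ p := by
  rw [HeightOneSpectrum.intValuation_le_pow_iff_mem]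
  show p ∈ (Ideal.span {cyclotomic d ℚ}) ^ k ↔ _
  rw [Ideal.span_singleton_pow, Ideal.mem_span_singleton]

lemma vd_X : vd hd RatFunc.X = 1 := by
  rw [← RatFunc.algebraMap_X, vd_poly, int_eq_one hd (not_dvd_X d hd)]

lemma vd_zpow (m : ℤ) : vd hd ((RatFunc.X : RatFunc ℚ) ^ m) = 1 := by
  rw [map_zpow₀, vd_X, one_zpow]

/-- indicator -/
def ind (d : ℕ) (m : ℤ) : ℤ := if (d : ℤ) ∣ m then 1 else 0

lemma ind_neg (m : ℤ) : ind d (-m) = ind d m := by
  unfold ind
  simp only [dvd_neg]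

lemma vd_pow_sub (m : ℕ) (hm : 0 < m) : vd hd (1 - (RatFunc.X : RatFunc ℚ) ^ m) = exp (-(ind d m)) := by
  have h1 : (1 - (RatFunc.X : RatFunc ℚ) ^ m) = algebraMap ℚ[X] (RatFunc ℚ) (-(X ^ m - 1)) := by
    rw [neg_sub, map_sub, map_one, map_pow, RatFunc.algebraMap_X]
  rw [h1, vd_poly, Valuation.map_neg]
  unfold ind
  split_ifs with h
  · have hdm : d ∣ m := by exact_mod_cast h
    have hd1 : cyclotomic d ℚ ∣ X ^ m - 1 :=
      (cyclotomic.dvd_X_pow_sub_one d ℚ).trans (by
        obtain ⟨c, rfl⟩ := hdm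
        rw [pow_mul]
        have := sub_dvd_pow_sub_pow ((X : ℚ[X]) ^ d) 1 c
        rwa [one_pow] at this)
    have hd2 : ¬ cyclotomic d ℚ ^ 2 ∣ X ^ m - 1 := by
      intro hsq
      have hsep : (X ^ m - 1 : ℚ[X]).Separable := by
        have := Polynomial.separable_X_pow_sub_C (1 : ℚ) (n := m) (by exact_mod_cast hm.ne') one_ne_zero
        simpa using this
      have hsf := hsep.squarefree
      rw [pow_two] at hsq
      exact (cyclotomic.irreducible_rat hd).not_isUnit (hsf _ hsq)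
    have a1 := (int_le hd (p := X ^ m - 1) 1).mpr (by simpa using hd1)
    have a2 : ¬ _ := fun h => hd2 ((int_le hd (p := X ^ m - 1) 2).mp h)
    have hne : (pl d hd).intValuation (X ^ m - 1 : ℚ[X]) ≠ 0 := by
      refine HeightOneSpectrum.intValuation_ne_zero _ _ ?_
      intro h0
      have h2 := congrArg Polynomial.natDegree (sub_eq_zero.mp h0)
      rw [natDegree_X_pow, natDegree_one] at h2
      omega
    obtain ⟨z, hz⟩ : ∃ z : ℤ, (pl d hd).intValuation (X ^ m - 1 : ℚ[X]) = exp z :=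
      ⟨log _, (exp_log hne).symm⟩
    rw [hz] at a1 a2 ⊢
    rw [exp_le_exp] at a1 a2
    congr 1
    push_cast at a1 a2
    omega
  · have hdm : ¬ d ∣ m := by
      intro h'
      exact h (by exact_mod_cast h')
    rw [int_eq_one hd (not_dvd_pow_sub d m hd hdm)]
    simp

lemma vd_e (m : ℤ) (hm : m ≠ 0) : vd hd (e RatFunc.X m) = exp (-(ind d m)) := by
  unfold e
  rcases lt_or_gt_of_ne hm with h1 | h1
  · obtain ⟨k, rfl⟩ : ∃ k : ℕ, m = -k := ⟨(-m).toNat, by omega⟩
    have h2 : (1 - (RatFunc.X : RatFunc ℚ) ^ (-(k : ℤ))) = -((RatFunc.X : RatFunc ℚ) ^ (-(k : ℤ)) * (1 - RatFunc.X ^ k)) := by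
      have : (RatFunc.X : RatFunc ℚ) ^ (-(k : ℤ)) * RatFunc.X ^ k = 1 := by
        rw [zpow_neg, zpow_natCast, inv_mul_cancel₀ (pow_ne_zero _ RatFunc.X_ne_zero)]
      linear_combination -this
    rw [h2, Valuation.map_neg, map_mul, vd_zpow, one_mul, vd_pow_sub hd k (by omega), ind_neg]
  · obtain ⟨k, rfl⟩ : ∃ k : ℕ, m = k := ⟨m.toNat, by omega⟩
    rw [zpow_natCast, vd_pow_sub hd k (by omega)]

lemma vd_e_le (m : ℤ) : vd hd (e RatFunc.X m) ≤ 1 := by
  by_cases hm : m = 0
  · subst hm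
    simp [e]
  · rw [vd_e hd m hm, ← exp_zero, exp_le_exp]
    unfold ind
    split_ifs <;> simp

/-- count -/
def cn (d : ℕ) (m : ℤ) (k : ℕ) : ℤ := ∑ i ∈ range k, ind d (m + 4 * i)

lemma exp_sum {ι : Type*} (s : Finset ι) (f : ι → ℤ) : ∏ i ∈ s, exp (f i) = exp (∑ i ∈ s, f i) := by
  classical
  induction s using Finset.induction_on with
  | empty => simp
  | insert a s ha ih => rw [Finset.prod_insert ha, Finset.sum_insert ha, ih, exp_add]

lemma vd_pz (m : ℤ) (k : ℕ) (hm : ∀ i : ℕ, i < k → m + 4 * i ≠ 0) : vd hd (pz RatFunc.X m k) = exp (-(cn d m k)) := by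
  unfold pz cn
  rw [map_prod, ← Finset.sum_neg_distrib, ← exp_sum]
  refine Finset.prod_congr rfl fun i hi => ?_
  exact vd_e hd _ (hm i (Finset.mem_range.mp hi))

include hd in
/-- counting with a fixed residue -/
lemma ind_iff (hodd : Odd d) (m : ℤ) : ∃ r : ℕ, ∀ i : ℕ, ((d : ℤ) ∣ m + 4 * i ↔ i ≡ r [MOD d]) := by
  have hcop : IsCoprime (4 : ℤ) (d : ℤ) := by
    have : Nat.Coprime 4 d := by
      rw [show 4 = 2 ^ 2 by norm_num]
      exact Nat.Coprime.pow_left 2 hodd.coprime_two_left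
    exact_mod_cast Nat.isCoprime_iff_coprime.mpr this
  obtain ⟨a, b, hab⟩ := hcop
  have hd0 : (0 : ℤ) < d := by exact_mod_cast hd
  refine ⟨(((-m * a) % d)).toNat, fun i => ?_⟩
  have hr : ((((-m * a) % d)).toNat : ℤ) = (-m * a) % d := Int.toNat_of_nonneg (Int.emod_nonneg _ hd0.ne')
  rw [← Int.natCast_modEq_iff, hr, Int.modEq_comm]
  have h1 : (-m * a) % d ≡ i [ZMOD d] ↔ -m * a ≡ i [ZMOD d] := by
    unfold Int.ModEq
    rw [Int.emod_emod_of_dvd _ (dvd_refl _)]
  rw [h1, Int.modEq_iff_dvd]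
  constructor
  · intro h
    have h2 : (i : ℤ) - -m * a = (m + 4 * i) * a + i * b * d := by linear_combination -(i : ℤ) * hab
    rw [h2]
    exact dvd_add (Dvd.dvd.mul_right h _) (Dvd.intro_left _ rfl)
  · intro h
    have h2 : m + 4 * (i : ℤ) = 4 * ((i : ℤ) - -m * a) + m * b * d := by linear_combination -m * hab
    rw [h2]
    exact dvd_add (Dvd.dvd.mul_left h _) (Dvd.intro_left _ rfl)

lemma cn_eq_card (m : ℤ) (k : ℕ) : cn d m k = ((range k).filter (fun i : ℕ => (d : ℤ) ∣ m + 4 * (i : ℤ))).card := by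
  unfold cn ind
  rw [Finset.sum_ite]
  simp

include hd in
lemma cn_full (hodd : Odd d) (m : ℤ) (n : ℕ) (hdn : d ∣ n) : cn d m n = n / d := by
  obtain ⟨r, hr⟩ := ind_iff hd hodd m
  rw [cn_eq_card]
  simp_rw [hr]
  rw [← Nat.count_eq_card_filter_range, Nat.count_modEq_card n hd r]
  have : n % d = 0 := Nat.mod_eq_zero_of_dvd hdn
  rw [this]
  simp

include hd in
lemma cn_four (hodd : Odd d) (k : ℕ) : cn d 4 k = k / d := by
  rw [cn_eq_card]
  have hr : ∀ i : ℕ, ((d : ℤ) ∣ 4 + 4 * i ↔ i ≡ d - 1 [MOD d]) := by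
    intro i
    have hcop : Nat.Coprime d 4 := by
      rw [show 4 = 2 ^ 2 by norm_num]
      exact (Nat.Coprime.pow_left 2 hodd.coprime_two_left).symm
    have h1 : (d : ℤ) ∣ 4 + 4 * i ↔ d ∣ (i + 1) := by
      rw [show (4 : ℤ) + 4 * i = ((4 * (i + 1) : ℕ) : ℤ) by push_cast; ring, Int.natCast_dvd_natCast]
      exact ⟨fun h => hcop.dvd_of_dvd_mul_left h, fun h => Dvd.dvd.mul_left h _⟩
    rw [h1, ← Nat.modEq_zero_iff_dvd]
    constructor
    · intro h
      apply Nat.ModEq.add_right_cancel' 1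
      rw [Nat.sub_add_cancel hd]
      exact h.trans (by unfold Nat.ModEq; simp)
    · intro h
      have := Nat.ModEq.add_right 1 h
      rw [Nat.sub_add_cancel hd] at this
      exact this.trans (by unfold Nat.ModEq; simp)
  simp_rw [hr]
  rw [← Nat.count_eq_card_filter_range, Nat.count_modEq_card k hd]
  have : ¬ ((d - 1) % d < k % d) := by
    have h1 := Nat.mod_lt k hd
    have h2 : (d - 1) % d = d - 1 := Nat.mod_eq_of_lt (by omega)
    omega
  rw [if_neg this]
  simp

include hd in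
lemma le_cn_two (hodd : Odd d) (k T : ℕ) (h : T * d < k + (d + 1) / 2) (hd1 : 1 < d) : (T : ℤ) ≤ cn d 2 k := by
  rw [cn_eq_card]
  have hd2 := Nat.odd_iff.mp hodd
  have : T = #(range T) := by simp
  rw [this]
  norm_cast
  refine Finset.card_le_card_of_injOn (fun t => (t + 1) * d - (d + 1) / 2) ?_ ?_
  · intro t ht
    simp only [Finset.coe_range, Set.mem_Iio] at ht
    simp only [Finset.coe_filter, Finset.mem_range, Set.mem_ofPred_eq]
    have h1 : (t + 1) * d ≤ T * d := Nat.mul_le_mul_right _ (by omega)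
    have h2 : d ≤ (t + 1) * d := Nat.le_mul_of_pos_left _ (by omega)
    have h0 : (d + 1) / 2 ≤ d := by omega
    refine ⟨?_, ?_⟩
    · show (t + 1) * d - (d + 1) / 2 < k
      omega
    · refine ⟨4 * t + 2, ?_⟩
      have e1 : d * (4 * t + 2) + 2 * d = 4 * ((t + 1) * d) := by ring
      omega
  · intro a _ b _ hab
    have hab : (a + 1) * d - (d + 1) / 2 = (b + 1) * d - (d + 1) / 2 := hab
    have h1 : d ≤ (a + 1) * d := Nat.le_mul_of_pos_left _ (by omega)
    have h2 : d ≤ (b + 1) * d := Nat.le_mul_of_pos_left _ (by omega)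
    have h0 : (d + 1) / 2 ≤ d := by omega
    have h3 : (a + 1) * d = (b + 1) * d := by omega
    have h4 := Nat.eq_of_mul_eq_mul_right hd h3
    omega

/-- the valuation of the second terminating sum -/
lemma vd_F (hodd : Odd d) (hd1 : 1 < d) (M : ℕ) :
    vd hd (∑ k ∈ range (M + 1), st (RatFunc.X : RatFunc ℚ) M k) ≤
      exp (-(if d % 4 = 1 then 3 * ind d (4 * M - 1) else ind d (4 * M - 1))) := by
  rcases Nat.eq_zero_or_pos M with rfl | hM
  · have h1 : ∑ k ∈ range (0 + 1), st (RatFunc.X : RatFunc ℚ) 0 k = e RatFunc.X (-1) := by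
      simp [st, pz_zero]
    have h2 : ind d (4 * ((0 : ℕ) : ℤ) - 1) = 0 := by
      unfold ind
      rw [if_neg]
      intro h3
      have := Int.le_of_dvd (by norm_num) ((Int.dvd_neg.mpr h3))
      simp at this
      omega
    rw [h1, h2, vd_e hd _ (by norm_num)]
    have h3 : ind d (-1) = 0 := by
      rw [← h2]; simp
    rw [h3]
    simp
  · obtain ⟨N, rfl⟩ : ∃ N, M = N + 1 := ⟨M - 1, by omega⟩
    rw [show N + 1 + 1 = N + 2 by ring, st_sum nr_X N]
    unfold Fc
    rw [map_mul, map_div₀, map_mul, map_pow, map_pow, vd_e hd _ (by omega), vd_pz hd _ _ (by intros; omega),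
      vd_pz hd _ _ (by intros; omega)]
    have hbr : vd hd (e (RatFunc.X : RatFunc ℚ) (4 * N + 2) ^ 2 - (1 + RatFunc.X⁻¹) * e RatFunc.X (4 * N + 4) * e RatFunc.X (4 * N + 1)) ≤ 1 := by
      refine (vd hd).map_sub_le ?_ ?_
      · rw [map_pow]
        exact pow_le_one' (vd_e_le hd _) _
      · rw [map_mul, map_mul]
        refine mul_le_one' (mul_le_one' ?_ (vd_e_le hd _)) (vd_e_le hd _)
        refine (vd hd).map_add_le (by simp) ?_
        rw [map_inv₀, vd_X, inv_one]
    refine (mul_le_mul' le_rfl hbr).trans ?_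
    rw [mul_one, ← exp_nsmul, ← exp_nsmul, ← exp_add, ← exp_sub, exp_le_exp, cn_four hd hodd]
    have hd2 := Nat.odd_iff.mp hodd
    have hm := Nat.div_add_mod (N + 1) d
    have hm2 := Nat.mod_lt (N + 1) hd
    have b1 : (((N + 1) / d : ℕ) : ℤ) ≤ cn d 2 N := by
      refine le_cn_two hd hodd N _ ?_ hd1
      rw [mul_comm]
      omega
    have i1 : ind d (4 * ((N + 1 : ℕ) : ℤ) - 1) = ind d (4 * N + 3) := by
      congr 1; push_cast; ring
    rw [i1]
    have i2 : ind d (4 * N + 3) = 0 ∨ (ind d (4 * N + 3) = 1 ∧ (d : ℤ) ∣ 4 * N + 3) := by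
      unfold ind
      split_ifs with h
      · exact Or.inr ⟨rfl, h⟩
      · exact Or.inl rfl
    rcases i2 with h0 | ⟨h0, hdv⟩
    · rw [h0]
      simp only [smul_eq_mul, mul_zero, ite_self, nsmul_eq_mul]
      push_cast at b1 ⊢
      linarith
    · rw [h0]
      simp only [smul_eq_mul, mul_one, nsmul_eq_mul]
      split_ifs with h4
      · -- the case `d ≡ 1 mod 4`
        have b2 : (((N + 1) / d + 1 : ℕ) : ℤ) ≤ cn d 2 N := by
          refine le_cn_two hd hodd N _ ?_ hd1
          set T := (N + 1) / d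
          set r := (N + 1) % d
          have hN : (4 * (N : ℤ) + 3) = 4 * (d * T) + (4 * r - 1) := by
            have : ((d * T + r : ℕ) : ℤ) = N + 1 := by exact_mod_cast hm
            push_cast at this
            linarith
          have hdv2 : (d : ℤ) ∣ 4 * r - 1 := by
            rw [hN] at hdv
            have h6 : (d : ℤ) ∣ 4 * (d * T) := ⟨4 * T, by ring⟩
            exact (dvd_add_right h6).mp hdv
          obtain ⟨c, hc⟩ := hdv2
          have hrd : (r : ℤ) < d := by exact_mod_cast hm2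
          have hd1' : (1 : ℤ) < d := by exact_mod_cast hd1
          have hr0 : (0 : ℤ) ≤ r := by positivity
          have hc4 : c < 4 := by
            by_contra hcon
            have h7 : (4 : ℤ) ≤ c := by omega
            nlinarith
          have hc0 : 0 < c := by
            by_contra hcon
            have h7 : c ≤ 0 := by omega
            have h8 : (d : ℤ) * c ≤ 0 := by nlinarith
            have h9 : (r : ℤ) = 0 := by omega
            rw [h9] at hc
            have h10 : c = 0 ∨ c ≤ -1 := by omega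
            rcases h10 with h10 | h10
            · rw [h10] at hc; omega
            · nlinarith
          have hc3 : c = 3 := by
            have h7 : c = 1 ∨ c = 2 ∨ c = 3 := by omega
            rcases h7 with h7 | h7 | h7
            · subst h7; omega
            · subst h7; omega
            · exact h7
          subst hc3
          have h11 : (T + 1) * d = d * T + d := by ring
          rw [h11]
          omega
        push_cast at b2 ⊢
        linarith
      · push_cast at b1 ⊢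
        linarith

end Pool.Agent.H93.QC
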