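import Mathlib

/-!
Energy of the triangular weight on an interval: the renewal sequence and its limit.
-/

namespace Pool.Agent.H93.SD

open Finset

lemma sum_id (n : ℕ) : ∑ i ∈ range n, (i : ℝ) = (n : ℝ) * (n - 1) / 2 := by
  induction n with
  | zero => simp
  | succ n ih =>
    rw [Finset.sum_range_succ, ih]
    push_cast
    ring

lemma sum_sq (n : ℕ) : ∑ i ∈ range n, ((n : ℝ) - i) ^ 2 = (n : ℝ) * (n + 1) * (2 * n + 1) / 6 := by
  induction n with
  | zero => simp
  | succ n ih =>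
    rw [Finset.sum_range_succ']
    have : ∀ i ∈ range n, (((n + 1 : ℕ) : ℝ) - ((i + 1 : ℕ) : ℝ)) ^ 2 = ((n : ℝ) - i) ^ 2 := by
      intro i _
      push_cast
      ring
    rw [Finset.sum_congr rfl this, ih]
    push_cast
    ring

lemma sum_mul_id (n : ℕ) : ∑ i ∈ range n, (i : ℝ) * ((n : ℝ) - i) = ((n : ℝ) - 1) * n * (n + 1) / 6 := by
  have h1 : ∀ m : ℕ, ∀ c : ℝ, ∑ i ∈ range m, (i : ℝ) * (c - i) = c * ((m : ℝ) * (m - 1) / 2) - ((m : ℝ) - 1) * m * (2 * m - 1) / 6 := by
    intro m c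
    induction m with
    | zero => simp
    | succ m ih =>
      rw [Finset.sum_range_succ, ih]
      push_cast
      ring
  rw [h1]
  ring

variable (u : ℕ)

/-- the triangular weight -/
noncomputable def f (i : ℤ) : ℝ := if 0 ≤ i ∧ i < u then (u : ℝ) - i else 0

/-- total weight -/
noncomputable def S : ℝ := (u : ℝ) * (u + 1) / 2

lemma f_nonneg (i : ℤ) : 0 ≤ f u i := by
  unfold f
  split_ifs with h
  · have : (i : ℝ) < u := by exact_mod_cast h.2
    linarith
  · exact le_rfl

lemma f_neg (i : ℤ) (h : i < 0) : f u i = 0 := by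
  unfold f
  rw [if_neg]
  omega

lemma f_big (i : ℤ) (h : (u : ℤ) ≤ i) : f u i = 0 := by
  unfold f
  rw [if_neg]
  omega

lemma f_nat (i : ℕ) (h : i < u) : f u i = (u : ℝ) - i := by
  unfold f
  rw [if_pos]
  · simp
  · omega

lemma sum_range_ext (g : ℤ → ℝ) (L : ℕ) (hL : u ≤ L) (hg : ∀ i : ℕ, u ≤ i → g i = 0) :
    ∑ i ∈ range L, g i = ∑ i ∈ range u, g i := by
  symm
  refine Finset.sum_subset (fun x hx => ?_) fun x _ hx => ?_
  · rw [Finset.mem_range] at hx ⊢; omega
  · rw [Finset.mem_range] at hx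
    exact hg x (by omega)

lemma sum_f : ∑ i ∈ range u, f u i = S u := by
  have h2 : ∑ i ∈ range u, f u i = ∑ i ∈ range u, ((u : ℝ) - i) :=
    Finset.sum_congr rfl fun i hi => f_nat u i (Finset.mem_range.mp hi)
  rw [h2, Finset.sum_sub_distrib, Finset.sum_const, card_range, sum_id]
  unfold S
  simp
  ring

/-- the autocorrelation -/
noncomputable def G (d : ℤ) : ℝ := ∑ i ∈ range u, f u i * f u (i + d)

lemma G_nonneg (d : ℤ) : 0 ≤ G u d := Finset.sum_nonneg fun i _ => mul_nonneg (f_nonneg u _) (f_nonneg u _)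

lemma G_zero : G u 0 = (u : ℝ) * (u + 1) * (2 * u + 1) / 6 := by
  rw [← sum_sq]
  unfold G
  refine Finset.sum_congr rfl fun i hi => ?_
  rw [add_zero, f_nat u i (Finset.mem_range.mp hi)]
  ring

/-- correlation of two translates -/
lemma corr (a L : ℕ) (b : ℤ) (hL : a + u ≤ L) : ∑ y ∈ range L, f u (y - a) * f u (y - b) = G u (a - b) := by
  have h1 : ∑ y ∈ range L, f u (y - a) * f u (y - b) = ∑ y ∈ Ico a (a + u), f u (y - a) * f u (y - b) := by
    symm
    refine Finset.sum_subset (fun x hx => ?_) fun x hx1 hx => ?_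
    · rw [Finset.mem_Ico] at hx
      rw [Finset.mem_range]; omega
    · rw [Finset.mem_Ico] at hx
      rcases lt_or_ge x a with h | h
      · rw [f_neg u _ (by omega), zero_mul]
      · rw [f_big u _ (by omega), zero_mul]
  rw [h1, Finset.sum_Ico_eq_sum_range]
  unfold G
  rw [Nat.add_sub_cancel_left]
  refine Finset.sum_congr rfl fun i _ => ?_
  congr 2 <;> push_cast <;> ring

lemma G_symm (d : ℕ) : G u (-d) = G u d := by
  have h1 := corr u 0 (d + u) d (by omega)
  have h2 := corr u d (d + u) 0 (by omega)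
  rw [show ((0 : ℕ) : ℤ) - (d : ℤ) = -d by simp] at h1
  rw [sub_zero] at h2
  rw [← h1, ← h2]
  refine Finset.sum_congr rfl fun y _ => ?_
  rw [mul_comm]
  simp

lemma G_even (d : ℤ) : G u (-d) = G u d := by
  rcases le_total 0 d with h | h
  · obtain ⟨m, rfl⟩ := Int.eq_ofNat_of_zero_le h
    exact G_symm u m
  · obtain ⟨m, hm⟩ := Int.eq_ofNat_of_zero_le (show 0 ≤ -d by omega)
    have : d = -(m : ℤ) := by omega
    rw [this, neg_neg]
    exact (G_symm u m).symm

/-- the weight summed over distinct integers is at most `S` -/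
lemma sum_f_le (D : Finset ℤ) : ∑ d ∈ D, f u d ≤ S u := by
  rw [← sum_f]
  have h1 : ∑ d ∈ D, f u d = ∑ d ∈ D.filter (fun d : ℤ => 0 ≤ d ∧ d < (u : ℤ)), f u d := by
    symm
    refine Finset.sum_subset (Finset.filter_subset _ _) fun x hx hx' => ?_
    rw [Finset.mem_filter] at hx'
    unfold f
    rw [if_neg]
    tauto
  rw [h1]
  have h2 : ∑ i ∈ range u, f u i = ∑ d ∈ (range u).map Nat.castEmbedding, f u d := by
    rw [Finset.sum_map]
    simp
  rw [h2]
  refine Finset.sum_le_sum_of_subset_of_nonneg (fun x hx => ?_) fun x _ _ => f_nonneg u x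
  rw [Finset.mem_filter] at hx
  rw [Finset.mem_map]
  refine ⟨x.toNat, ?_, ?_⟩
  · rw [Finset.mem_range]; omega
  · simp; omega

/-- the correlations summed over distinct integers are at most `S²` -/
lemma sum_G_le (D : Finset ℤ) : ∑ d ∈ D, G u d ≤ S u ^ 2 := by
  unfold G
  rw [Finset.sum_comm]
  simp_rw [← Finset.mul_sum]
  have h1 : ∀ i ∈ range u, f u i * ∑ d ∈ D, f u (i + d) ≤ f u i * S u := by
    intro i _
    refine mul_le_mul_of_nonneg_left ?_ (f_nonneg u _)
    have h2 : ∑ d ∈ D, f u (i + d) = ∑ d ∈ D.map (addLeftEmbedding (i : ℤ)), f u d := by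
      rw [Finset.sum_map]
      simp
    rw [h2]
    exact sum_f_le u _
  refine (Finset.sum_le_sum h1).trans ?_
  rw [← Finset.sum_mul, sum_f, pow_two]

end Pool.Agent.H93.SD
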