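import Pool.Agent.H93.SidA

/-!
The renewal sequence.
-/

namespace Pool.Agent.H93.SD

open Finset

variable (u : ℕ)

/-- the weight as a power series -/
noncomputable def fps : PowerSeries ℝ := PowerSeries.mk fun j => f u j

/-- the renewal sequence as a power series -/
noncomputable def rps : PowerSeries ℝ := (PowerSeries.mk fun _ => S u) * (fps u)⁻¹

/-- the renewal sequence -/
noncomputable def rho (x : ℕ) : ℝ := PowerSeries.coeff x (rps u)

lemma rps_mul (hu : 0 < u) : rps u * fps u = PowerSeries.mk fun _ => S u := by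
  unfold rps
  rw [mul_assoc, PowerSeries.inv_mul_cancel, mul_one]
  unfold fps
  rw [← PowerSeries.coeff_zero_eq_constantCoeff_apply, PowerSeries.coeff_mk]
  have := f_nat u 0 hu
  rw [this]
  simp
  omega

/-- the convolution identity -/
lemma W_eq (hu : 0 < u) (x Z : ℕ) (hZ : x < Z) : ∑ z ∈ range Z, rho u z * f u ((x : ℤ) - z) = S u := by
  have h1 := congrArg (PowerSeries.coeff x) (rps_mul u hu)
  rw [PowerSeries.coeff_mk, PowerSeries.coeff_mul, Finset.Nat.sum_antidiagonal_eq_sum_range_succ_mk] at h1
  rw [← h1]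
  symm
  have h2 : ∑ z ∈ range Z, rho u z * f u ((x : ℤ) - z) = ∑ z ∈ range (x + 1), rho u z * f u ((x : ℤ) - z) := by
    symm
    refine Finset.sum_subset (fun y hy => ?_) fun y _ hy => ?_
    · rw [Finset.mem_range] at hy ⊢; omega
    · rw [Finset.mem_range] at hy
      rw [f_neg u _ (by omega), mul_zero]
  rw [h2]
  refine Finset.sum_congr rfl fun k hk => ?_
  rw [Finset.mem_range] at hk
  simp only
  unfold rho fps
  rw [PowerSeries.coeff_mk]
  congr 2
  omega

lemma rho_zero (hu : 0 < u) : rho u 0 = ((u : ℝ) + 1) / 2 := by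
  have h := W_eq u hu 0 1 (by norm_num)
  have hu' : (0 : ℝ) < u := by exact_mod_cast hu
  have h0 := f_nat u 0 hu
  simp only [Finset.range_one, Finset.sum_singleton, Nat.cast_zero, sub_zero] at h h0
  rw [h0] at h
  unfold S at h
  have : rho u 0 * u = ((u : ℝ) + 1) / 2 * u := by linarith
  exact mul_right_cancel₀ hu'.ne' this

/-- difference of consecutive weights -/
lemma f_diff (hu : 0 < u) (i : ℤ) : f u i - f u (i - 1) = (if i = 0 then (u : ℝ) else 0) -
    (if 0 < i ∧ i ≤ u then 1 else 0) := by
  unfold f
  by_cases h0 : i < 0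
  · rw [if_neg (by omega), if_neg (by omega), if_neg (by omega), if_neg (by omega)]
  · by_cases h1 : i = 0
    · subst h1
      rw [if_pos (by omega), if_neg (by omega), if_pos rfl, if_neg (by omega)]
      simp
    · by_cases h2 : i < u
      · rw [if_pos (by omega), if_pos (by omega), if_neg h1, if_pos (by omega)]
        push_cast
        ring
      · by_cases h3 : i = u
        · subst h3
          rw [if_neg (by omega), if_pos (by omega), if_neg h1, if_pos (by omega)]
          push_cast
          ring
        · rw [if_neg (by omega), if_neg (by omega), if_neg h1, if_neg (by omega)]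

/-- averaging -/
lemma rho_avg (hu : 0 < u) (x : ℕ) (hx : 0 < x) :
    (u : ℝ) * rho u x = ∑ z ∈ range x, if x ≤ z + u then rho u z else 0 := by
  have h1 := W_eq u hu x (x + 1) (by omega)
  have h2 := W_eq u hu (x - 1) (x + 1) (by omega)
  have h3 : ∑ z ∈ range (x + 1), rho u z * (f u ((x : ℤ) - z) - f u ((x : ℤ) - z - 1)) = 0 := by
    simp_rw [mul_sub]
    rw [Finset.sum_sub_distrib, h1]
    have : ∑ z ∈ range (x + 1), rho u z * f u ((x : ℤ) - z - 1) = S u := by
      rw [← h2]
      refine Finset.sum_congr rfl fun z _ => ?_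
      congr 2
      omega
    rw [this, sub_self]
  simp_rw [f_diff u hu] at h3
  rw [Finset.sum_range_succ] at h3
  have h4 : rho u x * ((if ((x : ℤ) - (x : ℤ) = 0) then (u : ℝ) else 0) - (if 0 < ((x : ℤ) - (x : ℤ)) ∧ ((x : ℤ) - (x : ℤ)) ≤ u then 1 else 0)) = u * rho u x := by
    simp
    ring
  rw [h4] at h3
  have h5 : ∑ z ∈ range x, rho u z * ((if ((x : ℤ) - (z : ℤ) = 0) then (u : ℝ) else 0) - (if 0 < ((x : ℤ) - (z : ℤ)) ∧ ((x : ℤ) - (z : ℤ)) ≤ u then 1 else 0)) =
      -∑ z ∈ range x, if x ≤ z + u then rho u z else 0 := by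
    rw [← Finset.sum_neg_distrib]
    refine Finset.sum_congr rfl fun z hz => ?_
    rw [Finset.mem_range] at hz
    rw [if_neg (by omega)]
    by_cases h : x ≤ z + u
    · rw [if_pos (by omega), if_pos h]; ring
    · rw [if_neg (by omega), if_neg h]; ring
  rw [h5] at h3
  linarith

lemma rho_nonneg (hu : 0 < u) (x : ℕ) : 0 ≤ rho u x := by
  induction x using Nat.strong_induction_on with
  | _ x ih =>
    have hu' : (0 : ℝ) < u := by exact_mod_cast hu
    rcases Nat.eq_zero_or_pos x with rfl | hx
    · rw [rho_zero u hu]; positivity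
    · have h := rho_avg u hu x hx
      have h2 : 0 ≤ (u : ℝ) * rho u x := by
        rw [h]
        refine Finset.sum_nonneg fun z hz => ?_
        split_ifs
        · exact ih z (Finset.mem_range.mp hz)
        · exact le_rfl
      exact nonneg_of_mul_nonneg_right h2 hu'

/-- the first block -/
lemma rho_small (hu : 0 < u) (x : ℕ) (hx : 0 < x) (hxu : x ≤ u) : rho u x = (1 + 1 / (u : ℝ)) ^ x / 2 := by
  have hu' : (0 : ℝ) < u := by exact_mod_cast hu
  have key : ∀ x : ℕ, 0 < x → x ≤ u → ∑ z ∈ range x, rho u z = (u : ℝ) * ((1 + 1 / (u : ℝ)) ^ x / 2) := by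
    intro x hx
    induction x, hx using Nat.le_induction with
    | base =>
      intro _
      simp [rho_zero u hu]
      field_simp
    | succ x hx ih =>
      intro hxu
      have ih' := ih (by omega)
      rw [Finset.sum_range_succ]
      have h := rho_avg u hu x (by omega)
      have h2 : ∑ z ∈ range x, (if x ≤ z + u then rho u z else 0) = ∑ z ∈ range x, rho u z :=
        Finset.sum_congr rfl fun z _ => by rw [if_pos (by omega)]
      rw [h2] at h
      have h3 : rho u x = (∑ z ∈ range x, rho u z) / u := by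
        rw [← h]; field_simp
      rw [h3, ih', pow_succ]
      field_simp
  have h := rho_avg u hu x hx
  have h2 : ∑ z ∈ range x, (if x ≤ z + u then rho u z else 0) = ∑ z ∈ range x, rho u z :=
    Finset.sum_congr rfl fun z _ => by rw [if_pos (by omega)]
  rw [h2, key x hx hxu] at h
  exact mul_left_cancel₀ hu'.ne' h

lemma rho_first (hu : 0 < u) (x : ℕ) (hx : 0 < x) (hxu : x ≤ u) : |rho u x - 1| ≤ 1 := by
  have hu' : (0 : ℝ) < u := by exact_mod_cast hu
  have h0 := rho_nonneg u hu x
  rw [abs_le]
  constructor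
  · linarith
  · rw [rho_small u hu x hx hxu]
    have h00 : 0 ≤ 1 / (u : ℝ) := by positivity
    have h1 : (1 + 1 / (u : ℝ)) ^ x ≤ (1 + 1 / (u : ℝ)) ^ u := pow_le_pow_right₀ (by linarith) hxu
    have h2 : (1 + 1 / (u : ℝ)) ^ u ≤ Real.exp 1 := by
      have h3 : 1 + 1 / (u : ℝ) ≤ Real.exp (1 / u) := by
        have := Real.add_one_le_exp (1 / (u : ℝ))
        linarith
      calc (1 + 1 / (u : ℝ)) ^ u ≤ (Real.exp (1 / u)) ^ u := pow_le_pow_left₀ (by positivity) h3 u
        _ = Real.exp 1 := by
          rw [← Real.exp_nat_mul]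
          congr 1
          field_simp
    have h3 := Real.exp_one_lt_d9
    linarith

/-- one step of contraction -/
lemma step (hu : 0 < u) (x : ℕ) (hx : u < x) (E : ℝ) (hE : 0 ≤ E)
    (h : ∀ z : ℕ, z < x → x ≤ z + u → |rho u z - 1| ≤ E) : |rho u x - 1| ≤ E / 2 := by
  have hu' : (0 : ℝ) < u := by exact_mod_cast hu
  have h1 := rho_avg u hu x (by omega)
  have h2 := W_eq u hu (x - 1) x (by omega)
  -- rewrite both as sums over the window
  have h3 : (u : ℝ) * (rho u x - 1) = ∑ z ∈ range x, if x ≤ z + u then (rho u z - 1) else 0 := by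
    have h4 : ∑ z ∈ range x, (if x ≤ z + u then (1 : ℝ) else 0) = u := by
      rw [← Finset.sum_filter, Finset.sum_const, nsmul_eq_mul, mul_one]
      have : (range x).filter (fun z => x ≤ z + u) = Ico (x - u) x := by
        ext z
        simp only [Finset.mem_filter, Finset.mem_range, Finset.mem_Ico]
        omega
      rw [this, Nat.card_Ico]
      congr 1
      omega
    have h5 : ∑ z ∈ range x, (if x ≤ z + u then (rho u z - 1) else 0) =
        ∑ z ∈ range x, (if x ≤ z + u then rho u z else 0) - ∑ z ∈ range x, (if x ≤ z + u then (1 : ℝ) else 0) := by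
      rw [← Finset.sum_sub_distrib]
      refine Finset.sum_congr rfl fun z _ => ?_
      split_ifs <;> ring
    rw [h5, h4, ← h1]
    ring
  have h6 : ∑ z ∈ range x, (rho u z - 1) * f u (((x - 1 : ℕ) : ℤ) - z) = 0 := by
    have h7 : ∑ z ∈ range x, f u (((x - 1 : ℕ) : ℤ) - z) = S u := by
      rw [← Finset.sum_range_reflect]
      have : ∑ j ∈ range x, f u (((x - 1 : ℕ) : ℤ) - ((x - 1 - j : ℕ) : ℤ)) = ∑ j ∈ range x, f u j := by
        refine Finset.sum_congr rfl fun j hj => ?_
        rw [Finset.mem_range] at hj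
        congr 1
        omega
      rw [this, sum_range_ext u (f u) x hx.le (fun i hi => f_big u i (by exact_mod_cast hi)), sum_f]
    simp_rw [sub_mul, one_mul]
    rw [Finset.sum_sub_distrib, h2, h7, sub_self]
  -- bounds
  have h8 : ∀ s : ℝ, (s = 1 ∨ s = -1) → (u : ℝ) * (s * (rho u x - 1)) ≤ u * (E / 2) := by
    intro s hs
    have h9 : (u : ℝ) * (E - s * (rho u x - 1)) = ∑ z ∈ range x, if x ≤ z + u then (E - s * (rho u z - 1)) else 0 := by
      have h4 : ∑ z ∈ range x, (if x ≤ z + u then E else 0) = u * E := by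
        rw [← Finset.sum_filter, Finset.sum_const, nsmul_eq_mul]
        have : (range x).filter (fun z => x ≤ z + u) = Ico (x - u) x := by
          ext z
          simp only [Finset.mem_filter, Finset.mem_range, Finset.mem_Ico]
          omega
        rw [this, Nat.card_Ico]
        congr 2
        omega
      have h5 : ∑ z ∈ range x, (if x ≤ z + u then (E - s * (rho u z - 1)) else 0) =
          ∑ z ∈ range x, (if x ≤ z + u then E else 0) - s * ∑ z ∈ range x, (if x ≤ z + u then (rho u z - 1) else 0) := by
        rw [Finset.mul_sum, ← Finset.sum_sub_distrib]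
        refine Finset.sum_congr rfl fun z _ => ?_
        split_ifs <;> ring
      rw [h5, h4, ← h3]
      ring
    have h10 : ∑ z ∈ range x, (E - s * (rho u z - 1)) * (f u (((x - 1 : ℕ) : ℤ) - z) / u) ≤
        ∑ z ∈ range x, if x ≤ z + u then (E - s * (rho u z - 1)) else 0 := by
      refine Finset.sum_le_sum fun z hz => ?_
      rw [Finset.mem_range] at hz
      split_ifs with hzu
      · have h11 := h z hz hzu
        have h12 : 0 ≤ E - s * (rho u z - 1) := by
          rw [abs_le] at h11
          rcases hs with rfl | rfl <;> linarith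
        have h13 : f u (((x - 1 : ℕ) : ℤ) - z) / u ≤ 1 := by
          rw [div_le_one hu']
          have : (((x - 1 : ℕ) : ℤ) - z) = ((x - 1 - z : ℕ) : ℤ) := by omega
          rw [this, f_nat u _ (by omega)]
          have : (0 : ℝ) ≤ ((x - 1 - z : ℕ) : ℝ) := by positivity
          linarith
        calc _ ≤ (E - s * (rho u z - 1)) * 1 := mul_le_mul_of_nonneg_left h13 h12
          _ = _ := mul_one _
      · rw [f_big u _ (by omega)]
        simp
    have h14 : ∑ z ∈ range x, (E - s * (rho u z - 1)) * (f u (((x - 1 : ℕ) : ℤ) - z) / u) = E * S u / u := by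
      have h7 : ∑ z ∈ range x, f u (((x - 1 : ℕ) : ℤ) - z) = S u := by
        rw [← Finset.sum_range_reflect]
        have : ∑ j ∈ range x, f u (((x - 1 : ℕ) : ℤ) - ((x - 1 - j : ℕ) : ℤ)) = ∑ j ∈ range x, f u j := by
          refine Finset.sum_congr rfl fun j hj => ?_
          rw [Finset.mem_range] at hj
          congr 1
          omega
        rw [this, sum_range_ext u (f u) x hx.le (fun i hi => f_big u i (by exact_mod_cast hi)), sum_f]
      have : ∑ z ∈ range x, (E - s * (rho u z - 1)) * (f u (((x - 1 : ℕ) : ℤ) - z) / u) =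
          (E * ∑ z ∈ range x, f u (((x - 1 : ℕ) : ℤ) - z) - s * ∑ z ∈ range x, (rho u z - 1) * f u (((x - 1 : ℕ) : ℤ) - z)) / u := by
        rw [Finset.mul_sum, Finset.mul_sum, ← Finset.sum_sub_distrib, Finset.sum_div]
        refine Finset.sum_congr rfl fun z _ => ?_
        ring
      rw [this, h7, h6]
      ring
    rw [← h9, h14] at h10
    have h15 : E * S u / u = E * ((u : ℝ) + 1) / 2 := by
      unfold S
      field_simp
    rw [h15] at h10
    nlinarith
  rw [abs_le]
  constructor
  · have := h8 (-1) (Or.inr rfl)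
    have := le_of_mul_le_mul_left this hu'
    linarith
  · have := h8 1 (Or.inl rfl)
    have := le_of_mul_le_mul_left this hu'
    linarith

/-- exponential convergence -/
lemma rho_conv (hu : 0 < u) (t x : ℕ) (hx : t * u < x) : |rho u x - 1| ≤ (1 / 2 : ℝ) ^ t := by
  induction t generalizing x with
  | zero =>
    rw [pow_zero]
    induction x using Nat.strong_induction_on with
    | _ x ih =>
      rcases le_or_gt x u with h | h
      · exact rho_first u hu x (by omega) h
      · have := step u hu x h 1 zero_le_one fun z hz hz2 => ih z hz (by omega)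
        linarith
  | succ t ih =>
    have h1 : (t + 1) * u = t * u + u := by ring
    have := step u hu x (by omega) ((1 / 2) ^ t) (by positivity) fun z hz hz2 => ih z (by omega)
    rw [pow_succ]
    linarith

end Pool.Agent.H93.SD
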