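import Pool.Agent.H93.SidB

/-!
The dual weight and the energy bound for Sidon sets.
-/

namespace Pool.Agent.H93.SD

open Finset

variable (u : ℕ)

/-- the dual weight -/
noncomputable def w (n : ℕ) (y : ℤ) : ℝ := ∑ z ∈ range (n + u), rho u z * f u ((z : ℤ) + y - n)

lemma w_corr (hu : 0 < u) (n a : ℕ) (ha : a ≤ n) :
    ∑ y ∈ range (n + u), f u ((y : ℤ) - a) * w u n y = S u ^ 2 := by
  have h1 : ∑ y ∈ range (n + u), f u ((y : ℤ) - a) * w u n y =
      ∑ z ∈ range (n + u), rho u z * G u ((a : ℤ) - (n - z)) := by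
    unfold w
    simp_rw [Finset.mul_sum]
    rw [Finset.sum_comm]
    refine Finset.sum_congr rfl fun z _ => ?_
    rw [← corr u a (n + u) ((n : ℤ) - z) (by omega), Finset.mul_sum]
    refine Finset.sum_congr rfl fun y _ => ?_
    rw [show (z : ℤ) + y - n = y - (n - z) by ring]
    ring
  have h2 : ∑ z ∈ range (n + u), rho u z * G u (((n - a : ℕ) : ℤ) - z) = S u ^ 2 := by
    have h3 : ∑ x ∈ range ((n - a) + u), f u ((x : ℤ) - (n - a : ℕ)) * S u = S u ^ 2 := by
      rw [← Finset.sum_mul, pow_two]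
      congr 1
      rw [Finset.sum_range_add]
      have h4 : ∑ x ∈ range (n - a), f u ((x : ℤ) - (n - a : ℕ)) = 0 := by
        refine Finset.sum_eq_zero fun x hx => ?_
        rw [Finset.mem_range] at hx
        exact f_neg u _ (by omega)
      rw [h4, zero_add, ← sum_f]
      refine Finset.sum_congr rfl fun x _ => ?_
      congr 1
      push_cast
      ring
    rw [← h3]
    have h5 : ∀ x ∈ range ((n - a) + u), f u ((x : ℤ) - (n - a : ℕ)) * S u =
        ∑ z ∈ range (n + u), rho u z * (f u ((x : ℤ) - (n - a : ℕ)) * f u ((x : ℤ) - z)) := by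
      intro x hx
      rw [Finset.mem_range] at hx
      rw [← W_eq u hu x (n + u) (by omega), Finset.mul_sum]
      refine Finset.sum_congr rfl fun z _ => ?_
      ring
    rw [Finset.sum_congr rfl h5, Finset.sum_comm]
    refine Finset.sum_congr rfl fun z _ => ?_
    rw [← Finset.mul_sum, corr u (n - a) ((n - a) + u) z (by omega)]
  rw [h1, ← h2]
  refine Finset.sum_congr rfl fun z _ => ?_
  rw [← G_even]
  congr 2
  omega

lemma tail_sum (L : ℕ) (hL : u ≤ L) :
    ∑ l ∈ range u, ∑ y ∈ range L, f u ((l : ℤ) + 1 + y) = S u * ((u : ℝ) - 1) / 3 := by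
  have h1 : ∀ l ∈ range u, ∑ y ∈ range L, f u ((l : ℤ) + 1 + y) = ∑ i ∈ range u, if l < i then f u i else 0 := by
    intro l hl
    rw [Finset.mem_range] at hl
    have h2 : ∑ y ∈ range L, f u ((l : ℤ) + 1 + y) = ∑ i ∈ Ico (l + 1) (l + 1 + L), f u i := by
      rw [Finset.sum_Ico_eq_sum_range, Nat.add_sub_cancel_left]
      refine Finset.sum_congr rfl fun y _ => ?_
      congr 1
    rw [h2, ← Finset.sum_filter]
    symm
    refine Finset.sum_subset (fun x hx => ?_) fun x hx hx' => ?_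
    · rw [Finset.mem_filter, Finset.mem_range] at hx
      rw [Finset.mem_Ico]
      omega
    · rw [Finset.mem_Ico] at hx
      rw [Finset.mem_filter, Finset.mem_range] at hx'
      exact f_big u _ (by omega)
  rw [Finset.sum_congr rfl h1, Finset.sum_comm]
  have h3 : ∀ i ∈ range u, (∑ l ∈ range u, if l < i then f u i else 0) = (i : ℝ) * ((u : ℝ) - i) := by
    intro i hi
    rw [Finset.mem_range] at hi
    rw [← Finset.sum_filter, Finset.sum_const, nsmul_eq_mul, f_nat u i hi]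
    congr 2
    have : (range u).filter (fun l => l < i) = range i := by
      ext l
      simp only [Finset.mem_filter, Finset.mem_range]
      omega
    rw [this, card_range]
  rw [Finset.sum_congr rfl h3, sum_mul_id]
  unfold S
  ring

lemma rho_le (hu : 0 < u) (n t z : ℕ) (ht : (t + 1) * u ≤ n) (hz : n < z + u) : rho u z ≤ 1 + (1 / 2 : ℝ) ^ t := by
  have h1 : (t + 1) * u = t * u + u := by ring
  have := rho_conv u hu t z (by omega)
  rw [abs_le] at this
  linarith

lemma w_nonneg (hu : 0 < u) (n : ℕ) (y : ℤ) : 0 ≤ w u n y :=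
  Finset.sum_nonneg fun z _ => mul_nonneg (rho_nonneg u hu z) (f_nonneg u _)

lemma sum_shift_le (L : ℕ) (c : ℤ) : ∑ z ∈ range L, f u ((z : ℤ) + c) ≤ S u := by
  have h2 : ∑ z ∈ range L, f u ((z : ℤ) + c) = ∑ d ∈ (range L).map (Nat.castEmbedding.trans (addRightEmbedding c)), f u d := by
    rw [Finset.sum_map]
    simp
  rw [h2]
  exact sum_f_le u _

lemma w_le (hu : 0 < u) (n t y : ℕ) (ht : (t + 1) * u ≤ n) (hy : y < u) : w u n y ≤ (1 + (1 / 2 : ℝ) ^ t) * S u := by
  unfold w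
  have h1 : ∀ z ∈ range (n + u), rho u z * f u ((z : ℤ) + y - n) ≤ (1 + (1 / 2 : ℝ) ^ t) * f u ((z : ℤ) + (y - n)) := by
    intro z _
    rw [show (z : ℤ) + y - n = z + (y - n) by ring]
    by_cases h : (z : ℤ) + (y - n) < 0
    · rw [f_neg u _ h]; simp
    · exact mul_le_mul_of_nonneg_right (rho_le u hu n t z ht (by omega)) (f_nonneg u _)
  refine (Finset.sum_le_sum h1).trans ?_
  rw [← Finset.mul_sum]
  exact mul_le_mul_of_nonneg_left (sum_shift_le u _ _) (by positivity)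

lemma S_pos (hu : 0 < u) : 0 < S u := by
  unfold S
  have hu' : (0 : ℝ) < u := by exact_mod_cast hu
  positivity

/-- total mass of the renewal sequence -/
lemma sum_rho_le (hu : 0 < u) (n t : ℕ) (ht : (t + 1) * u ≤ n) :
    S u * ∑ z ∈ range (n + 1), rho u z ≤ (n + 1) * S u + (1 + (1 / 2 : ℝ) ^ t) * (S u * ((u : ℝ) - 1) / 3) := by
  have h1 : (n + 1) * S u = ∑ z ∈ range (n + 1), rho u z * ∑ x ∈ range (n + 1), f u ((x : ℤ) - z) := by
    have h2 : ∑ x ∈ range (n + 1), ∑ z ∈ range (n + 1), rho u z * f u ((x : ℤ) - z) = ∑ x ∈ range (n + 1), S u :=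
      Finset.sum_congr rfl fun x hx => W_eq u hu x (n + 1) (Finset.mem_range.mp hx)
    rw [Finset.sum_const, card_range, nsmul_eq_mul] at h2
    push_cast at h2
    rw [← h2, Finset.sum_comm]
    simp_rw [Finset.mul_sum]
  have h3 : ∀ z ∈ range (n + 1), S u = ∑ x ∈ range (n + 1), f u ((x : ℤ) - z) + ∑ y ∈ range u, f u (((n - z : ℕ) : ℤ) + 1 + y) := by
    intro z hz
    rw [Finset.mem_range] at hz
    have h4 : ∑ x ∈ range (n + 1 + u), f u ((x : ℤ) - z) = S u := by
      have h5 : n + 1 + u = z + (n + 1 - z + u) := by omega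
      rw [h5, Finset.sum_range_add]
      have h6 : ∑ x ∈ range z, f u ((x : ℤ) - z) = 0 := by
        refine Finset.sum_eq_zero fun x hx => ?_
        rw [Finset.mem_range] at hx
        exact f_neg u _ (by omega)
      rw [h6, zero_add, ← sum_f, ← sum_range_ext u (f u) (n + 1 - z + u) (by omega) (fun i hi => f_big u i (by exact_mod_cast hi))]
      refine Finset.sum_congr rfl fun x _ => ?_
      congr 1
      push_cast
      ring
    rw [← h4, Finset.sum_range_add]
    congr 1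
    refine Finset.sum_congr rfl fun x _ => ?_
    congr 1
    omega
  have h7 : S u * ∑ z ∈ range (n + 1), rho u z = (n + 1) * S u +
      ∑ z ∈ range (n + 1), rho u z * ∑ y ∈ range u, f u (((n - z : ℕ) : ℤ) + 1 + y) := by
    rw [h1, ← Finset.sum_add_distrib, Finset.mul_sum]
    refine Finset.sum_congr rfl fun z hz => ?_
    rw [← mul_add, ← h3 z hz]
    ring
  rw [h7]
  refine add_le_add le_rfl ?_
  rw [← Finset.sum_range_reflect]
  have hun : u ≤ n + 1 := by
    have : (t + 1) * u = t * u + u := by ring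
    omega
  have h8 : ∀ l ∈ range (n + 1), rho u (n + 1 - 1 - l) * ∑ y ∈ range u, f u (((n - (n + 1 - 1 - l) : ℕ) : ℤ) + 1 + y) ≤
      (1 + (1 / 2 : ℝ) ^ t) * if l < u then ∑ y ∈ range u, f u ((l : ℤ) + 1 + y) else 0 := by
    intro l hl
    rw [Finset.mem_range] at hl
    have h9 : ((n - (n + 1 - 1 - l) : ℕ) : ℤ) = l := by omega
    rw [h9]
    split_ifs with hlu
    · refine mul_le_mul_of_nonneg_right (rho_le u hu n t _ ht (by omega)) ?_
      exact Finset.sum_nonneg fun y _ => f_nonneg u _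
    · have : ∑ y ∈ range u, f u ((l : ℤ) + 1 + y) = 0 :=
        Finset.sum_eq_zero fun y _ => f_big u _ (by omega)
      rw [this]
      simp
  refine (Finset.sum_le_sum h8).trans ?_
  rw [← Finset.mul_sum]
  refine mul_le_mul_of_nonneg_left ?_ (by positivity)
  rw [← tail_sum u u le_rfl, ← Finset.sum_filter]
  refine le_of_eq (Finset.sum_congr ?_ fun _ _ => rfl)
  ext l
  simp only [Finset.mem_filter, Finset.mem_range]
  omega

/-- the square norm of the dual weight -/
lemma norm_le (hu : 0 < u) (n t : ℕ) (ht : (t + 1) * u ≤ n) :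
    ∑ y ∈ range (n + u), w u n y ^ 2 ≤ S u ^ 2 * ((n : ℝ) + 1 + 2 / 3 * (1 + (1 / 2 : ℝ) ^ t) ^ 2 * ((u : ℝ) - 1)) := by
  have hS := S_pos u hu
  have h1 : ∑ y ∈ range (n + u), w u n y ^ 2 =
      ∑ z ∈ range (n + u), rho u z * ∑ y ∈ range (n + u), w u n y * f u ((z : ℤ) + y - n) := by
    simp_rw [Finset.mul_sum]
    rw [Finset.sum_comm]
    refine Finset.sum_congr rfl fun y _ => ?_
    rw [pow_two]
    nth_rewrite 1 [w]
    rw [Finset.sum_mul]
    refine Finset.sum_congr rfl fun z _ => ?_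
    ring
  have hsplit : n + u = (n + 1) + (u - 1) := by omega
  have h2 : ∑ z ∈ range (n + u), rho u z * ∑ y ∈ range (n + u), w u n y * f u ((z : ℤ) + y - n) =
      ∑ z ∈ range (n + 1), rho u z * S u ^ 2 +
      ∑ l ∈ range (u - 1), rho u (n + 1 + l) * ∑ y ∈ range (n + u), w u n y * f u ((l : ℤ) + 1 + y) := by
    conv_lhs => rw [show range (n + u) = range ((n + 1) + (u - 1)) by rw [← hsplit]]
    rw [Finset.sum_range_add, ← hsplit]
    congr 1
    · refine Finset.sum_congr rfl fun z hz => ?_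
      rw [Finset.mem_range] at hz
      congr 1
      rw [← w_corr u hu n (n - z) (by omega)]
      refine Finset.sum_congr rfl fun y _ => ?_
      rw [mul_comm]
      congr 2
      omega
    · refine Finset.sum_congr rfl fun l _ => ?_
      congr 1
      refine Finset.sum_congr rfl fun y _ => ?_
      congr 2
      push_cast
      ring
  rw [h1, h2, ← Finset.sum_mul]
  have h3 := sum_rho_le u hu n t ht
  set ε : ℝ := (1 / 2 : ℝ) ^ t with hε
  have hε0 : 0 ≤ ε := by positivity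
  have h4 : ∑ l ∈ range (u - 1), rho u (n + 1 + l) * ∑ y ∈ range (n + u), w u n y * f u ((l : ℤ) + 1 + y) ≤
      (1 + ε) ^ 2 * S u * (S u * ((u : ℝ) - 1) / 3) := by
    have h5 : ∀ l ∈ range (u - 1), rho u (n + 1 + l) * ∑ y ∈ range (n + u), w u n y * f u ((l : ℤ) + 1 + y) ≤
        (1 + ε) * (((1 + ε) * S u) * ∑ y ∈ range (n + u), f u ((l : ℤ) + 1 + y)) := by
      intro l _
      have h6 : ∑ y ∈ range (n + u), w u n y * f u ((l : ℤ) + 1 + y) ≤ ((1 + ε) * S u) * ∑ y ∈ range (n + u), f u ((l : ℤ) + 1 + y) := by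
        rw [Finset.mul_sum]
        refine Finset.sum_le_sum fun y _ => ?_
        rcases lt_or_ge y u with hy | hy
        · exact mul_le_mul_of_nonneg_right (w_le u hu n t y ht hy) (f_nonneg u _)
        · rw [f_big u _ (by omega)]
          simp
      refine mul_le_mul (rho_le u hu n t _ ht (by omega)) h6 ?_ (by positivity)
      exact Finset.sum_nonneg fun y _ => mul_nonneg (w_nonneg u hu n y) (f_nonneg u _)
    refine (Finset.sum_le_sum h5).trans ?_
    rw [← Finset.mul_sum, ← Finset.mul_sum]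
    have h7 : ∑ l ∈ range (u - 1), ∑ y ∈ range (n + u), f u ((l : ℤ) + 1 + y) ≤ S u * ((u : ℝ) - 1) / 3 := by
      rw [← tail_sum u (n + u) (by omega)]
      refine Finset.sum_le_sum_of_subset_of_nonneg (fun x hx => ?_) fun l _ _ => Finset.sum_nonneg fun y _ => f_nonneg u _
      rw [Finset.mem_range] at hx ⊢
      omega
    calc (1 + ε) * (((1 + ε) * S u) * ∑ l ∈ range (u - 1), ∑ y ∈ range (n + u), f u ((l : ℤ) + 1 + y))
        ≤ (1 + ε) * (((1 + ε) * S u) * (S u * ((u : ℝ) - 1) / 3)) := by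
          refine mul_le_mul_of_nonneg_left (mul_le_mul_of_nonneg_left h7 (by positivity)) (by positivity)
      _ = (1 + ε) ^ 2 * S u * (S u * ((u : ℝ) - 1) / 3) := by ring
  have hu1 : (0 : ℝ) ≤ (u : ℝ) - 1 := by
    have : (1 : ℝ) ≤ u := by exact_mod_cast hu
    linarith
  have h8 : (∑ z ∈ range (n + 1), rho u z) * S u ^ 2 ≤ S u * ((n + 1) * S u + (1 + ε) * (S u * ((u : ℝ) - 1) / 3)) := by
    calc (∑ z ∈ range (n + 1), rho u z) * S u ^ 2 = S u * (S u * ∑ z ∈ range (n + 1), rho u z) := by ring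
      _ ≤ _ := mul_le_mul_of_nonneg_left h3 hS.le
  have h9 : (1 + ε) * (S u * ((u : ℝ) - 1) / 3) ≤ (1 + ε) ^ 2 * (S u * ((u : ℝ) - 1) / 3) := by
    refine mul_le_mul_of_nonneg_right ?_ (by positivity)
    nlinarith
  calc _ ≤ S u * ((n + 1) * S u + (1 + ε) * (S u * ((u : ℝ) - 1) / 3)) + (1 + ε) ^ 2 * S u * (S u * ((u : ℝ) - 1) / 3) :=
        add_le_add h8 h4
    _ ≤ S u * ((n + 1) * S u + (1 + ε) ^ 2 * (S u * ((u : ℝ) - 1) / 3)) + (1 + ε) ^ 2 * S u * (S u * ((u : ℝ) - 1) / 3) := by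
        refine add_le_add (mul_le_mul_of_nonneg_left (add_le_add le_rfl h9) hS.le) le_rfl
    _ = _ := by ring

/-- the energy bound -/
theorem main_ineq (hu : 0 < u) (n t : ℕ) (ht : (t + 1) * u ≤ n) (A : Finset ℕ) (hA : ∀ a ∈ A, a ≤ n)
    (hS : ∀ a ∈ A, ∀ b ∈ A, ∀ c ∈ A, ∀ d ∈ A, a + b = c + d → (a = c ∧ b = d) ∨ (a = d ∧ b = c)) :
    (A.card : ℝ) ^ 2 ≤ (1 + A.card * (4 / (3 * u))) *
      ((n : ℝ) + 1 + 2 / 3 * (1 + (1 / 2 : ℝ) ^ t) ^ 2 * ((u : ℝ) - 1)) := by
  have hSp := S_pos u hu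
  set F : ℕ → ℝ := fun y => ∑ a ∈ A, f u ((y : ℤ) - a) with hF
  set Tn : ℝ := (n : ℝ) + 1 + 2 / 3 * (1 + (1 / 2 : ℝ) ^ t) ^ 2 * ((u : ℝ) - 1) with hTn
  have h1 : ∑ y ∈ range (n + u), F y * w u n y = A.card * S u ^ 2 := by
    simp only [hF, Finset.sum_mul]
    rw [Finset.sum_comm, Finset.sum_congr rfl fun a ha => w_corr u hu n a (hA a ha), Finset.sum_const, nsmul_eq_mul]
  have h2 : ∑ y ∈ range (n + u), F y ^ 2 = ∑ a ∈ A, ∑ b ∈ A, G u ((a : ℤ) - b) := by
    have : ∀ y ∈ range (n + u), F y ^ 2 = ∑ a ∈ A, ∑ b ∈ A, f u ((y : ℤ) - a) * f u ((y : ℤ) - b) := by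
      intro y _
      rw [pow_two, hF]
      simp only
      rw [Finset.sum_mul_sum]
    rw [Finset.sum_congr rfl this, Finset.sum_comm]
    refine Finset.sum_congr rfl fun a ha => ?_
    rw [Finset.sum_comm]
    refine Finset.sum_congr rfl fun b _ => ?_
    exact corr u a (n + u) b (by have := hA a ha; omega)
  have h3 : ∑ a ∈ A, ∑ b ∈ A, G u ((a : ℤ) - b) ≤ A.card * G u 0 + S u ^ 2 := by
    rw [← Finset.sum_product', ← Finset.diag_union_offDiag, Finset.sum_union (Finset.disjoint_diag_offDiag A)]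
    refine add_le_add ?_ ?_
    · rw [Finset.sum_diag]
      simp
    · have hinj : Set.InjOn (fun p : ℕ × ℕ => ((p.1 : ℤ) - p.2)) (A.offDiag : Set (ℕ × ℕ)) := by
        rintro ⟨a, b⟩ hab ⟨c, d⟩ hcd heq
        simp only [Finset.mem_coe, Finset.mem_offDiag] at hab hcd
        simp only at heq
        have h4 := hS a hab.1 d hcd.2.1 c hcd.1 b hab.2.1 (by omega)
        rcases h4 with ⟨h5, h6⟩ | ⟨h5, h6⟩
        · rw [h5, h6]
        · exact absurd h5 hab.2.2
      rw [← Finset.sum_image hinj (f := fun d => G u d)]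
      exact sum_G_le u _
  have h4 := norm_le u hu n t ht
  have hCS := Finset.sum_mul_sq_le_sq_mul_sq (range (n + u)) F (fun y => w u n y)
  rw [h1, h2] at hCS
  have h5 : ((A.card : ℝ) * S u ^ 2) ^ 2 ≤ (A.card * G u 0 + S u ^ 2) * (S u ^ 2 * Tn) := by
    refine hCS.trans (mul_le_mul h3 h4 (Finset.sum_nonneg fun y _ => sq_nonneg _) ?_)
    have := G_nonneg u 0
    positivity
  have hu' : (1 : ℝ) ≤ u := by exact_mod_cast hu
  have hTn0 : 0 ≤ Tn := by
    rw [hTn]
    have : (0 : ℝ) ≤ 2 / 3 * (1 + (1 / 2 : ℝ) ^ t) ^ 2 * ((u : ℝ) - 1) := mul_nonneg (by positivity) (by linarith)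
    positivity
  have h6 : G u 0 ≤ S u ^ 2 * (4 / (3 * u)) := by
    rw [G_zero]
    unfold S
    have hu0 : (0 : ℝ) < u := by linarith
    rw [show ((u : ℝ) * (u + 1) / 2) ^ 2 * (4 / (3 * u)) = u * (u + 1) ^ 2 / 3 by field_simp; ring]
    nlinarith [mul_pos hu0 hu0]
  have h7 : ((A.card : ℝ)) ^ 2 * (S u ^ 2) ^ 2 ≤ ((1 + A.card * (4 / (3 * u))) * Tn) * (S u ^ 2) ^ 2 := by
    calc _ = ((A.card : ℝ) * S u ^ 2) ^ 2 := by ring
      _ ≤ (A.card * G u 0 + S u ^ 2) * (S u ^ 2 * Tn) := h5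
      _ ≤ (A.card * (S u ^ 2 * (4 / (3 * u))) + S u ^ 2) * (S u ^ 2 * Tn) := by
          refine mul_le_mul_of_nonneg_right (add_le_add (mul_le_mul_of_nonneg_left h6 (by positivity)) le_rfl) (by positivity)
      _ = _ := by ring
  exact le_of_mul_le_mul_right h7 (by positivity)

end Pool.Agent.H93.SD
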