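import Mathlib

/-!
A Legendre - Rankin sieve for sparse sets of primes (helper file).
-/

namespace Pool.Agent.H93

open Finset

/-- counting in a residue class -/
lemma card_class_bound (X r v : ℕ) (hr : 0 < r) :
    |(((Ioc 0 X).filter (fun n => n ≡ v [MOD r])).card : ℝ) - (X : ℝ) / r| ≤ 1 := by
  have h := Nat.Ioc_filter_modEq_card 0 X hr v
  have hr0 : (0 : ℚ) < r := by exact_mod_cast hr
  set K := ((Ioc 0 X).filter (fun n => n ≡ v [MOD r])).card with hK
  have key : |(K : ℚ) - (X : ℚ) / r| ≤ 1 := by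
    have hKq : (K : ℚ) = ((max (⌊((X : ℚ) - v) / r⌋ - ⌊(((0 : ℕ) : ℚ) - v) / r⌋) 0 : ℤ) : ℚ) := by
      rw [← h]; push_cast; rfl
    have a1 := Int.floor_le (((X : ℚ) - v) / r)
    have a2 := Int.lt_floor_add_one (((X : ℚ) - v) / r)
    have b1 := Int.floor_le ((((0 : ℕ) : ℚ) - v) / r)
    have b2 := Int.lt_floor_add_one ((((0 : ℕ) : ℚ) - v) / r)
    set A := ⌊((X : ℚ) - v) / r⌋
    set B := ⌊(((0 : ℕ) : ℚ) - v) / r⌋
    have e1 : ((X : ℚ) - v) / r = X / r - v / r := by ring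
    have e2 : (((0 : ℕ) : ℚ) - v) / r = - (v / r) := by push_cast; ring
    rw [e1] at a1 a2
    rw [e2] at b1 b2
    have hX : (0 : ℚ) ≤ X / r := by positivity
    rw [hKq, abs_le]
    push_cast
    rcases le_total ((A : ℚ) - B) 0 with hle | hle
    · rw [max_eq_right hle]
      constructor <;> linarith
    · rw [max_eq_left hle]
      constructor <;> linarith
  have : ((|(K : ℚ) - (X : ℚ) / r| : ℚ) : ℝ) ≤ ((1 : ℚ) : ℝ) := by exact_mod_cast key
  push_cast at this
  exact this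

/-- counting multiples of `d` in a residue class -/
lemma card_class_dvd_bound (X M a d : ℕ) (hM : 0 < M) (hd : 0 < d) (hcop : d.Coprime M) :
    |(((Ioc 0 X).filter (fun n => n ≡ a [MOD M] ∧ d ∣ n)).card : ℝ) - (X : ℝ) / (M * d)| ≤ 1 := by
  obtain ⟨v, hv1, hv2⟩ := Nat.chineseRemainder hcop 0 a
  have h := card_class_bound X (d * M) v (Nat.mul_pos hd hM)
  have e : (Ioc 0 X).filter (fun n => n ≡ a [MOD M] ∧ d ∣ n) =
      (Ioc 0 X).filter (fun n => n ≡ v [MOD d * M]) := by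
    refine Finset.filter_congr fun n _ => ?_
    rw [← Nat.modEq_and_modEq_iff_modEq_mul hcop]
    constructor
    · rintro ⟨h1, h2⟩
      exact ⟨((Nat.modEq_zero_iff_dvd.mpr h2).trans hv1.symm), h1.trans hv2.symm⟩
    · rintro ⟨h1, h2⟩
      exact ⟨h2.trans hv2, Nat.modEq_zero_iff_dvd.mp (h1.trans hv1)⟩
  rw [e]
  have e2 : (M : ℝ) * d = ((d * M : ℕ) : ℝ) := by push_cast; ring
  rw [e2]
  exact h

lemma card_class_dvd_zero (X M a d : ℕ) (hd : X < d) :
    ((Ioc 0 X).filter (fun n => n ≡ a [MOD M] ∧ d ∣ n)).card = 0 := by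
  rw [Finset.card_eq_zero, Finset.filter_eq_empty_iff]
  intro n hn h
  rw [Finset.mem_Ioc] at hn
  have := Nat.le_of_dvd hn.1 h.2
  omega

/-- The sieve. -/
theorem sieve_GL (Q : Finset ℕ) (hQ : ∀ q ∈ Q, q.Prime) (z : ℝ) (hz : Real.exp 1 ≤ z)
    (hQz : ∀ q ∈ Q, (q : ℝ) ≤ z) (M : ℕ) (hM : 0 < M) (hcop : ∀ q ∈ Q, q.Coprime M) (a : ℕ)
    (c : ℝ) (hc0 : 0 ≤ c) (hc1 : c ≤ 1) (X : ℕ) (hX : 1 ≤ X) :
    |∑ n ∈ (Ioc 0 X).filter (fun n => n ≡ a [MOD M]), (1 - c) ^ (Q.filter (· ∣ n)).card -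
      X / M * ∏ q ∈ Q, (1 - c / q)| ≤
    X * Real.exp (-(Real.log X / Real.log z) + 3 * ∑ q ∈ Q, 1 / (q : ℝ)) := by
  have hXr : (1 : ℝ) ≤ X := by exact_mod_cast hX
  have hMr : (1 : ℝ) ≤ M := by exact_mod_cast hM
  have hz0 : 0 < z := lt_of_lt_of_le (Real.exp_pos 1) hz
  have hlz : 1 ≤ Real.log z := by rwa [Real.le_log_iff_exp_le hz0]
  set δ : ℝ := 1 / Real.log z with hδ
  have hδ0 : 0 < δ := by positivity
  have hδ1 : δ ≤ 1 := by rw [hδ, div_le_one (by linarith)]; exact hlz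
  -- expansion of the weight
  have e1 : ∀ n : ℕ, (1 - c) ^ (Q.filter (· ∣ n)).card =
      ∑ S ∈ Q.powerset, (-c) ^ S.card * (if (∏ q ∈ S, q) ∣ n then (1 : ℝ) else 0) := by
    intro n
    have h1 : (1 - c) ^ (Q.filter (· ∣ n)).card = ∏ q ∈ Q, (1 + (if q ∣ n then -c else 0)) := by
      rw [← Finset.prod_const, Finset.prod_filter]
      refine Finset.prod_congr rfl fun q _ => ?_
      split_ifs <;> ring
    rw [h1, Finset.prod_one_add]
    refine Finset.sum_congr rfl fun S hS => ?_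
    rw [Finset.mem_powerset] at hS
    by_cases hd : (∏ q ∈ S, q) ∣ n
    · rw [if_pos hd, mul_one, ← Finset.prod_const]
      refine Finset.prod_congr rfl fun q hq => ?_
      rw [if_pos ((Finset.dvd_prod_of_mem _ hq).trans hd)]
    · rw [if_neg hd, mul_zero]
      have : ∃ q ∈ S, ¬ q ∣ n := by
        by_contra hcon
        push Not at hcon
        exact hd (Finset.prod_primes_dvd n (fun q hq => (hQ q (hS hq)).prime) hcon)
      obtain ⟨q, hq, hqn⟩ := this
      exact Finset.prod_eq_zero hq (if_neg hqn)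
  have e2 : ∏ q ∈ Q, (1 - c / q) = ∑ S ∈ Q.powerset, (-c) ^ S.card * (1 / ((∏ q ∈ S, q : ℕ) : ℝ)) := by
    have h1 : ∏ q ∈ Q, (1 - c / (q : ℝ)) = ∏ q ∈ Q, (1 + (-c) * (1 / (q : ℝ))) := by
      refine Finset.prod_congr rfl fun q _ => ?_
      ring
    rw [h1, Finset.prod_one_add]
    refine Finset.sum_congr rfl fun S hS => ?_
    rw [Finset.prod_mul_distrib, Finset.prod_const]
    push_cast
    rw [Finset.prod_div_distrib]
    simp
  set K : Finset ℕ → ℝ := fun S =>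
    (((Ioc 0 X).filter (fun n => n ≡ a [MOD M] ∧ (∏ q ∈ S, q) ∣ n)).card : ℝ) with hK
  have e3 : ∑ n ∈ (Ioc 0 X).filter (fun n => n ≡ a [MOD M]), (1 - c) ^ (Q.filter (· ∣ n)).card =
      ∑ S ∈ Q.powerset, (-c) ^ S.card * K S := by
    simp_rw [e1]
    rw [Finset.sum_comm]
    refine Finset.sum_congr rfl fun S hS => ?_
    rw [← Finset.mul_sum]
    congr 1
    simp only [hK]
    rw [Finset.sum_ite, Finset.sum_const_zero, add_zero, Finset.sum_const, nsmul_eq_mul, mul_one,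
      Finset.filter_filter]
  rw [e3, e2, Finset.mul_sum, ← Finset.sum_sub_distrib]
  have hterm : ∀ S ∈ Q.powerset, |(-c) ^ S.card * K S -
      X / M * ((-c) ^ S.card * (1 / ((∏ q ∈ S, q : ℕ) : ℝ)))| ≤
      ((X : ℝ)) ^ (1 - δ) * ∏ q ∈ S, ((q : ℝ) ^ (δ - 1)) := by
    intro S hS
    rw [Finset.mem_powerset] at hS
    have hSp : ∀ q ∈ S, q.Prime := fun q hq => hQ q (hS hq)
    set d := ∏ q ∈ S, q with hd
    have hd0 : 0 < d := Finset.prod_pos fun q hq => (hSp q hq).pos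
    have hdr : (1 : ℝ) ≤ d := by exact_mod_cast hd0
    have hcopd : d.Coprime M := Nat.Coprime.prod_left fun q hq => hcop q (hS hq)
    have h1 : (-c) ^ S.card * K S - X / M * ((-c) ^ S.card * (1 / (d : ℝ))) =
        (-c) ^ S.card * (K S - X / (M * d)) := by
      field_simp
    rw [h1, abs_mul, abs_pow, abs_neg, abs_of_nonneg hc0]
    have h2 : c ^ S.card ≤ 1 := pow_le_one₀ hc0 hc1
    have h3 : |K S - X / (M * d)| ≤ ((X : ℝ) / d) ^ (1 - δ) := by
      rcases le_or_gt d X with hdX | hdX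
      · have h4 := card_class_dvd_bound X M a d hM hd0 hcopd
        have h5 : (1 : ℝ) ≤ X / d := by
          rw [one_le_div (by linarith)]; exact_mod_cast hdX
        have h6 : 1 ≤ ((X : ℝ) / d) ^ (1 - δ) := Real.one_le_rpow h5 (by linarith)
        exact h4.trans h6
      · have h4 := card_class_dvd_zero X M a d hdX
        simp only [hK]
        rw [← hd, h4]
        have h5 : (X : ℝ) / d ≤ 1 := by
          rw [div_le_one (by linarith)]; exact_mod_cast hdX.le
        have h6 : (X : ℝ) / d ≤ ((X : ℝ) / d) ^ (1 - δ) := by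
          apply Real.self_le_rpow_of_le_one (by positivity) h5 (by linarith)
        push_cast
        rw [zero_sub, abs_neg, abs_of_nonneg (by positivity)]
        refine le_trans ?_ h6
        apply div_le_div_of_nonneg_left (by positivity) (by linarith)
        nlinarith
    have h7 : ((X : ℝ) / d) ^ (1 - δ) = (X : ℝ) ^ (1 - δ) * ∏ q ∈ S, ((q : ℝ) ^ (δ - 1)) := by
      rw [div_eq_mul_inv, Real.mul_rpow (by positivity) (by positivity)]
      congr 1
      rw [Real.finsetProd_rpow _ _ (fun q _ => Nat.cast_nonneg q)]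
      rw [← Nat.cast_prod, ← hd, Real.inv_rpow (by positivity), ← Real.rpow_neg (by positivity)]
      congr 1
      ring
    rw [← h7]
    calc c ^ S.card * |K S - X / (M * d)| ≤ 1 * ((X : ℝ) / d) ^ (1 - δ) :=
          mul_le_mul h2 h3 (abs_nonneg _) zero_le_one
      _ = _ := one_mul _
  refine (Finset.abs_sum_le_sum_abs _ _).trans ((Finset.sum_le_sum hterm).trans ?_)
  rw [← Finset.mul_sum, ← Finset.prod_one_add]
  have h8 : ∏ q ∈ Q, (1 + (q : ℝ) ^ (δ - 1)) ≤ Real.exp (3 * ∑ q ∈ Q, 1 / (q : ℝ)) := by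
    rw [Finset.mul_sum, Real.exp_sum]
    refine Finset.prod_le_prod (fun q _ => by positivity) fun q hq => ?_
    have hq0 : (0 : ℝ) < q := by exact_mod_cast (hQ q hq).pos
    have h9 : (q : ℝ) ^ (δ - 1) ≤ 3 * (1 / q) := by
      rw [Real.rpow_sub_one hq0.ne', ← mul_div_assoc, mul_one]
      apply div_le_div_of_nonneg_right _ hq0.le
      calc (q : ℝ) ^ δ ≤ z ^ δ := Real.rpow_le_rpow hq0.le (hQz q hq) hδ0.le
        _ = Real.exp 1 := by
            rw [Real.rpow_def_of_pos hz0, hδ, mul_one_div, div_self (by linarith)]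
        _ ≤ 3 := by have := Real.exp_one_lt_d9; linarith
    have h10 := Real.add_one_le_exp (3 * (1 / (q : ℝ)))
    linarith
  calc (X : ℝ) ^ (1 - δ) * ∏ q ∈ Q, (1 + (q : ℝ) ^ (δ - 1)) ≤
        (X : ℝ) ^ (1 - δ) * Real.exp (3 * ∑ q ∈ Q, 1 / (q : ℝ)) := by gcongr
    _ = X * Real.exp (-(Real.log X / Real.log z) + 3 * ∑ q ∈ Q, 1 / (q : ℝ)) := by
        rw [Real.exp_add, ← mul_assoc]
        congr 1
        have hX0 : (0 : ℝ) < X := by linarith
        rw [Real.rpow_def_of_pos hX0, hδ]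
        have : Real.log X * (1 - 1 / Real.log z) = Real.log X + -(Real.log X / Real.log z) := by ring
        rw [this, Real.exp_add, Real.exp_log hX0]

end Pool.Agent.H93
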