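import Pool.Agent.H93.Vlem

/-!
Sifted sets (helper file).
-/

namespace Pool.Agent.H93

open Finset Filter Topology

/-- integers up to `Y` free of primes of `Q` -/
def sift (Q : Finset ℕ) (Y : ℕ) : Finset ℕ := (Ioc 0 Y).filter (fun m => ∀ q ∈ Q, ¬ q ∣ m)

/-- odd integers up to `Y` free of primes of `Q` -/
def siftOdd (Q : Finset ℕ) (Y : ℕ) : Finset ℕ :=
  (Ioc 0 Y).filter (fun m => m % 2 = 1 ∧ ∀ q ∈ Q, ¬ q ∣ m)

lemma weight_one (Q : Finset ℕ) (n : ℕ) :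
    (1 - (1 : ℝ)) ^ (Q.filter (· ∣ n)).card = if ∀ q ∈ Q, ¬ q ∣ n then 1 else 0 := by
  split_ifs with h
  · rw [Finset.filter_eq_empty_iff.mpr h]; simp
  · push Not at h
    obtain ⟨q, hq, hqn⟩ := h
    have : (Q.filter (· ∣ n)).card ≠ 0 := by
      rw [Finset.card_ne_zero]
      exact ⟨q, Finset.mem_filter.mpr ⟨hq, hqn⟩⟩
    rw [sub_self, zero_pow this]

lemma card_sift (Q : Finset ℕ) (Y : ℕ) :
    ((sift Q Y).card : ℝ) = ∑ n ∈ (Ioc 0 Y).filter (fun n => n ≡ 0 [MOD 1]),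
      (1 - (1 : ℝ)) ^ (Q.filter (· ∣ n)).card := by
  simp_rw [weight_one]
  rw [← Finset.sum_filter, Finset.sum_const, nsmul_eq_mul, mul_one, Finset.filter_filter]
  congr 2
  refine Finset.filter_congr fun n _ => ?_
  simp [Nat.modEq_one]

lemma card_siftOdd (Q : Finset ℕ) (Y : ℕ) :
    ((siftOdd Q Y).card : ℝ) = ∑ n ∈ (Ioc 0 Y).filter (fun n => n ≡ 1 [MOD 2]),
      (1 - (1 : ℝ)) ^ (Q.filter (· ∣ n)).card := by
  simp_rw [weight_one]
  rw [← Finset.sum_filter, Finset.sum_const, nsmul_eq_mul, mul_one, Finset.filter_filter]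
  congr 2

/-- sifted counts, all integers and odd integers, for `p` in the middle range -/
theorem sift_bounds : ∃ L0 : ℝ, ∀ X : ℕ, L0 ≤ LL X → ∀ p : ℕ, p.Prime →
    √(LL X) / 8 ≤ p → (p : ℝ) ≤ 3 * √(LL X) →
    ∀ Y : ℕ, 1 ≤ Y → Real.log X / (2 * LL X) ≤ Real.log Y →
    ((sift (QQ p X) Y).card : ℝ) ≤ 2 * Y * VV p X ∧
    (Y / 2 : ℝ) * VV p X * (1 - 1 / LL X) ≤ (siftOdd (QQ p X) Y).card ∧
    ((siftOdd (QQ p X) Y).card : ℝ) ≤ (Y / 2 : ℝ) * VV p X * (1 + 1 / LL X) := by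
  obtain ⟨L1, h1⟩ := F_lemma
  obtain ⟨L2, h2⟩ := V_lemma 1 zero_lt_one
  have hev : ∀ᶠ L : ℝ in atTop, 8 * √L + 100 + Real.log (2 * L) ≤ L ^ 2 / 4 := by
    filter_upwards [eventually_ge_atTop 100] with L hL
    have h3 : √L ≤ L := by
      rw [Real.sqrt_le_left (by linarith)]
      nlinarith
    have h4 : Real.log (2 * L) ≤ 2 * L := Real.log_le_self (by linarith)
    nlinarith
  obtain ⟨L3, h3⟩ := eventually_atTop.mp hev
  refine ⟨max (max L1 L2) (max L3 4096), fun X hX p hp hpl hpu Y hY hlY => ?_⟩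
  have hX1 : L1 ≤ LL X := ((le_max_left _ _).trans (le_max_left _ _)).trans hX
  have hX2 : L2 ≤ LL X := ((le_max_right _ _).trans (le_max_left _ _)).trans hX
  have hX3 : L3 ≤ LL X := ((le_max_left _ _).trans (le_max_right _ _)).trans hX
  have hX4 : 4096 ≤ LL X := ((le_max_right _ _).trans (le_max_right _ _)).trans hX
  obtain ⟨hV1, hV2, _⟩ := h2 X hX2 p hp hpl hpu
  set L := LL X with hL
  have hL0 : 0 < L := by linarith
  have hs64 : 64 ≤ √L := by
    rw [show (64 : ℝ) = √4096 by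
      rw [show (4096 : ℝ) = 64 ^ 2 by norm_num, Real.sqrt_sq (by norm_num)]]
    exact Real.sqrt_le_sqrt hX4
  have hss : √L * √L = L := Real.mul_self_sqrt hL0.le
  have hp8 : (8 : ℝ) ≤ p := by linarith
  have hLp : L / ((p : ℝ) - 1) ≤ 8 * √L + 80 := by
    rw [div_le_iff₀ (by linarith)]
    nlinarith
  have hQ : ∀ q ∈ QQ p X, q.Prime ∧ q ≤ Zc X := fun q hq => QQ_prime hq
  have hodd : ∀ q ∈ QQ p X, q.Coprime 2 := by
    intro q hq
    have hqp := (hQ q hq).1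
    rw [Nat.coprime_primes hqp Nat.prime_two]
    rintro rfl
    unfold QQ at hq
    rw [mem_Pset, neg_one_iff] at hq
    have : p ≤ 3 := Nat.le_of_dvd (by norm_num) hq.2.2
    have : (p : ℝ) ≤ 3 := by exact_mod_cast this
    linarith
  have hF1 := h1 X hX1 (QQ p X) hQ 1 one_pos (fun q _ => Nat.coprime_one_right q) 0 1 zero_le_one
    le_rfl Y hY hlY
  have hF2 := h1 X hX1 (QQ p X) hQ 2 two_pos hodd 1 1 zero_le_one le_rfl Y hY hlY
  rw [← card_sift] at hF1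
  rw [← card_siftOdd] at hF2
  have hVdef : ∏ q ∈ QQ p X, (1 - 1 / (q : ℝ)) = VV p X := rfl
  rw [hVdef] at hF1 hF2
  push_cast at hF1 hF2
  rw [div_one] at hF1
  rw [abs_le] at hF1 hF2
  have hYr : (1 : ℝ) ≤ Y := by exact_mod_cast hY
  have hV0 : 0 < VV p X := lt_of_lt_of_le (Real.exp_pos _) hV1
  -- the error is at most V / (2L)
  have herr : Real.exp (-(L ^ 2 / 4)) ≤ VV p X / (2 * L) := by
    have h4 : Real.exp (-(L ^ 2 / 4)) ≤ Real.exp (-(L / (p - 1)) - 1 - Real.log (2 * L)) := by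
      apply Real.exp_le_exp.mpr
      have := h3 L hX3
      linarith
    rw [Real.exp_sub, Real.exp_log (by positivity)] at h4
    refine h4.trans ?_
    gcongr
  have herr2 : (Y : ℝ) * Real.exp (-(L ^ 2 / 4)) ≤ (Y / 2 : ℝ) * VV p X * (1 / L) := by
    calc (Y : ℝ) * Real.exp (-(L ^ 2 / 4)) ≤ Y * (VV p X / (2 * L)) := by gcongr
      _ = _ := by field_simp
  have herr3 : (Y / 2 : ℝ) * VV p X * (1 / L) ≤ (Y / 2 : ℝ) * VV p X * 1 := by
    gcongr
    rw [div_le_one hL0]; linarith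
  refine ⟨?_, ?_, ?_⟩
  · have hpos : 0 ≤ (Y : ℝ) * VV p X := by positivity
    linarith [hF1.2]
  · have e : (Y / 2 : ℝ) * VV p X * (1 - 1 / L) = (Y / 2 : ℝ) * VV p X - (Y / 2 : ℝ) * VV p X * (1 / L) := by ring
    rw [e]
    linarith [hF2.1]
  · have e : (Y / 2 : ℝ) * VV p X * (1 + 1 / L) = (Y / 2 : ℝ) * VV p X + (Y / 2 : ℝ) * VV p X * (1 / L) := by ring
    rw [e]
    linarith [hF2.2]

/-- the sifted reciprocal sum -/
theorem sift_recip : ∃ C : ℝ, 0 < C ∧ ∀ W : ℕ, 3 ≤ W → ∀ Q : Finset ℕ, (∀ q ∈ Q, q.Prime ∧ q ≤ W) →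
    ∑ m ∈ sift Q W, (1 : ℝ) / m ≤ C * Real.log W * Real.exp (- ∑ q ∈ Q, 1 / (q : ℝ)) := by
  obtain ⟨C, hC, hM⟩ := exists_mertens_all
  have hs : Summable (fun n : ℕ => 1 / (n : ℝ) ^ 2) := Real.summable_one_div_nat_pow.mpr (by norm_num)
  set T := ∑' n : ℕ, 1 / (n : ℝ) ^ 2 with hT
  refine ⟨Real.exp (C + T), Real.exp_pos _, fun W hW Q hQ => ?_⟩
  have hWr : (3 : ℝ) ≤ W := by exact_mod_cast hW
  set P := (Ioc 0 W).filter Nat.Prime with hP
  have hQP : Q ⊆ P := by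
    intro q hq
    rw [hP, Finset.mem_filter, Finset.mem_Ioc]
    exact ⟨⟨(hQ q hq).1.pos, (hQ q hq).2⟩, (hQ q hq).1⟩
  set s := P \ Q with hs'
  have hsp : ∀ q ∈ s, q.Prime := by
    intro q hq
    rw [hs', Finset.mem_sdiff, hP, Finset.mem_filter] at hq
    exact hq.1.2
  -- Euler product
  let f : ℕ →* ℝ := ⟨⟨fun n => 1 / (n : ℝ), by simp⟩, fun a b => by push_cast; rw [one_div_mul_one_div]⟩
  have hf : ∀ {p : ℕ}, p.Prime → ‖f p‖ < 1 := by
    intro p hp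
    have hp2 : (2 : ℝ) ≤ p := by exact_mod_cast hp.two_le
    change ‖(1 : ℝ) / p‖ < 1
    rw [Real.norm_of_nonneg (by positivity), div_lt_one (by linarith)]
    linarith
  obtain ⟨hsum, hhas⟩ := EulerProduct.summable_and_hasSum_factoredNumbers_prod_filter_prime_geometric hf s
  have hfilter : s.filter Nat.Prime = s := Finset.filter_true_of_mem hsp
  rw [hfilter] at hhas
  -- the sifted numbers are s-factored
  have hmem : ∀ m ∈ sift Q W, m ∈ Nat.factoredNumbers s := by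
    intro m hm
    unfold sift at hm
    rw [Finset.mem_filter, Finset.mem_Ioc] at hm
    rw [Nat.mem_factoredNumbers]
    refine ⟨by omega, fun p hp => ?_⟩
    have hpp := Nat.prime_of_mem_primeFactorsList hp
    have hpm := Nat.dvd_of_mem_primeFactorsList hp
    rw [hs', Finset.mem_sdiff, hP, Finset.mem_filter, Finset.mem_Ioc]
    exact ⟨⟨⟨hpp.pos, (Nat.le_of_dvd hm.1.1 hpm).trans hm.1.2⟩, hpp⟩, fun hpQ => hm.2 p hpQ hpm⟩
  have h1 : ∑ m ∈ sift Q W, (1 : ℝ) / m ≤ ∏ q ∈ s, (1 - f q)⁻¹ := by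
    have h2 : ∑ m ∈ (sift Q W).attach, f (⟨m.1, hmem m.1 m.2⟩ : Nat.factoredNumbers s) =
        ∑ m ∈ sift Q W, (1 : ℝ) / m := by
      rw [← Finset.sum_attach (sift Q W) (fun m => (1 : ℝ) / m)]
      rfl
    rw [← h2]
    have h3 : ∑ m ∈ (sift Q W).attach, f (⟨m.1, hmem m.1 m.2⟩ : Nat.factoredNumbers s) =
        ∑ x ∈ (sift Q W).attach.image (fun m => (⟨m.1, hmem m.1 m.2⟩ : Nat.factoredNumbers s)), f x := by
      rw [Finset.sum_image]
      intro a _ b _ hab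
      apply Subtype.ext
      exact congrArg (fun x : Nat.factoredNumbers s => (x : ℕ)) hab
    rw [h3]
    apply sum_le_hasSum _ _ hhas
    intro x _
    change 0 ≤ (1 : ℝ) / ((x : ℕ) : ℝ)
    positivity
  refine h1.trans ?_
  have h2 : ∏ q ∈ s, (1 - f q)⁻¹ ≤ Real.exp (∑ q ∈ s, 1 / (q : ℝ) + ∑ q ∈ s, (1 / (q : ℝ)) ^ 2) := by
    rw [Finset.prod_inv_distrib]
    have h3 := exp_le_prod s hsp
    rw [Real.exp_neg] at h3
    have h4 : ∏ q ∈ s, (1 - f q) = ∏ q ∈ s, (1 - 1 / (q : ℝ)) := rfl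
    rw [h4]
    rw [inv_le_comm₀ (lt_of_lt_of_le (by positivity) h3) (Real.exp_pos _)]
    exact h3
  refine h2.trans ?_
  have h3 : ∑ q ∈ s, (1 / (q : ℝ)) ^ 2 ≤ T := by
    have : ∑ q ∈ s, (1 / (q : ℝ)) ^ 2 = ∑ q ∈ s, 1 / (q : ℝ) ^ 2 := by
      refine Finset.sum_congr rfl fun q _ => ?_
      rw [div_pow, one_pow]
    rw [this]
    exact hs.sum_le_tsum _ fun q _ => by positivity
  have h4 : ∑ q ∈ s, 1 / (q : ℝ) = ∑ q ∈ P, 1 / (q : ℝ) - ∑ q ∈ Q, 1 / (q : ℝ) := by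
    rw [hs', ← Finset.sum_sdiff hQP]; ring
  have h5 := hM W hW
  rw [abs_le] at h5
  have hlogW : 0 < Real.log W := Real.log_pos (by linarith)
  have h6 : Real.exp (C + T) * Real.log W * Real.exp (- ∑ q ∈ Q, 1 / (q : ℝ)) =
      Real.exp (C + T + Real.log (Real.log W) + - ∑ q ∈ Q, 1 / (q : ℝ)) := by
    rw [Real.exp_add (C + T + Real.log (Real.log W)), Real.exp_add (C + T), Real.exp_log hlogW]
  rw [h6]
  apply Real.exp_le_exp.mpr
  rw [h4]
  linarith [h5.2]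

/-- Chebyshev-type bound for the number of primes -/
lemma card_primes_le (K : ℕ) (hK : 2 ≤ K) :
    (((Ioc 0 K).filter Nat.Prime).card : ℝ) ≤ 5 * K / Real.log K := by
  have hKr : (2 : ℝ) ≤ K := by exact_mod_cast hK
  have h1 := Chebyshev.pi_le_log4_mul_div (x := (K : ℝ)) (by linarith)
  rw [Nat.floor_natCast] at h1
  have e : ((Ioc 0 K).filter Nat.Prime).card = Nat.primeCounting K := by
    rw [Nat.primeCounting, Nat.primeCounting', Nat.count_eq_card_filter_range]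
    congr 1
    ext n
    simp only [Finset.mem_filter, Finset.mem_Ioc, Finset.mem_range]
    constructor
    · rintro ⟨h, hp⟩; exact ⟨by omega, hp⟩
    · rintro ⟨h, hp⟩; exact ⟨⟨hp.pos, by omega⟩, hp⟩
  rw [e]
  refine h1.trans ?_
  have hlK : 0 < Real.log K := Real.log_pos (by linarith)
  rw [Real.log_sqrt (by linarith)]
  have h2 : √(K : ℝ) ≤ 2 * K / Real.log K := by
    rw [le_div_iff₀ hlK]
    have h3 : Real.log K ≤ 2 * √K := by
      have := Real.log_le_sub_one_of_pos (show 0 < √(K : ℝ) by positivity)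
      rw [Real.log_sqrt (by linarith)] at this
      linarith
    have h4 : √(K : ℝ) * √K = K := Real.mul_self_sqrt (by linarith)
    have h5 : 0 ≤ √(K : ℝ) := Real.sqrt_nonneg _
    nlinarith
  have h6 : Real.log 4 ≤ 1.4 := by
    have : Real.log 4 = 2 * Real.log 2 := by
      rw [show (4 : ℝ) = 2 ^ 2 by norm_num, Real.log_pow]; norm_num
    have h8 := Real.log_two_lt_d9
    linarith
  have h7 : Real.log 4 * K / (Real.log K / 2) ≤ 2.8 * K / Real.log K := by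
    have e2 : Real.log 4 * K / (Real.log K / 2) = (2 * Real.log 4) * K / Real.log K := by
      field_simp
    rw [e2]
    gcongr
    linarith
  have h8 : (5 : ℝ) * K / Real.log K = 2.8 * K / Real.log K + 2 * K / Real.log K + 0.2 * K / Real.log K := by
    field_simp
    norm_num
  have h9 : 0 ≤ 0.2 * K / Real.log K := by positivity
  linarith

end Pool.Agent.H93
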