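import Pool.Agent.H93.MertensAP3
import Pool.Agent.H93.Sieve

/-!
Primes congruent to `-1` modulo a prime `p`: uniform Mertens estimate (helper file).
-/

namespace Pool.Agent.H93

open Finset Filter Topology ArithmeticFunction

/-- sum of reciprocals of all primes up to `M` -/
lemma exists_mertens_all : ∃ C : ℝ, 0 < C ∧ ∀ M : ℕ, 3 ≤ M →
    |∑ n ∈ (Ioc 0 M).filter Nat.Prime, (1 : ℝ) / n - Real.log (Real.log M)| ≤ C := by
  obtain ⟨C, hC, h⟩ := exists_mertens_recip
  refine ⟨C / Real.log 3 + |Real.log (Real.log 3)| + 2, by positivity, fun M hM => ?_⟩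
  have h1 := h 1 0 (by exact isUnit_of_subsingleton _) 3 M le_rfl hM
  simp only [Nat.totient_one, Nat.cast_one, div_one, one_pow, mul_one] at h1
  have e1 : (Ioc 3 M).filter (fun n : ℕ => n.Prime ∧ (n : ZMod 1) = 0) = (Ioc 3 M).filter Nat.Prime := by
    refine Finset.filter_congr fun n _ => ?_
    constructor
    · exact fun h => h.1
    · exact fun h => ⟨h, Subsingleton.elim _ _⟩
  rw [e1] at h1
  have e2 : ∑ n ∈ (Ioc 0 M).filter Nat.Prime, (1 : ℝ) / n =
      ∑ n ∈ (Ioc 0 3).filter Nat.Prime, (1 : ℝ) / n + ∑ n ∈ (Ioc 3 M).filter Nat.Prime, (1 : ℝ) / n := by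
    simp_rw [Finset.sum_filter]
    rw [Finset.sum_Ioc_consecutive _ (by norm_num) hM]
  have e3 : ∑ n ∈ (Ioc 0 3).filter Nat.Prime, (1 : ℝ) / n = 5 / 6 := by
    have : (Ioc 0 3).filter Nat.Prime = {2, 3} := by decide
    rw [this]
    norm_num
  rw [e2, e3]
  push_cast at h1
  rw [abs_le] at h1 ⊢
  have h2 := le_abs_self (Real.log (Real.log 3))
  have h3 := neg_abs_le (Real.log (Real.log 3))
  constructor <;> linarith

/-- `⌊e^i⌋` -/
noncomputable def E (i : ℕ) : ℕ := ⌊Real.exp i⌋₊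

lemma E_le (i : ℕ) : (E i : ℝ) ≤ Real.exp i := Nat.floor_le (Real.exp_pos _).le

lemma lt_E_add_one (i : ℕ) : Real.exp i < E i + 1 := Nat.lt_floor_add_one _

lemma E_mono : Monotone E := by
  intro i j h
  apply Nat.floor_mono
  apply Real.exp_le_exp.mpr
  exact_mod_cast h

lemma E_zero : E 0 = 1 := by simp [E]

lemma exp_le_E_succ (i : ℕ) : Real.exp i ≤ E (i + 1) := by
  have h1 := lt_E_add_one (i + 1)
  push_cast at h1
  rw [Real.exp_add] at h1
  have h2 : (1 : ℝ) ≤ Real.exp i := Real.one_le_exp (Nat.cast_nonneg i)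
  have h3 : (2.7 : ℝ) ≤ Real.exp 1 := by have := Real.exp_one_gt_d9; linarith
  nlinarith

lemma le_log_E_succ (i : ℕ) : (i : ℝ) ≤ Real.log (E (i + 1)) := by
  have h := exp_le_E_succ i
  have h2 : (0 : ℝ) < E (i + 1) := lt_of_lt_of_le (Real.exp_pos _) h
  rwa [Real.le_log_iff_exp_le h2]

lemma log_E_le (i : ℕ) : Real.log (E i) ≤ i := by
  have h := E_le i
  rcases Nat.eq_zero_or_pos (E i) with h0 | h0
  · rw [h0]; simp
  · have : (0 : ℝ) < E i := by exact_mod_cast h0
    rw [Real.log_le_iff_le_exp this]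
    exact h

lemma sum_Ioc_E (f : ℕ → ℝ) (i j : ℕ) (h : i ≤ j) :
    ∑ n ∈ Ioc (E i) (E j), f n = ∑ k ∈ Ico i j, ∑ n ∈ Ioc (E k) (E (k + 1)), f n := by
  induction j, h using Nat.le_induction with
  | base => simp
  | succ j hj ih =>
    rw [Finset.sum_Ico_succ_top hj, ← ih, Finset.sum_Ioc_consecutive _ (E_mono hj) (E_mono (Nat.le_succ j))]

/-- the set of primes `≡ -1 mod p` in `(m, M]` -/
def Pset (p m M : ℕ) : Finset ℕ := (Ioc m M).filter (fun n : ℕ => n.Prime ∧ (n : ZMod p) = -1)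

lemma mem_Pset {p m M n : ℕ} : n ∈ Pset p m M ↔ (m < n ∧ n ≤ M) ∧ n.Prime ∧ (n : ZMod p) = -1 := by
  unfold Pset
  rw [Finset.mem_filter, Finset.mem_Ioc]

lemma neg_one_iff {p n : ℕ} : (n : ZMod p) = -1 ↔ p ∣ n + 1 := by
  rw [← ZMod.natCast_eq_zero_iff]
  push_cast
  constructor
  · intro h; rw [h]; ring
  · intro h; exact eq_neg_of_add_eq_zero_left h

/-- primes `≡ -1 mod p` in an initial segment, trivial bound -/
lemma sum_Pset_trivial (p K : ℕ) (hp : 2 ≤ p) (hK : 1 ≤ K) :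
    ∑ q ∈ Pset p 0 K, (1 : ℝ) / q ≤ 2 / p * (1 + Real.log (K + 1)) := by
  have hpr : (2 : ℝ) ≤ p := by exact_mod_cast hp
  -- inject q ↦ (q+1)/p
  have h1 : ∑ q ∈ Pset p 0 K, (1 : ℝ) / q ≤ ∑ q ∈ Pset p 0 K, 2 / p * (1 / (((q + 1) / p : ℕ) : ℝ)) := by
    refine Finset.sum_le_sum fun q hq => ?_
    rw [mem_Pset, neg_one_iff] at hq
    obtain ⟨j, hj⟩ := hq.2.2
    have hq0 : (0 : ℝ) < q := by exact_mod_cast hq.1.1
    have hj0 : 0 < j := by
      rcases Nat.eq_zero_or_pos j with rfl | h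
      · simp at hj
      · exact h
    have hjr : (0 : ℝ) < j := by exact_mod_cast hj0
    have e : (q + 1) / p = j := by rw [hj]; exact Nat.mul_div_cancel_left j (by omega)
    rw [e]
    have hqr : (q : ℝ) + 1 = p * j := by exact_mod_cast hj
    have e2 : 2 / (p : ℝ) * (1 / j) = 2 / (p * j) := by field_simp
    rw [e2, ← hqr, div_le_div_iff₀ hq0 (by linarith)]
    have : (1 : ℝ) ≤ q := by exact_mod_cast hq.1.1
    linarith
  refine h1.trans ?_
  rw [← Finset.mul_sum]
  apply mul_le_mul_of_nonneg_left _ (by positivity)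
  have h2 : ∑ q ∈ Pset p 0 K, (1 : ℝ) / (((q + 1) / p : ℕ) : ℝ) =
      ∑ j ∈ (Pset p 0 K).image (fun q => (q + 1) / p), (1 : ℝ) / j := by
    rw [Finset.sum_image]
    intro a ha b hb hab
    simp only [Finset.mem_coe, mem_Pset, neg_one_iff] at ha hb
    obtain ⟨j, hj⟩ := ha.2.2
    obtain ⟨k, hk⟩ := hb.2.2
    have ea : (a + 1) / p = j := by rw [hj]; exact Nat.mul_div_cancel_left j (by omega)
    have eb : (b + 1) / p = k := by rw [hk]; exact Nat.mul_div_cancel_left k (by omega)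
    have hjk : j = k := by
      have := hab
      simp only at this
      rw [ea, eb] at this
      exact this
    subst hjk
    omega
  rw [h2]
  have h3 : (Pset p 0 K).image (fun q => (q + 1) / p) ⊆ Finset.Icc 1 (K + 1) := by
    intro j hj
    rw [Finset.mem_image] at hj
    obtain ⟨q, hq, rfl⟩ := hj
    rw [mem_Pset, neg_one_iff] at hq
    rw [Finset.mem_Icc]
    constructor
    · exact Nat.div_pos (Nat.le_of_dvd (Nat.succ_pos _) hq.2.2) (by omega)
    · exact (Nat.div_le_self _ _).trans (by omega)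
  refine (Finset.sum_le_sum_of_subset_of_nonneg h3 fun j _ _ => by positivity).trans ?_
  have h4 := harmonic_le_one_add_log (K + 1)
  have h5 : ((harmonic (K + 1) : ℚ) : ℝ) = ∑ j ∈ Finset.Icc 1 (K + 1), (1 : ℝ) / j := by
    rw [harmonic_eq_sum_Icc]
    push_cast
    refine Finset.sum_congr rfl fun j _ => ?_
    rw [one_div]
  rw [← h5]
  push_cast at h4
  exact h4

end Pool.Agent.H93
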