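import Pool.Agent.H93.SmallPrimes

/-!
Primes congruent to `-1` modulo a prime `p`: uniform Mertens estimate, part 2 (helper file).
-/

namespace Pool.Agent.H93

open Finset Filter Topology ArithmeticFunction

/-- one block -/
lemma block_bound : ∃ C : ℝ, 0 < C ∧ ∃ i0 : ℕ, ∀ p : ℕ, p.Prime → ∀ i : ℕ, i0 ≤ i →
    ∑ q ∈ Pset p (E i) (E (i + 1)), (1 : ℝ) / q ≤
      C * (1 / p * (Real.log i / i) + 1 / (i : ℝ) ^ 5) := by
  obtain ⟨C, hC, hM⟩ := exists_mertens_all
  -- threshold
  have hev : ∀ᶠ i : ℕ in atTop, 24 * Real.log i ≤ i := by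
    have h1 : Tendsto (fun x : ℝ => Real.log x / x) atTop (𝓝 0) :=
      Real.isLittleO_log_id_atTop.tendsto_div_nhds_zero
    have h2 : Tendsto (fun i : ℕ => Real.log i / i) atTop (𝓝 0) :=
      h1.comp tendsto_natCast_atTop_atTop
    have h3 : ∀ᶠ i : ℕ in atTop, Real.log i / i < 1 / 24 :=
      h2.eventually (gt_mem_nhds (by norm_num))
    filter_upwards [h3, eventually_gt_atTop 0] with i hi hi0
    have hir : (0 : ℝ) < i := by exact_mod_cast hi0
    rw [div_lt_div_iff₀ hir (by norm_num)] at hi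
    linarith
  obtain ⟨i0, hi0⟩ := eventually_atTop.mp hev
  refine ⟨6 * (16 * Real.exp (C + 1)) + 6 * Real.exp (3 * C), by positivity, max i0 3, ?_⟩
  intro p hp i hi
  have hi1 : 24 * Real.log i ≤ i := hi0 i (le_trans (le_max_left _ _) hi)
  have hi3 : 3 ≤ i := le_trans (le_max_right _ _) hi
  have hir : (3 : ℝ) ≤ i := by exact_mod_cast hi3
  have hli : 1 < Real.log i := by
    rw [Real.lt_log_iff_exp_lt (by linarith)]
    have := Real.exp_one_lt_d9
    linarith
  have hp0 : 0 < p := hp.pos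
  have hpr : (2 : ℝ) ≤ p := by exact_mod_cast hp.two_le
  set L : ℝ := i / (8 * Real.log i) with hL
  have hL3 : 3 ≤ L := by
    rw [hL, le_div_iff₀ (by linarith)]; linarith
  have hLi : L ≤ i := by
    rw [hL]; apply div_le_self (by linarith); linarith
  set z : ℝ := Real.exp L with hz
  have hz0 : 0 < z := Real.exp_pos _
  have hze : Real.exp 1 ≤ z := Real.exp_le_exp.mpr (by linarith)
  have hlz : Real.log z = L := Real.log_exp L
  have hz4 : 4 ≤ z := by
    have := Real.add_one_le_exp L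
    linarith
  set u : ℕ := ⌊z⌋₊ with hu
  have huz : (u : ℝ) ≤ z := Nat.floor_le hz0.le
  have hzu : z < u + 1 := Nat.lt_floor_add_one z
  have hu4 : 4 ≤ u := Nat.le_floor (by exact_mod_cast hz4)
  have hur : (4 : ℝ) ≤ u := by exact_mod_cast hu4
  have hlu : L / 2 ≤ Real.log u := by
    have h1 : z ≤ (u : ℝ) ^ 2 := by nlinarith
    have h2 : Real.log z ≤ Real.log ((u : ℝ) ^ 2) := Real.log_le_log hz0 h1
    rw [Real.log_pow, hlz] at h2
    push_cast at h2
    linarith
  have hlu1 : Real.log u ≤ L := by rw [← hlz]; exact Real.log_le_log (by linarith) huz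
  have hlu0 : 0 < Real.log u := Real.log_pos (by linarith)
  set Q : Finset ℕ := ((Ioc 0 u).filter Nat.Prime).erase p with hQ
  have hQp : ∀ q ∈ Q, q.Prime := by
    intro q hq
    rw [hQ, Finset.mem_erase, Finset.mem_filter] at hq
    exact hq.2.2
  have hQle : ∀ q ∈ Q, q ≤ u := by
    intro q hq
    rw [hQ, Finset.mem_erase, Finset.mem_filter, Finset.mem_Ioc] at hq
    exact hq.2.1.2
  have hQne : ∀ q ∈ Q, q ≠ p := by
    intro q hq
    rw [hQ, Finset.mem_erase] at hq
    exact hq.1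
  set X : ℕ := E (i + 1) with hX
  have hXe : Real.exp i ≤ X := exp_le_E_succ i
  have hX1 : 1 ≤ X := by
    have : (1 : ℝ) ≤ Real.exp i := Real.one_le_exp (by linarith)
    exact_mod_cast this.trans hXe
  have hXu : (X : ℝ) ≤ Real.exp (i + 1) := by
    have := E_le (i + 1)
    push_cast at this
    exact this
  have hGL := sieve_GL Q hQp z hze (fun q hq => le_trans (by exact_mod_cast hQle q hq) huz) p hp0
    (fun q hq => (Nat.coprime_primes (hQp q hq) hp).mpr (hQne q hq)) (p - 1) 1 zero_le_one le_rfl X hX1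
  -- the sum of reciprocals over Q
  have hall := hM u (by omega)
  rw [abs_le] at hall
  have hQsum_le : ∑ q ∈ Q, (1 : ℝ) / q ≤ Real.log i + C := by
    have h1 : ∑ q ∈ Q, (1 : ℝ) / q ≤ ∑ q ∈ (Ioc 0 u).filter Nat.Prime, (1 : ℝ) / q :=
      Finset.sum_le_sum_of_subset_of_nonneg (Finset.erase_subset _ _) fun q _ _ => by positivity
    have h2 : Real.log (Real.log u) ≤ Real.log i := Real.log_le_log hlu0 (hlu1.trans hLi)
    linarith
  have hQsum_ge : Real.log L - Real.log 2 - C - 1 / 2 ≤ ∑ q ∈ Q, (1 : ℝ) / q := by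
    have h1 : ∑ q ∈ (Ioc 0 u).filter Nat.Prime, (1 : ℝ) / q ≤ ∑ q ∈ Q, (1 : ℝ) / q + 1 / 2 := by
      by_cases hpm : p ∈ (Ioc 0 u).filter Nat.Prime
      · rw [← Finset.add_sum_erase _ _ hpm]
        have : (1 : ℝ) / p ≤ 1 / 2 := one_div_le_one_div_of_le (by norm_num) hpr
        linarith
      · rw [hQ, Finset.erase_eq_of_notMem hpm]
        linarith
    have h2 : Real.log (L / 2) ≤ Real.log (Real.log u) := Real.log_le_log (by linarith) hlu
    rw [Real.log_div (by linarith) (by norm_num)] at h2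
    linarith
  have hprod : ∏ q ∈ Q, (1 - 1 / (q : ℝ)) ≤ 2 * Real.exp (C + 1) / L := by
    have h1 : ∏ q ∈ Q, (1 - 1 / (q : ℝ)) ≤ Real.exp (- ∑ q ∈ Q, 1 / (q : ℝ)) := by
      rw [← Finset.sum_neg_distrib, Real.exp_sum]
      refine Finset.prod_le_prod (fun q hq => ?_) (fun q hq => ?_)
      · have : (1 : ℝ) ≤ q := by exact_mod_cast (hQp q hq).one_le
        rw [sub_nonneg, div_le_one (by linarith)]
        exact this
      · have := Real.add_one_le_exp (-(1 / (q : ℝ)))
        linarith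
    refine h1.trans ?_
    have h2 : Real.exp (- ∑ q ∈ Q, 1 / (q : ℝ)) ≤ Real.exp (-(Real.log L) + Real.log 2 + (C + 1)) :=
      Real.exp_le_exp.mpr (by linarith)
    refine h2.trans (le_of_eq ?_)
    rw [Real.exp_add, Real.exp_add, Real.exp_neg, Real.exp_log (by linarith), Real.exp_log (by norm_num)]
    field_simp
  have hexp : Real.exp (-(Real.log X / Real.log z) + 3 * ∑ q ∈ Q, 1 / (q : ℝ)) ≤
      Real.exp (3 * C) * (1 / (i : ℝ) ^ 5) := by
    have h1 : (i : ℝ) ≤ Real.log X := le_log_E_succ i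
    have h2 : 8 * Real.log i ≤ Real.log X / Real.log z := by
      rw [hlz, le_div_iff₀ (by linarith), hL]
      have : 8 * Real.log i * (i / (8 * Real.log i)) = i := by
        field_simp
      rw [this]
      exact h1
    have h3 : Real.exp (-(Real.log X / Real.log z) + 3 * ∑ q ∈ Q, 1 / (q : ℝ)) ≤
        Real.exp (3 * C + -(5 * Real.log i)) := Real.exp_le_exp.mpr (by linarith)
    refine h3.trans (le_of_eq ?_)
    rw [Real.exp_add, Real.exp_neg]
    congr 1
    rw [show (5 : ℝ) * Real.log i = Real.log ((i : ℝ) ^ 5) by rw [Real.log_pow]; norm_num]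
    rw [Real.exp_log (by positivity), one_div]
  -- counting
  have hcount : ((Pset p (E i) X).card : ℝ) ≤
      ∑ n ∈ (Ioc 0 X).filter (fun n => n ≡ p - 1 [MOD p]), (1 - (1 : ℝ)) ^ (Q.filter (· ∣ n)).card := by
    have h1 : ((Pset p (E i) X).card : ℝ) = ∑ n ∈ Pset p (E i) X, (1 - (1 : ℝ)) ^ (Q.filter (· ∣ n)).card := by
      rw [Finset.card_eq_sum_ones]
      push_cast
      refine Finset.sum_congr rfl fun n hn => ?_
      rw [mem_Pset] at hn
      have hEu : u ≤ E i := by
        apply Nat.floor_mono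
        exact Real.exp_le_exp.mpr hLi
      have : Q.filter (· ∣ n) = ∅ := by
        rw [Finset.filter_eq_empty_iff]
        intro q hq hqn
        have h2 := (Nat.prime_dvd_prime_iff_eq (hQp q hq) hn.2.1).mp hqn
        have h3 := hQle q hq
        omega
      rw [this]
      simp
    rw [h1]
    refine Finset.sum_le_sum_of_subset_of_nonneg ?_ (fun n _ _ => by positivity)
    intro n hn
    rw [mem_Pset, neg_one_iff] at hn
    rw [Finset.mem_filter, Finset.mem_Ioc]
    refine ⟨⟨by omega, hn.1.2⟩, ?_⟩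
    have h4 : (n + 1) ≡ (p - 1 + 1) [MOD p] := by
      rw [Nat.sub_add_cancel hp.one_le]
      exact (Nat.modEq_zero_iff_dvd.mpr hn.2.2).trans (Nat.modEq_zero_iff_dvd.mpr dvd_rfl).symm
    exact Nat.ModEq.add_right_cancel' 1 h4
  have hcount2 : ((Pset p (E i) X).card : ℝ) ≤
      X * (1 / p * (2 * Real.exp (C + 1) / L) + Real.exp (3 * C) * (1 / (i : ℝ) ^ 5)) := by
    rw [abs_le] at hGL
    have h1 := hGL.2
    generalize hSdef : ∑ n ∈ (Ioc 0 X).filter (fun n => n ≡ p - 1 [MOD p]),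
      (1 - (1 : ℝ)) ^ (Q.filter (· ∣ n)).card = S at hcount h1
    have h2 : (X : ℝ) / p * ∏ q ∈ Q, (1 - 1 / (q : ℝ)) ≤ X / p * (2 * Real.exp (C + 1) / L) := by
      gcongr
    have h3 : (X : ℝ) * Real.exp (-(Real.log X / Real.log z) + 3 * ∑ q ∈ Q, 1 / (q : ℝ)) ≤
        X * (Real.exp (3 * C) * (1 / (i : ℝ) ^ 5)) := by gcongr
    calc ((Pset p (E i) X).card : ℝ) ≤ X / p * (2 * Real.exp (C + 1) / L) +
          X * (Real.exp (3 * C) * (1 / (i : ℝ) ^ 5)) := by linarith
      _ = _ := by ring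
  -- sum of reciprocals in the block
  have hEi0 : Real.exp i / 2 ≤ E i := by
    have h1 := lt_E_add_one i
    have h2 := Real.add_one_le_exp (i : ℝ)
    linarith
  have hsum : ∑ q ∈ Pset p (E i) X, (1 : ℝ) / q ≤ (Pset p (E i) X).card * (2 / Real.exp i) := by
    rw [← nsmul_eq_mul]
    refine Finset.sum_le_card_nsmul _ _ _ fun q hq => ?_
    rw [mem_Pset] at hq
    have h1 : (E i : ℝ) < q := by exact_mod_cast hq.1.1
    have h2 : (0 : ℝ) < Real.exp i := Real.exp_pos _
    rw [div_le_div_iff₀ (by linarith) h2]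
    linarith
  refine hsum.trans ?_
  have hXexp : (X : ℝ) * (2 / Real.exp i) ≤ 6 := by
    have h1 : Real.exp ((i : ℝ) + 1) = Real.exp i * Real.exp 1 := Real.exp_add _ _
    have h2 := Real.exp_one_lt_d9
    rw [mul_div_assoc', div_le_iff₀ (Real.exp_pos _)]
    rw [h1] at hXu
    have h3 : 0 < Real.exp (i : ℝ) := Real.exp_pos _
    nlinarith
  calc ((Pset p (E i) X).card : ℝ) * (2 / Real.exp i) ≤
        (X * (1 / p * (2 * Real.exp (C + 1) / L) + Real.exp (3 * C) * (1 / (i : ℝ) ^ 5))) *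
          (2 / Real.exp i) := by gcongr
    _ = (X * (2 / Real.exp i)) * (1 / p * (2 * Real.exp (C + 1) / L) +
          Real.exp (3 * C) * (1 / (i : ℝ) ^ 5)) := by ring
    _ ≤ 6 * (1 / p * (2 * Real.exp (C + 1) / L) + Real.exp (3 * C) * (1 / (i : ℝ) ^ 5)) := by
        gcongr
    _ = 6 * (16 * Real.exp (C + 1)) * (1 / p * (Real.log i / i)) +
          6 * Real.exp (3 * C) * (1 / (i : ℝ) ^ 5) := by
        rw [hL]
        field_simp
        ring
    _ ≤ (6 * (16 * Real.exp (C + 1)) + 6 * Real.exp (3 * C)) * (1 / p * (Real.log i / i) +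
          1 / (i : ℝ) ^ 5) := by
        have h1 : 0 ≤ 1 / (p : ℝ) * (Real.log i / i) := by
          have : 0 ≤ Real.log i := by linarith
          positivity
        have h2 : 0 ≤ 1 / (i : ℝ) ^ 5 := by positivity
        have h3 : 0 < Real.exp (C + 1) := Real.exp_pos _
        have h4 : 0 < Real.exp (3 * C) := Real.exp_pos _
        have h5 := mul_nonneg h4.le h1
        have h6 := mul_nonneg h3.le h2
        nlinarith

end Pool.Agent.H93
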