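import Pool.Agent.H93.SmallPrimes2

/-!
Primes congruent to `-1` modulo a prime `p`: uniform Mertens estimate, part 3 (helper file).
-/

namespace Pool.Agent.H93

open Finset Filter Topology ArithmeticFunction

lemma sum_Ico_recip_le (a b : ℕ) (ha : 1 ≤ a) (hab : a ≤ b) :
    ∑ i ∈ Ico a b, (1 : ℝ) / i ≤ 1 + Real.log b := by
  have h4 := harmonic_le_one_add_log b
  have h5 : ((harmonic b : ℚ) : ℝ) = ∑ j ∈ Finset.Icc 1 b, (1 : ℝ) / j := by
    rw [harmonic_eq_sum_Icc]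
    push_cast
    refine Finset.sum_congr rfl fun j _ => ?_
    rw [one_div]
  rw [h5] at h4
  refine le_trans ?_ h4
  refine Finset.sum_le_sum_of_subset_of_nonneg ?_ fun j _ _ => by positivity
  intro j hj
  rw [Finset.mem_Ico] at hj
  rw [Finset.mem_Icc]
  omega

lemma sum_Ico_recip_five (a b : ℕ) (ha : 2 ≤ a) (hab : a ≤ b) :
    ∑ i ∈ Ico a b, (1 : ℝ) / (i : ℝ) ^ 5 ≤ 1 / ((a : ℝ) - 1) - 1 / ((b : ℝ) - 1) := by
  induction b, hab using Nat.le_induction with
  | base => simp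
  | succ b hb ih =>
    rw [Finset.sum_Ico_succ_top hb]
    have hbr : (2 : ℝ) ≤ b := by exact_mod_cast ha.trans hb
    have h1 : (1 : ℝ) / (b : ℝ) ^ 5 ≤ 1 / ((b : ℝ) - 1) - 1 / (((b + 1 : ℕ) : ℝ) - 1) := by
      push_cast
      have e : 1 / ((b : ℝ) - 1) - 1 / ((b : ℝ) + 1 - 1) = 1 / (((b : ℝ) - 1) * b) := by
        have : (b : ℝ) - 1 ≠ 0 := by linarith
        have : (b : ℝ) ≠ 0 := by linarith
        rw [add_sub_cancel_right]
        field_simp
        ring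
      rw [e]
      apply one_div_le_one_div_of_le
      · nlinarith
      · have h2 : (b : ℝ) ^ 2 ≤ (b : ℝ) ^ 5 := pow_le_pow_right₀ (by linarith) (by norm_num)
        nlinarith
    linarith

/-- initial segment bound -/
lemma small_bound : ∃ C : ℝ, 0 < C ∧ ∃ p0 : ℕ, ∀ p : ℕ, p.Prime → p0 ≤ p →
    ∑ q ∈ Pset p 0 (E (p ^ 7)), (1 : ℝ) / q ≤
      C * (1 / p * (√p + 3) + 1 / p * (1 + 7 * Real.log p) ^ 2 + 1 / (√p - 2)) := by
  obtain ⟨C, hC, i0, hb⟩ := block_bound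
  refine ⟨C + 2, by positivity, max ((max i0 4) ^ 2) 16, fun p hp hp0 => ?_⟩
  have hp1 : (max i0 4) ^ 2 ≤ p := le_trans (le_max_left _ _) hp0
  have hp16 : 16 ≤ p := le_trans (le_max_right _ _) hp0
  have hpr : (16 : ℝ) ≤ p := by exact_mod_cast hp16
  set i1 := Nat.sqrt p with hi1
  have hi1a : max i0 4 ≤ i1 := by
    rw [hi1, Nat.le_sqrt]
    rw [← sq]
    exact hp1
  have hi1b : i1 ≤ p ^ 7 := (Nat.sqrt_le_self p).trans (Nat.le_self_pow (by norm_num) p)
  have hi1r : (i1 : ℝ) ≤ √p := Real.nat_sqrt_le_real_sqrt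
  have hi1l : √p - 1 ≤ i1 := by
    have := Real.real_sqrt_lt_nat_sqrt_succ (a := p)
    linarith
  have hi14 : (4 : ℝ) ≤ i1 := by exact_mod_cast (le_max_right i0 4).trans hi1a
  have hsplit : ∑ q ∈ Pset p 0 (E (p ^ 7)), (1 : ℝ) / q =
      ∑ q ∈ Pset p 0 (E i1), (1 : ℝ) / q + ∑ k ∈ Ico i1 (p ^ 7), ∑ q ∈ Pset p (E k) (E (k + 1)), (1 : ℝ) / q := by
    unfold Pset
    simp_rw [Finset.sum_filter]
    rw [← sum_Ioc_E _ i1 (p ^ 7) hi1b, Finset.sum_Ioc_consecutive _ (Nat.zero_le _) (E_mono hi1b)]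
  rw [hsplit]
  have h1 : ∑ q ∈ Pset p 0 (E i1), (1 : ℝ) / q ≤ 2 * (1 / p * (√p + 3)) := by
    have hE1 : 1 ≤ E i1 := by
      rw [← E_zero]; exact E_mono (Nat.zero_le _)
    refine (sum_Pset_trivial p (E i1) hp.two_le hE1).trans ?_
    have hE1r : (1 : ℝ) ≤ E i1 := by exact_mod_cast hE1
    have h2 : Real.log (E i1 + 1) ≤ i1 + 1 := by
      have h3 : Real.log ((E i1 : ℝ) + 1) ≤ Real.log (2 * E i1) := Real.log_le_log (by linarith) (by linarith)
      rw [Real.log_mul (by norm_num) (by linarith)] at h3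
      have h4 := log_E_le i1
      have h5 := Real.log_two_lt_d9
      linarith
    have e : 2 * (1 / (p : ℝ) * (√p + 3)) = 2 / p * (√p + 3) := by ring
    rw [e]
    apply mul_le_mul_of_nonneg_left _ (by positivity)
    linarith
  have h2 : ∑ k ∈ Ico i1 (p ^ 7), ∑ q ∈ Pset p (E k) (E (k + 1)), (1 : ℝ) / q ≤
      ∑ k ∈ Ico i1 (p ^ 7), C * (1 / p * ((7 * Real.log p) * (1 / k)) + 1 / (k : ℝ) ^ 5) := by
    refine Finset.sum_le_sum fun k hk => ?_
    rw [Finset.mem_Ico] at hk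
    refine (hb p hp k ((le_max_left i0 4).trans (hi1a.trans hk.1))).trans ?_
    have hk0 : (4 : ℝ) ≤ k := hi14.trans (by exact_mod_cast hk.1)
    have h3 : Real.log k ≤ 7 * Real.log p := by
      have h4 : Real.log k ≤ Real.log ((p : ℝ) ^ 7) :=
        Real.log_le_log (by linarith) (by exact_mod_cast hk.2.le)
      rw [Real.log_pow] at h4
      push_cast at h4
      exact h4
    apply mul_le_mul_of_nonneg_left _ hC.le
    have h5 : Real.log k / k ≤ (7 * Real.log p) * (1 / k) := by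
      rw [mul_one_div]
      apply div_le_div_of_nonneg_right h3 (by linarith)
    have h6 : 1 / (p : ℝ) * (Real.log k / k) ≤ 1 / p * ((7 * Real.log p) * (1 / k)) := by
      apply mul_le_mul_of_nonneg_left h5 (by positivity)
    linarith
  have h3 : ∑ k ∈ Ico i1 (p ^ 7), C * (1 / (p : ℝ) * ((7 * Real.log p) * (1 / k)) + 1 / (k : ℝ) ^ 5) =
      C * (1 / p * ((7 * Real.log p) * ∑ k ∈ Ico i1 (p ^ 7), (1 : ℝ) / k) +
        ∑ k ∈ Ico i1 (p ^ 7), 1 / (k : ℝ) ^ 5) := by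
    rw [← Finset.mul_sum, Finset.sum_add_distrib, ← Finset.mul_sum, ← Finset.mul_sum]
  have hlogp : 0 ≤ Real.log p := Real.log_nonneg (by linarith)
  have h4 : ∑ k ∈ Ico i1 (p ^ 7), (1 : ℝ) / k ≤ 1 + 7 * Real.log p := by
    have := sum_Ico_recip_le i1 (p ^ 7) (by
      have : (1 : ℝ) ≤ i1 := by linarith
      exact_mod_cast this) hi1b
    push_cast at this
    rw [Real.log_pow] at this
    push_cast at this
    exact this
  have h5 : ∑ k ∈ Ico i1 (p ^ 7), 1 / (k : ℝ) ^ 5 ≤ 1 / (√p - 2) := by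
    have h6 := sum_Ico_recip_five i1 (p ^ 7) (by
      have : (2 : ℝ) ≤ i1 := by linarith
      exact_mod_cast this) hi1b
    have h7 : 0 ≤ 1 / (((p ^ 7 : ℕ) : ℝ) - 1) := by
      apply div_nonneg zero_le_one
      have : (1 : ℝ) ≤ ((p ^ 7 : ℕ) : ℝ) := by exact_mod_cast Nat.one_le_pow _ _ hp.pos
      linarith
    have h8 : 1 / ((i1 : ℝ) - 1) ≤ 1 / (√p - 2) := by
      apply one_div_le_one_div_of_le
      · linarith
      · linarith
    linarith
  have h6 : 1 / (p : ℝ) * ((7 * Real.log p) * ∑ k ∈ Ico i1 (p ^ 7), (1 : ℝ) / k) ≤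
      1 / p * (1 + 7 * Real.log p) ^ 2 := by
    apply mul_le_mul_of_nonneg_left _ (by positivity)
    rw [sq]
    apply mul_le_mul (by linarith) h4 (Finset.sum_nonneg fun k _ => by positivity) (by linarith)
  have h7 : C * (1 / p * ((7 * Real.log p) * ∑ k ∈ Ico i1 (p ^ 7), (1 : ℝ) / k) +
        ∑ k ∈ Ico i1 (p ^ 7), 1 / (k : ℝ) ^ 5) ≤
      C * (1 / p * (1 + 7 * Real.log p) ^ 2 + 1 / (√p - 2)) := by
    apply mul_le_mul_of_nonneg_left _ hC.le
    linarith
  have h8 : 0 ≤ 1 / (p : ℝ) * (√p + 3) := by positivity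
  have h9 : 0 ≤ 1 / (p : ℝ) * (1 + 7 * Real.log p) ^ 2 := by positivity
  have h10 : 0 ≤ 1 / (√(p : ℝ) - 2) := by
    apply div_nonneg zero_le_one
    linarith
  nlinarith

lemma small_tendsto (C : ℝ) : Tendsto (fun p : ℕ => C * (1 / (p : ℝ) * (√p + 3) +
    1 / (p : ℝ) * (1 + 7 * Real.log p) ^ 2 + 1 / (√(p : ℝ) - 2))) atTop (𝓝 0) := by
  have hp : Tendsto (fun p : ℕ => (p : ℝ)) atTop atTop := tendsto_natCast_atTop_atTop
  have hs : Tendsto (fun p : ℕ => √(p : ℝ)) atTop atTop := Real.tendsto_sqrt_atTop.comp hp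
  have h1 : Tendsto (fun p : ℕ => 1 / (p : ℝ) * (√p + 3)) atTop (𝓝 0) := by
    have a1 : Tendsto (fun p : ℕ => 1 / √(p : ℝ)) atTop (𝓝 0) :=
      tendsto_const_nhds.div_atTop hs
    have a2 : Tendsto (fun p : ℕ => 3 * (1 / (p : ℝ))) atTop (𝓝 (3 * 0)) := by
      apply Tendsto.const_mul
      exact tendsto_const_nhds.div_atTop hp
    have a3 := a1.add a2
    rw [mul_zero, add_zero] at a3
    refine a3.congr' ?_
    filter_upwards [eventually_gt_atTop 0] with p hp0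
    have hpr : (0 : ℝ) < p := by exact_mod_cast hp0
    have : √(p : ℝ) * √(p : ℝ) = p := Real.mul_self_sqrt hpr.le
    have hsp : 0 < √(p : ℝ) := Real.sqrt_pos.mpr hpr
    have e : 1 / √(p : ℝ) = 1 / p * √p := by
      rw [div_mul_eq_mul_div, one_mul, div_eq_div_iff hsp.ne' hpr.ne']
      linarith
    rw [e]
    ring
  have h2 : Tendsto (fun p : ℕ => 1 / (p : ℝ) * (1 + 7 * Real.log p) ^ 2) atTop (𝓝 0) := by
    -- (log p)^2 / p → 0
    have b0 : Tendsto (fun x : ℝ => Real.log x ^ 2 / x) atTop (𝓝 0) := by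
      have := (Real.isLittleO_pow_log_id_atTop (n := 2)).tendsto_div_nhds_zero
      simpa using this
    have b1 : Tendsto (fun x : ℝ => Real.log x / x) atTop (𝓝 0) :=
      Real.isLittleO_log_id_atTop.tendsto_div_nhds_zero
    have b2 : Tendsto (fun x : ℝ => x⁻¹) atTop (𝓝 0) := tendsto_inv_atTop_zero
    have b3 : Tendsto (fun x : ℝ => x⁻¹ + 14 * (Real.log x / x) + 49 * (Real.log x ^ 2 / x)) atTop (𝓝 0) := by
      have := (b2.add (b1.const_mul 14)).add (b0.const_mul 49)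
      simpa using this
    refine (b3.comp hp).congr fun p => ?_
    simp only [Function.comp]
    ring
  have h3 : Tendsto (fun p : ℕ => 1 / (√(p : ℝ) - 2)) atTop (𝓝 0) := by
    have : Tendsto (fun p : ℕ => √(p : ℝ) - 2) atTop atTop :=
      tendsto_atTop_add_const_right _ (-2) hs
    exact tendsto_const_nhds.div_atTop this
  have := ((h1.add h2).add h3).const_mul C
  simpa using this

/-- Mertens for primes `≡ -1 mod p` over a range above `E (p^7)`. -/
lemma mertens_tail : ∃ C : ℝ, 0 < C ∧ ∀ p : ℕ, p.Prime → ∀ M : ℕ, E (p ^ 7) ≤ M →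
    |∑ q ∈ Pset p (E (p ^ 7)) M, (1 : ℝ) / q - Real.log (Real.log M) / (p - 1)| ≤
      C / p + 7 * Real.log p / (p - 1) := by
  obtain ⟨C, hC, h⟩ := exists_mertens_recip
  refine ⟨2 * C, by positivity, fun p hp M hM => ?_⟩
  have : NeZero p := ⟨hp.ne_zero⟩
  have hpr : (2 : ℝ) ≤ p := by exact_mod_cast hp.two_le
  set m := E (p ^ 7) with hm
  have hp7 : 128 ≤ p ^ 7 := by
    calc 128 = 2 ^ 7 := by norm_num
      _ ≤ p ^ 7 := Nat.pow_le_pow_left hp.two_le 7
  have hm3 : 3 ≤ m := by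
    have h1 : E 2 ≤ m := E_mono (by omega)
    have h2 : 3 ≤ E 2 := by
      apply Nat.le_floor
      have := Real.add_one_le_exp ((2 : ℕ) : ℝ)
      push_cast at this ⊢
      linarith
    exact h2.trans h1
  have h1 := h p (-1) (isUnit_one.neg) m M hm3 hM
  rw [Nat.totient_prime hp] at h1
  have hcast : (((p - 1 : ℕ) : ℝ)) = (p : ℝ) - 1 := by
    rw [Nat.cast_sub hp.one_le]; simp
  rw [hcast] at h1
  have hlm : (p : ℝ) ^ 7 - 1 ≤ Real.log m := by
    obtain ⟨k, hk⟩ : ∃ k, p ^ 7 = k + 1 := ⟨p ^ 7 - 1, by omega⟩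
    have h2 := le_log_E_succ k
    rw [← hk] at h2
    have h3 : (k : ℝ) = (p : ℝ) ^ 7 - 1 := by
      have : ((p ^ 7 : ℕ) : ℝ) = k + 1 := by exact_mod_cast hk
      push_cast at this
      linarith
    linarith
  have hlm6 : (p : ℝ) ^ 6 / 2 ≤ Real.log m := by
    refine le_trans ?_ hlm
    have h4 : (p : ℝ) ^ 7 = p ^ 6 * p := by ring
    have h5 : (64 : ℝ) ≤ (p : ℝ) ^ 6 := by
      calc (64 : ℝ) = 2 ^ 6 := by norm_num
        _ ≤ _ := pow_le_pow_left₀ (by norm_num) hpr 6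
    nlinarith
  have hlm0 : 0 < Real.log m := lt_of_lt_of_le (by positivity) hlm6
  have hllm : Real.log (Real.log m) ≤ 7 * Real.log p := by
    have h2 : Real.log m ≤ (p : ℝ) ^ 7 := by
      have := log_E_le (p ^ 7)
      push_cast at this
      exact this
    have h3 : Real.log (Real.log m) ≤ Real.log ((p : ℝ) ^ 7) := Real.log_le_log hlm0 h2
    rw [Real.log_pow] at h3
    push_cast at h3
    exact h3
  have hllm0 : 0 ≤ Real.log (Real.log m) := by
    apply Real.log_nonneg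
    have h5 : (64 : ℝ) ≤ (p : ℝ) ^ 6 := by
      calc (64 : ℝ) = 2 ^ 6 := by norm_num
        _ ≤ _ := pow_le_pow_left₀ (by norm_num) hpr 6
    linarith
  have hb1 : C * (p : ℝ) ^ 5 / Real.log m ≤ 2 * C / p := by
    rw [div_le_div_iff₀ hlm0 (by linarith)]
    have : C * (p : ℝ) ^ 5 * p = C * (2 * ((p : ℝ) ^ 6 / 2)) := by ring
    rw [this]
    nlinarith
  have hp1 : (0 : ℝ) < (p : ℝ) - 1 := by linarith
  have hb2 : Real.log (Real.log m) / ((p : ℝ) - 1) ≤ 7 * Real.log p / (p - 1) :=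
    div_le_div_of_nonneg_right hllm hp1.le
  have hb3 : 0 ≤ Real.log (Real.log m) / ((p : ℝ) - 1) := div_nonneg hllm0 hp1.le
  unfold Pset
  rw [sub_div] at h1
  rw [abs_le] at h1 ⊢
  constructor <;> linarith

/-- The uniform Mertens estimate. -/
theorem mertens_neg_one (ε : ℝ) (hε : 0 < ε) : ∃ p0 : ℕ, ∀ p : ℕ, p.Prime → p0 ≤ p →
    ∀ M : ℕ, E (p ^ 7) ≤ M →
    |∑ q ∈ Pset p 0 M, (1 : ℝ) / q - Real.log (Real.log M) / (p - 1)| ≤ ε := by
  obtain ⟨C1, hC1, p1, h1⟩ := small_bound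
  obtain ⟨C2, hC2, h2⟩ := mertens_tail
  have t1 := small_tendsto C1
  have t2 : Tendsto (fun p : ℕ => C2 / (p : ℝ) + 7 * Real.log p / (p - 1)) atTop (𝓝 0) := by
    have hp : Tendsto (fun p : ℕ => (p : ℝ)) atTop atTop := tendsto_natCast_atTop_atTop
    have a1 : Tendsto (fun x : ℝ => C2 / x) atTop (𝓝 0) := tendsto_const_nhds.div_atTop tendsto_id
    have a2 : Tendsto (fun x : ℝ => 7 * Real.log x / (x - 1)) atTop (𝓝 0) := by
      have b1 : Tendsto (fun x : ℝ => Real.log x / x) atTop (𝓝 0) :=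
        Real.isLittleO_log_id_atTop.tendsto_div_nhds_zero
      have b2 : Tendsto (fun x : ℝ => x / (x - 1)) atTop (𝓝 1) := by
        have : Tendsto (fun x : ℝ => 1 + 1 / (x - 1)) atTop (𝓝 (1 + 0)) := by
          apply Tendsto.add tendsto_const_nhds
          apply tendsto_const_nhds.div_atTop
          exact tendsto_atTop_add_const_right _ (-1) tendsto_id
        rw [add_zero] at this
        refine this.congr' ?_
        filter_upwards [eventually_gt_atTop 1] with x hx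
        have : x - 1 ≠ 0 := by linarith
        field_simp
        ring
      have b3 := (b1.mul b2).const_mul 7
      simp only [zero_mul, mul_zero] at b3
      refine b3.congr' ?_
      filter_upwards [eventually_gt_atTop 1] with x hx
      have : x - 1 ≠ 0 := by linarith
      have : x ≠ 0 := by linarith
      field_simp
    have := (a1.add a2).comp hp
    simp only [add_zero] at this
    exact this
  have e1 := (t1.eventually (gt_mem_nhds (show (0 : ℝ) < ε / 2 by positivity)))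
  have e2 := (t2.eventually (gt_mem_nhds (show (0 : ℝ) < ε / 2 by positivity)))
  obtain ⟨p2, h3⟩ := eventually_atTop.mp (e1.and e2)
  refine ⟨max p1 p2, fun p hp hpp M hM => ?_⟩
  have h4 := h1 p hp ((le_max_left _ _).trans hpp)
  have h5 := h2 p hp M hM
  have h6 := h3 p ((le_max_right _ _).trans hpp)
  have hsplit : ∑ q ∈ Pset p 0 M, (1 : ℝ) / q =
      ∑ q ∈ Pset p 0 (E (p ^ 7)), (1 : ℝ) / q + ∑ q ∈ Pset p (E (p ^ 7)) M, (1 : ℝ) / q := by
    unfold Pset
    simp_rw [Finset.sum_filter]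
    rw [Finset.sum_Ioc_consecutive _ (Nat.zero_le _) hM]
  have hnn : 0 ≤ ∑ q ∈ Pset p 0 (E (p ^ 7)), (1 : ℝ) / q := Finset.sum_nonneg fun q _ => by positivity
  rw [hsplit]
  rw [abs_le] at h5 ⊢
  constructor <;> linarith [h6.1, h6.2]

/-- Uniform lower bound, all primes `p`. -/
theorem mertens_neg_one_lower : ∃ C : ℝ, 0 < C ∧ ∀ p : ℕ, p.Prime → ∀ M : ℕ, E (p ^ 7) ≤ M →
    Real.log (Real.log M) / (p - 1) - C ≤ ∑ q ∈ Pset p 0 M, (1 : ℝ) / q := by
  obtain ⟨C2, hC2, h2⟩ := mertens_tail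
  refine ⟨C2 + 14, by positivity, fun p hp M hM => ?_⟩
  have h5 := h2 p hp M hM
  have hpr : (2 : ℝ) ≤ p := by exact_mod_cast hp.two_le
  have hsplit : ∑ q ∈ Pset p 0 M, (1 : ℝ) / q =
      ∑ q ∈ Pset p 0 (E (p ^ 7)), (1 : ℝ) / q + ∑ q ∈ Pset p (E (p ^ 7)) M, (1 : ℝ) / q := by
    unfold Pset
    simp_rw [Finset.sum_filter]
    rw [Finset.sum_Ioc_consecutive _ (Nat.zero_le _) hM]
  have hnn : 0 ≤ ∑ q ∈ Pset p 0 (E (p ^ 7)), (1 : ℝ) / q := Finset.sum_nonneg fun q _ => by positivity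
  have h6 : C2 / (p : ℝ) ≤ C2 := div_le_self hC2.le (by linarith)
  have h7 : 7 * Real.log p / ((p : ℝ) - 1) ≤ 14 := by
    rw [div_le_iff₀ (by linarith)]
    have : Real.log p ≤ p := Real.log_le_self (by linarith)
    have h8 := Real.log_le_sub_one_of_pos (show (0 : ℝ) < p by linarith)
    linarith
  rw [hsplit]
  rw [abs_le] at h5
  linarith [h5.1]

end Pool.Agent.H93
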