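import Pool.Agent.H93.MainLower

/-!
Upper bounds: weighted counts of exact prime divisors (helper file).
-/

namespace Pool.Agent.H93

open Finset Filter Topology

/-- passing to the square-full part -/
lemma sum_ex_le (Q : Finset ℕ) (hQ : ∀ q ∈ Q, q.Prime) (u : ℝ) (hu : 0 ≤ u) (R : ℕ) :
    ∑ r ∈ Ioc 0 R, u ^ (ex Q r).card ≤
      ∑ s ∈ SFset 1 R, ∑ t ∈ Ioc 0 (R / s), u ^ (Q.filter (· ∣ t)).card := by
  have hQf : Q.filter Nat.Prime = Q := Finset.filter_true_of_mem hQ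
  have hdec : ∀ r : ℕ, ∃ x : ℕ × ℕ, r ≠ 0 → x.1 * x.2 = r ∧ IsSF (Q : Set ℕ) x.1 ∧
      Q.filter (· ∣ x.2) = ex Q r := by
    intro r
    by_cases hr : r = 0
    · exact ⟨(0, 0), fun h => absurd hr h⟩
    · obtain ⟨s, t, h1, h2, h3⟩ := exists_decomp Q r hr
      rw [hQf] at h3
      exact ⟨(s, t), fun _ => ⟨h1, h2, h3⟩⟩
  choose f hf using hdec
  have hinj : Set.InjOn (fun r => (⟨(f r).1, (f r).2⟩ : Σ _ : ℕ, ℕ)) (Ioc 0 R : Finset ℕ) := by
    intro a ha b hb hab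
    rw [Finset.mem_coe, Finset.mem_Ioc] at ha hb
    simp only [Sigma.mk.injEq, heq_eq_eq] at hab
    rw [← (hf a (by omega)).1, ← (hf b (by omega)).1, hab.1, hab.2]
  rw [Finset.sum_sigma' (SFset 1 R) (fun s => Ioc 0 (R / s)) (fun _ t => u ^ (Q.filter (· ∣ t)).card)]
  have h1 : ∑ r ∈ Ioc 0 R, u ^ (ex Q r).card =
      ∑ x ∈ (Ioc 0 R).image (fun r => (⟨(f r).1, (f r).2⟩ : Σ _ : ℕ, ℕ)),
        u ^ (Q.filter (· ∣ x.2)).card := by
    rw [Finset.sum_image hinj]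
    refine Finset.sum_congr rfl fun r hr => ?_
    rw [Finset.mem_Ioc] at hr
    rw [← (hf r (by omega)).2.2]
  rw [h1]
  refine Finset.sum_le_sum_of_subset_of_nonneg ?_ fun x _ _ => by positivity
  intro x hx
  rw [Finset.mem_image] at hx
  obtain ⟨r, hr, rfl⟩ := hx
  rw [Finset.mem_Ioc] at hr
  obtain ⟨h2, h3, h4⟩ := hf r (by omega)
  rw [Finset.mem_sigma, mem_SFset, Finset.mem_Ioc]
  have hs0 : 0 < (f r).1 := Nat.pos_of_ne_zero h3.1
  have ht0 : 0 < (f r).2 := by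
    rcases Nat.eq_zero_or_pos (f r).2 with h | h
    · rw [h] at h2; omega
    · exact h
  refine ⟨⟨⟨hs0, ?_⟩, h3.mono (Set.subset_univ _), by exact_mod_cast hs0⟩, ht0, ?_⟩
  · calc (f r).1 = (f r).1 * 1 := (mul_one _).symm
      _ ≤ (f r).1 * (f r).2 := Nat.mul_le_mul_left _ ht0
      _ ≤ R := by rw [h2]; exact hr.2
  · rw [Nat.le_div_iff_mul_le hs0, mul_comm, h2]
    exact hr.2

theorem G_lemma : ∃ C : ℝ, 0 < C ∧ ∃ L0 : ℝ, ∀ X : ℕ, L0 ≤ LL X → ∀ Q : Finset ℕ,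
    (∀ q ∈ Q, q.Prime ∧ q ≤ Zc X) → ∀ u : ℝ, 0 ≤ u → u ≤ 1 → ∀ R : ℕ,
    Real.log X / 2 ≤ Real.log R →
    ∑ r ∈ Ioc 0 R, u ^ (ex Q r).card ≤ C * (R * Real.exp (-((1 - u) * ∑ q ∈ Q, 1 / (q : ℝ)))) := by
  obtain ⟨C, hC1, hC⟩ := exists_sf_const
  obtain ⟨L1, h1⟩ := F_lemma
  obtain ⟨D, hD, hM⟩ := exists_mertens_all
  obtain ⟨L3, hL3100, h3⟩ := Zc_facts
  obtain ⟨L4, h4⟩ := eventually_atTop.mp (eventually_L2 0)
  have hev : ∀ᶠ L : ℝ in atTop, L + D ≤ L ^ 2 / 4 ∧ L + D ≤ Real.exp L / 16 := by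
    have h1 := (Real.tendsto_exp_div_pow_atTop 2).eventually_ge_atTop 1
    filter_upwards [h1, eventually_ge_atTop (100 + D)] with L hL hL1
    have hL0 : 0 < L := by linarith
    rw [le_div_iff₀ (by positivity), one_mul] at hL
    constructor <;> nlinarith
  obtain ⟨L5, h5⟩ := eventually_atTop.mp hev
  refine ⟨3 * C, by positivity, max (max L1 L3) (max L4 L5), fun X hX Q hQ u hu0 hu1 R hlR => ?_⟩
  have hX1 : L1 ≤ LL X := ((le_max_left _ _).trans (le_max_left _ _)).trans hX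
  have hX3 : L3 ≤ LL X := ((le_max_right _ _).trans (le_max_left _ _)).trans hX
  have hX4 : L4 ≤ LL X := ((le_max_left _ _).trans (le_max_right _ _)).trans hX
  have hX5 : L5 ≤ LL X := ((le_max_right _ _).trans (le_max_right _ _)).trans hX
  obtain ⟨hL4096, hLe1, hLe2⟩ := h4 (LL X) hX4
  obtain ⟨hLD1, hLD2⟩ := h5 (LL X) hX5
  obtain ⟨hZ3, hZ1, hZ2, hZE, hZX⟩ := h3 X hX3
  set L := LL X with hL
  have hL0 : 0 < L := by linarith
  have hlog : Real.log X = Real.exp L := log_eq_exp_LL hL0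
  have hR1 : 1 ≤ R := by
    rcases Nat.eq_zero_or_pos R with h0 | h0
    · exfalso
      rw [h0, hlog] at hlR
      simp at hlR
      have := Real.exp_pos L
      linarith
    · exact h0
  have hRr : (1 : ℝ) ≤ R := by exact_mod_cast hR1
  set ℓ := Real.log X with hℓ
  have hℓ0 : 0 < ℓ := by rw [hlog]; exact Real.exp_pos _
  have h16 : 16 * L ≤ ℓ := by rw [hlog]; exact hLe2
  set Sq := ∑ q ∈ Q, 1 / (q : ℝ) with hSg
  have hSg0 : 0 ≤ Sq := Finset.sum_nonneg fun q _ => by positivity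
  have hSgle : Sq ≤ L + D := by
    have h1 : Sq ≤ ∑ q ∈ (Ioc 0 (Zc X)).filter Nat.Prime, (1 : ℝ) / q := by
      refine Finset.sum_le_sum_of_subset_of_nonneg ?_ fun q _ _ => by positivity
      intro q hq
      rw [Finset.mem_filter, Finset.mem_Ioc]
      exact ⟨⟨(hQ q hq).1.pos, (hQ q hq).2⟩, (hQ q hq).1⟩
    have h2 := hM (Zc X) hZ3
    rw [abs_le] at h2
    linarith [h2.2]
  have hexp0 : (1 - u) * Sq ≤ L + D := by
    calc (1 - u) * Sq ≤ 1 * Sq := by
          apply mul_le_mul_of_nonneg_right _ hSg0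
          linarith
      _ ≤ L + D := by linarith
  refine (sum_ex_le Q (fun q hq => (hQ q hq).1) u hu0 R).trans ?_
  set W := Real.exp (-((1 - u) * Sq)) with hW
  have hW0 : 0 < W := Real.exp_pos _
  set S1 := (SFset 1 R).filter (fun s => ℓ / (2 * L) ≤ Real.log ((R / s : ℕ) : ℝ)) with hS1
  set S2 := (SFset 1 R).filter (fun s => ¬ (ℓ / (2 * L) ≤ Real.log ((R / s : ℕ) : ℝ))) with hS2
  rw [← Finset.sum_filter_add_sum_filter_not (SFset 1 R)
    (fun s => ℓ / (2 * L) ≤ Real.log ((R / s : ℕ) : ℝ))]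
  rw [← hS1, ← hS2]
  have hfirst : ∑ s ∈ S1, ∑ t ∈ Ioc 0 (R / s), u ^ (Q.filter (· ∣ t)).card ≤ 2 * C * (R * W) := by
    have h5 : ∀ s ∈ S1, ∑ t ∈ Ioc 0 (R / s), u ^ (Q.filter (· ∣ t)).card ≤ 2 * (R * W) * (1 / s) := by
      intro s hs
      rw [hS1, Finset.mem_filter, mem_SFset] at hs
      have hs0 : (0 : ℝ) < s := by exact_mod_cast hs.1.1.1
      have hRs : 1 ≤ R / s := by
        rw [Nat.le_div_iff_mul_le hs.1.1.1, one_mul]; exact hs.1.1.2
      have hF := h1 X hX1 Q hQ 1 one_pos (fun q _ => Nat.coprime_one_right q) 0 (1 - u)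
        (by linarith) (by linarith) (R / s) hRs hs.2
      have e1 : ∑ n ∈ (Ioc 0 (R / s)).filter (fun n => n ≡ 0 [MOD 1]), (1 - (1 - u)) ^ (Q.filter (· ∣ n)).card =
          ∑ t ∈ Ioc 0 (R / s), u ^ (Q.filter (· ∣ t)).card := by
        rw [sub_sub_cancel]
        congr 1
        apply Finset.filter_true_of_mem
        intro n _
        exact Nat.modEq_one
      rw [e1, abs_le] at hF
      have h6 := prod_le_exp_neg Q (fun q hq => (hQ q hq).1) (1 - u) (by linarith) (by linarith)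
      have h7 : Real.exp (-(LL X ^ 2 / 4)) ≤ W := by
        apply Real.exp_le_exp.mpr
        linarith
      have h8 : ((R / s : ℕ) : ℝ) ≤ (R : ℝ) / s := Nat.cast_div_le
      have h9 : (0 : ℝ) ≤ ((R / s : ℕ) : ℝ) := Nat.cast_nonneg _
      have h10 : ((R / s : ℕ) : ℝ) / ((1 : ℕ) : ℝ) * ∏ q ∈ Q, (1 - (1 - u) / (q : ℝ)) ≤ ((R / s : ℕ) : ℝ) * W := by
        push_cast
        rw [div_one]
        exact mul_le_mul_of_nonneg_left h6 h9
      have h11 : ((R / s : ℕ) : ℝ) * Real.exp (-(LL X ^ 2 / 4)) ≤ ((R / s : ℕ) : ℝ) * W :=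
        mul_le_mul_of_nonneg_left h7 h9
      calc ∑ t ∈ Ioc 0 (R / s), u ^ (Q.filter (· ∣ t)).card ≤ 2 * (((R / s : ℕ) : ℝ) * W) := by
            linarith [hF.2]
        _ ≤ 2 * ((R : ℝ) / s * W) := by gcongr
        _ = _ := by ring
    have h6 := sf_sum_recip C hC S1 (fun s hs => by
      rw [hS1, Finset.mem_filter, mem_SFset] at hs
      exact hs.1.2.1) 1 le_rfl (fun s hs => by
      rw [hS1, Finset.mem_filter, mem_SFset] at hs
      exact hs.1.2.2)
    rw [Real.one_rpow, inv_one, mul_one] at h6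
    calc _ ≤ ∑ s ∈ S1, 2 * (R * W) * (1 / (s : ℝ)) := Finset.sum_le_sum h5
      _ = 2 * (R * W) * ∑ s ∈ S1, (1 / (s : ℝ)) := by rw [← Finset.mul_sum]
      _ ≤ 2 * (R * W) * C := by gcongr
      _ = _ := by ring
  have hsecond : ∑ s ∈ S2, ∑ t ∈ Ioc 0 (R / s), u ^ (Q.filter (· ∣ t)).card ≤ C * (R * W) := by
    have h5 : ∀ s ∈ S2, ∑ t ∈ Ioc 0 (R / s), u ^ (Q.filter (· ∣ t)).card ≤ R * (1 / s) := by
      intro s hs
      have h6 : ∑ t ∈ Ioc 0 (R / s), u ^ (Q.filter (· ∣ t)).card ≤ ((R / s : ℕ) : ℝ) := by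
        calc _ ≤ ∑ t ∈ Ioc 0 (R / s), (1 : ℝ) := Finset.sum_le_sum fun t _ => pow_le_one₀ hu0 hu1
          _ = _ := by simp
      refine h6.trans ?_
      have h7 : ((R / s : ℕ) : ℝ) ≤ (R : ℝ) / s := Nat.cast_div_le
      refine h7.trans (le_of_eq ?_)
      ring
    have hRexp : Real.exp (ℓ / 2) ≤ R := by
      rw [← Real.exp_log (show (0 : ℝ) < R by linarith)]
      exact Real.exp_le_exp.mpr hlR
    have hT2 : (1 : ℝ) ≤ Real.exp (ℓ / 4) := Real.one_le_exp (by positivity)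
    have h6 := sf_sum_recip C hC S2 (fun s hs => by
      rw [hS2, Finset.mem_filter, mem_SFset] at hs
      exact hs.1.2.1) (Real.exp (ℓ / 4)) hT2 (fun s hs => by
      rw [hS2, Finset.mem_filter, mem_SFset] at hs
      obtain ⟨⟨⟨hs0, hsY⟩, _, _⟩, hlt⟩ := hs
      push Not at hlt
      have hs0' : (0 : ℝ) < s := by exact_mod_cast hs0
      have hYs : 1 ≤ R / s := by
        rw [Nat.le_div_iff_mul_le hs0, one_mul]; exact hsY
      have hYs0 : (0 : ℝ) < ((R / s : ℕ) : ℝ) := by exact_mod_cast hYs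
      have h7 : ((R / s : ℕ) : ℝ) < Real.exp (ℓ / (2 * L)) := by
        rw [← Real.log_lt_iff_lt_exp hYs0]; exact hlt
      have h8 : (R : ℝ) ≤ s * (((R / s : ℕ) : ℝ) + 1) := by
        have := Nat.lt_mul_div_succ R hs0
        have h4 : (R : ℝ) ≤ s * ((R / s + 1 : ℕ) : ℝ) := by exact_mod_cast this.le
        push_cast at h4
        exact h4
      have h9 : (R : ℝ) ≤ s * (2 * Real.exp (ℓ / (2 * L))) := by
        refine h8.trans ?_
        apply mul_le_mul_of_nonneg_left _ hs0'.le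
        have : (1 : ℝ) ≤ Real.exp (ℓ / (2 * L)) := Real.one_le_exp (by positivity)
        linarith
      have h10 : Real.exp (ℓ / 4) * (2 * Real.exp (ℓ / (2 * L))) ≤ Real.exp (ℓ / 2) := by
        have h11 : Real.exp (ℓ / 4) * (2 * Real.exp (ℓ / (2 * L))) ≤
            Real.exp (ℓ / 4) * (Real.exp 1 * Real.exp (ℓ / (2 * L))) := by
          have := Real.exp_one_gt_d9
          gcongr
          linarith
        rw [← Real.exp_add, ← Real.exp_add] at h11
        refine h11.trans (Real.exp_le_exp.mpr ?_)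
        have h9 : ℓ / (2 * L) ≤ ℓ / 8 := by
          apply div_le_div_of_nonneg_left hℓ0.le (by norm_num) (by linarith)
        linarith
      have h11 : Real.exp (ℓ / 4) * (2 * Real.exp (ℓ / (2 * L))) ≤ s * (2 * Real.exp (ℓ / (2 * L))) :=
        h10.trans (hRexp.trans h9)
      exact le_of_mul_le_mul_right h11 (by positivity))
    have h7 : ((Real.exp (ℓ / 4)) ^ (1 / 4 : ℝ))⁻¹ ≤ W := by
      rw [← Real.exp_mul, ← Real.exp_neg]
      apply Real.exp_le_exp.mpr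
      have h9 : L + D ≤ ℓ / 16 := by rw [hlog]; exact hLD2
      linarith
    calc _ ≤ ∑ s ∈ S2, (R : ℝ) * (1 / (s : ℝ)) := Finset.sum_le_sum h5
      _ = R * ∑ s ∈ S2, (1 / (s : ℝ)) := by rw [← Finset.mul_sum]
      _ ≤ R * (C * W) := by
          apply mul_le_mul_of_nonneg_left _ (by linarith)
          exact h6.trans (mul_le_mul_of_nonneg_left h7 (by linarith))
      _ = C * (R * W) := by ring
  calc _ ≤ 2 * C * (R * W) + C * (R * W) := add_le_add hfirst hsecond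
    _ = 3 * C * (R * W) := by ring

/-- counting integers with few exact prime divisors in `Q` -/
lemma few_ex_card (Q : Finset ℕ) (u : ℝ) (hu0 : 0 < u) (hu1 : u ≤ 1) (J R : ℕ) :
    (((Ioc 0 R).filter (fun r => (ex Q r).card < J)).card : ℝ) ≤
      (u ^ J)⁻¹ * ∑ r ∈ Ioc 0 R, u ^ (ex Q r).card := by
  rw [Finset.card_eq_sum_ones, Finset.sum_filter]
  push_cast
  rw [Finset.mul_sum]
  refine Finset.sum_le_sum fun r _ => ?_
  split_ifs with h
  · have h1 : u ^ J ≤ u ^ (ex Q r).card := pow_le_pow_of_le_one hu0.le hu1 h.le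
    have h2 : 0 < u ^ J := pow_pos hu0 J
    rw [← div_eq_inv_mul, le_div_iff₀ h2, one_mul]
    exact h1
  · positivity

/-- odd integers without exact prime divisors in `QQ p X` -/
noncomputable def exOdd (p X Y : ℕ) : Finset ℕ := (Ioc 0 Y).filter (fun m => m % 2 = 1 ∧ ex (QQ p X) m = ∅)

theorem exOdd_upper (ε : ℝ) (hε : 0 < ε) : ∃ L0 : ℝ, ∀ X : ℕ, L0 ≤ LL X → ∀ p : ℕ, p.Prime →
    √(LL X) / 8 ≤ p → (p : ℝ) ≤ 3 * √(LL X) →
    ∀ Y : ℕ, Real.log X / 2 ≤ Real.log Y →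
    ((exOdd p X Y).card : ℝ) ≤ (Y / 2 : ℝ) * VV p X * (1 + ε) := by
  obtain ⟨L1, h1⟩ := sift_bounds
  obtain ⟨C, hC, L3, h3⟩ := SFB_lemma
  have hev : ∀ᶠ L : ℝ in atTop, C * (((√L / 8) ^ (1 / 4 : ℝ))⁻¹ + 1 / L) ≤ ε / 8 ∧ 1 / L ≤ ε / 8 := by
    have hs : Tendsto (fun L : ℝ => √L / 8) atTop atTop :=
      Real.tendsto_sqrt_atTop.atTop_div_const (by norm_num)
    have t1 : Tendsto (fun L : ℝ => ((√L / 8) ^ (1 / 4 : ℝ))⁻¹) atTop (𝓝 0) :=
      ((tendsto_rpow_atTop (by norm_num : (0 : ℝ) < 1 / 4)).comp hs).inv_tendsto_atTop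
    have t2 : Tendsto (fun L : ℝ => 1 / L) atTop (𝓝 0) := tendsto_const_nhds.div_atTop tendsto_id
    have t3 := (t1.add t2).const_mul C
    rw [add_zero, mul_zero] at t3
    filter_upwards [t3.eventually (ge_mem_nhds (show (0 : ℝ) < ε / 8 by positivity)),
      t2.eventually (ge_mem_nhds (show (0 : ℝ) < ε / 8 by positivity))] with L h1 h2
    exact ⟨h1, h2⟩
  obtain ⟨L4, h4⟩ := eventually_atTop.mp hev
  refine ⟨max L1 (max (max L3 L4) 4096), fun X hX p hp hpl hpu Y hlY => ?_⟩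
  have hX1 : L1 ≤ LL X := (le_max_left _ _).trans hX
  have hX34 : max L3 L4 ≤ LL X := ((le_max_left _ _).trans (le_max_right _ _)).trans hX
  have hX3 : L3 ≤ LL X := (le_max_left _ _).trans hX34
  have hX4 : L4 ≤ LL X := (le_max_right _ _).trans hX34
  have hX5 : 4096 ≤ LL X := ((le_max_right _ _).trans (le_max_right _ _)).trans hX
  obtain ⟨hp8, hLp, hs64⟩ := mid_facts hX5 hpl
  obtain ⟨hT1, hT2⟩ := h4 _ hX4
  have hsb := h1 X hX1 p hp hpl hpu
  set L := LL X with hL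
  have hL0 : 0 < L := by linarith
  have hlog : Real.log X = Real.exp L := log_eq_exp_LL hL0
  have hY1 : 1 ≤ Y := by
    rcases Nat.eq_zero_or_pos Y with h0 | h0
    · exfalso
      rw [h0, hlog] at hlY
      simp at hlY
      have := Real.exp_pos L
      linarith
    · exact h0
  have hB2 := h3 X hX3 p hp hpl hpu Y hlY p (by linarith)
  have hlY' : Real.log X / (2 * L) ≤ Real.log Y := by
    refine le_trans ?_ hlY
    apply div_le_div_of_nonneg_left _ (by norm_num) (by linarith)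
    rw [hlog]; exact (Real.exp_pos _).le
  obtain ⟨_, _, hodd⟩ := hsb Y hY1 hlY'
  have hV0 : 0 ≤ VV p X := by
    unfold VV
    refine Finset.prod_nonneg fun q hq => ?_
    have : (1 : ℝ) ≤ q := by exact_mod_cast (QQ_prime hq).1.one_le
    rw [sub_nonneg, div_le_one (by linarith)]
    exact this
  have hQf : (QQ p X).filter Nat.Prime = QQ p X :=
    Finset.filter_true_of_mem fun q hq => (QQ_prime hq).1
  have hcov : exOdd p X Y ⊆ siftOdd (QQ p X) Y ∪
      (SFset p Y).biUnion fun s => (sift (QQ p X) (Y / s)).image (s * ·) := by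
    intro m hm
    unfold exOdd at hm
    rw [Finset.mem_filter, Finset.mem_Ioc] at hm
    obtain ⟨⟨hm0, hmY⟩, hmo, hme⟩ := hm
    obtain ⟨s, t, hst, hs, ht⟩ := exists_decomp (QQ p X) m (by omega)
    rw [hQf, hme, Finset.filter_eq_empty_iff] at ht
    have hs0 : 0 < s := Nat.pos_of_ne_zero hs.1
    have ht0 : 0 < t := by
      rcases Nat.eq_zero_or_pos t with h | h
      · rw [h] at hst; omega
      · exact h
    rw [Finset.mem_union]
    by_cases hs1 : s = 1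
    · left
      subst hs1
      rw [one_mul] at hst
      subst hst
      unfold siftOdd
      rw [Finset.mem_filter, Finset.mem_Ioc]
      exact ⟨⟨hm0, hmY⟩, hmo, fun q hq => ht hq⟩
    · right
      rw [Finset.mem_biUnion]
      refine ⟨s, ?_, ?_⟩
      · rw [mem_SFset]
        refine ⟨⟨hs0, ?_⟩, hs.mono (Set.subset_univ _), ?_⟩
        · rw [← hst] at hmY
          exact (Nat.le_mul_of_pos_right s ht0).trans hmY
        · obtain ⟨q, hq, hqs⟩ := Nat.exists_prime_and_dvd hs1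
          obtain ⟨hqQ, hq2⟩ := hs.2 q hq hqs
          have hqQ' : q ∈ QQ p X := hqQ
          unfold QQ at hqQ'
          rw [mem_Pset, neg_one_iff] at hqQ'
          have h5 : p ≤ q + 1 := Nat.le_of_dvd (Nat.succ_pos _) hqQ'.2.2
          have h6 : q ^ 2 ≤ s := Nat.le_of_dvd hs0 hq2
          have h7 : q + 1 ≤ q ^ 2 := by
            have := hq.two_le
            nlinarith
          exact_mod_cast (h5.trans (h7.trans h6))
      · rw [Finset.mem_image]
        refine ⟨t, ?_, hst⟩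
        unfold sift
        rw [Finset.mem_filter, Finset.mem_Ioc]
        refine ⟨⟨ht0, ?_⟩, fun q hq => ht hq⟩
        rw [Nat.le_div_iff_mul_le hs0, mul_comm, hst]
        exact hmY
  have hcard : ((exOdd p X Y).card : ℝ) ≤ (siftOdd (QQ p X) Y).card +
      ∑ s ∈ SFset p Y, ((sift (QQ p X) (Y / s)).card : ℝ) := by
    have h5 : (exOdd p X Y).card ≤ (siftOdd (QQ p X) Y).card +
        ∑ s ∈ SFset p Y, (sift (QQ p X) (Y / s)).card := by
      refine (Finset.card_le_card hcov).trans ((Finset.card_union_le _ _).trans ?_)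
      apply Nat.add_le_add_left
      exact Finset.card_biUnion_le.trans (Finset.sum_le_sum fun s _ => Finset.card_image_le)
    exact_mod_cast h5
  have hT3 : C * (((p : ℝ) ^ (1 / 4 : ℝ))⁻¹ + 1 / L) ≤ ε / 8 := by
    refine le_trans ?_ hT1
    apply mul_le_mul_of_nonneg_left _ hC.le
    have h5 : (√L / 8) ^ (1 / 4 : ℝ) ≤ (p : ℝ) ^ (1 / 4 : ℝ) :=
      Real.rpow_le_rpow (by positivity) hpl (by norm_num)
    have h6 : ((p : ℝ) ^ (1 / 4 : ℝ))⁻¹ ≤ ((√L / 8) ^ (1 / 4 : ℝ))⁻¹ :=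
      inv_anti₀ (by positivity) h5
    linarith
  have hYV : 0 ≤ Y * VV p X := by positivity
  have hB2' : ∑ s ∈ SFset p Y, ((sift (QQ p X) (Y / s)).card : ℝ) ≤ ε / 8 * (Y * VV p X) :=
    hB2.trans (mul_le_mul_of_nonneg_right hT3 hYV)
  have h7 : (Y / 2 : ℝ) * VV p X * (1 + 1 / L) = (Y / 2 : ℝ) * VV p X + (1 / L) * (Y * VV p X / 2) := by ring
  have h8 : (1 / L) * (Y * VV p X / 2) ≤ (ε / 8) * (Y * VV p X / 2) := by
    apply mul_le_mul_of_nonneg_right hT2 (by positivity)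
  have h9 : (Y / 2 : ℝ) * VV p X * (1 + ε) = (Y / 2 : ℝ) * VV p X + ε / 2 * (Y * VV p X) := by ring
  rw [h9]
  rw [h7] at hodd
  nlinarith

end Pool.Agent.H93
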