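import Pool.Agent.H93.UpperA

/-!
Arithmetic of non-arithmetic integers (helper file).
-/

namespace Pool.Agent.H93

open Finset Filter Topology

lemma card_divisors_eq {n : ℕ} (hn : n ≠ 0) :
    n.divisors.card = ∏ q ∈ n.primeFactors, (n.factorization q + 1) := Nat.card_divisors hn

lemma sg_eq {n : ℕ} (hn : n ≠ 0) :
    sg n = ∏ q ∈ n.primeFactors, ∑ k ∈ range (n.factorization q + 1), q ^ k := Nat.sum_divisors hn

lemma sg_ne_zero {n : ℕ} (hn : n ≠ 0) : sg n ≠ 0 := by
  unfold sg
  have : 0 < ∑ d ∈ n.divisors, d := by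
    apply Finset.sum_pos (fun d hd => Nat.pos_of_mem_divisors hd)
    exact ⟨n, Nat.mem_divisors_self n hn⟩
  omega

lemma geom_ne_zero (q a : ℕ) : ∑ k ∈ range (a + 1), q ^ k ≠ 0 := by
  rw [Finset.sum_range_succ']
  simp

/-- a failing prime -/
lemma exists_fail {n : ℕ} (hn : n ≠ 0) (h : ¬ n.divisors.card ∣ sg n) :
    ∃ p : ℕ, p.Prime ∧ (sg n).factorization p < (n.divisors.card).factorization p := by
  by_contra hcon
  push Not at hcon
  apply h
  have hd : n.divisors.card ≠ 0 := by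
    rw [Finset.card_ne_zero]
    exact ⟨1, Nat.one_mem_divisors.mpr hn⟩
  rw [← Nat.factorization_le_iff_dvd hd (sg_ne_zero hn)]
  intro p
  by_cases hp : p.Prime
  · exact hcon p hp
  · rw [Nat.factorization_eq_zero_of_not_prime _ hp]
    exact Nat.zero_le _

lemma mem_ex {Q : Finset ℕ} {n q : ℕ} : q ∈ ex Q n ↔ q ∈ Q ∧ q ∣ n ∧ ¬ q ^ 2 ∣ n := by
  unfold ex
  rw [Finset.mem_filter]

lemma fact_of_ex {n q : ℕ} (hn : n ≠ 0) (hq : q.Prime) (h1 : q ∣ n) (h2 : ¬ q ^ 2 ∣ n) :
    n.factorization q = 1 := by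
  have h3 : 0 < n.factorization q := hq.factorization_pos_of_dvd hn h1
  have h4 : ¬ 2 ≤ n.factorization q := fun h => h2 ((hq.pow_dvd_iff_le_factorization hn).mpr h)
  omega

/-- few exact prime divisors `≡ -1 mod p` -/
lemma ex_lt_of_fail {n p : ℕ} (hn : n ≠ 0) (hp : p.Prime) (Q : Finset ℕ)
    (hQ : ∀ q ∈ Q, q.Prime ∧ (q : ZMod p) = -1) :
    (ex Q n).card ≤ (sg n).factorization p := by
  have h1 : ∏ q ∈ ex Q n, (q + 1) ∣ sg n := by
    have h2 : ∏ q ∈ ex Q n, (q + 1) = ∏ q ∈ ex Q n, ∑ k ∈ range (n.factorization q + 1), q ^ k := by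
      refine Finset.prod_congr rfl fun q hq => ?_
      rw [mem_ex] at hq
      rw [fact_of_ex hn (hQ q hq.1).1 hq.2.1 hq.2.2]
      simp [Finset.sum_range_succ, add_comm]
    rw [h2, sg_eq hn]
    apply Finset.prod_dvd_prod_of_subset
    intro q hq
    rw [mem_ex] at hq
    exact Nat.mem_primeFactors.mpr ⟨(hQ q hq.1).1, hq.2.1, hn⟩
  have h2 : p ^ (ex Q n).card ∣ sg n := by
    refine dvd_trans ?_ h1
    rw [← Finset.prod_const]
    apply Finset.prod_dvd_prod_of_dvd
    intro q hq
    rw [mem_ex] at hq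
    exact neg_one_iff.mp (hQ q hq.1).2
  exact (hp.pow_dvd_iff_le_factorization (sg_ne_zero hn)).mp h2

lemma val_le (p a : ℕ) (hp : p.Prime) : (p - 1) * (a + 1).factorization p ≤ a := by
  have h1 : p ^ (a + 1).factorization p ≤ a + 1 := Nat.ordProj_le p (by omega)
  have h2 : 1 + (a + 1).factorization p * (p - 1) ≤ p ^ (a + 1).factorization p := by
    have h3 := one_add_mul_le_pow (R := ℤ) (a := (p : ℤ) - 1) (by
      have : (1 : ℤ) ≤ p := by exact_mod_cast hp.one_le
      linarith) ((a + 1).factorization p)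
    have h4 : (1 : ℤ) + ((p : ℤ) - 1) = p := by ring
    rw [h4] at h3
    have h5 : ((p - 1 : ℕ) : ℤ) = (p : ℤ) - 1 := by
      rw [Nat.cast_sub hp.one_le]; simp
    have h6 : (1 : ℤ) + ((a + 1).factorization p : ℤ) * ((p - 1 : ℕ) : ℤ) ≤ ((p ^ (a + 1).factorization p : ℕ) : ℤ) := by
      rw [h5]; push_cast; exact h3
    exact_mod_cast h6
  rw [mul_comm]
  omega

/-- a large divisor which is a `(p-1)`-th power -/
lemma exists_pow_dvd {n p : ℕ} (hn : n ≠ 0) (hp : p.Prime) :
    ∃ w : ℕ, 2 ^ ((n.divisors.card).factorization p) ≤ w ∧ w ^ (p - 1) ∣ n := by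
  refine ⟨∏ q ∈ n.primeFactors, q ^ ((n.factorization q + 1).factorization p), ?_, ?_⟩
  · rw [card_divisors_eq hn, Nat.factorization_prod (fun q _ => by omega)]
    simp only [Finsupp.coe_finsetSum, Finset.sum_apply]
    rw [← Finset.prod_pow_eq_pow_sum]
    refine Finset.prod_le_prod' fun q hq => ?_
    exact Nat.pow_le_pow_left (Nat.prime_of_mem_primeFactors hq).two_le _
  · rw [← Finset.prod_pow]
    conv_rhs => rw [← Nat.prod_factorization_pow_eq_self hn]
    apply Finset.prod_dvd_prod_of_dvd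
    intro q hq
    rw [← pow_mul]
    apply pow_dvd_pow
    rw [mul_comm]
    exact val_le p _ hp

/-- some exponent is `≡ -1 mod p` -/
lemma exists_exponent {n p : ℕ} (hn : n ≠ 0) (hp : p.Prime) (h : p ∣ n.divisors.card) :
    ∃ q : ℕ, q.Prime ∧ p ∣ n.factorization q + 1 ∧ q ^ (p - 1) ∣ n := by
  rw [card_divisors_eq hn, hp.prime.dvd_finsetProd_iff] at h
  obtain ⟨q, hq, hqd⟩ := h
  have hqp := Nat.prime_of_mem_primeFactors hq
  refine ⟨q, hqp, hqd, ?_⟩
  rw [hqp.pow_dvd_iff_le_factorization hn]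
  have := Nat.le_of_dvd (Nat.succ_pos _) hqd
  omega

/-- classification for an odd prime `p` dividing the number of divisors -/
lemma mid_class {n p : ℕ} (hn : n ≠ 0) (hp : p.Prime) (hp3 : 3 ≤ p) (h : p ∣ n.divisors.card) :
    (n.factorization 2 = p - 1 ∧ (n.divisors.card).factorization p = 1) ∨
    (∃ w : ℕ, (w = 4 ∨ (w.Prime ∧ w ≠ 2)) ∧ w ^ (p - 1) ∣ n) := by
  by_cases hodd : ∃ q : ℕ, q.Prime ∧ q ≠ 2 ∧ p ∣ n.factorization q + 1
  · right
    obtain ⟨q, hq, hq2, hqd⟩ := hodd
    refine ⟨q, Or.inr ⟨hq, hq2⟩, ?_⟩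
    rw [hq.pow_dvd_iff_le_factorization hn]
    have := Nat.le_of_dvd (Nat.succ_pos _) hqd
    omega
  · push Not at hodd
    obtain ⟨q, hq, hqd, _⟩ := exists_exponent hn hp h
    have hq2 : q = 2 := by
      by_contra hne
      exact hodd q hq hne hqd
    subst hq2
    obtain ⟨k, hk⟩ := hqd
    have hk0 : k ≠ 0 := by rintro rfl; simp at hk
    by_cases hk1 : k = 1
    · left
      subst hk1
      rw [mul_one] at hk
      refine ⟨by omega, ?_⟩
      rw [card_divisors_eq hn, Nat.factorization_prod (fun q _ => by omega)]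
      simp only [Finsupp.coe_finsetSum, Finset.sum_apply]
      have h2mem : 2 ∈ n.primeFactors := by
        rw [Nat.mem_primeFactors]
        refine ⟨Nat.prime_two, ?_, hn⟩
        have : n.factorization 2 ≠ 0 := by omega
        by_contra hcon
        exact this (Nat.factorization_eq_zero_of_not_dvd hcon)
      rw [← Finset.add_sum_erase _ _ h2mem, hk, hp.factorization_self]
      have : ∑ q ∈ n.primeFactors.erase 2, (n.factorization q + 1).factorization p = 0 := by
        apply Finset.sum_eq_zero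
        intro q hq
        rw [Finset.mem_erase] at hq
        exact Nat.factorization_eq_zero_of_not_dvd
          (hodd q (Nat.prime_of_mem_primeFactors hq.2) hq.1)
      rw [this]
    · right
      refine ⟨4, Or.inl rfl, ?_⟩
      have h2 : 2 * (p - 1) ≤ n.factorization 2 := by
        have h3 : p * 2 ≤ p * k := Nat.mul_le_mul_left p (by omega)
        omega
      have h3 : (4 : ℕ) ^ (p - 1) = 2 ^ (2 * (p - 1)) := by
        rw [pow_mul]; norm_num
      rw [h3]
      exact (Nat.prime_two.pow_dvd_iff_le_factorization hn).mpr h2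

lemma sum_pow_double (q m : ℕ) : ∑ k ∈ range (2 * m), q ^ k = (1 + q) * ∑ k ∈ range m, (q ^ 2) ^ k := by
  induction m with
  | zero => simp
  | succ m ih =>
    rw [show 2 * (m + 1) = 2 * m + 1 + 1 by ring, Finset.sum_range_succ, Finset.sum_range_succ, ih,
      Finset.sum_range_succ]
    rw [← pow_mul]
    ring

lemma two_pow_dvd_geom (v : ℕ) : ∀ q m : ℕ, q % 2 = 1 → 2 ^ v ∣ m → 2 ^ v ∣ ∑ k ∈ range m, q ^ k := by
  induction v with
  | zero => intro q m _ _; simp
  | succ v ih =>
    intro q m hq hm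
    obtain ⟨t, rfl⟩ := hm
    have e : 2 ^ (v + 1) * t = 2 * (2 ^ v * t) := by rw [pow_succ]; ring
    rw [e, sum_pow_double, pow_succ, mul_comm (2 ^ v) 2]
    apply mul_dvd_mul
    · omega
    · apply ih
      · rw [Nat.pow_mod, hq]
      · exact Dvd.intro _ rfl

/-- the prime 2 -/
lemma ex_lt_two {n : ℕ} (hn : n ≠ 0) (Q : Finset ℕ) (hQ : ∀ q ∈ Q, q.Prime ∧ q % 4 = 3)
    (h : (sg n).factorization 2 < (n.divisors.card).factorization 2) :
    (ex Q n).card < n.factorization 2 := by
  rw [card_divisors_eq hn, sg_eq hn, Nat.factorization_prod (fun q _ => geom_ne_zero q _),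
    Nat.factorization_prod (fun q _ => Nat.succ_ne_zero _)] at h
  simp only [Finsupp.coe_finsetSum, Finset.sum_apply, Nat.succ_eq_add_one] at h
  -- termwise comparison
  have hterm : ∀ q ∈ n.primeFactors, (n.factorization q + 1).factorization 2 +
      (if q ∈ ex Q n then 1 else 0) ≤ (∑ k ∈ range (n.factorization q + 1), q ^ k).factorization 2 +
      (if q = 2 then (n.factorization 2 + 1).factorization 2 else 0) := by
    intro q hq
    have hqp := Nat.prime_of_mem_primeFactors hq
    by_cases hq2 : q = 2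
    · subst hq2
      have : ¬ 2 ∈ ex Q n := by
        rw [mem_ex]
        intro h
        have := (hQ 2 h.1).2
        norm_num at this
      rw [if_neg this, if_pos rfl]
      omega
    · have hqodd : q % 2 = 1 := by
        rcases hqp.eq_two_or_odd with h | h
        · exact absurd h hq2
        · exact h
      rw [if_neg hq2, add_zero]
      by_cases hex : q ∈ ex Q n
      · rw [if_pos hex]
        rw [mem_ex] at hex
        rw [fact_of_ex hn hqp hex.2.1 hex.2.2]
        have h1 : ((1 + 1 : ℕ)).factorization 2 = 1 := by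
          rw [show (1 + 1 : ℕ) = 2 by norm_num, Nat.prime_two.factorization_self]
        rw [h1]
        have h2 : ∑ k ∈ range (1 + 1), q ^ k = q + 1 := by
          simp [Finset.sum_range_succ, add_comm]
        rw [h2]
        apply (Nat.prime_two.pow_dvd_iff_le_factorization (by omega)).mp
        have := (hQ q hex.1).2
        norm_num
        omega
      · rw [if_neg hex, add_zero]
        apply (Nat.prime_two.pow_dvd_iff_le_factorization (geom_ne_zero q _)).mp
        exact two_pow_dvd_geom _ q _ hqodd (Nat.ordProj_dvd _ 2)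
  have hsum := Finset.sum_le_sum hterm
  rw [Finset.sum_add_distrib, Finset.sum_add_distrib] at hsum
  have hcard : ∑ q ∈ n.primeFactors, (if q ∈ ex Q n then 1 else 0) = (ex Q n).card := by
    rw [← Finset.sum_filter, Finset.card_eq_sum_ones]
    apply Finset.sum_congr _ fun _ _ => rfl
    ext q
    rw [Finset.mem_filter]
    constructor
    · exact fun h => h.2
    · intro h
      refine ⟨?_, h⟩
      rw [mem_ex] at h
      exact Nat.mem_primeFactors.mpr ⟨(hQ q h.1).1, h.2.1, hn⟩
  have htwo : ∑ q ∈ n.primeFactors, (if q = 2 then (n.factorization 2 + 1).factorization 2 else 0) ≤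
      n.factorization 2 := by
    rw [Finset.sum_ite_eq' n.primeFactors 2]
    split_ifs
    · have := val_le 2 (n.factorization 2) Nat.prime_two
      simpa using this
    · exact Nat.zero_le _
  rw [hcard] at hsum
  omega

open Classical in
/-- integers up to `X` divisible by the `k`-th power of an integer `≥ W` -/
noncomputable def PS (X k W : ℕ) : Finset ℕ := (Ioc 0 X).filter (fun n => ∃ w, W ≤ w ∧ w ^ k ∣ n)

open Classical in
lemma mem_PS {X k W n : ℕ} : n ∈ PS X k W ↔ (0 < n ∧ n ≤ X) ∧ ∃ w, W ≤ w ∧ w ^ k ∣ n := by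
  unfold PS
  rw [Finset.mem_filter, Finset.mem_Ioc]

/-- counting multiples of large `k`-th powers -/
lemma card_pow_dvd (X k W : ℕ) (hk : 2 ≤ k) (hW : 2 ≤ W) :
    ((PS X k W).card : ℝ) ≤ 2 * X / (W : ℝ) ^ (k - 1) := by
  have hWr : (2 : ℝ) ≤ W := by exact_mod_cast hW
  have hcov : PS X k W ⊆
      (Ico W (X + W + 1)).biUnion fun w => (Ioc 0 X).filter (w ^ k ∣ ·) := by
    intro n hn
    rw [mem_PS] at hn
    obtain ⟨⟨hn0, hnX⟩, w, hw, hwn⟩ := hn
    rw [Finset.mem_biUnion]
    refine ⟨w, ?_, ?_⟩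
    · rw [Finset.mem_Ico]
      refine ⟨hw, ?_⟩
      have h1 : w ≤ w ^ k := Nat.le_self_pow (by omega) w
      have h2 := Nat.le_of_dvd hn0 hwn
      omega
    · rw [Finset.mem_filter, Finset.mem_Ioc]
      exact ⟨⟨hn0, hnX⟩, hwn⟩
  have h1 : ((PS X k W).card : ℝ) ≤
      ∑ w ∈ Ico W (X + W + 1), ((X / w ^ k : ℕ) : ℝ) := by
    have h2 : (PS X k W).card ≤
        ∑ w ∈ Ico W (X + W + 1), X / w ^ k := by
      refine (Finset.card_le_card hcov).trans (Finset.card_biUnion_le.trans ?_)
      refine Finset.sum_le_sum fun w _ => ?_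
      rw [Nat.Ioc_filter_dvd_card_eq_div]
    exact_mod_cast h2
  refine h1.trans ?_
  have h2 : ∀ w ∈ Ico W (X + W + 1), ((X / w ^ k : ℕ) : ℝ) ≤
      X / (W : ℝ) ^ (k - 2) * (1 / (w : ℝ) ^ 2) := by
    intro w hw
    rw [Finset.mem_Ico] at hw
    have hw0 : (W : ℝ) ≤ w := by exact_mod_cast hw.1
    have hw1 : (0 : ℝ) < w := by linarith
    refine (Nat.cast_div_le (α := ℝ)).trans ?_
    push_cast
    rw [div_mul_div_comm, mul_one]
    apply div_le_div_of_nonneg_left (Nat.cast_nonneg X) (by positivity)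
    calc (W : ℝ) ^ (k - 2) * (w : ℝ) ^ 2 ≤ (w : ℝ) ^ (k - 2) * (w : ℝ) ^ 2 := by gcongr
      _ = (w : ℝ) ^ k := by rw [← pow_add]; congr 1; omega
  refine (Finset.sum_le_sum h2).trans ?_
  rw [← Finset.mul_sum]
  have h3 : ∑ w ∈ Ico W (X + W + 1), (1 : ℝ) / (w : ℝ) ^ 2 ≤ 2 / W := by
    have h4 : ∀ b : ℕ, W ≤ b → ∑ w ∈ Ico W b, (1 : ℝ) / (w : ℝ) ^ 2 ≤ 1 / ((W : ℝ) - 1) - 1 / ((b : ℝ) - 1) := by
      intro b hb
      induction b, hb using Nat.le_induction with
      | base => simp
      | succ b hb ih =>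
        rw [Finset.sum_Ico_succ_top hb]
        have hbr : (2 : ℝ) ≤ b := by exact_mod_cast hW.trans hb
        have h1 : (1 : ℝ) / (b : ℝ) ^ 2 ≤ 1 / ((b : ℝ) - 1) - 1 / (((b + 1 : ℕ) : ℝ) - 1) := by
          push_cast
          have e : 1 / ((b : ℝ) - 1) - 1 / ((b : ℝ) + 1 - 1) = 1 / (((b : ℝ) - 1) * b) := by
            have : (b : ℝ) - 1 ≠ 0 := by linarith
            have : (b : ℝ) ≠ 0 := by linarith
            rw [add_sub_cancel_right]
            field_simp
            ring
          rw [e]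
          apply one_div_le_one_div_of_le
          · nlinarith
          · nlinarith
        linarith
    have h5 := h4 (X + W + 1) (by omega)
    have h6 : 0 ≤ 1 / (((X + W + 1 : ℕ) : ℝ) - 1) := by
      apply div_nonneg zero_le_one
      push_cast
      have : (0 : ℝ) ≤ X := Nat.cast_nonneg X
      linarith
    have h7 : 1 / ((W : ℝ) - 1) ≤ 2 / W := by
      rw [div_le_div_iff₀ (by linarith) (by linarith)]; linarith
    linarith
  calc (X : ℝ) / (W : ℝ) ^ (k - 2) * ∑ w ∈ Ico W (X + W + 1), (1 : ℝ) / (w : ℝ) ^ 2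
      ≤ (X : ℝ) / (W : ℝ) ^ (k - 2) * (2 / W) := by gcongr
    _ = 2 * X / (W : ℝ) ^ (k - 1) := by
        have : k - 1 = k - 2 + 1 := by omega
        rw [this, pow_succ]
        field_simp

end Pool.Agent.H93
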