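import Pool.Agent.H93.UpperB

/-!
Counting estimates for the exceptional sets (helper file).
-/

namespace Pool.Agent.H93

open Finset Filter Topology

/-- threshold `B = ⌊3√L⌋ + 1` -/
noncomputable def BB (X : ℕ) : ℕ := ⌊3 * √(LL X)⌋₊ + 1

lemma BB_le (X : ℕ) : (BB X : ℝ) ≤ 3 * √(LL X) + 1 := by
  unfold BB
  push_cast
  have := Nat.floor_le (show 0 ≤ 3 * √(LL X) by positivity)
  linarith

lemma le_BB (X : ℕ) : 3 * √(LL X) ≤ BB X := by
  unfold BB
  push_cast
  exact (Nat.lt_floor_add_one _).le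

/-- integers up to `X` with fewer than `J` exact prime divisors in `Q` -/
def FX (Q : Finset ℕ) (X J : ℕ) : Finset ℕ := (Ioc 0 X).filter (fun n => (ex Q n).card < J)

lemma exp_neg_one_bounds : Real.exp (-1) ≤ 0.368 ∧ 0.367 ≤ Real.exp (-1) := by
  have h1 := Real.exp_one_gt_d9
  have h2 := Real.exp_one_lt_d9
  rw [Real.exp_neg]
  constructor
  · rw [inv_le_comm₀ (Real.exp_pos _) (by norm_num)]
    norm_num
    linarith
  · rw [le_inv_comm₀ (by norm_num) (Real.exp_pos _)]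
    norm_num
    linarith

theorem FX_small (D : ℝ) : ∃ C : ℝ, 0 < C ∧ ∃ L0 : ℝ, ∀ X : ℕ, L0 ≤ LL X →
    ∀ Q : Finset ℕ, (∀ q ∈ Q, q.Prime ∧ q ≤ Zc X) → 8 * √(LL X) - D ≤ ∑ q ∈ Q, 1 / (q : ℝ) →
    ((FX Q X (BB X)).card : ℝ) ≤ C * (X * Real.exp (-(2.05 * √(LL X)))) := by
  obtain ⟨C, hC, L1, h1⟩ := G_lemma
  refine ⟨C * Real.exp (1 + |D|), by positivity, max (max L1 4096) (D ^ 2), fun X hX Q hQ hS => ?_⟩
  have hX1 : L1 ≤ LL X := ((le_max_left _ _).trans (le_max_left _ _)).trans hX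
  have hX2 : 4096 ≤ LL X := ((le_max_right _ _).trans (le_max_left _ _)).trans hX
  have hX3 : D ^ 2 ≤ LL X := (le_max_right _ _).trans hX
  set L := LL X with hL
  have hL0 : 0 < L := by linarith
  have hlog : Real.log X = Real.exp L := log_eq_exp_LL hL0
  have hsD : |D| ≤ √L := by
    apply Real.abs_le_sqrt
    exact hX3
  have hD1 := le_abs_self D
  have hD2 := abs_nonneg D
  have hs0 : 0 ≤ √L := Real.sqrt_nonneg L
  obtain ⟨he1, he2⟩ := exp_neg_one_bounds
  have hG := h1 X hX1 Q hQ (Real.exp (-1)) (Real.exp_pos _).le (by linarith) X (by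
    rw [hlog]; linarith [Real.exp_pos L])
  have hF := few_ex_card Q (Real.exp (-1)) (Real.exp_pos _) (by linarith) (BB X) X
  have e1 : (Real.exp (-1) ^ (BB X))⁻¹ ≤ Real.exp (3 * √L + 1) := by
    rw [← Real.exp_nat_mul, ← Real.exp_neg]
    apply Real.exp_le_exp.mpr
    have := BB_le X
    linarith
  have e2 : Real.exp (-((1 - Real.exp (-1)) * ∑ q ∈ Q, 1 / (q : ℝ))) ≤ Real.exp (-(5.05 * √L) + |D|) := by
    apply Real.exp_le_exp.mpr
    have h2 : 0.632 * (8 * √L - D) ≤ (1 - Real.exp (-1)) * ∑ q ∈ Q, 1 / (q : ℝ) := by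
      apply mul_le_mul (by linarith) hS (by linarith) (by linarith)
    linarith
  have hX0 : (0 : ℝ) ≤ X := Nat.cast_nonneg X
  calc ((FX Q X (BB X)).card : ℝ) ≤ (Real.exp (-1) ^ (BB X))⁻¹ * ∑ r ∈ Ioc 0 X, Real.exp (-1) ^ (ex Q r).card := hF
    _ ≤ Real.exp (3 * √L + 1) * (C * (X * Real.exp (-(5.05 * √L) + |D|))) := by
        apply mul_le_mul e1 _ (Finset.sum_nonneg fun r _ => by positivity) (Real.exp_pos _).le
        refine hG.trans ?_
        gcongr
    _ = C * (X * (Real.exp (3 * √L + 1) * Real.exp (-(5.05 * √L) + |D|))) := by ring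
    _ = C * Real.exp (1 + |D|) * (X * Real.exp (-(2.05 * √L))) := by
        rw [← Real.exp_add]
        have : 3 * √L + 1 + (-(5.05 * √L) + |D|) = (1 + |D|) + -(2.05 * √L) := by ring
        rw [this, Real.exp_add]
        ring

/-- the sums over primes `≡ -1 mod p` for small `p` -/
theorem small_p_sum : ∃ D : ℝ, ∃ L0 : ℝ, ∀ X : ℕ, L0 ≤ LL X → ∀ p : ℕ, p.Prime →
    (p : ℝ) < √(LL X) / 8 → 8 * √(LL X) - D ≤ ∑ q ∈ QQ p X, 1 / (q : ℝ) := by
  obtain ⟨C, hC, h⟩ := mertens_neg_one_lower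
  obtain ⟨L1, hL100, hZ⟩ := Zc_facts
  have hev : ∀ᶠ L : ℝ in atTop, 8 * (3 * Real.log L + 1) ≤ √L := by
    have a1 : Tendsto (fun x : ℝ => Real.log x / x) atTop (𝓝 0) :=
      Real.isLittleO_log_id_atTop.tendsto_div_nhds_zero
    have a2 := a1.comp Real.tendsto_sqrt_atTop
    filter_upwards [a2.eventually (ge_mem_nhds (show (0 : ℝ) < 1 / 96 by norm_num)),
      eventually_ge_atTop 4096] with L hL hL2
    have hs64 : 64 ≤ √L := by
      rw [show (64 : ℝ) = √4096 by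
        rw [show (4096 : ℝ) = 64 ^ 2 by norm_num, Real.sqrt_sq (by norm_num)]]
      exact Real.sqrt_le_sqrt hL2
    simp only [Function.comp] at hL
    rw [Real.log_sqrt (by linarith), div_le_iff₀ (by linarith)] at hL
    linarith
  obtain ⟨L2, h2⟩ := eventually_atTop.mp hev
  refine ⟨1 + C, max (max L1 L2) 4096, fun X hX p hp hps => ?_⟩
  have hX1 : L1 ≤ LL X := ((le_max_left _ _).trans (le_max_left _ _)).trans hX
  have hX2 : L2 ≤ LL X := ((le_max_right _ _).trans (le_max_left _ _)).trans hX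
  have hX3 : 4096 ≤ LL X := (le_max_right _ _).trans hX
  obtain ⟨hZ3, hZ1, hZ2, hZE, _⟩ := hZ X hX1
  have hlogs := h2 _ hX2
  set L := LL X with hL
  have hL0 : 0 < L := by linarith
  have hs0 : 0 < √L := Real.sqrt_pos.mpr hL0
  have hss : √L * √L = L := Real.mul_self_sqrt hL0.le
  have hp1 : (1 : ℝ) < p := by exact_mod_cast hp.one_lt
  have hM := h p hp (Zc X) (hZE p (by linarith))
  have h5 : 8 * √L - 1 ≤ Real.log (Real.log (Zc X)) / ((p : ℝ) - 1) := by
    rw [le_div_iff₀ (by linarith)]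
    have h7 : (8 * √L - 1) * ((p : ℝ) - 1) ≤ (8 * √L - 1) * (√L / 8) := by
      apply mul_le_mul_of_nonneg_left (by linarith)
      have : 64 ≤ √L := by
        rw [show (64 : ℝ) = √4096 by
          rw [show (4096 : ℝ) = 64 ^ 2 by norm_num, Real.sqrt_sq (by norm_num)]]
        exact Real.sqrt_le_sqrt hX3
      linarith
    have h8 : (8 * √L - 1) * (√L / 8) = L - √L / 8 := by
      have : (8 * √L - 1) * (√L / 8) = √L * √L - √L / 8 := by ring
      rw [this, hss]
    linarith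
  unfold QQ
  linarith

/-- primes `≡ 3 mod 4` up to the cut -/
noncomputable def Q4 (X : ℕ) : Finset ℕ := (Ioc 0 (Zc X)).filter (fun q => q.Prime ∧ q % 4 = 3)

theorem Q4_sum : ∃ L0 : ℝ, ∀ X : ℕ, L0 ≤ LL X → 8 * √(LL X) - 0 ≤ ∑ q ∈ Q4 X, 1 / (q : ℝ) := by
  obtain ⟨C, hC, h⟩ := exists_mertens_recip
  obtain ⟨L1, hL100, hZ⟩ := Zc_facts
  set K : ℝ := |Real.log (Real.log 3)| + C * 4 ^ 5 / Real.log 3 with hK
  have hev : ∀ᶠ L : ℝ in atTop, 8 * √L + (3 * Real.log L + 1) / 2 + K ≤ L / 2 := by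
    have a1 : Tendsto (fun x : ℝ => Real.log x / x) atTop (𝓝 0) :=
      Real.isLittleO_log_id_atTop.tendsto_div_nhds_zero
    filter_upwards [a1.eventually (ge_mem_nhds (show (0 : ℝ) < 1 / 12 by norm_num)),
      eventually_ge_atTop (4096 + 16 * K)] with L hL hL2
    have hK0 : 0 ≤ K := by
      have : 0 ≤ Real.log 3 := Real.log_nonneg (by norm_num)
      positivity
    have hs64 : 64 ≤ √L := by
      rw [show (64 : ℝ) = √4096 by
        rw [show (4096 : ℝ) = 64 ^ 2 by norm_num, Real.sqrt_sq (by norm_num)]]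
      exact Real.sqrt_le_sqrt (by linarith)
    have hss : √L * √L = L := Real.mul_self_sqrt (by linarith)
    rw [div_le_iff₀ (by linarith)] at hL
    nlinarith
  obtain ⟨L2, h2⟩ := eventually_atTop.mp hev
  refine ⟨max (max L1 L2) 100, fun X hX => ?_⟩
  have hX1 : L1 ≤ LL X := ((le_max_left _ _).trans (le_max_left _ _)).trans hX
  have hX2 : L2 ≤ LL X := ((le_max_right _ _).trans (le_max_left _ _)).trans hX
  obtain ⟨hZ3, hZ1, hZ2, hZE, _⟩ := hZ X hX1
  have hlogs := h2 _ hX2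
  have h3 := h 4 (-1) (isUnit_one.neg) 3 (Zc X) le_rfl hZ3
  have htot : Nat.totient 4 = 2 := by decide
  rw [htot] at h3
  push_cast at h3
  rw [abs_le] at h3
  have h4 : ∑ n ∈ (Ioc 3 (Zc X)).filter (fun n : ℕ => n.Prime ∧ (n : ZMod 4) = -1), (1 : ℝ) / n ≤
      ∑ q ∈ Q4 X, 1 / (q : ℝ) := by
    refine Finset.sum_le_sum_of_subset_of_nonneg ?_ fun q _ _ => by positivity
    intro q hq
    rw [Finset.mem_filter, Finset.mem_Ioc] at hq
    unfold Q4
    rw [Finset.mem_filter, Finset.mem_Ioc]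
    refine ⟨⟨by omega, hq.1.2⟩, hq.2.1, ?_⟩
    have h5 := (neg_one_iff (p := 4)).mp hq.2.2
    omega
  have h5 := le_abs_self (Real.log (Real.log 3))
  have h6 := neg_abs_le (Real.log (Real.log 3))
  have h7 := abs_nonneg (Real.log (Real.log 3))
  linarith [h3.1]

/-- for `w = 4` or an odd prime, at most one prime of `Q` divides `w`. -/
lemma sum_dvd_w (Q : Finset ℕ) (hQ : ∀ q ∈ Q, q.Prime) (w : ℕ) (hw : w = 4 ∨ (w.Prime ∧ w ≠ 2)) :
    ∑ q ∈ Q, 1 / (q : ℝ) - 1 ≤ ∑ q ∈ Q.filter (fun q => ¬ q ∣ w), 1 / (q : ℝ) := by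
  rw [← Finset.sum_filter_add_sum_filter_not Q (fun q => q ∣ w)]
  have h1 : ∑ q ∈ Q.filter (fun q => q ∣ w), 1 / (q : ℝ) ≤ 1 := by
    have h2 : Q.filter (fun q => q ∣ w) ⊆ {if w = 4 then 2 else w} := by
      intro q hq
      rw [Finset.mem_filter] at hq
      rw [Finset.mem_singleton]
      have hqp := hQ q hq.1
      rcases hw with rfl | ⟨hw1, hw2⟩
      · rw [if_pos rfl]
        have : q ∣ 2 ^ 2 := by simpa using hq.2
        exact (Nat.prime_dvd_prime_iff_eq hqp Nat.prime_two).mp (hqp.dvd_of_dvd_pow this)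
      · have hw4 : w ≠ 4 := by
          rintro rfl
          revert hw1; decide
        rw [if_neg hw4]
        exact (Nat.prime_dvd_prime_iff_eq hqp hw1).mp hq.2
    calc ∑ q ∈ Q.filter (fun q => q ∣ w), 1 / (q : ℝ) ≤ ∑ q ∈ {if w = 4 then 2 else w}, 1 / ((q : ℕ) : ℝ) :=
          Finset.sum_le_sum_of_subset_of_nonneg h2 fun q _ _ => by positivity
      _ ≤ 1 := by
          rw [Finset.sum_singleton]
          have : (1 : ℝ) ≤ ((if w = 4 then 2 else w : ℕ) : ℝ) := by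
            have : 1 ≤ (if w = 4 then 2 else w) := by
              split_ifs
              · norm_num
              · rcases hw with h | h
                · exact absurd h (by assumption)
                · exact h.1.one_le
            exact_mod_cast this
          rw [div_le_one (by linarith)]
          exact this
  linarith

/-- integers with few exact divisors, divisible by `w^k` -/
lemma FX_dvd (Q : Finset ℕ) (hQ : ∀ q ∈ Q, q.Prime) (X J k w : ℕ) (hw : 0 < w) :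
    ((FX Q X J).filter (w ^ k ∣ ·)).card ≤
      (FX (Q.filter (fun q => ¬ q ∣ w)) (X / w ^ k) J).card := by
  have hwk : 0 < w ^ k := pow_pos hw k
  have h : (FX Q X J).filter (w ^ k ∣ ·) ⊆
      (FX (Q.filter (fun q => ¬ q ∣ w)) (X / w ^ k) J).image (w ^ k * ·) := by
    intro n hn
    unfold FX at hn
    simp only [Finset.mem_filter, Finset.mem_Ioc] at hn
    obtain ⟨⟨⟨hn0, hnX⟩, hnJ⟩, r, rfl⟩ := hn
    rw [Finset.mem_image]
    refine ⟨r, ?_, rfl⟩
    unfold FX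
    rw [Finset.mem_filter, Finset.mem_Ioc]
    refine ⟨⟨Nat.pos_of_mul_pos_left hn0, ?_⟩, lt_of_le_of_lt (Finset.card_le_card ?_) hnJ⟩
    · rw [Nat.le_div_iff_mul_le hwk, mul_comm]; exact hnX
    · intro q hq
      rw [mem_ex, Finset.mem_filter] at hq
      obtain ⟨⟨hqQ, hqw⟩, hqr, hqr2⟩ := hq
      have hqp := hQ q hqQ
      rw [mem_ex]
      refine ⟨hqQ, Dvd.dvd.mul_left hqr _, fun h2 => hqr2 ?_⟩
      have hcop : (q ^ 2).Coprime (w ^ k) :=
        Nat.Coprime.pow _ _ (hqp.coprime_iff_not_dvd.mpr hqw)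
      exact hcop.dvd_of_dvd_mul_left h2
  exact (Finset.card_le_card h).trans Finset.card_image_le

lemma log_three_lb : 1.05 < Real.log 3 := by
  rw [Real.lt_log_iff_exp_lt (by norm_num)]
  have h1 : Real.exp 1.05 = Real.exp 1 * Real.exp 0.05 := by
    rw [← Real.exp_add]; norm_num
  have h2 : Real.exp 0.05 ≤ 1 / 0.95 := by
    have h3 := Real.add_one_le_exp (-0.05 : ℝ)
    rw [Real.exp_neg] at h3
    rw [le_div_iff₀ (by norm_num)]
    have h4 := Real.exp_pos (0.05 : ℝ)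
    have h5 : Real.exp 0.05 * (-0.05 + 1) ≤ Real.exp 0.05 * (Real.exp 0.05)⁻¹ :=
      mul_le_mul_of_nonneg_left h3 h4.le
    rw [mul_inv_cancel₀ h4.ne'] at h5
    linarith
  have h3 := Real.exp_one_lt_d9
  rw [h1]
  have h4 := Real.exp_pos (0.05 : ℝ)
  nlinarith [Real.exp_pos (1 : ℝ)]

end Pool.Agent.H93
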