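import Pool.Agent.H93.UpperC

/-!
Upper bound for the number of non-arithmetic integers (helper file).
-/

namespace Pool.Agent.H93

open Finset Filter Topology

lemma sum_pow_recip (W k b : ℕ) (hW : 2 ≤ W) (hk : 2 ≤ k) (hb : W ≤ b) :
    ∑ w ∈ Ico W b, (1 : ℝ) / (w : ℝ) ^ k ≤ 2 / (W : ℝ) ^ (k - 1) := by
  have hWr : (2 : ℝ) ≤ W := by exact_mod_cast hW
  have h2 : ∀ w ∈ Ico W b, (1 : ℝ) / (w : ℝ) ^ k ≤ 1 / (W : ℝ) ^ (k - 2) * (1 / (w : ℝ) ^ 2) := by
    intro w hw
    rw [Finset.mem_Ico] at hw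
    have hw0 : (W : ℝ) ≤ w := by exact_mod_cast hw.1
    have hw1 : (0 : ℝ) < w := by linarith
    rw [div_mul_div_comm, mul_one]
    apply div_le_div_of_nonneg_left zero_le_one (by positivity)
    calc (W : ℝ) ^ (k - 2) * (w : ℝ) ^ 2 ≤ (w : ℝ) ^ (k - 2) * (w : ℝ) ^ 2 := by gcongr
      _ = (w : ℝ) ^ k := by rw [← pow_add]; congr 1; omega
  refine (Finset.sum_le_sum h2).trans ?_
  rw [← Finset.mul_sum]
  have h3 : ∑ w ∈ Ico W b, (1 : ℝ) / (w : ℝ) ^ 2 ≤ 2 / W := by
    have h4 : ∀ b : ℕ, W ≤ b → ∑ w ∈ Ico W b, (1 : ℝ) / (w : ℝ) ^ 2 ≤ 1 / ((W : ℝ) - 1) - 1 / ((b : ℝ) - 1) := by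
      intro b hb
      induction b, hb using Nat.le_induction with
      | base => simp
      | succ b hb ih =>
        rw [Finset.sum_Ico_succ_top hb]
        have hbr : (2 : ℝ) ≤ b := by exact_mod_cast hW.trans hb
        have h1 : (1 : ℝ) / (b : ℝ) ^ 2 ≤ 1 / ((b : ℝ) - 1) - 1 / (((b + 1 : ℕ) : ℝ) - 1) := by
          push_cast
          have e : 1 / ((b : ℝ) - 1) - 1 / ((b : ℝ) + 1 - 1) = 1 / (((b : ℝ) - 1) * b) := by
            have : (b : ℝ) - 1 ≠ 0 := by linarith
            have : (b : ℝ) ≠ 0 := by linarith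
            rw [add_sub_cancel_right]
            field_simp
            ring
          rw [e]
          apply one_div_le_one_div_of_le
          · nlinarith
          · nlinarith
        linarith
    have h5 := h4 b hb
    have h6 : 0 ≤ 1 / ((b : ℝ) - 1) := by
      apply div_nonneg zero_le_one
      have : (2 : ℝ) ≤ b := by exact_mod_cast hW.trans hb
      linarith
    have h7 : 1 / ((W : ℝ) - 1) ≤ 2 / W := by
      rw [div_le_div_iff₀ (by linarith) (by linarith)]; linarith
    linarith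
  calc 1 / (W : ℝ) ^ (k - 2) * ∑ w ∈ Ico W b, (1 : ℝ) / (w : ℝ) ^ 2
      ≤ 1 / (W : ℝ) ^ (k - 2) * (2 / W) := by gcongr
    _ = 2 / (W : ℝ) ^ (k - 1) := by
        have : k - 1 = k - 2 + 1 := by omega
        rw [this, pow_succ]
        field_simp

/-- the third exceptional set for `p` in the middle range -/
def PW (w : ℕ) : Prop := w = 4 ∨ (w.Prime ∧ w ≠ 2)

open Classical in
noncomputable def C2 (p X : ℕ) : Finset ℕ :=
  (FX (QQ p X) X 24).filter (fun n => ∃ w, PW w ∧ w ^ (p - 1) ∣ n)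

open Classical in
lemma mem_C2 {p X n : ℕ} : n ∈ C2 p X ↔ n ∈ FX (QQ p X) X 24 ∧ ∃ w, PW w ∧ w ^ (p - 1) ∣ n := by
  unfold C2
  rw [Finset.mem_filter]

lemma PW.ge {w : ℕ} (h : PW w) : 3 ≤ w := by
  rcases h with rfl | ⟨h1, h2⟩
  · norm_num
  · have := h1.two_le
    omega

lemma amgm (v L : ℝ) (hv : 0 < v) (hL : 0 ≤ L) : 2.049 * √L ≤ 1.05 * v + L / v := by
  have hs : √L * √L = L := Real.mul_self_sqrt hL
  have e : 1.05 * v + L / v = (1.05 * v ^ 2 + √L * √L) / v := by
    rw [hs]; field_simp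
  rw [e, le_div_iff₀ hv]
  nlinarith [sq_nonneg (2.049 / 2.1 * √L - v), sq_nonneg (√L)]

open Classical in
theorem C2_bound : ∃ C : ℝ, 0 < C ∧ ∃ L0 : ℝ, ∀ X : ℕ, L0 ≤ LL X → ∀ p : ℕ, p.Prime →
    √(LL X) / 8 ≤ p → (p : ℝ) ≤ 3 * √(LL X) →
    ((C2 p X).card : ℝ) ≤ C * (X * Real.exp (-(2.04 * √(LL X)))) := by
  obtain ⟨C, hC, L1, h1⟩ := G_lemma
  obtain ⟨L2, h2⟩ := V_lemma 1 zero_lt_one
  obtain ⟨L3, h3⟩ := eventually_atTop.mp (eventually_L2 0)
  have hev : ∀ᶠ L : ℝ in atTop, 24 * Real.log L ≤ 0.009 * √L ∧ 16 * L ≤ Real.exp L ∧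
      10 * L + 2 ≤ Real.exp L := by
    have a1 : Tendsto (fun x : ℝ => Real.log x / x) atTop (𝓝 0) :=
      Real.isLittleO_log_id_atTop.tendsto_div_nhds_zero
    have a2 := a1.comp Real.tendsto_sqrt_atTop
    have a3 := (Real.tendsto_exp_div_pow_atTop 2).eventually_ge_atTop 1
    filter_upwards [a2.eventually (ge_mem_nhds (show (0 : ℝ) < 0.009 / 48 by norm_num)),
      eventually_ge_atTop 4096, a3] with L hL hL2 hL3
    have hs64 : 64 ≤ √L := by
      rw [show (64 : ℝ) = √4096 by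
        rw [show (4096 : ℝ) = 64 ^ 2 by norm_num, Real.sqrt_sq (by norm_num)]]
      exact Real.sqrt_le_sqrt hL2
    simp only [Function.comp] at hL
    rw [Real.log_sqrt (by linarith), div_le_iff₀ (by linarith)] at hL
    rw [le_div_iff₀ (by positivity), one_mul] at hL3
    refine ⟨by linarith, by nlinarith, by nlinarith⟩
  obtain ⟨L4, h4⟩ := eventually_atTop.mp hev
  refine ⟨6 * C * Real.exp 3 + 2, by positivity, max (max L1 L2) (max L3 L4), fun X hX p hp hpl hpu => ?_⟩
  have hX1 : L1 ≤ LL X := ((le_max_left _ _).trans (le_max_left _ _)).trans hX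
  have hX2 : L2 ≤ LL X := ((le_max_right _ _).trans (le_max_left _ _)).trans hX
  have hX3 : L3 ≤ LL X := ((le_max_left _ _).trans (le_max_right _ _)).trans hX
  have hX4 : L4 ≤ LL X := ((le_max_right _ _).trans (le_max_right _ _)).trans hX
  obtain ⟨hL4096, hLe1, hLe2⟩ := h3 (LL X) hX3
  obtain ⟨hp8, hLp, hs64⟩ := mid_facts hL4096 hpl
  obtain ⟨_, _, hVs⟩ := h2 X hX2 p hp hpl hpu
  obtain ⟨hl1, hl2, hl3⟩ := h4 (LL X) hX4
  set L := LL X with hL
  have hL0 : 0 < L := by linarith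
  have hlog : Real.log X = Real.exp L := log_eq_exp_LL hL0
  have hss : √L * √L = L := Real.mul_self_sqrt hL0.le
  have hX0 : (0 : ℝ) < X := by
    rcases Nat.eq_zero_or_pos X with h0 | h0
    · exfalso
      rw [h0] at hlog
      simp at hlog
      have := Real.exp_pos L
      linarith
    · exact_mod_cast h0
  have hp8' : 8 ≤ p := by exact_mod_cast hp8
  have hQ : ∀ q ∈ QQ p X, q.Prime ∧ q ≤ Zc X := fun q hq => QQ_prime hq
  set W1 : ℕ := ⌊Real.exp (√L)⌋₊ + 1 with hW1
  have hW1a : Real.exp (√L) ≤ W1 := by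
    rw [hW1]; push_cast
    exact (Nat.lt_floor_add_one _).le
  have hW1b : (W1 : ℝ) ≤ Real.exp (√L + 1) := by
    rw [hW1]; push_cast
    have h5 := Nat.floor_le (Real.exp_pos (√L)).le
    have h6 : (1 : ℝ) ≤ Real.exp (√L) := Real.one_le_exp (Real.sqrt_nonneg L)
    rw [Real.exp_add]
    have := Real.exp_one_gt_d9
    nlinarith
  have hW1c : 3 ≤ W1 := by
    have h5 := Real.add_one_le_exp (√L)
    have h6 : (3 : ℝ) ≤ W1 := by linarith
    exact_mod_cast h6
  -- covering
  have hcov : C2 p X ⊆ (PS X (p - 1) W1) ∪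
      ((Ico 3 W1).filter (fun w => PW w)).biUnion fun w => (FX (QQ p X) X 24).filter (w ^ (p - 1) ∣ ·) := by
    intro n hn
    rw [mem_C2] at hn
    obtain ⟨hnF, w, hw, hwn⟩ := hn
    rw [Finset.mem_union]
    rcases le_or_gt W1 w with h | h
    · left
      rw [mem_PS]
      unfold FX at hnF
      rw [Finset.mem_filter, Finset.mem_Ioc] at hnF
      exact ⟨hnF.1, w, h, hwn⟩
    · right
      rw [Finset.mem_biUnion]
      exact ⟨w, Finset.mem_filter.mpr ⟨Finset.mem_Ico.mpr ⟨hw.ge, h⟩, hw⟩, Finset.mem_filter.mpr ⟨hnF, hwn⟩⟩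
  have hcard : ((C2 p X).card : ℝ) ≤ (PS X (p - 1) W1).card +
      ∑ w ∈ (Ico 3 W1).filter (fun w => PW w),
        ((FX ((QQ p X).filter (fun q => ¬ q ∣ w)) (X / w ^ (p - 1)) 24).card : ℝ) := by
    have h5 : (C2 p X).card ≤ (PS X (p - 1) W1).card +
        ∑ w ∈ (Ico 3 W1).filter (fun w => PW w),
        (FX ((QQ p X).filter (fun q => ¬ q ∣ w)) (X / w ^ (p - 1)) 24).card := by
      refine (Finset.card_le_card hcov).trans ((Finset.card_union_le _ _).trans ?_)
      apply Nat.add_le_add_left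
      refine Finset.card_biUnion_le.trans (Finset.sum_le_sum fun w hw => ?_)
      rw [Finset.mem_filter, Finset.mem_Ico] at hw
      exact FX_dvd _ (fun q hq => (hQ q hq).1) X 24 (p - 1) w (by omega)
    exact_mod_cast h5
  -- first part
  have hfirst : ((PS X (p - 1) W1).card : ℝ) ≤ 2 * (X * Real.exp (-(2.04 * √L))) := by
    refine (card_pow_dvd X (p - 1) W1 (by omega) (by omega)).trans ?_
    have h5 : Real.exp (2.04 * √L) ≤ (W1 : ℝ) ^ (p - 1 - 1) := by
      calc Real.exp (2.04 * √L) ≤ Real.exp (((p - 1 - 1 : ℕ) : ℝ) * √L) := by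
            apply Real.exp_le_exp.mpr
            apply mul_le_mul_of_nonneg_right _ (Real.sqrt_nonneg L)
            have : ((p - 1 - 1 : ℕ) : ℝ) = (p : ℝ) - 2 := by
              rw [Nat.sub_sub, Nat.cast_sub (by omega)]; norm_num
            rw [this]; linarith
        _ = (Real.exp (√L)) ^ (p - 1 - 1) := by rw [Real.exp_nat_mul]
        _ ≤ _ := pow_le_pow_left₀ (Real.exp_pos _).le hW1a _
    rw [Real.exp_neg, ← div_eq_mul_inv, ← mul_div_assoc]
    gcongr
  -- second part
  have hsecond : ∑ w ∈ (Ico 3 W1).filter (fun w => PW w),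
      ((FX ((QQ p X).filter (fun q => ¬ q ∣ w)) (X / w ^ (p - 1)) 24).card : ℝ) ≤
      6 * C * Real.exp 3 * (X * Real.exp (-(2.04 * √L))) := by
    have h5 : ∀ w ∈ (Ico 3 W1).filter (fun w => PW w),
        ((FX ((QQ p X).filter (fun q => ¬ q ∣ w)) (X / w ^ (p - 1)) 24).card : ℝ) ≤
        (L ^ 24 * (C * (X * Real.exp (-(L / (p - 1)) + 3)))) * (1 / (w : ℝ) ^ (p - 1)) := by
      intro w hw
      rw [Finset.mem_filter, Finset.mem_Ico] at hw
      obtain ⟨⟨hw3, hwW⟩, hwP⟩ := hw
      have hw0 : (0 : ℝ) < w := by exact_mod_cast (by omega : 0 < w)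
      have hwk0 : (0 : ℝ) < (w : ℝ) ^ (p - 1) := by positivity
      -- size of w^(p-1)
      have hwk : (w : ℝ) ^ (p - 1) ≤ Real.exp (4 * L) := by
        calc (w : ℝ) ^ (p - 1) ≤ (Real.exp (√L + 1)) ^ (p - 1) := by
              apply pow_le_pow_left₀ hw0.le
              refine le_trans ?_ hW1b
              exact_mod_cast hwW.le
          _ = Real.exp (((p - 1 : ℕ) : ℝ) * (√L + 1)) := by rw [Real.exp_nat_mul]
          _ ≤ Real.exp (4 * L) := by
              apply Real.exp_le_exp.mpr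
              have h6 : ((p - 1 : ℕ) : ℝ) ≤ 3 * √L := by
                refine le_trans ?_ hpu
                exact_mod_cast Nat.sub_le _ _
              have h7 : ((p - 1 : ℕ) : ℝ) * (√L + 1) ≤ 3 * √L * (√L + 1) := by
                apply mul_le_mul_of_nonneg_right h6 (by positivity)
              nlinarith
      set R := X / w ^ (p - 1) with hR
      have hRle : (R : ℝ) ≤ X / (w : ℝ) ^ (p - 1) := by
        have := Nat.cast_div_le (α := ℝ) (m := X) (n := w ^ (p - 1))
        push_cast at this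
        exact this
      have hRge : (X : ℝ) / (w : ℝ) ^ (p - 1) - 1 ≤ R := by
        rw [sub_le_iff_le_add, div_le_iff₀ hwk0]
        have hpos : 0 < w ^ (p - 1) := pow_pos (by omega) _
        have := Nat.lt_mul_div_succ X hpos
        have h4 : (X : ℝ) ≤ (w : ℝ) ^ (p - 1) * ((X / w ^ (p - 1) + 1 : ℕ) : ℝ) := by exact_mod_cast this.le
        push_cast at h4
        linarith
      have hlR : Real.log X / 2 ≤ Real.log R := by
        have h6 : Real.exp (Real.log X / 2) ≤ R := by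
          refine le_trans ?_ hRge
          have h7 : Real.exp (Real.log X - 4 * L) ≤ X / (w : ℝ) ^ (p - 1) := by
            rw [Real.exp_sub, Real.exp_log hX0]
            gcongr
          have h8 : Real.exp (Real.log X / 2) * 2 ≤ Real.exp (Real.log X - 4 * L) := by
            have h9 : Real.exp (Real.log X / 2) * 2 ≤ Real.exp (Real.log X / 2) * Real.exp 1 := by
              apply mul_le_mul_of_nonneg_left _ (Real.exp_pos _).le
              have := Real.exp_one_gt_d9
              linarith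
            rw [← Real.exp_add] at h9
            refine h9.trans (Real.exp_le_exp.mpr ?_)
            rw [hlog]
            linarith
          have h9 : 1 ≤ Real.exp (Real.log X / 2) := Real.one_le_exp (by rw [hlog]; positivity)
          linarith
        rw [Real.le_log_iff_exp_le (lt_of_lt_of_le (Real.exp_pos _) h6)]
        exact h6
      have hQw : ∀ q ∈ (QQ p X).filter (fun q => ¬ q ∣ w), q.Prime ∧ q ≤ Zc X :=
        fun q hq => hQ q (Finset.mem_filter.mp hq).1
      have hLinv : 1 / L ≤ 1 := by rw [div_le_one hL0]; linarith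
      have hG := h1 X hX1 _ hQw (1 / L) (by positivity) hLinv R hlR
      have hF := few_ex_card ((QQ p X).filter (fun q => ¬ q ∣ w)) (1 / L) (by positivity) hLinv 24 R
      have hsum := sum_dvd_w (QQ p X) (fun q hq => (hQ q hq).1) w hwP
      rw [abs_le] at hVs
      have h6 : Real.exp (-((1 - 1 / L) * ∑ q ∈ (QQ p X).filter (fun q => ¬ q ∣ w), 1 / (q : ℝ))) ≤
          Real.exp (-(L / (p - 1)) + 3) := by
        apply Real.exp_le_exp.mpr
        set S := ∑ q ∈ (QQ p X).filter (fun q => ¬ q ∣ w), 1 / (q : ℝ) with hS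
        have hSle : S ≤ L := by
          have h7 : S ≤ ∑ q ∈ QQ p X, 1 / (q : ℝ) :=
            Finset.sum_le_sum_of_subset_of_nonneg (Finset.filter_subset _ _) fun q _ _ => by positivity
          nlinarith [hVs.2]
        have h8 : (1 - 1 / L) * S = S - S / L := by ring
        have h9 : S / L ≤ 1 := by rw [div_le_one hL0]; exact hSle
        rw [h8]
        linarith [hVs.1]
      have h7 : ((1 / L) ^ 24)⁻¹ = L ^ 24 := by rw [one_div, inv_pow, inv_inv]
      calc ((FX ((QQ p X).filter (fun q => ¬ q ∣ w)) R 24).card : ℝ)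
          ≤ ((1 / L) ^ 24)⁻¹ * ∑ r ∈ Ioc 0 R, (1 / L) ^ (ex ((QQ p X).filter (fun q => ¬ q ∣ w)) r).card := hF
        _ ≤ L ^ 24 * (C * (R * Real.exp (-(L / (p - 1)) + 3))) := by
            rw [h7]
            apply mul_le_mul_of_nonneg_left _ (by positivity)
            refine hG.trans ?_
            gcongr
        _ ≤ L ^ 24 * (C * ((X / (w : ℝ) ^ (p - 1)) * Real.exp (-(L / (p - 1)) + 3))) := by gcongr
        _ = _ := by ring
    have h6 : ∑ w ∈ (Ico 3 W1).filter (fun w => PW w), (1 : ℝ) / (w : ℝ) ^ (p - 1) ≤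
        6 * Real.exp (-(1.05 * ((p : ℝ) - 1))) := by
      have h7 : ∑ w ∈ (Ico 3 W1).filter (fun w => PW w), (1 : ℝ) / (w : ℝ) ^ (p - 1) ≤
          ∑ w ∈ Ico 3 W1, (1 : ℝ) / (w : ℝ) ^ (p - 1) :=
        Finset.sum_le_sum_of_subset_of_nonneg (Finset.filter_subset _ _) fun w _ _ => by positivity
      have h8 := sum_pow_recip 3 (p - 1) W1 (by norm_num) (by omega) hW1c
      push_cast at h8
      have h9 : (2 : ℝ) / 3 ^ (p - 1 - 1) = 6 / 3 ^ (p - 1) := by
        have : p - 1 = p - 1 - 1 + 1 := by omega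
        conv_rhs => rw [this, pow_succ]
        field_simp
        norm_num
      have h10 : (6 : ℝ) / 3 ^ (p - 1) ≤ 6 * Real.exp (-(1.05 * ((p : ℝ) - 1))) := by
        rw [div_eq_mul_inv]
        apply mul_le_mul_of_nonneg_left _ (by norm_num)
        rw [Real.exp_neg]
        apply inv_anti₀ (Real.exp_pos _)
        have h11 : (3 : ℝ) ^ (p - 1) = Real.exp (((p - 1 : ℕ) : ℝ) * Real.log 3) := by
          rw [Real.exp_nat_mul, Real.exp_log (by norm_num)]
        rw [h11]
        apply Real.exp_le_exp.mpr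
        have h12 : ((p - 1 : ℕ) : ℝ) = (p : ℝ) - 1 := by rw [Nat.cast_sub hp.one_le]; norm_num
        rw [h12]
        have := log_three_lb
        nlinarith
      linarith
    have h7 : L ^ 24 = Real.exp (24 * Real.log L) := by
      rw [show (24 : ℝ) * Real.log L = Real.log (L ^ 24) by rw [Real.log_pow]; norm_num]
      rw [Real.exp_log (by positivity)]
    have hamgm := amgm ((p : ℝ) - 1) L (by linarith) hL0.le
    calc _ ≤ ∑ w ∈ (Ico 3 W1).filter (fun w => PW w),
          (L ^ 24 * (C * (X * Real.exp (-(L / (p - 1)) + 3)))) * (1 / (w : ℝ) ^ (p - 1)) := Finset.sum_le_sum h5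
      _ = (L ^ 24 * (C * (X * Real.exp (-(L / (p - 1)) + 3)))) *
          ∑ w ∈ (Ico 3 W1).filter (fun w => PW w), (1 : ℝ) / (w : ℝ) ^ (p - 1) := by rw [← Finset.mul_sum]
      _ ≤ (L ^ 24 * (C * (X * Real.exp (-(L / (p - 1)) + 3)))) * (6 * Real.exp (-(1.05 * ((p : ℝ) - 1)))) := by
          gcongr
      _ = 6 * C * (X * (Real.exp (24 * Real.log L) * Real.exp (-(L / (p - 1)) + 3) * Real.exp (-(1.05 * ((p : ℝ) - 1))))) := by
          rw [h7]; ring
      _ ≤ 6 * C * (X * (Real.exp (3 + -(2.04 * √L)))) := by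
          rw [← Real.exp_add, ← Real.exp_add]
          have hle : 24 * Real.log L + (-(L / (p - 1)) + 3) + -(1.05 * ((p : ℝ) - 1)) ≤ 3 + -(2.04 * √L) := by
            linarith
          have hle2 := Real.exp_le_exp.mpr hle
          apply mul_le_mul_of_nonneg_left _ (by positivity)
          exact mul_le_mul_of_nonneg_left hle2 hX0.le
      _ = 6 * C * Real.exp 3 * (X * Real.exp (-(2.04 * √L))) := by rw [Real.exp_add]; ring
  calc ((C2 p X).card : ℝ) ≤ 2 * (X * Real.exp (-(2.04 * √L))) + 6 * C * Real.exp 3 * (X * Real.exp (-(2.04 * √L))) :=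
        hcard.trans (add_le_add hfirst hsecond)
    _ = _ := by ring

end Pool.Agent.H93
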