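import Pool.Agent.H93.UpperD

/-!
Upper bound for the number of non-arithmetic integers: covering (helper file).
-/

namespace Pool.Agent.H93

open Finset Filter Topology

/-- the main sets of the covering -/
noncomputable def MainSet (X p : ℕ) : Finset ℕ := (exOdd p X (X / 2 ^ (p - 1))).image (2 ^ (p - 1) * ·)

/-- small primes -/
noncomputable def small (X : ℕ) : Finset ℕ :=
  (range (⌊√(LL X)⌋₊ + 1)).filter (fun p => p.Prime ∧ (p : ℝ) < √(LL X) / 8)

lemma mem_small {X p : ℕ} : p ∈ small X ↔ p.Prime ∧ (p : ℝ) < √(LL X) / 8 := by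
  unfold small
  rw [Finset.mem_filter, Finset.mem_range, Nat.lt_succ_iff, Nat.le_floor_iff (by positivity)]
  constructor
  · exact fun h => h.2
  · intro h
    refine ⟨?_, h⟩
    have : 0 ≤ √(LL X) := Real.sqrt_nonneg _
    linarith [h.2]

open Classical in
lemma covering (X n : ℕ) (hn : n ∈ NA X) (hXL : 64 ≤ √(LL X)) :
    n ∈ PS X (BB X - 1) 2 ∨ n ∈ FX (Q4 X) X (BB X) ∨ n ∈ PS X 2 (2 ^ BB X) ∨
    (∃ p ∈ small X, n ∈ FX (QQ p X) X (BB X)) ∨
    (∃ p ∈ mid X, n ∈ PS X (p - 1) (2 ^ 24)) ∨ (∃ p ∈ mid X, n ∈ C2 p X) ∨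
    (∃ p ∈ mid X, n ∈ MainSet X p) := by
  unfold NA at hn
  rw [Finset.mem_filter, Finset.mem_Ioc] at hn
  obtain ⟨⟨hn0, hnX⟩, hnd⟩ := hn
  have hn0' : n ≠ 0 := by omega
  obtain ⟨r, hr, hrf⟩ := exists_fail hn0' hnd
  have hrd : r ∣ n.divisors.card := by
    by_contra hcon
    rw [Nat.factorization_eq_zero_of_not_dvd hcon] at hrf
    omega
  by_cases hr2 : r = 2
  · subst hr2
    have h1 := ex_lt_two hn0' (Q4 X) (fun q hq => by
      unfold Q4 at hq
      rw [Finset.mem_filter] at hq
      exact hq.2) hrf
    rcases le_or_gt (BB X) (n.factorization 2) with h | h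
    · left
      rw [mem_PS]
      refine ⟨⟨hn0, hnX⟩, 2, le_rfl, ?_⟩
      rw [Nat.prime_two.pow_dvd_iff_le_factorization hn0']
      omega
    · right; left
      unfold FX
      rw [Finset.mem_filter, Finset.mem_Ioc]
      exact ⟨⟨hn0, hnX⟩, by omega⟩
  · have hr3 : 3 ≤ r := by have := hr.two_le; omega
    have hex : (ex (QQ r X) n).card ≤ (sg n).factorization r := ex_lt_of_fail hn0' hr _ (fun q hq => by
      unfold QQ at hq
      rw [mem_Pset] at hq
      exact hq.2)
    rcases lt_or_ge (r : ℝ) (√(LL X) / 8) with hs | hs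
    · rcases le_or_gt (BB X) ((n.divisors.card).factorization r) with h | h
      · right; right; left
        obtain ⟨w, hw1, hw2⟩ := exists_pow_dvd hn0' hr
        rw [mem_PS]
        refine ⟨⟨hn0, hnX⟩, w, ?_, ?_⟩
        · exact (Nat.pow_le_pow_right (by norm_num) h).trans hw1
        · exact (pow_dvd_pow w (by omega)).trans hw2
      · right; right; right; left
        refine ⟨r, mem_small.mpr ⟨hr, hs⟩, ?_⟩
        unfold FX
        rw [Finset.mem_filter, Finset.mem_Ioc]
        exact ⟨⟨hn0, hnX⟩, by omega⟩
    · rcases le_or_gt (r : ℝ) (3 * √(LL X)) with hl | hl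
      · have hmid : r ∈ mid X := mem_mid.mpr ⟨hr, hs, hl⟩
        right; right; right; right
        rcases le_or_gt 24 ((n.divisors.card).factorization r) with h | h
        · left
          obtain ⟨w, hw1, hw2⟩ := exists_pow_dvd hn0' hr
          refine ⟨r, hmid, ?_⟩
          rw [mem_PS]
          refine ⟨⟨hn0, hnX⟩, w, ?_, hw2⟩
          exact (Nat.pow_le_pow_right (by norm_num) h).trans hw1
        · right
          rcases mid_class hn0' hr hr3 hrd with ⟨hf2, hd1⟩ | hw
          · right
            refine ⟨r, hmid, ?_⟩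
            have hexe : (ex (QQ r X) n) = ∅ := by
              rw [← Finset.card_eq_zero]
              omega
            unfold MainSet
            rw [Finset.mem_image]
            refine ⟨n / 2 ^ (r - 1), ?_, ?_⟩
            · unfold exOdd
              rw [Finset.mem_filter, Finset.mem_Ioc]
              have hdvd : 2 ^ (r - 1) ∣ n := by
                rw [← hf2]; exact Nat.ordProj_dvd n 2
              have hn2 : n = 2 ^ (r - 1) * (n / 2 ^ (r - 1)) := (Nat.mul_div_cancel' hdvd).symm
              set m := n / 2 ^ (r - 1) with hm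
              have hm0 : 0 < m := Nat.div_pos (Nat.le_of_dvd hn0 hdvd) (by positivity)
              have hmodd : m % 2 = 1 := by
                by_contra hcon
                have h2m : 2 ∣ m := by omega
                have h3 : 2 ^ (r - 1 + 1) ∣ n := by
                  rw [hn2, pow_succ]
                  exact Nat.mul_dvd_mul_left _ h2m
                rw [Nat.prime_two.pow_dvd_iff_le_factorization hn0'] at h3
                omega
              refine ⟨⟨hm0, Nat.div_le_div_right hnX⟩, hmodd, ?_⟩
              rw [Finset.eq_empty_iff_forall_notMem]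
              intro q hq
              rw [mem_ex] at hq
              obtain ⟨hqQ, hqm, hqm2⟩ := hq
              have hqp := (QQ_prime hqQ).1
              have hq2 : q ≠ 2 := by
                rintro rfl
                omega
              have hmem : q ∈ ex (QQ r X) n := by
                rw [mem_ex]
                refine ⟨hqQ, ?_, ?_⟩
                · rw [hn2]; exact Dvd.dvd.mul_left hqm _
                · intro h3
                  apply hqm2
                  rw [hn2] at h3
                  have hcop : (q ^ 2).Coprime (2 ^ (r - 1)) := by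
                    apply Nat.Coprime.pow
                    rw [Nat.coprime_primes hqp Nat.prime_two]
                    exact hq2
                  exact hcop.dvd_of_dvd_mul_left h3
              rw [hexe] at hmem
              simp at hmem
            · have hdvd : 2 ^ (r - 1) ∣ n := by
                rw [← hf2]; exact Nat.ordProj_dvd n 2
              exact Nat.mul_div_cancel' hdvd
          · left
            refine ⟨r, hmid, ?_⟩
            rw [mem_C2]
            refine ⟨?_, hw⟩
            unfold FX
            rw [Finset.mem_filter, Finset.mem_Ioc]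
            exact ⟨⟨hn0, hnX⟩, by omega⟩
      · left
        obtain ⟨q, hq, hqd, hqn⟩ := exists_exponent hn0' hr hrd
        rw [mem_PS]
        refine ⟨⟨hn0, hnX⟩, q, hq.two_le, ?_⟩
        refine (pow_dvd_pow q ?_).trans hqn
        have : ⌊3 * √(LL X)⌋₊ < r := by
          rw [Nat.floor_lt (by positivity)]
          exact hl
        unfold BB
        omega

lemma sqrt_le_exp_small (s : ℝ) (hs : 0 ≤ s) : (3 * s + 1) * Real.exp (-(2.04 * s)) ≤ 301 * Real.exp (-(2.03 * s)) := by
  have h1 : s ≤ 100 * Real.exp (0.01 * s) := by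
    have := Real.add_one_le_exp (0.01 * s)
    linarith
  have h2 : (1 : ℝ) ≤ Real.exp (0.01 * s) := Real.one_le_exp (by positivity)
  have h3 : Real.exp (-(2.03 * s)) = Real.exp (0.01 * s) * Real.exp (-(2.04 * s)) := by
    rw [← Real.exp_add]; congr 1; ring
  rw [h3, ← mul_assoc]
  apply mul_le_mul_of_nonneg_right _ (Real.exp_pos _).le
  linarith

lemma two_pow_bound (s : ℝ) (hs : 0 ≤ s) (k : ℕ) (A : ℝ) (hk : 3 * s - A ≤ k) :
    ((2 : ℝ) ^ k)⁻¹ ≤ (2 : ℝ) ^ A * Real.exp (-(2.05 * s)) := by
  have h1 : (2 : ℝ) ^ (3 * s - A) ≤ (2 : ℝ) ^ (k : ℝ) :=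
    Real.rpow_le_rpow_of_exponent_le (by norm_num) hk
  rw [Real.rpow_natCast] at h1
  have h2 : ((2 : ℝ) ^ k)⁻¹ ≤ ((2 : ℝ) ^ (3 * s - A))⁻¹ := by
    apply inv_anti₀ (by positivity) h1
  refine h2.trans ?_
  rw [Real.rpow_sub (by norm_num), inv_div, div_eq_mul_inv]
  apply mul_le_mul_of_nonneg_left _ (by positivity)
  rw [← Real.rpow_neg (by norm_num), Real.rpow_def_of_pos (by norm_num)]
  apply Real.exp_le_exp.mpr
  have := Real.log_two_gt_d9
  nlinarith

end Pool.Agent.H93
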