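import Pool.Agent.H93.Params

/-!
The sieving product for primes `≡ -1 mod p` (helper file).
-/

namespace Pool.Agent.H93

open Finset Filter Topology

lemma sum_Pset_sq : ∃ C : ℝ, 0 < C ∧ ∀ p : ℕ, 2 ≤ p → ∀ K : ℕ,
    ∑ q ∈ Pset p 0 K, (1 / (q : ℝ)) ^ 2 ≤ C / (p : ℝ) ^ 2 := by
  have hs : Summable (fun n : ℕ => 1 / (n : ℝ) ^ 2) := Real.summable_one_div_nat_pow.mpr (by norm_num)
  set T := ∑' n : ℕ, 1 / (n : ℝ) ^ 2 with hT
  have hT0 : 0 ≤ T := tsum_nonneg fun n => by positivity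
  refine ⟨4 * (T + 1), by positivity, fun p hp K => ?_⟩
  have hpr : (2 : ℝ) ≤ p := by exact_mod_cast hp
  have h1 : ∑ q ∈ Pset p 0 K, (1 / (q : ℝ)) ^ 2 ≤
      ∑ q ∈ Pset p 0 K, 4 / (p : ℝ) ^ 2 * (1 / (((q + 1) / p : ℕ) : ℝ) ^ 2) := by
    refine Finset.sum_le_sum fun q hq => ?_
    rw [mem_Pset, neg_one_iff] at hq
    obtain ⟨j, hj⟩ := hq.2.2
    have hq0 : (0 : ℝ) < q := by exact_mod_cast hq.1.1
    have hj0 : 0 < j := by
      rcases Nat.eq_zero_or_pos j with rfl | h
      · simp at hj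
      · exact h
    have hjr : (0 : ℝ) < j := by exact_mod_cast hj0
    have e : (q + 1) / p = j := by rw [hj]; exact Nat.mul_div_cancel_left j (by omega)
    rw [e]
    have hqr : (q : ℝ) + 1 = p * j := by exact_mod_cast hj
    have e2 : 4 / (p : ℝ) ^ 2 * (1 / (j : ℝ) ^ 2) = (2 / (p * j)) ^ 2 := by
      field_simp
      norm_num
    rw [e2, ← hqr]
    apply pow_le_pow_left₀ (by positivity)
    rw [div_le_div_iff₀ hq0 (by linarith)]
    have : (1 : ℝ) ≤ q := by exact_mod_cast hq.1.1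
    linarith
  refine h1.trans ?_
  rw [← Finset.mul_sum]
  have h2 : ∑ q ∈ Pset p 0 K, (1 : ℝ) / (((q + 1) / p : ℕ) : ℝ) ^ 2 =
      ∑ j ∈ (Pset p 0 K).image (fun q => (q + 1) / p), (1 : ℝ) / (j : ℝ) ^ 2 := by
    rw [Finset.sum_image]
    intro a ha b hb hab
    simp only [Finset.mem_coe, mem_Pset, neg_one_iff] at ha hb
    obtain ⟨j, hj⟩ := ha.2.2
    obtain ⟨k, hk⟩ := hb.2.2
    have ea : (a + 1) / p = j := by rw [hj]; exact Nat.mul_div_cancel_left j (by omega)
    have eb : (b + 1) / p = k := by rw [hk]; exact Nat.mul_div_cancel_left k (by omega)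
    have hjk : j = k := by
      have := hab
      simp only at this
      rw [ea, eb] at this
      exact this
    subst hjk
    omega
  rw [h2]
  have h3 : ∑ j ∈ (Pset p 0 K).image (fun q => (q + 1) / p), (1 : ℝ) / (j : ℝ) ^ 2 ≤ T :=
    hs.sum_le_tsum _ fun j _ => by positivity
  calc 4 / (p : ℝ) ^ 2 * ∑ j ∈ (Pset p 0 K).image (fun q => (q + 1) / p), (1 : ℝ) / (j : ℝ) ^ 2
      ≤ 4 / (p : ℝ) ^ 2 * (T + 1) := by
        apply mul_le_mul_of_nonneg_left (by linarith) (by positivity)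
    _ = _ := by ring

/-- bounds for the cut -/
lemma Zc_facts : ∃ L0 : ℝ, 100 ≤ L0 ∧ ∀ X : ℕ, L0 ≤ LL X →
    3 ≤ Zc X ∧ Real.log (Real.log (Zc X)) ≤ LL X ∧
    LL X - 3 * Real.log (LL X) - 1 ≤ Real.log (Real.log (Zc X)) ∧
    (∀ p : ℕ, (p : ℝ) ≤ 3 * √(LL X) → E (p ^ 7) ≤ Zc X) ∧ Zc X ≤ X := by
  obtain ⟨L1, hL1⟩ := eventually_atTop.mp eventually_L
  refine ⟨max L1 100, le_max_right _ _, fun X hX => ?_⟩
  obtain ⟨hL100, hLe1, hLe2⟩ := hL1 (LL X) ((le_max_left _ _).trans hX)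
  set L := LL X with hL
  have hL0 : 0 < L := by linarith
  have hlog : Real.log X = Real.exp L := log_eq_exp_LL hL0
  set w : ℝ := Real.log X / L ^ 3 with hw
  have hw4 : 200 ≤ w := by
    rw [hw, le_div_iff₀ (by positivity), hlog]
    have h3 : 0 < L ^ 3 := by positivity
    have : 200 * L ^ 3 ≤ 2 * L ^ 3 * (1 + 6 * L) := by nlinarith
    linarith
  have hZz : ((Zc X : ℕ) : ℝ) ≤ Real.exp w := Nat.floor_le (Real.exp_pos _).le
  have hZz2 : Real.exp w < (Zc X : ℕ) + 1 := Nat.lt_floor_add_one _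
  have hew : 201 ≤ Real.exp w := by
    have := Real.add_one_le_exp w
    linarith
  have hZ3 : 3 ≤ Zc X := by
    apply Nat.le_floor
    push_cast
    exact le_trans (by norm_num) hew
  have hZr : (3 : ℝ) ≤ Zc X := by exact_mod_cast hZ3
  have hlZ1 : Real.log (Zc X) ≤ w := by
    rw [Real.log_le_iff_le_exp (by linarith)]
    exact hZz
  have hlZ2 : w / 2 ≤ Real.log (Zc X) := by
    have h1 : Real.exp w / 2 ≤ Zc X := by linarith
    have h2 : Real.log (Real.exp w / 2) ≤ Real.log (Zc X) := Real.log_le_log (by positivity) h1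
    rw [Real.log_div (by positivity) (by norm_num), Real.log_exp] at h2
    have := Real.log_two_lt_d9
    linarith
  have hwX : w ≤ Real.log X := by
    apply div_le_self
    · rw [hlog]; exact (Real.exp_pos _).le
    · exact one_le_pow₀ (by linarith)
  refine ⟨hZ3, ?_, ?_, ?_, ?_⟩
  · rw [hL]
    unfold LL
    apply Real.log_le_log
    · exact Real.log_pos (by linarith)
    · linarith
  · have h1 : Real.log (w / 2) ≤ Real.log (Real.log (Zc X)) := Real.log_le_log (by linarith) hlZ2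
    have h2 : Real.log (w / 2) = L - 3 * Real.log L - Real.log 2 := by
      rw [Real.log_div (by linarith) (by norm_num), hw, Real.log_div (by
        rw [hlog]; exact (Real.exp_pos _).ne') (by positivity), Real.log_pow]
      push_cast
      rfl
    have := Real.log_two_lt_d9
    linarith
  · intro p hp
    apply Nat.floor_mono
    apply Real.exp_le_exp.mpr
    push_cast
    have h1 : (p : ℝ) ^ 7 ≤ (3 * √L) ^ 7 := pow_le_pow_left₀ (Nat.cast_nonneg p) hp 7
    have h2 : (3 * √L) ^ 7 ≤ 2187 * L ^ 4 := by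
      have hs : √L ≤ L := by
        rw [Real.sqrt_le_left hL0.le]
        nlinarith
      have hs2 : √L ^ 2 = L := Real.sq_sqrt hL0.le
      have e : (3 * √L) ^ 7 = 2187 * ((√L ^ 2) ^ 3 * √L) := by ring
      rw [e, hs2]
      have : L ^ 4 = L ^ 3 * L := by ring
      rw [this]
      gcongr
    rw [le_div_iff₀ (by positivity), hlog]
    have h3 : 2187 * L ^ 4 * L ^ 3 ≤ Real.exp L := by
      have : 2187 * L ^ 4 * L ^ 3 = L ^ 7 * 2187 := by ring
      rw [this]
      have : 0 < L ^ 7 := by positivity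
      linarith
    calc (p : ℝ) ^ 7 * L ^ 3 ≤ 2187 * L ^ 4 * L ^ 3 := by
          apply mul_le_mul_of_nonneg_right (h1.trans h2) (by positivity)
      _ ≤ _ := h3
  · have hX0 : (0 : ℝ) < X := by
      rcases Nat.eq_zero_or_pos X with h0 | h0
      · exfalso
        rw [h0] at hlog
        simp at hlog
        have := Real.exp_pos L
        linarith
      · exact_mod_cast h0
    have h1 : ((Zc X : ℕ) : ℝ) ≤ X := by
      refine hZz.trans ?_
      rw [← Real.exp_log hX0]
      exact Real.exp_le_exp.mpr hwX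
    exact_mod_cast h1

/-- the sieving set -/
noncomputable def QQ (p X : ℕ) : Finset ℕ := Pset p 0 (Zc X)

lemma QQ_prime {p X q : ℕ} (h : q ∈ QQ p X) : q.Prime ∧ q ≤ Zc X := by
  unfold QQ at h
  rw [mem_Pset] at h
  exact ⟨h.2.1, h.1.2⟩

/-- the sieving product -/
noncomputable def VV (p X : ℕ) : ℝ := ∏ q ∈ QQ p X, (1 - 1 / (q : ℝ))

theorem V_lemma (ε : ℝ) (hε : 0 < ε) : ∃ L0 : ℝ, ∀ X : ℕ, L0 ≤ LL X → ∀ p : ℕ, p.Prime →
    √(LL X) / 8 ≤ p → (p : ℝ) ≤ 3 * √(LL X) →
    Real.exp (-(LL X / (p - 1)) - ε) ≤ VV p X ∧ VV p X ≤ Real.exp (-(LL X / (p - 1)) + ε) ∧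
    |∑ q ∈ QQ p X, 1 / (q : ℝ) - LL X / (p - 1)| ≤ ε := by
  obtain ⟨C, hC, hsq⟩ := sum_Pset_sq
  obtain ⟨L1, hL100, hZ⟩ := Zc_facts
  obtain ⟨p0, hp0⟩ := mertens_neg_one (ε / 4) (by positivity)
  -- conditions on L
  have hev : ∀ᶠ L : ℝ in atTop, (3 * Real.log L + 1) / (√L / 8 - 1) ≤ ε / 4 ∧
      C / (√L / 8) ^ 2 ≤ ε / 4 ∧ (p0 : ℝ) ≤ √L / 8 := by
    have hs : Tendsto (fun L : ℝ => √L) atTop atTop := Real.tendsto_sqrt_atTop
    have t1 : Tendsto (fun L : ℝ => (3 * Real.log L + 1) / (√L / 8 - 1)) atTop (𝓝 0) := by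
      have a1 : Tendsto (fun x : ℝ => (6 * Real.log x + 1) / (x / 8 - 1)) atTop (𝓝 0) := by
        have b1 : Tendsto (fun x : ℝ => Real.log x / x) atTop (𝓝 0) :=
          Real.isLittleO_log_id_atTop.tendsto_div_nhds_zero
        have b2 : Tendsto (fun x : ℝ => 1 / x) atTop (𝓝 0) := by
          exact tendsto_const_nhds.div_atTop tendsto_id
        have b3 : Tendsto (fun x : ℝ => (6 * (Real.log x / x) + 1 / x) / (1 / 8 - 1 / x)) atTop
            (𝓝 ((6 * 0 + 0) / (1 / 8 - 0))) := by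
          apply Tendsto.div
          · exact (b1.const_mul 6).add b2
          · exact tendsto_const_nhds.sub b2
          · norm_num
        have e : ((6 : ℝ) * 0 + 0) / (1 / 8 - 0) = 0 := by norm_num
        rw [e] at b3
        refine b3.congr' ?_
        filter_upwards [eventually_gt_atTop 8] with x hx
        have hx0 : x ≠ 0 := by linarith
        have hx1 : x / 8 - 1 ≠ 0 := by
          intro h; linarith
        have hx2 : 1 / 8 - 1 / x ≠ 0 := by
          intro h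
          apply hx1
          field_simp at h
          linarith
        rw [div_eq_div_iff hx2 hx1]
        field_simp
      have a2 := a1.comp hs
      refine a2.congr' ?_
      filter_upwards [eventually_gt_atTop 0] with L hL
      simp only [Function.comp]
      have : Real.log (√L) = Real.log L / 2 := Real.log_sqrt hL.le
      rw [this]
      ring
    have t2 : Tendsto (fun L : ℝ => C / (√L / 8) ^ 2) atTop (𝓝 0) := by
      apply tendsto_const_nhds.div_atTop
      apply (tendsto_pow_atTop (n := 2) (by norm_num)).comp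
      exact hs.atTop_div_const (by norm_num)
    have t3 : Tendsto (fun L : ℝ => √L / 8) atTop atTop := hs.atTop_div_const (by norm_num)
    filter_upwards [t1.eventually (ge_mem_nhds (show (0 : ℝ) < ε / 4 by positivity)),
      t2.eventually (ge_mem_nhds (show (0 : ℝ) < ε / 4 by positivity)),
      t3.eventually_ge_atTop (p0 : ℝ)] with L h1 h2 h3
    exact ⟨h1, h2, h3⟩
  obtain ⟨L2, hL2⟩ := eventually_atTop.mp hev
  refine ⟨max (max L1 L2) 256, fun X hX p hp hpl hpu => ?_⟩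
  have hXL1 : L1 ≤ LL X := ((le_max_left _ _).trans (le_max_left _ _)).trans hX
  have hXL2 : L2 ≤ LL X := ((le_max_right _ _).trans (le_max_left _ _)).trans hX
  have hX256 : 256 ≤ LL X := (le_max_right _ _).trans hX
  obtain ⟨hZ3, hZ1, hZ2, hZE, _⟩ := hZ X hXL1
  obtain ⟨c1, c2, c3⟩ := hL2 _ hXL2
  set L := LL X with hL
  have hL0 : 0 < L := by linarith
  have hs16 : 16 ≤ √L := by
    rw [show (16 : ℝ) = √256 by
      rw [show (256 : ℝ) = 16 ^ 2 by norm_num, Real.sqrt_sq (by norm_num)]]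
    exact Real.sqrt_le_sqrt hX256
  have hp2 : (2 : ℝ) ≤ p := by linarith
  have hpp0 : p0 ≤ p := by
    have : (p0 : ℝ) ≤ p := c3.trans hpl
    exact_mod_cast this
  have hM := hp0 p hp hpp0 (Zc X) (hZE p hpu)
  rw [abs_le] at hM
  have hp1 : 0 < (p : ℝ) - 1 := by linarith
  have hd1 : 0 < √L / 8 - 1 := by linarith
  have hlogL : 0 ≤ Real.log L := Real.log_nonneg (by linarith)
  -- compare loglog Zc / (p-1) with L/(p-1)
  have hup : Real.log (Real.log (Zc X)) / ((p : ℝ) - 1) ≤ L / (p - 1) :=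
    div_le_div_of_nonneg_right hZ1 hp1.le
  have hlo : L / ((p : ℝ) - 1) - ε / 4 ≤ Real.log (Real.log (Zc X)) / ((p : ℝ) - 1) := by
    have h1 : (L - 3 * Real.log L - 1) / ((p : ℝ) - 1) ≤ Real.log (Real.log (Zc X)) / ((p : ℝ) - 1) :=
      div_le_div_of_nonneg_right hZ2 hp1.le
    have h2 : (3 * Real.log L + 1) / ((p : ℝ) - 1) ≤ (3 * Real.log L + 1) / (√L / 8 - 1) := by
      apply div_le_div_of_nonneg_left (by linarith) hd1
      linarith
    have h3 : (L - 3 * Real.log L - 1) / ((p : ℝ) - 1) =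
        L / ((p : ℝ) - 1) - (3 * Real.log L + 1) / ((p : ℝ) - 1) := by ring
    linarith
  have hS : |∑ q ∈ QQ p X, 1 / (q : ℝ) - L / (p - 1)| ≤ ε / 2 := by
    unfold QQ
    rw [abs_le]
    constructor <;> linarith [hM.1, hM.2]
  rw [abs_le] at hS
  have hQp : ∀ q ∈ QQ p X, q.Prime := fun q hq => (QQ_prime hq).1
  have hsq' : ∑ q ∈ QQ p X, (1 / (q : ℝ)) ^ 2 ≤ ε / 4 := by
    refine (hsq p hp.two_le _).trans (le_trans ?_ c2)
    apply div_le_div_of_nonneg_left hC.le (by positivity)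
    exact pow_le_pow_left₀ (by positivity) hpl 2
  refine ⟨?_, ?_, ?_⟩
  · refine le_trans ?_ (exp_le_prod _ hQp)
    apply Real.exp_le_exp.mpr
    linarith [hS.2]
  · have h1 := prod_le_exp_neg (QQ p X) hQp 1 zero_le_one le_rfl
    refine h1.trans ?_
    apply Real.exp_le_exp.mpr
    linarith [hS.1]
  · rw [abs_le]
    constructor <;> linarith [hS.1, hS.2]

end Pool.Agent.H93
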